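import Pool.Agent.Lib.MP_4a593f_gt.Q5.Defs
import Pool.Agent.Lib.MP_4a593f_gt.Big.G3
import Pool.Agent.Lib.MP_4a593f_gt.Big.G4

/-! Task Hodge: `Bd n m p C → Bd n m (n-p) C`.

`U f s = σ(s) f(sᶜ)`, `σ(s) = ∏_{a∈s} (-1)^a`: `sg a s * sg a (sᶜ.erase a) = (-1)^a` for `a ∉ s`
gives `U (cr a f) = an a (U f)`, `U (an a f) = cr a (U f)`, hence for
skew `L`: `U (rho L f) = rho L (U f)` (`∑ L_ab an a cr b = -∑ L_ab cr b an a`, the diagonal
vanishes).  `U` preserves norms and maps degree `n-p` to degree `p`. -/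

open scoped BigOperators

namespace HopfQ5

open HopfBig HopfN2 HopfQ4 HopfD8

variable {n m p : ℕ} {c ε : ℝ} {N P : Fin m → Mat n} {ψ : Fk n}

/-- the sign of the star operator -/
private def hsig (s : Finset (Fin n)) : ℝ := ∏ a ∈ s, (-1 : ℝ) ^ a.val

private theorem hsig_sq (s : Finset (Fin n)) : hsig s * hsig s = 1 := by
  rw [hsig, ← Finset.prod_mul_distrib]
  refine Finset.prod_eq_one fun a _ => ?_
  rw [← mul_pow]
  simp

private theorem hsig_insert {a : Fin n} {s : Finset (Fin n)} (h : a ∉ s) :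
    hsig (insert a s) = (-1 : ℝ) ^ a.val * hsig s := by
  rw [hsig, Finset.prod_insert h, hsig]

private theorem pow_sq_one (k : ℕ) : (-1 : ℝ) ^ k * (-1 : ℝ) ^ k = 1 := by
  rw [← mul_pow]
  simp

/-- the two signs -/
private theorem sg_compl (a : Fin n) (s : Finset (Fin n)) :
    sg a sᶜ = (-1 : ℝ) ^ a.val * sg a s := by
  have h1 : (s.filter (· < a)).card + (sᶜ.filter (· < a)).card = a.val := by
    have h2 : (s.filter (· < a)) ∪ (sᶜ.filter (· < a)) = Finset.univ.filter (· < a) := by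
      ext b
      simp only [Finset.mem_union, Finset.mem_filter, Finset.mem_compl, Finset.mem_univ, true_and]
      tauto
    have h3 : Disjoint (s.filter (· < a)) (sᶜ.filter (· < a)) := by
      rw [Finset.disjoint_left]
      intro b hb hb'
      rw [Finset.mem_filter] at hb hb'
      exact (Finset.mem_compl.1 hb'.1) hb.1
    rw [← Finset.card_union_of_disjoint h3, h2]
    have h4 : (Finset.univ.filter (· < a)) = Finset.Iio a := by
      ext b
      simp
    rw [h4, Fin.card_Iio]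
  rw [sg, sg, ← h1, pow_add, mul_comm ((-1 : ℝ) ^ (s.filter (· < a)).card), mul_assoc,
    pow_sq_one, mul_one]

/-- the star operator -/
private noncomputable def hU : Fk n →ₗ[ℝ] Fk n where
  toFun f := WithLp.toLp 2 fun s => hsig s * f sᶜ
  map_add' f g := by
    ext s; simp only [PiLp.add_apply]; ring
  map_smul' r f := by
    ext s; simp only [PiLp.smul_apply, RingHom.id_apply, smul_eq_mul]; ring

private theorem hU_apply (f : Fk n) (s : Finset (Fin n)) : hU f s = hsig s * f sᶜ := rfl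

private theorem hU_an (a : Fin n) (f : Fk n) : hU (an a f) = cr a (hU f) := by
  ext s
  rw [hU_apply, an_apply, cr_apply, hU_apply]
  by_cases h : a ∈ s
  · have h' : a ∉ sᶜ := by simpa using h
    rw [if_neg h', if_pos h]
    have h1 : insert a sᶜ = (s.erase a)ᶜ := by
      ext b
      simp only [Finset.mem_insert, Finset.mem_compl, Finset.mem_erase]
      tauto
    have h2 : hsig s = (-1 : ℝ) ^ a.val * hsig (s.erase a) := by
      rw [← hsig_insert (Finset.notMem_erase a s), Finset.insert_erase h]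
    rw [h1, h2, sg_compl]
    have h3 := pow_sq_one a.val
    linear_combination (hsig (s.erase a) * sg a s * f (s.erase a)ᶜ) * h3
  · have h' : a ∈ sᶜ := by simpa using h
    rw [if_pos h', if_neg h, mul_zero]

private theorem hU_cr (a : Fin n) (f : Fk n) : hU (cr a f) = an a (hU f) := by
  ext s
  rw [hU_apply, cr_apply, an_apply, hU_apply]
  by_cases h : a ∈ s
  · have h' : a ∉ sᶜ := by simpa using h
    rw [if_neg h', if_pos h, mul_zero]
  · have h' : a ∈ sᶜ := by simpa using h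
    rw [if_pos h', if_neg h, sg_compl, hsig_insert h, Finset.compl_insert]
    ring

private theorem rho_hU {L : Mat n} (hL : Skew L) (f : Fk n) : rho L (hU f) = hU (rho L f) := by
  rw [rho_apply, rho_apply]
  simp only [map_sum, map_smul, hU_cr, hU_an, an_cr, smul_sub]
  simp only [Finset.sum_sub_distrib]
  have h1 : ∑ a, ∑ b, L a b • (if a = b then hU f else 0) = 0 := by
    refine Finset.sum_eq_zero fun a _ => Finset.sum_eq_zero fun b _ => ?_
    by_cases h : a = b
    · have h2 : L a b = 0 := by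
        have h3 := hL a b
        rw [← h] at h3 ⊢
        linarith
      rw [h2, zero_smul]
    · rw [if_neg h, smul_zero]
  rw [h1, zero_sub, Finset.sum_comm, ← Finset.sum_neg_distrib]
  refine Finset.sum_congr rfl fun a _ => ?_
  rw [← Finset.sum_neg_distrib]
  refine Finset.sum_congr rfl fun b _ => ?_
  rw [hL a b, neg_smul]

private theorem norm_hU (f : Fk n) : ‖hU f‖ ^ 2 = ‖f‖ ^ 2 := by
  rw [EuclideanSpace.real_norm_sq_eq, EuclideanSpace.real_norm_sq_eq]
  have h1 : ∀ s : Finset (Fin n), (hU f s) ^ 2 = f sᶜ ^ 2 := by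
    intro s
    rw [hU_apply]
    linear_combination f sᶜ ^ 2 * hsig_sq s
  simp only [h1]
  exact Equiv.sum_comp (Function.Involutive.toPerm compl compl_compl)
    (fun s : Finset (Fin n) => f s ^ 2)

private theorem deg_hU (hp : p ≤ n) (h : Deg (n - p) ψ) : Deg p (hU ψ) := by
  intro s hs
  have hle : s.card ≤ n := by simpa using Finset.card_le_univ s
  rw [hU_apply, h sᶜ, mul_zero]
  rw [Finset.card_compl, Fintype.card_fin]
  omega

theorem bd_hodge {C : ℝ} (hp : p ≤ n) (h : Bd n m p C) : Bd n m (n - p) C := by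
  intro N P hb ψ hψ
  have h1 := h N P hb (hU ψ) (deg_hU hp hψ)
  have h2 : ∀ i, ‖rho (N i) (hU ψ)‖ ^ 2 = ‖rho (N i) ψ‖ ^ 2 := fun i => by
    rw [rho_hU (hb.skN i), norm_hU]
  have h3 : ∀ j, ‖rho (P j) (hU ψ)‖ ^ 2 = ‖rho (P j) ψ‖ ^ 2 := fun j => by
    rw [rho_hU (hb.skP j), norm_hU]
  simp only [h2, h3, norm_hU] at h1
  exact h1

private theorem hodge_nonneg (N : Fin m → Mat n) (ψ : Fk n) :
    0 ≤ (∑ i, ip (N i) (N i)) * ‖ψ‖ ^ 2 :=
  mul_nonneg (Finset.sum_nonneg fun _ _ => ip_self_nonneg _) (sq_nonneg _)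

theorem bd_mono {C C' : ℝ} (hC : C ≤ C') (h : Bd n m p C) : Bd n m p C' := by
  intro N P hb ψ hψ
  have h1 := h N P hb ψ hψ
  have h2 := mul_le_mul_of_nonneg_right hC (hodge_nonneg N ψ)
  rw [mul_assoc] at h1 ⊢
  exact h1.trans h2

/-- limit of constants -/
theorem bd_lim {C : ℝ} (h : ∀ C' : ℝ, C < C' → Bd n m p C') : Bd n m p C := by
  intro N P hb ψ hψ
  have h0 := hodge_nonneg N ψ
  have h1 : ∀ C' : ℝ, C < C' → ∑ i, ‖rho (N i) ψ‖ ^ 2 - ∑ j, ‖rho (P j) ψ‖ ^ 2 ≤
      C' * ((∑ i, ip (N i) (N i)) * ‖ψ‖ ^ 2) := by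
    intro C' hC'
    have h2 := h C' hC' N P hb ψ hψ
    rwa [mul_assoc] at h2
  rw [mul_assoc]
  generalize (∑ i, ip (N i) (N i)) * ‖ψ‖ ^ 2 = t at h0 h1 ⊢
  generalize ∑ i, ‖rho (N i) ψ‖ ^ 2 - ∑ j, ‖rho (P j) ψ‖ ^ 2 = x at h1 ⊢
  refine le_of_forall_pos_le_add fun e he => ?_
  have h3 := h1 (C + e / (t + 1)) (lt_add_of_pos_right _ (by positivity))
  have h4 : e / (t + 1) * t ≤ e := by
    rw [div_mul_eq_mul_div, div_le_iff₀ (by positivity)]
    nlinarith
  nlinarith

/-- trivial constant -/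
theorem bd_triv : Bd n m p p := by
  intro N P hb ψ hψ
  have h1 : ∑ i, ‖rho (N i) ψ‖ ^ 2 ≤ ∑ i, (p : ℝ) * ip (N i) (N i) * ‖ψ‖ ^ 2 :=
    Finset.sum_le_sum fun i _ => rho_bd hψ (hb.skN i)
  have h2 : 0 ≤ ∑ j, ‖rho (P j) ψ‖ ^ 2 := Finset.sum_nonneg fun _ _ => sq_nonneg _
  rw [← Finset.sum_mul, ← Finset.mul_sum] at h1
  linarith

end HopfQ5
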