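import Pool.Agent.Lib.MP_4a593f_gt.Q5.Defs
import Pool.Agent.Lib.MP_4a593f_gt.Q4.Up2

/-! Task L10: `(QN + 2(WN+RN) - 2)² ≤ p(n-p) qN` if `∑|N_i|² = 1`.

Cauchy-Schwarz for `B = (1/2)∑_ab ⟨ρ(X^♯e_ab)ψ, ρ(e_ab)ψ⟩`:
`B² ≤ qN · (1/2)∑_ab ‖ρ(e_ab)ψ‖²` and `(1/2)∑_ab ‖ρ(e_ab)ψ‖² = p(n-p)` (`‖ρ(e_ab)ψ‖²` = mass of the
`s` containing exactly one of `a, b`).  `X^♯ e_ab = ∑_k N_k e_ab N_k`, and up to a global sign
`B = QN - 2 uN + 4 RN`: expand `ρ(N e_ab N)` in `c†_c c_d` and use CAR (all terms reduce to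
`‖ρ_Nψ‖²`, `⟨ρ_{N²}ψ,ψ⟩`, `‖ctr N ψ‖²`); then `WN - RN = 1 - uN` (task L12).
Checked numerically. -/

open scoped BigOperators

namespace HopfQ5

open HopfBig HopfN2 HopfQ4 HopfD8

variable {n m p : ℕ} {c ε : ℝ} {N P : Fin m → Mat n} {ψ : Fk n}

private theorem L10_single_an (b : Fin n) (f : Fk n) :
    anv (Pi.single b (1 : ℝ) : Fin n → ℝ) f = an b f := by
  rw [anv_apply, Finset.sum_eq_single b]
  · rw [Pi.single_eq_same, one_smul]
  · intro a _ hab
    rw [Pi.single_eq_of_ne hab, zero_smul]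
  · intro h; exact absurd (Finset.mem_univ b) h

private theorem L10_single_cr (b : Fin n) (f : Fk n) :
    crv (Pi.single b (1 : ℝ) : Fin n → ℝ) f = cr b f := by
  rw [crv_apply, Finset.sum_eq_single b]
  · rw [Pi.single_eq_same, one_smul]
  · intro a _ hab
    rw [Pi.single_eq_of_ne hab, zero_smul]
  · intro h; exact absurd (Finset.mem_univ b) h

private theorem L10_rho_eab (e f : Fin n) (ψ : Fk n) :
    rho (HopfQ4.eab e f) ψ = cr e (an f ψ) - cr f (an e ψ) := by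
  unfold HopfQ4.eab
  rw [rho_wd, L10_single_an, L10_single_an, L10_single_cr, L10_single_cr]

private theorem L10_eab_apply (e f i j : Fin n) : HopfQ4.eab e f i j =
    (Pi.single e (1 : ℝ) : Fin n → ℝ) i * (Pi.single f (1 : ℝ) : Fin n → ℝ) j -
      (Pi.single f (1 : ℝ) : Fin n → ℝ) i * (Pi.single e (1 : ℝ) : Fin n → ℝ) j := by
  unfold HopfQ4.eab wd
  rw [Matrix.of_apply]
  ring

private theorem L10_sum_single (e : Fin n) (g : Fin n → ℝ) :
    ∑ i, g i * (Pi.single e (1 : ℝ) : Fin n → ℝ) i = g e := by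
  rw [Finset.sum_eq_single e]
  · rw [Pi.single_eq_same, mul_one]
  · intro a _ hab
    rw [Pi.single_eq_of_ne hab, mul_zero]
  · intro h; exact absurd (Finset.mem_univ e) h

private theorem L10_mul3 (A L B : Mat n) (a b : Fin n) :
    (A * L * B) a b = ∑ i, ∑ j, A a i * L i j * B j b := by
  simp only [Matrix.mul_apply, Finset.sum_mul]
  rw [Finset.sum_comm]

private theorem L10_Xs_apply (hs : ∀ i, Skew (N i)) (e f a b : Fin n) :
    Xs N (HopfQ4.eab e f) a b = ∑ k, (N k a f * N k b e - N k a e * N k b f) := by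
  unfold Xs
  rw [Matrix.sum_apply]
  refine Finset.sum_congr rfl fun k _ => ?_
  rw [L10_mul3]
  have h1 : ∀ i j : Fin n, N k a i * HopfQ4.eab e f i j * N k j b =
      (N k a i * (Pi.single e (1 : ℝ) : Fin n → ℝ) i) *
        (N k j b * (Pi.single f (1 : ℝ) : Fin n → ℝ) j) -
      (N k a i * (Pi.single f (1 : ℝ) : Fin n → ℝ) i) *
        (N k j b * (Pi.single e (1 : ℝ) : Fin n → ℝ) j) := by
    intro i j
    rw [L10_eab_apply]; ring
  simp only [h1, Finset.sum_sub_distrib]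
  rw [← Finset.sum_mul_sum, ← Finset.sum_mul_sum, L10_sum_single e (fun i => N k a i),
    L10_sum_single f (fun i => N k a i), L10_sum_single e (fun i => N k i b),
    L10_sum_single f (fun i => N k i b), hs k b f, hs k b e]
  ring

private theorem L10_Xs_swap (hs : ∀ i, Skew (N i)) (e f : Fin n) :
    Xs N (HopfQ4.eab f e) = -Xs N (HopfQ4.eab e f) := by
  ext a b
  rw [Matrix.neg_apply, L10_Xs_apply hs, L10_Xs_apply hs, ← Finset.sum_neg_distrib]
  refine Finset.sum_congr rfl fun k _ => ?_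
  ring

private theorem L10_cs {ι : Type*} [Fintype ι] (x y : ι → Fk n) :
    (∑ i, inner ℝ (x i) (y i)) ^ 2 ≤ (∑ i, ‖x i‖ ^ 2) * ∑ i, ‖y i‖ ^ 2 := by
  have h1 : |∑ i, inner ℝ (x i) (y i)| ≤ ∑ i, ‖x i‖ * ‖y i‖ :=
    (Finset.abs_sum_le_sum_abs _ _).trans
      (Finset.sum_le_sum fun i _ => abs_real_inner_le_norm _ _)
  calc (∑ i, inner ℝ (x i) (y i)) ^ 2 = |∑ i, inner ℝ (x i) (y i)| ^ 2 := (sq_abs _).symm
    _ ≤ (∑ i, ‖x i‖ * ‖y i‖) ^ 2 := pow_le_pow_left₀ (abs_nonneg _) h1 2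
    _ ≤ _ := Finset.sum_mul_sq_le_sq_mul_sq _ _ _

private theorem L10_sum4a (F : Fin n → Fin n → Fin n → Fin n → ℝ) :
    ∑ e, ∑ f, ∑ a, ∑ b, F e f a b = ∑ a, ∑ f, ∑ b, ∑ e, F e f a b := by
  calc ∑ e, ∑ f, ∑ a, ∑ b, F e f a b
      = ∑ e, ∑ a, ∑ f, ∑ b, F e f a b := Finset.sum_congr rfl fun _ _ => Finset.sum_comm
    _ = ∑ a, ∑ e, ∑ f, ∑ b, F e f a b := Finset.sum_comm
    _ = ∑ a, ∑ f, ∑ e, ∑ b, F e f a b := Finset.sum_congr rfl fun _ _ => Finset.sum_comm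
    _ = ∑ a, ∑ f, ∑ b, ∑ e, F e f a b := Finset.sum_congr rfl fun _ _ =>
        Finset.sum_congr rfl fun _ _ => Finset.sum_comm

private theorem L10_sum4b (F : Fin n → Fin n → Fin n → Fin n → ℝ) :
    ∑ e, ∑ f, ∑ a, ∑ b, F e f a b = ∑ a, ∑ e, ∑ b, ∑ f, F e f a b := by
  calc ∑ e, ∑ f, ∑ a, ∑ b, F e f a b
      = ∑ e, ∑ a, ∑ f, ∑ b, F e f a b := Finset.sum_congr rfl fun _ _ => Finset.sum_comm
    _ = ∑ a, ∑ e, ∑ f, ∑ b, F e f a b := Finset.sum_comm
    _ = ∑ a, ∑ e, ∑ b, ∑ f, F e f a b := Finset.sum_congr rfl fun _ _ =>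
        Finset.sum_congr rfl fun _ _ => Finset.sum_comm

private theorem L10_inner_rho (A B : Mat n) (ψ : Fk n) :
    inner ℝ (rho A ψ) (rho B ψ) =
      (∑ b, ∑ d, (A.transpose * B) b d * G5aux.N ψ b d) +
      ∑ a, ∑ b, ∑ c, ∑ d, A a b * B c d * G5aux.K ψ a d b c := by
  rw [rho_apply, rho_apply]
  simp only [sum_inner, real_inner_smul_left]
  simp only [inner_sum, real_inner_smul_right, G5aux.inner_ca]
  have h1 : ∀ a b : Fin n, A a b * ∑ c, ∑ d, B c d *
      ((if a = c then G5aux.N ψ b d else 0) + G5aux.K ψ a d b c) =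
      (∑ d, A a b * B a d * G5aux.N ψ b d) + ∑ c, ∑ d, A a b * B c d * G5aux.K ψ a d b c := by
    intro a b
    simp only [mul_add, Finset.sum_add_distrib, Finset.mul_sum]
    congr 1
    · rw [Finset.sum_eq_single a]
      · refine Finset.sum_congr rfl fun d _ => ?_
        rw [if_pos rfl]; ring
      · intro c _ hc
        refine Finset.sum_eq_zero fun d _ => ?_
        rw [if_neg (Ne.symm hc)]; ring
      · intro h; exact absurd (Finset.mem_univ a) h
    · refine Finset.sum_congr rfl fun c _ => Finset.sum_congr rfl fun d _ => ?_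
      ring
  simp only [h1, Finset.sum_add_distrib]
  congr 1
  rw [Finset.sum_comm]
  refine Finset.sum_congr rfl fun b _ => ?_
  rw [Finset.sum_comm]
  refine Finset.sum_congr rfl fun d _ => ?_
  rw [Matrix.mul_apply, Finset.sum_mul]
  refine Finset.sum_congr rfl fun a _ => ?_
  rw [Matrix.transpose_apply]

private theorem L10_inner_rho_one (A : Mat n) (ψ : Fk n) :
    inner ℝ (rho A ψ) ψ = ∑ b, ∑ d, A b d * G5aux.N ψ b d := by
  rw [rho_apply]
  simp only [sum_inner, real_inner_smul_left]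
  refine Finset.sum_congr rfl fun b _ => Finset.sum_congr rfl fun d _ => ?_
  rw [inner_cr, real_inner_comm]
  rfl

/-- one-matrix identity -/
private theorem L10_one {L : Mat n} (hL : Skew L) (ψ : Fk n) :
    ∑ e, ∑ f, ∑ a, ∑ b, (L a f * L b e - L a e * L b f) *
        ((if a = e then G5aux.N ψ b f else 0) + G5aux.K ψ a f b e) =
      ‖rho L ψ‖ ^ 2 + 2 * inner ℝ (rho (L * L) ψ) ψ + 4 * ‖ctr L ψ‖ ^ 2 := by
  have hLL : L.transpose = -L := by
    ext a b
    rw [Matrix.transpose_apply, Matrix.neg_apply, hL a b]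
  have hdiag : ∀ a, L a a = 0 := by
    intro a
    have := hL a a
    linarith
  -- the contraction term
  have e1 : ∑ e, ∑ f, ∑ a, ∑ b, (L a f * L b e - L a e * L b f) *
        (if a = e then G5aux.N ψ b f else 0) = inner ℝ (rho (L * L) ψ) ψ := by
    rw [L10_inner_rho_one]
    have h1 : ∀ e f : Fin n, ∑ a, ∑ b, (L a f * L b e - L a e * L b f) *
        (if a = e then G5aux.N ψ b f else 0) = ∑ b, L b e * L e f * G5aux.N ψ b f := by
      intro e f
      rw [Finset.sum_eq_single e]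
      · refine Finset.sum_congr rfl fun b _ => ?_
        rw [if_pos rfl, hdiag]; ring
      · intro a _ hae
        refine Finset.sum_eq_zero fun b _ => ?_
        rw [if_neg hae, mul_zero]
      · intro h; exact absurd (Finset.mem_univ e) h
    simp only [h1]
    calc ∑ e, ∑ f, ∑ b, L b e * L e f * G5aux.N ψ b f
        = ∑ f, ∑ e, ∑ b, L b e * L e f * G5aux.N ψ b f := Finset.sum_comm
      _ = ∑ f, ∑ b, ∑ e, L b e * L e f * G5aux.N ψ b f :=
          Finset.sum_congr rfl fun _ _ => Finset.sum_comm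
      _ = ∑ b, ∑ f, ∑ e, L b e * L e f * G5aux.N ψ b f := Finset.sum_comm
      _ = _ := by
          refine Finset.sum_congr rfl fun b _ => Finset.sum_congr rfl fun f _ => ?_
          rw [Matrix.mul_apply, Finset.sum_mul]
  -- the double contraction
  have e2 : ∑ e, ∑ f, ∑ a, ∑ b, L a f * L b e * G5aux.K ψ a f b e = 4 * ‖ctr L ψ‖ ^ 2 := by
    have h1 : ctr L ψ = (1 / 2 : ℝ) • ∑ a, ∑ b, L a b • an b (an a ψ) := by
      simp only [ctr, LinearMap.coe_mk, AddHom.coe_mk, LinearMap.smul_apply,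
        LinearMap.sum_apply, LinearMap.comp_apply]
    rw [← real_inner_self_eq_norm_sq, h1, real_inner_smul_left, real_inner_smul_right,
      G5aux.inner_dsum L (fun a b => an b (an a ψ)), L10_sum4a]
    unfold G5aux.Ph G5aux.K
    rw [← mul_assoc, ← mul_assoc, show (4 : ℝ) * (1 / 2) * (1 / 2) = 1 by norm_num, one_mul]
    refine Finset.sum_congr rfl fun a _ => Finset.sum_congr rfl fun b _ =>
      Finset.sum_congr rfl fun c _ => Finset.sum_congr rfl fun d _ => ?_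
    ring
  have e3 : ∑ e, ∑ f, ∑ a, ∑ b, L a e * L b f * G5aux.K ψ a f b e =
      -(‖rho L ψ‖ ^ 2 + inner ℝ (rho (L * L) ψ) ψ) := by
    rw [← real_inner_self_eq_norm_sq, L10_inner_rho, L10_inner_rho_one, hLL, L10_sum4b]
    have h2 : ∑ b, ∑ d, (-L * L) b d * G5aux.N ψ b d =
        -∑ b, ∑ d, (L * L) b d * G5aux.N ψ b d := by
      rw [← Finset.sum_neg_distrib]
      refine Finset.sum_congr rfl fun b _ => ?_
      rw [← Finset.sum_neg_distrib]
      refine Finset.sum_congr rfl fun d _ => ?_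
      rw [neg_mul, Matrix.neg_apply, neg_mul]
    have h3 : ∑ a, ∑ e, ∑ b, ∑ f, L a e * L b f * G5aux.K ψ a f b e =
        -∑ a, ∑ b, ∑ c, ∑ d, L a b * L c d * G5aux.K ψ a d b c := by
      simp only [← Finset.sum_neg_distrib]
      refine Finset.sum_congr rfl fun a _ => Finset.sum_congr rfl fun b _ =>
        Finset.sum_congr rfl fun c _ => Finset.sum_congr rfl fun d _ => ?_
      rw [G5aux.K_swap2 ψ a d b c]; ring
    rw [h2, h3]
    ring
  have h0 : ∀ e f a b : Fin n, (L a f * L b e - L a e * L b f) *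
        ((if a = e then G5aux.N ψ b f else 0) + G5aux.K ψ a f b e) =
      (L a f * L b e - L a e * L b f) * (if a = e then G5aux.N ψ b f else 0) +
        L a f * L b e * G5aux.K ψ a f b e - L a e * L b f * G5aux.K ψ a f b e := by
    intro e f a b
    ring
  simp only [h0, Finset.sum_add_distrib, Finset.sum_sub_distrib]
  rw [e1, e2, e3]
  ring

private theorem L10_T (hs : ∀ i, Skew (N i)) (ψ : Fk n) (e f : Fin n) :
    inner ℝ (rho (Xs N (HopfQ4.eab e f)) ψ) (cr e (an f ψ)) =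
      ∑ a, ∑ b, (∑ k, (N k a f * N k b e - N k a e * N k b f)) *
        ((if a = e then G5aux.N ψ b f else 0) + G5aux.K ψ a f b e) := by
  rw [rho_apply]
  simp only [sum_inner, real_inner_smul_left, G5aux.inner_ca, L10_Xs_apply hs]

private theorem L10_B (hs : ∀ i, Skew (N i)) (ψ : Fk n) :
    (1 / 2) * ∑ a, ∑ b, inner ℝ (rho (Xs N (HopfQ4.eab a b)) ψ) (rho (HopfQ4.eab a b) ψ) =
      QN ψ N - 2 * uN ψ N + 4 * RN ψ N := by
  have h1 : ∀ e f, inner ℝ (rho (Xs N (HopfQ4.eab e f)) ψ) (rho (HopfQ4.eab e f) ψ) =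
      inner ℝ (rho (Xs N (HopfQ4.eab e f)) ψ) (cr e (an f ψ)) +
        inner ℝ (rho (Xs N (HopfQ4.eab f e)) ψ) (cr f (an e ψ)) := by
    intro e f
    rw [L10_rho_eab, L10_Xs_swap hs e f, map_neg, LinearMap.neg_apply, inner_neg_left,
      inner_sub_right, sub_eq_add_neg]
  simp only [h1, Finset.sum_add_distrib]
  rw [Finset.sum_comm (f := fun e f =>
    inner ℝ (rho (Xs N (HopfQ4.eab f e)) ψ) (cr f (an e ψ)))]
  have h2 : ∑ e, ∑ f, inner ℝ (rho (Xs N (HopfQ4.eab e f)) ψ) (cr e (an f ψ)) =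
      ∑ k, ∑ e, ∑ f, ∑ a, ∑ b, (N k a f * N k b e - N k a e * N k b f) *
        ((if a = e then G5aux.N ψ b f else 0) + G5aux.K ψ a f b e) := by
    simp only [L10_T hs, Finset.sum_mul]
    calc ∑ e, ∑ f, ∑ a, ∑ b, ∑ k, (N k a f * N k b e - N k a e * N k b f) *
          ((if a = e then G5aux.N ψ b f else 0) + G5aux.K ψ a f b e)
        = ∑ e, ∑ f, ∑ a, ∑ k, ∑ b, (N k a f * N k b e - N k a e * N k b f) *
          ((if a = e then G5aux.N ψ b f else 0) + G5aux.K ψ a f b e) :=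
          Finset.sum_congr rfl fun _ _ => Finset.sum_congr rfl fun _ _ =>
            Finset.sum_congr rfl fun _ _ => Finset.sum_comm
      _ = ∑ e, ∑ f, ∑ k, ∑ a, ∑ b, (N k a f * N k b e - N k a e * N k b f) *
          ((if a = e then G5aux.N ψ b f else 0) + G5aux.K ψ a f b e) :=
          Finset.sum_congr rfl fun _ _ => Finset.sum_congr rfl fun _ _ => Finset.sum_comm
      _ = ∑ e, ∑ k, ∑ f, ∑ a, ∑ b, (N k a f * N k b e - N k a e * N k b f) *
          ((if a = e then G5aux.N ψ b f else 0) + G5aux.K ψ a f b e) :=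
          Finset.sum_congr rfl fun _ _ => Finset.sum_comm
      _ = _ := Finset.sum_comm
  have h3 : uN ψ N = -∑ k, inner ℝ (rho (N k * N k) ψ) ψ := by
    unfold uN X1
    rw [map_neg, LinearMap.neg_apply, inner_neg_left, map_sum, LinearMap.sum_apply, sum_inner]
  rw [h2, h3]
  simp only [L10_one (hs _), Finset.sum_add_distrib, ← Finset.mul_sum]
  unfold QN RN
  ring

private theorem L10_anan (hd : Deg p ψ) (hψ : ‖ψ‖ = 1) :
    ∑ a, ∑ b, ‖an b (an a ψ)‖ ^ 2 = (p : ℝ) * ((p : ℝ) - 1) := by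
  rcases p with _ | q
  · have h1 : ∀ a : Fin n, an a ψ = 0 := fun a => Deg.an_zero hd a
    simp [h1]
  · have h1 : ∀ a : Fin n, ∑ b, ‖an b (an a ψ)‖ ^ 2 = (q : ℝ) * ‖an a ψ‖ ^ 2 :=
      fun a => sum_norm_an (Deg.an hd a)
    simp only [h1, ← Finset.mul_sum]
    rw [sum_norm_an hd, hψ]
    push_cast
    ring

theorem sum_eab (hd : Deg p ψ) (hψ : ‖ψ‖ = 1) :
    (1 / 2) * ∑ a, ∑ b, ‖rho (HopfQ4.eab a b) ψ‖ ^ 2 = p * ((n : ℝ) - p) := by
  have h1 : ∀ a b : Fin n, ‖rho (HopfQ4.eab a b) ψ‖ ^ 2 =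
      ‖an a ψ‖ ^ 2 + ‖an b ψ‖ ^ 2 - 2 * (if a = b then ‖an b ψ‖ ^ 2 else 0) -
        2 * ‖an b (an a ψ)‖ ^ 2 := by
    intro a b
    rw [L10_rho_eab, ← real_inner_self_eq_norm_sq, inner_sub_left, inner_sub_right,
      inner_sub_right, G5aux.inner_ca, G5aux.inner_ca, G5aux.inner_ca, G5aux.inner_ca]
    have k1 : G5aux.K ψ a a b b = 0 := by
      have := G5aux.K_swap1 ψ a a b b
      linarith
    have k1' : G5aux.K ψ b b a a = 0 := by
      have := G5aux.K_swap1 ψ b b a a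
      linarith
    have k2 : G5aux.K ψ a b b a = -‖an b (an a ψ)‖ ^ 2 := by
      rw [G5aux.K_swap2]
      unfold G5aux.K
      rw [real_inner_self_eq_norm_sq]
    have k3 : G5aux.K ψ b a a b = -‖an b (an a ψ)‖ ^ 2 := by
      rw [G5aux.K_pair, k2]
    have k4 : ∀ c : Fin n, G5aux.N ψ c c = ‖an c ψ‖ ^ 2 := by
      intro c
      unfold G5aux.N
      rw [real_inner_self_eq_norm_sq]
    rw [k1, k1', k2, k3, if_pos rfl, if_pos rfl, k4, k4]
    by_cases hab : a = b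
    · subst hab
      rw [if_pos rfl, if_pos rfl, k4]
      ring
    · rw [if_neg hab, if_neg (Ne.symm hab), if_neg hab]
      ring
  simp only [h1, Finset.sum_sub_distrib, Finset.sum_add_distrib, ← Finset.mul_sum]
  rw [L10_anan hd hψ]
  have h2 : ∑ a : Fin n, ∑ _b : Fin n, ‖an a ψ‖ ^ 2 = (n : ℝ) * p := by
    simp only [Finset.sum_const, Finset.card_univ, Fintype.card_fin, nsmul_eq_mul,
      ← Finset.mul_sum]
    rw [sum_norm_an hd, hψ]
    ring
  have h3 : ∑ _a : Fin n, ∑ b : Fin n, ‖an b ψ‖ ^ 2 = (n : ℝ) * p := by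
    rw [sum_norm_an hd, hψ]
    simp
  have h4 : ∑ a : Fin n, ∑ b : Fin n, (if a = b then ‖an b ψ‖ ^ 2 else 0) = (p : ℝ) := by
    have h5 : ∀ a : Fin n, ∑ b : Fin n, (if a = b then ‖an b ψ‖ ^ 2 else 0) = ‖an a ψ‖ ^ 2 := by
      intro a
      rw [Finset.sum_ite_eq, if_pos (Finset.mem_univ a)]
    simp only [h5]
    rw [sum_norm_an hd, hψ]
    ring
  rw [h2, h3, h4]
  ring

/-- `B = ± (QN - 2 uN + 4 RN)` -/
theorem sum_Xs_eab (hs : ∀ i, Skew (N i)) (hd : Deg p ψ) :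
    ((1 / 2) * ∑ a, ∑ b, inner ℝ (rho (Xs N (HopfQ4.eab a b)) ψ) (rho (HopfQ4.eab a b) ψ)) ^ 2 =
      (QN ψ N - 2 * uN ψ N + 4 * RN ψ N) ^ 2 := by
  rw [L10_B hs ψ]

theorem L10 (hs : ∀ i, Skew (N i)) (hd : Deg p ψ) (hψ : ‖ψ‖ = 1) :
    (QN ψ N - 2 * uN ψ N + 4 * RN ψ N) ^ 2 ≤ p * ((n : ℝ) - p) * qN ψ N := by
  rw [← L10_B hs ψ, ← sum_eab hd hψ]
  unfold qN
  have h1 := L10_cs (fun i : Fin n × Fin n => rho (Xs N (HopfQ4.eab i.1 i.2)) ψ)
    (fun i : Fin n × Fin n => rho (HopfQ4.eab i.1 i.2) ψ)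
  simp only [Fintype.sum_prod_type] at h1
  nlinarith [h1]

end HopfQ5
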