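import Pool.Agent.Lib.MP_4a593f_gt.Q5.Defs
import Pool.Agent.Lib.MP_4a593f_gt.Q4.Up2

/-! Task L11: `SS + QQ + 4 qN ≤ 2 tr X1² + 4 tau`.  As `Eineq` (Q4/Up2.lean), but keep the
term `qf (Xs N (HopfQ4.eab a b))`: `Uprime`, `L7` for `four_kf`, `trXs`, `trbr`; drop only
`∑ kf ψ (br ..) (br ..) ≥ 0`. -/

open scoped BigOperators

namespace HopfQ5

open HopfBig HopfN2 HopfQ4 HopfD8

variable {n m p : ℕ} {c ε : ℝ} {N P : Fin m → Mat n} {ψ : Fk n}

theorem L11 (hs : ∀ i, Skew (N i)) (hd : Deg p ψ) (hψ : ‖ψ‖ = 1) :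
    SS ψ N N + QQ ψ N N + 4 * qN ψ N ≤ 2 * A1 N + 4 * tau N := by
  have h1 := Uprime hs hd hψ
  have h2 := L7 hs (four_kf hd hψ)
  have h3 := trXs hs
  have h4 := trbr hs
  simp only [Finset.sum_sub_distrib, Finset.sum_add_distrib] at h2
  have hQ : ∑ i, ∑ j, qf ψ (br (N i) (N j)) (br (N i) (N j)) = QQ ψ N N := by
    unfold QQ qf
    exact Finset.sum_congr rfl fun i _ => Finset.sum_congr rfl fun j _ =>
      real_inner_self_eq_norm_sq _
  have hk : 0 ≤ ∑ i, ∑ j, kf ψ (br (N i) (N j)) (br (N i) (N j)) :=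
    Finset.sum_nonneg fun i _ => Finset.sum_nonneg fun j _ => real_inner_self_nonneg
  have hq : ∑ a, ∑ b, qf ψ (Xs N (HopfQ4.eab a b)) (Xs N (HopfQ4.eab a b)) = 2 * qN ψ N := by
    unfold qN qf
    rw [← mul_assoc]
    norm_num
  unfold A1
  rw [hQ, hq] at h2
  linarith

end HopfQ5
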