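import Pool.Agent.Lib.MP_4a593f_gt.Q5.A12

/-! Task L12: `WR`: `‖wdg L ψ‖² - ‖ctr L ψ‖² = |L|²‖ψ‖² + ⟨ρ_{L²}ψ,ψ⟩` (compare
`Up1_kf` in Q4/Up1.lean: `⟨wdg L ψ, wdg L ψ⟩ = ⟨ctr L ψ, ctr L ψ⟩ + |L|²‖ψ‖² + ⟨E_{L²}ψ,ψ⟩`), sum.
`QN_le_u`, `QN_le_2u`: sums of `rho_A1`, `rho_A2p`.
`L13`: `Π_ab = ⟨an b ψ, an a ψ⟩` is symmetric, `tr Π = p`, `tr Π² ≤ p` (`0 ≤ Π ≤ 1`:
`∑_a |∑_b v_b ..|`, i.e. `‖anv v ψ‖² ≤ |v|²`), `uN = tr(X1 Π)`, `tr X1 = 2`; Cauchy-Schwarz for the
trace free parts: `(uN - 2p/n)² ≤ (tr X1² - 4/n)(p - p²/n)`. -/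

open scoped BigOperators

namespace HopfQ5

open HopfBig HopfN2 HopfQ4 HopfD8

variable {n m p : ℕ} {c ε : ℝ} {N P : Fin m → Mat n} {ψ : Fk n}

private theorem L12_inner_rho (A : Mat n) (ψ : Fk n) :
    inner ℝ (rho A ψ) ψ = ∑ b, ∑ d, A b d * G5aux.N ψ b d := by
  rw [rho_apply]
  simp only [sum_inner, real_inner_smul_left]
  refine Finset.sum_congr rfl fun b _ => Finset.sum_congr rfl fun d _ => ?_
  rw [inner_cr, real_inner_comm]
  rfl

private theorem L12_unit (ψ : Fk n) (hψ : ‖ψ‖ = 1) {L : Mat n} (hL : Skew L) :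
    inner ℝ (wdg L ψ) (wdg L ψ) = ip L L - (∑ b, ∑ d, (L.transpose * L) b d * G5aux.N ψ b d) +
      inner ℝ (ctr L ψ) (ctr L ψ) := by
  have e2 : inner ℝ (ctr L ψ) (ctr L ψ) =
      (1 / 4) * G5aux.Ph L (fun a b c d => G5aux.K ψ a b c d) := by
    have h1 : ctr L ψ = (1 / 2 : ℝ) • ∑ a, ∑ b, L a b • an b (an a ψ) := by
      simp only [ctr, LinearMap.coe_mk, AddHom.coe_mk, LinearMap.smul_apply,
        LinearMap.sum_apply, LinearMap.comp_apply]
    rw [h1, real_inner_smul_left, real_inner_smul_right,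
      G5aux.inner_dsum L (fun a b => an b (an a ψ))]
    have : (fun a b c d => inner ℝ (an b (an a ψ)) (an d (an c ψ))) =
        (fun a b c d => G5aux.K ψ a b c d) := rfl
    rw [this]; ring
  have e3 : inner ℝ (wdg L ψ) (wdg L ψ) = (1 / 4) *
      (G5aux.Ph L (fun a b c d => (if a = c then (if b = d then 1 else 0) else 0))
      - G5aux.Ph L (fun a b c d => (if b = c then (if a = d then 1 else 0) else 0))
      - G5aux.Ph L (fun a b c d => (if a = c then G5aux.N ψ b d else 0))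
      + G5aux.Ph L (fun a b c d => (if b = c then G5aux.N ψ a d else 0))
      + G5aux.Ph L (fun a b c d => (if a = d then G5aux.N ψ b c else 0))
      - G5aux.Ph L (fun a b c d => (if b = d then G5aux.N ψ a c else 0))
      + G5aux.Ph L (fun a b c d => G5aux.K ψ a b c d)) := by
    have h1 : wdg L ψ = (1 / 2 : ℝ) • ∑ a, ∑ b, L a b • cr a (cr b ψ) := by
      simp only [wdg, LinearMap.coe_mk, AddHom.coe_mk, LinearMap.smul_apply,
        LinearMap.sum_apply, LinearMap.comp_apply]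
    rw [h1, real_inner_smul_left, real_inner_smul_right,
      G5aux.inner_dsum L (fun a b => cr a (cr b ψ))]
    simp only [G5aux.inner_cc ψ hψ]
    rw [← G5aux.Ph_sub, ← G5aux.Ph_sub, ← G5aux.Ph_add, ← G5aux.Ph_add, ← G5aux.Ph_sub,
      ← G5aux.Ph_add]
    ring
  have s1 : G5aux.Ph L (fun a b c d => (if b = c then (if a = d then (1 : ℝ) else 0) else 0)) =
      -G5aux.Ph L (fun a b c d => (if a = c then (if b = d then 1 else 0) else 0)) :=
    G5aux.Ph_swap1 hL (fun a b c d => (if a = c then (if b = d then (1 : ℝ) else 0) else 0))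
  have s2 : G5aux.Ph L (fun a b c d => (if b = c then G5aux.N ψ a d else 0)) =
      -G5aux.Ph L (fun a b c d => (if a = c then G5aux.N ψ b d else 0)) :=
    G5aux.Ph_swap1 hL (fun a b c d => (if a = c then G5aux.N ψ b d else 0))
  have s3 : G5aux.Ph L (fun a b c d => (if a = d then G5aux.N ψ b c else 0)) =
      -G5aux.Ph L (fun a b c d => (if a = c then G5aux.N ψ b d else 0)) :=
    G5aux.Ph_swap2 hL (fun a b c d => (if a = c then G5aux.N ψ b d else 0))
  have s4 : G5aux.Ph L (fun a b c d => (if b = d then G5aux.N ψ a c else 0)) =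
      -G5aux.Ph L (fun a b c d => (if a = d then G5aux.N ψ b c else 0)) :=
    G5aux.Ph_swap1 hL (fun a b c d => (if a = d then G5aux.N ψ b c else 0))
  have e4 : G5aux.Ph L (fun a b c d => (if a = c then (if b = d then (1 : ℝ) else 0) else 0)) =
      2 * ip L L := by
    unfold G5aux.Ph ip
    rw [← mul_assoc, show (2 : ℝ) * (1 / 2) = 1 by norm_num, one_mul]
    refine Finset.sum_congr rfl fun a _ => Finset.sum_congr rfl fun b _ => ?_
    rw [Finset.sum_eq_single a]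
    · rw [Finset.sum_eq_single b]
      · simp
      · intro d _ hd
        simp [Ne.symm hd]
      · intro hb; exact absurd (Finset.mem_univ b) hb
    · intro c _ hc
      simp [Ne.symm hc]
    · intro ha; exact absurd (Finset.mem_univ a) ha
  have e5 : G5aux.Ph L (fun a b c d => (if a = c then G5aux.N ψ b d else 0)) =
      ∑ b, ∑ d, (L.transpose * L) b d * G5aux.N ψ b d := by
    unfold G5aux.Ph
    have h1 : ∀ a b : Fin n, ∑ c, ∑ d, (if a = c then G5aux.N ψ b d else 0) * L a b * L c d =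
        ∑ d, L a b * L a d * G5aux.N ψ b d := by
      intro a b
      rw [Finset.sum_eq_single a]
      · refine Finset.sum_congr rfl fun d _ => ?_
        rw [if_pos rfl]; ring
      · intro c _ hc
        refine Finset.sum_eq_zero fun d _ => ?_
        rw [if_neg (Ne.symm hc)]; ring
      · intro h; exact absurd (Finset.mem_univ a) h
    simp only [h1]
    rw [Finset.sum_comm]
    refine Finset.sum_congr rfl fun b _ => ?_
    rw [Finset.sum_comm]
    refine Finset.sum_congr rfl fun d _ => ?_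
    rw [Matrix.mul_apply, Finset.sum_mul]
    refine Finset.sum_congr rfl fun a _ => ?_
    rw [Matrix.transpose_apply]
  rw [e3, s1, s4, s2, s3, e4, e5, e2]
  ring

private theorem L12_tr {L : Mat n} (hL : Skew L) : L.transpose * L = -(L * L) := by
  have h : L.transpose = -L := by
    ext a b
    rw [Matrix.transpose_apply, Matrix.neg_apply, hL a b]
  rw [h, Matrix.neg_mul]

theorem WR1 {L : Mat n} (hL : Skew L) (ψ : Fk n) :
    ‖wdg L ψ‖ ^ 2 = ‖ctr L ψ‖ ^ 2 + ip L L * ‖ψ‖ ^ 2 - inner ℝ (rho (-(L * L)) ψ) ψ := by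
  by_cases h0 : ψ = 0
  · rw [h0]
    simp
  · have hr : ‖ψ‖ ≠ 0 := norm_ne_zero_iff.2 h0
    obtain ⟨φ, hφ⟩ : ∃ φ : Fk n, φ = ‖ψ‖⁻¹ • ψ := ⟨_, rfl⟩
    have hφ1 : ‖φ‖ = 1 := by
      rw [hφ, norm_smul, norm_inv, norm_norm, inv_mul_cancel₀ hr]
    have hψ : ψ = ‖ψ‖ • φ := by
      rw [hφ, smul_smul, mul_inv_cancel₀ hr, one_smul]
    have h1 := L12_unit φ hφ1 hL
    rw [L12_tr hL, ← L12_inner_rho, real_inner_self_eq_norm_sq, real_inner_self_eq_norm_sq] at h1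
    obtain ⟨r, hrr⟩ : ∃ r : ℝ, r = ‖ψ‖ := ⟨_, rfl⟩
    rw [← hrr] at hψ hr ⊢
    have hr0 : 0 ≤ r := hrr ▸ norm_nonneg ψ
    rw [hψ]
    simp only [map_smul, norm_smul, real_inner_smul_left, real_inner_smul_right, mul_pow]
    rw [Real.norm_eq_abs, abs_of_nonneg hr0, h1]
    ring

private theorem L12_uN (N : Fin m → Mat n) (ψ : Fk n) :
    uN ψ N = ∑ i, inner ℝ (rho (-(N i * N i)) ψ) ψ := by
  unfold uN X1
  rw [← Finset.sum_neg_distrib, map_sum, LinearMap.sum_apply, sum_inner]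

theorem WR (hs : ∀ i, Skew (N i)) (hψ : ‖ψ‖ = 1) (htr : ∑ i, ip (N i) (N i) = 1) :
    WN ψ N - RN ψ N = 1 - uN ψ N := by
  rw [L12_uN]
  unfold WN RN
  rw [← Finset.sum_sub_distrib, ← htr, ← Finset.sum_sub_distrib]
  refine Finset.sum_congr rfl fun i _ => ?_
  rw [WR1 (hs i) ψ, hψ]
  ring

theorem QN_le_u (hs : ∀ i, Skew (N i)) (hd : Deg p ψ) : QN ψ N ≤ p * uN ψ N := by
  rw [L12_uN]
  unfold QN
  rw [Finset.mul_sum]
  exact Finset.sum_le_sum fun i _ => rho_A1 (hs i) hd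

theorem QN_le_2u (hs : ∀ i, Skew (N i)) (hd : Deg p ψ) (hψ : ‖ψ‖ = 1)
    (htr : ∑ i, ip (N i) (N i) = 1) : QN ψ N ≤ p * (2 - uN ψ N) := by
  have h1 : p * (2 - uN ψ N) =
      ∑ i, p * (2 * ip (N i) (N i) * ‖ψ‖ ^ 2 - inner ℝ (rho (-(N i * N i)) ψ) ψ) := by
    rw [L12_uN, ← Finset.mul_sum, Finset.sum_sub_distrib, hψ]
    have : ∑ i, 2 * ip (N i) (N i) * (1 : ℝ) ^ 2 = 2 := by
      have h2 : ∑ i, 2 * ip (N i) (N i) * (1 : ℝ) ^ 2 = 2 * ∑ i, ip (N i) (N i) := by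
        rw [Finset.mul_sum]
        exact Finset.sum_congr rfl fun i _ => by ring
      rw [h2, htr, mul_one]
    rw [this]
  rw [h1]
  unfold QN
  exact Finset.sum_le_sum fun i _ => rho_A2p (hs i) hd

private theorem L12_row (hψ : ‖ψ‖ = 1) (a : Fin n) :
    ∑ b, G5aux.N ψ a b ^ 2 ≤ ‖an a ψ‖ ^ 2 := by
  obtain ⟨v, hv⟩ : ∃ v : Fin n → ℝ, v = fun b => G5aux.N ψ a b := ⟨_, rfl⟩
  have h1 : ∑ b, G5aux.N ψ a b ^ 2 = ∑ b, v b ^ 2 := by rw [hv]
  have h2 : ∑ b, v b ^ 2 = inner ℝ (an a ψ) (anv v ψ) := by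
    rw [anv_apply, inner_sum]
    refine Finset.sum_congr rfl fun b _ => ?_
    rw [real_inner_smul_right]
    have : inner ℝ (an a ψ) (an b ψ) = v b := by rw [hv]; rfl
    rw [this, sq]
  have h3 : ‖anv v ψ‖ ^ 2 ≤ ∑ b, v b ^ 2 := by
    have h4 := norm_anv_crv v ψ
    rw [hψ] at h4
    nlinarith [sq_nonneg ‖crv v ψ‖]
  have h5 : inner ℝ (an a ψ) (anv v ψ) ≤ ‖an a ψ‖ * ‖anv v ψ‖ := real_inner_le_norm _ _
  rw [h1]
  obtain ⟨s, hs⟩ : ∃ s : ℝ, s = ∑ b, v b ^ 2 := ⟨_, rfl⟩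
  rw [← hs] at h2 h3 ⊢
  rw [← h2] at h5
  nlinarith [sq_nonneg (‖an a ψ‖ - ‖anv v ψ‖)]

private theorem L12_tr2 {L : Mat n} (hL : Skew L) : (-(L * L)).trace = 2 * ip L L := by
  rw [← L12_tr hL]
  unfold Matrix.trace ip
  rw [← mul_assoc, show (2 : ℝ) * (1 / 2) = 1 by norm_num, one_mul]
  rw [Finset.sum_comm]
  refine Finset.sum_congr rfl fun i _ => ?_
  rw [Matrix.diag_apply, Matrix.mul_apply]
  refine Finset.sum_congr rfl fun j _ => ?_
  rw [Matrix.transpose_apply]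

private theorem L12_X1_symm (hs : ∀ i, Skew (N i)) (a b : Fin n) : X1 N b a = X1 N a b := by
  unfold X1
  rw [Matrix.neg_apply, Matrix.neg_apply, Matrix.sum_apply, Matrix.sum_apply]
  congr 1
  refine Finset.sum_congr rfl fun i _ => ?_
  rw [Matrix.mul_apply, Matrix.mul_apply]
  refine Finset.sum_congr rfl fun c _ => ?_
  rw [hs i c b, hs i a c]
  ring

theorem L13 (hs : ∀ i, Skew (N i)) (hd : Deg p ψ) (hψ : ‖ψ‖ = 1)
    (htr : ∑ i, ip (N i) (N i) = 1) :
    4 * p * ((n : ℝ) - p) + (n * uN ψ N - 2 * p) ^ 2 ≤ n * p * ((n : ℝ) - p) * A1 N := by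
  have hn : n ≠ 0 := by
    rintro rfl
    simp [ip] at htr
  have hn0 : (0 : ℝ) < n := by
    have : 0 < n := by omega
    exact_mod_cast this
  -- traces
  have t1 : (X1 N).trace = 2 := by
    unfold X1
    rw [← Finset.sum_neg_distrib, Matrix.trace_sum]
    have : ∑ i, (-(N i * N i)).trace = 2 * ∑ i, ip (N i) (N i) := by
      rw [Finset.mul_sum]
      exact Finset.sum_congr rfl fun i _ => L12_tr2 (hs i)
    rw [this, htr, mul_one]
  have t1' : ∑ a, X1 N a a = 2 := t1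
  have t2 : ∑ a, G5aux.N ψ a a = p := by
    have h1 := sum_norm_an hd
    rw [hψ, one_pow, mul_one] at h1
    rw [← h1]
    exact Finset.sum_congr rfl fun a _ => real_inner_self_eq_norm_sq _
  have t3 : ∑ a, ∑ b, G5aux.N ψ a b ^ 2 ≤ p := by
    have h1 := sum_norm_an hd
    rw [hψ, one_pow, mul_one] at h1
    rw [← h1]
    exact Finset.sum_le_sum fun a _ => L12_row hψ a
  have t4 : A1 N = ∑ a, ∑ b, X1 N a b ^ 2 := by
    unfold A1 Matrix.trace
    refine Finset.sum_congr rfl fun a _ => ?_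
    rw [Matrix.diag_apply, Matrix.mul_apply]
    refine Finset.sum_congr rfl fun b _ => ?_
    rw [L12_X1_symm hs a b, sq]
  have t5 : uN ψ N = ∑ a, ∑ b, X1 N a b * G5aux.N ψ a b := L12_inner_rho _ _
  have key : ∀ (A B : Fin n → Fin n → ℝ) (x y : ℝ), ∑ a, ∑ b, (n * A a b - (if a = b then x else 0)) *
      (n * B a b - (if a = b then y else 0)) =
      n ^ 2 * (∑ a, ∑ b, A a b * B a b) - n * y * (∑ a, A a a) - n * x * (∑ a, B a a) +
        n * x * y := by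
    intro A B x y
    have h1 : ∀ a b, (n * A a b - (if a = b then x else 0)) *
      (n * B a b - (if a = b then y else 0)) = n ^ 2 * (A a b * B a b) -
        (if a = b then n * y * A a b else 0) - (if a = b then n * x * B a b else 0) +
        (if a = b then x * y else 0) := by
      intro a b
      split_ifs <;> ring
    simp only [h1, Finset.sum_add_distrib, Finset.sum_sub_distrib, ← Finset.mul_sum,
      Finset.sum_ite_eq, Finset.mem_univ, if_true, Finset.sum_const, Finset.card_univ,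
      Fintype.card_fin, nsmul_eq_mul]
    ring
  have cs : (∑ a, ∑ b, (n * X1 N a b - (if a = b then 2 else 0)) *
      (n * G5aux.N ψ a b - (if a = b then (p : ℝ) else 0))) ^ 2 ≤
      (∑ a, ∑ b, (n * X1 N a b - (if a = b then 2 else 0)) ^ 2) *
      (∑ a, ∑ b, (n * G5aux.N ψ a b - (if a = b then (p : ℝ) else 0)) ^ 2) := by
    rw [← Finset.sum_product', ← Finset.sum_product', ← Finset.sum_product']
    exact Finset.sum_mul_sq_le_sq_mul_sq _ _ _
  have k1 := key (fun a b => X1 N a b) (fun a b => G5aux.N ψ a b) 2 p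
  have k2 := key (fun a b => X1 N a b) (fun a b => X1 N a b) 2 2
  have k3 := key (fun a b => G5aux.N ψ a b) (fun a b => G5aux.N ψ a b) p p
  simp only [← sq] at k2 k3
  rw [k1, k2, k3, ← t5, ← t4, t1', t2] at cs
  obtain ⟨T, hT⟩ : ∃ T : ℝ, T = ∑ a, ∑ b, G5aux.N ψ a b ^ 2 := ⟨_, rfl⟩
  rw [← hT] at cs t3
  have hA : 0 ≤ (n : ℝ) ^ 2 * A1 N - n * 2 * 2 - n * 2 * 2 + n * 2 * 2 := by
    rw [← t4, t1'] at k2
    rw [← k2]
    exact Finset.sum_nonneg fun a _ => Finset.sum_nonneg fun b _ => sq_nonneg _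
  have h1 : (n : ℝ) ^ 2 * (n * uN ψ N - 2 * p) ^ 2 ≤
      (n : ℝ) ^ 2 * ((n * A1 N - 4) * (n * p - p ^ 2)) := by
    have h2 : (n : ℝ) ^ 2 * T - n * p * p - n * p * p + n * p * p ≤
        (n : ℝ) ^ 2 * p - n * p * p := by
      have := mul_le_mul_of_nonneg_left t3 (sq_nonneg (n : ℝ))
      linarith
    have h3 := cs.trans (mul_le_mul_of_nonneg_left h2 hA)
    have e1 : ((n : ℝ) ^ 2 * uN ψ N - n * p * 2 - n * 2 * p + n * 2 * p) ^ 2 =
        (n : ℝ) ^ 2 * (n * uN ψ N - 2 * p) ^ 2 := by ring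
    have e2 : ((n : ℝ) ^ 2 * A1 N - n * 2 * 2 - n * 2 * 2 + n * 2 * 2) *
        ((n : ℝ) ^ 2 * p - n * p * p) = (n : ℝ) ^ 2 * ((n * A1 N - 4) * (n * p - p ^ 2)) := by
      ring
    rw [e1, e2] at h3
    exact h3
  have h4 := le_of_mul_le_mul_left h1 (by positivity)
  linarith

end HopfQ5
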