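import Pool.Agent.Lib.MP_4a593f_gt.Q5.A12
import Pool.Agent.Lib.MP_4a593f_gt.Q4.Cl

/-! Task SB: `‖Ss(2L²)ψ‖² + 4β|L|²‖ρ_Lψ‖² ≤ 4|L|⁴`, `β = 2/(a+b)`.

Let `H = ρ_{-L²}` (symmetric, preserves degree), `t = |L|²`; `Ss(2L²) = -2(H - t)`.
`‖Ss(2L²)ψ‖² = 4‖(H-t)ψ‖² = 4(t² - ⟨H(2t-H)ψ,ψ⟩)`.  With `χ = (2t-H)ψ`, `η = Hψ`
(`χ + η = 2tψ`, degree `p`): `2t⟨H(2t-H)ψ,ψ⟩ = ⟨Hχ,χ⟩ + ⟨(2t-H)η,η⟩ ≥ ‖ρ_Lχ‖²/a + ‖ρ_Lη‖²/b
≥ ‖ρ_L(χ+η)‖²/(a+b) = 4t²‖ρ_Lψ‖²/(a+b)` by the hypotheses.  Divide by `t` (if `t = 0` then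
`L = 0`). -/

open scoped BigOperators

namespace HopfQ5

open HopfBig HopfN2 HopfQ4 HopfD8

variable {n m p : ℕ} {c ε : ℝ} {N P : Fin m → Mat n} {ψ : Fk n}

private theorem SB_symm {S : Mat n} (hS : S.transpose = S) (f g : Fk n) :
    inner ℝ (rho S f) g = inner ℝ f (rho S g) := by
  have h := Ss_symm hS f g
  have e : ∀ x : Fk n, Ss S x = rho S x - (S.trace / 2) • x := fun x => rfl
  rw [e, e, inner_sub_left, inner_sub_right, real_inner_smul_left, real_inner_smul_right] at h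
  linarith

private theorem SB_tr {L : Mat n} (hL : Skew L) : (-(L * L)).transpose = -(L * L) := by
  rw [Matrix.transpose_neg, Matrix.transpose_mul, hL.transpose, Matrix.neg_mul, Matrix.mul_neg,
    neg_neg]

private theorem SB_eq {L : Mat n} (hL : Skew L) (ψ : Fk n) :
    Ss (ac L L) ψ = (2 * ip L L) • ψ - (2 : ℝ) • rho (-(L * L)) ψ := by
  have e : Ss (ac L L) ψ = rho (ac L L) ψ - ((ac L L).trace / 2) • ψ := rfl
  have e1 : ac L L = (-2 : ℝ) • (-(L * L)) := by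
    unfold ac
    rw [smul_neg, neg_smul, neg_neg, two_smul]
  have e2 : (ac L L).trace = -4 * ip L L := by
    rw [ip_eq_trace, hL.transpose, Matrix.neg_mul, Matrix.trace_neg]
    unfold ac
    rw [Matrix.trace_add]
    ring
  rw [e, e2, e1, map_smul, LinearMap.smul_apply]
  module

private theorem SB_expand {L : Mat n} (hL : Skew L) (hψ : ‖ψ‖ = 1) :
    ‖Ss (ac L L) ψ‖ ^ 2 = 4 * ‖rho (-(L * L)) ψ‖ ^ 2
      - 8 * ip L L * inner ℝ (rho (-(L * L)) ψ) ψ + 4 * ip L L ^ 2 := by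
  rw [SB_eq hL, norm_sub_sq_real, norm_smul, norm_smul, real_inner_smul_left,
    real_inner_smul_right, mul_pow, mul_pow, hψ, Real.norm_eq_abs, Real.norm_eq_abs, sq_abs,
    sq_abs, real_inner_comm]
  ring

/-- the value of the form on the vector `2 t ψ - H ψ` -/
private theorem SB_chi {L : Mat n} (hL : Skew L) (ψ : Fk n) :
    inner ℝ (rho (-(L * L)) ((2 * ip L L) • ψ - rho (-(L * L)) ψ))
      ((2 * ip L L) • ψ - rho (-(L * L)) ψ) +
      (2 * ip L L * ‖rho (-(L * L)) ψ‖ ^ 2 -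
        inner ℝ (rho (-(L * L)) (rho (-(L * L)) ψ)) (rho (-(L * L)) ψ)) =
      2 * ip L L * (2 * ip L L * inner ℝ (rho (-(L * L)) ψ) ψ - ‖rho (-(L * L)) ψ‖ ^ 2) := by
  have h := SB_symm (SB_tr hL) (rho (-(L * L)) ψ) ψ
  rw [real_inner_self_eq_norm_sq] at h
  rw [map_sub, map_smul, inner_sub_left, inner_sub_right, inner_sub_right, real_inner_smul_left,
    real_inner_smul_left, real_inner_smul_right, real_inner_smul_right, h,
    real_inner_self_eq_norm_sq]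
  ring

private theorem SB_degchi {L : Mat n} (hd : Deg p ψ) (t : ℝ) :
    Deg p (t • ψ - rho (-(L * L)) ψ) := by
  intro s hs
  have h1 := hd s hs
  have h2 := hd.rho (-(L * L)) s hs
  rw [PiLp.sub_apply, PiLp.smul_apply, h1, h2, smul_zero, sub_zero]

/-- the case `ip L L = 0` -/
private theorem SB_zero {L : Mat n} (hL : Skew L) (ht : ip L L = 0) (ψ : Fk n) :
    rho (-(L * L)) ψ = 0 := by
  have h1 : ∀ χ : Fk n, inner ℝ (rho (-(L * L)) χ) χ = 0 := by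
    intro χ
    obtain ⟨a1, a2⟩ := x_bounds hL χ
    rw [ht, mul_zero, zero_mul] at a2
    exact le_antisymm a2 a1
  have h2 := h1 (ψ + rho (-(L * L)) ψ)
  have h := SB_symm (SB_tr hL) (rho (-(L * L)) ψ) ψ
  rw [map_add, inner_add_left, inner_add_right, inner_add_right, h1, h1, h,
    real_inner_self_eq_norm_sq] at h2
  have h3 : ‖rho (-(L * L)) ψ‖ ^ 2 = 0 := by linarith
  exact norm_eq_zero.1 (pow_eq_zero_iff two_ne_zero |>.1 h3)

private theorem SB_of_zero {L : Mat n} (hL : Skew L) (hψ : ‖ψ‖ = 1) (ht : ip L L = 0) (r : ℝ) :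
    ‖Ss (ac L L) ψ‖ ^ 2 + 4 * r * (ip L L * ‖rho L ψ‖ ^ 2) ≤ 4 * ip L L ^ 2 := by
  rw [SB_expand hL hψ, SB_zero hL ht, ht, norm_zero]
  simp

private theorem SB_of_rho {L : Mat n} (hL : Skew L) (hψ : ‖ψ‖ = 1) (hρ : rho L ψ = 0) (r : ℝ) :
    ‖Ss (ac L L) ψ‖ ^ 2 + 4 * r * (ip L L * ‖rho L ψ‖ ^ 2) ≤ 4 * ip L L ^ 2 := by
  have ht0 := ip_self_nonneg L
  rcases eq_or_lt_of_le ht0 with ht | ht
  · exact SB_of_zero hL hψ ht.symm r
  · rw [SB_expand hL hψ, hρ, norm_zero]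
    have h1 := (x_bounds hL ((2 * ip L L) • ψ - rho (-(L * L)) ψ)).1
    have h2 := (x_bounds hL (rho (-(L * L)) ψ)).2
    have h3 := SB_chi hL ψ
    have h4 : 0 ≤ 2 * ip L L *
        (2 * ip L L * inner ℝ (rho (-(L * L)) ψ) ψ - ‖rho (-(L * L)) ψ‖ ^ 2) := by linarith
    have h5 := nonneg_of_mul_nonneg_right h4 (by positivity)
    linarith

theorem SB_of {L : Mat n} (hL : Skew L) (hd : Deg p ψ) (hψ : ‖ψ‖ = 1) {a b : ℝ} (ha : 0 < a)
    (hb : 0 < b)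
    (H1 : ∀ χ : Fk n, Deg p χ → ‖rho L χ‖ ^ 2 ≤ a * inner ℝ (rho (-(L * L)) χ) χ)
    (H2 : ∀ χ : Fk n, Deg p χ → ‖rho L χ‖ ^ 2 ≤
      b * (2 * ip L L * ‖χ‖ ^ 2 - inner ℝ (rho (-(L * L)) χ) χ)) :
    ‖Ss (ac L L) ψ‖ ^ 2 + 4 * (2 / (a + b)) * (ip L L * ‖rho L ψ‖ ^ 2) ≤ 4 * ip L L ^ 2 := by
  have ht0 := ip_self_nonneg L
  rcases eq_or_lt_of_le ht0 with ht | ht
  · exact SB_of_zero hL hψ ht.symm _
  · rw [SB_expand hL hψ]
    have h1 := H1 _ (SB_degchi (L := L) hd (2 * ip L L))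
    have h2 := H2 _ (hd.rho (-(L * L)))
    have h3 := SB_chi hL ψ
    set x := inner ℝ (rho (-(L * L)) ψ) ψ with hx
    set y := ‖rho (-(L * L)) ψ‖ ^ 2 with hy
    set A := inner ℝ (rho (-(L * L)) ((2 * ip L L) • ψ - rho (-(L * L)) ψ))
      ((2 * ip L L) • ψ - rho (-(L * L)) ψ) with hA
    set B := 2 * ip L L * y - inner ℝ (rho (-(L * L)) (rho (-(L * L)) ψ)) (rho (-(L * L)) ψ)
      with hB
    have h4 : (2 * ip L L) * ‖rho L ψ‖ ≤ ‖rho L ((2 * ip L L) • ψ - rho (-(L * L)) ψ)‖ +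
        ‖rho L (rho (-(L * L)) ψ)‖ := by
      have e : (2 * ip L L) • rho L ψ = rho L ((2 * ip L L) • ψ - rho (-(L * L)) ψ) +
          rho L (rho (-(L * L)) ψ) := by
        rw [map_sub, map_smul, sub_add_cancel]
      have e2 : ‖(2 * ip L L) • rho L ψ‖ = (2 * ip L L) * ‖rho L ψ‖ := by
        rw [norm_smul, Real.norm_eq_abs, abs_of_pos (by positivity)]
      rw [← e2, e]
      exact norm_add_le _ _
    set P := ‖rho L ((2 * ip L L) • ψ - rho (-(L * L)) ψ)‖ with hP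
    set Q := ‖rho L (rho (-(L * L)) ψ)‖ with hQ
    have hP0 : 0 ≤ P := norm_nonneg _
    have hQ0 : 0 ≤ Q := norm_nonneg _
    have h5 : (P + Q) ^ 2 ≤ (a + b) * (A + B) := by
      have k1 : P ^ 2 * b ≤ a * A * b := mul_le_mul_of_nonneg_right h1 hb.le
      have k2 : Q ^ 2 * a ≤ b * B * a := mul_le_mul_of_nonneg_right h2 ha.le
      have k3 : a * b * (P + Q) ^ 2 ≤ a * b * ((a + b) * (A + B)) := by
        have k4 : a * b * (P + Q) ^ 2 = (a + b) * (P ^ 2 * b + Q ^ 2 * a) - (b * P - a * Q) ^ 2 := by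
          ring
        have k5 : (a + b) * (P ^ 2 * b + Q ^ 2 * a) ≤ (a + b) * (a * A * b + b * B * a) :=
          mul_le_mul_of_nonneg_left (by linarith) (by linarith)
        have k6 := sq_nonneg (b * P - a * Q)
        calc a * b * (P + Q) ^ 2 ≤ (a + b) * (a * A * b + b * B * a) := by linarith
          _ = _ := by ring
      exact le_of_mul_le_mul_left k3 (by positivity)
    have h6 : ((2 * ip L L) * ‖rho L ψ‖) ^ 2 ≤ (P + Q) ^ 2 :=
      pow_le_pow_left₀ (by positivity) h4 2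
    have h7 : (2 * ip L L) * (2 * ip L L * ‖rho L ψ‖ ^ 2) ≤
        (2 * ip L L) * ((a + b) * (2 * ip L L * x - y)) := by
      calc (2 * ip L L) * (2 * ip L L * ‖rho L ψ‖ ^ 2) = ((2 * ip L L) * ‖rho L ψ‖) ^ 2 := by ring
        _ ≤ (a + b) * (A + B) := h6.trans h5
        _ = _ := by rw [h3]; ring
    have h8 := le_of_mul_le_mul_left h7 (by positivity : 0 < 2 * ip L L)
    have h9 : 2 / (a + b) * (2 * ip L L * ‖rho L ψ‖ ^ 2) ≤ 2 * (2 * ip L L * x - y) := by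
      rw [div_mul_eq_mul_div, div_le_iff₀ (by linarith)]
      linarith
    have h10 : 4 * (2 / (a + b)) * (ip L L * ‖rho L ψ‖ ^ 2) =
        2 * (2 / (a + b) * (2 * ip L L * ‖rho L ψ‖ ^ 2)) := by ring
    rw [h10]
    linarith

theorem SB_p {L : Mat n} (hL : Skew L) (hp : 0 < p) (hd : Deg p ψ) (hψ : ‖ψ‖ = 1) :
    ‖Ss (ac L L) ψ‖ ^ 2 + 4 * (1 / (p : ℝ)) * (ip L L * ‖rho L ψ‖ ^ 2) ≤ 4 * ip L L ^ 2 := by
  have hp' : (0 : ℝ) < p := by exact_mod_cast hp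
  have h := SB_of hL hd hψ hp' hp' (fun χ hχ => rho_A1 hL hχ) (fun χ hχ => rho_A2p hL hχ)
  have e : (2 : ℝ) / (p + p) = 1 / p := by
    field_simp
    norm_num
  rwa [e] at h

theorem SB_n {L : Mat n} (hL : Skew L) (hn : 0 < n) (hd : Deg p ψ) (hψ : ‖ψ‖ = 1) :
    ‖Ss (ac L L) ψ‖ ^ 2 + 4 * (2 / (n : ℝ)) * (ip L L * ‖rho L ψ‖ ^ 2) ≤ 4 * ip L L ^ 2 := by
  have _ := hn
  by_cases hp : 0 < p ∧ p < n
  · have hp' : (0 : ℝ) < p := by exact_mod_cast hp.1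
    have hpn : (0 : ℝ) < (n : ℝ) - p := by
      have : (p : ℝ) < n := by exact_mod_cast hp.2
      linarith
    have h := SB_of hL hd hψ hp' hpn (fun χ hχ => rho_A1 hL hχ) (fun χ hχ => rho_A2n hL hχ)
    have e : (p : ℝ) + ((n : ℝ) - p) = n := by ring
    rwa [e] at h
  · have hρ : rho L ψ = 0 := by
      have h0 : ‖rho L ψ‖ ^ 2 ≤ 0 := by
        rcases Nat.eq_zero_or_pos p with h | h
        · have h1 := rho_A1 hL hd
          rw [h, Nat.cast_zero, zero_mul] at h1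
          exact h1
        · have h1 : n ≤ p := by
            by_contra h2
            exact hp ⟨h, not_le.1 h2⟩
          have h2 : ((n : ℝ) - p) ≤ 0 := by
            have : (n : ℝ) ≤ p := by exact_mod_cast h1
            linarith
          have h3 := rho_A2n hL hd
          have h4 := (x_bounds hL ψ).2
          exact h3.trans (mul_nonpos_of_nonpos_of_nonneg h2 (by linarith))
      have h1 : ‖rho L ψ‖ ^ 2 = 0 := le_antisymm h0 (sq_nonneg _)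
      exact norm_eq_zero.1 (pow_eq_zero_iff two_ne_zero |>.1 h1)
    exact SB_of_rho hL hψ hρ _

end HopfQ5
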