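import Pool.Agent.Lib.MP_4a593f_gt.Q5.Defs
import Pool.Agent.Lib.MP_4a593f_gt.Q4.Cl

/-! Task SBf: from one `L` to families.

`pair`: for orthogonal `L, M` with `|L| = |M| = 1`, apply `H` to `(L ± M)/√2` and average:
`Ss(ac A A)ψ` for `A = (L±M)/√2` is `(1/2)(T_LL + T_MM) ± T_LM`, `T_LM = Ss (ac L M) ψ`; drop
`‖(T_LL+T_MM)/2‖²`.  General orthogonal pair by scaling (if `L = 0` or `M = 0` trivial).
`SB_fam`: replace `N` by `N'_i = ∑_j O_ij N_j` with `O` orthogonal diagonalising the Gram matrix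
`(⟨N_i,N_j⟩)` (spectral theorem): `SS`, `QN`, `∑|N_i|²` do not change (bilinear forms), the `N'_i`
are orthogonal; then `SS = ∑_i ‖T_ii‖² + ∑_{i≠j} ‖T_ij‖² ≤ 4 (∑x_i)² - 4β ∑_{ij} x_i q_j`. -/

open scoped BigOperators

namespace HopfQ5

open HopfBig HopfN2 HopfQ4 HopfD8

variable {n m p : ℕ} {c ε : ℝ} {N P : Fin m → Mat n} {ψ : Fk n}

private lemma Tadd_left (A B C : Mat n) (ψ : Fk n) :
    Ss (ac (A + B) C) ψ = Ss (ac A C) ψ + Ss (ac B C) ψ := by
  have h : ac (A + B) C = ac A C + ac B C := by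
    unfold ac; rw [Matrix.add_mul, Matrix.mul_add]; abel
  rw [h]
  unfold Ss
  simp only [map_add, Matrix.trace_add, LinearMap.sub_apply, LinearMap.add_apply,
    LinearMap.smul_apply, LinearMap.id_apply, add_div, add_smul]
  abel

private lemma Tsmul_left (r : ℝ) (A C : Mat n) (ψ : Fk n) :
    Ss (ac (r • A) C) ψ = r • Ss (ac A C) ψ := by
  have h : ac (r • A) C = r • ac A C := by
    unfold ac; rw [Matrix.smul_mul, Matrix.mul_smul, smul_add]
  rw [h]
  unfold Ss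
  simp only [map_smul, Matrix.trace_smul, LinearMap.sub_apply,
    LinearMap.smul_apply, LinearMap.id_apply, smul_sub, smul_smul, smul_eq_mul, mul_div_assoc]

private lemma Tsymm (A C : Mat n) (ψ : Fk n) : Ss (ac A C) ψ = Ss (ac C A) ψ := by
  have h : ac A C = ac C A := by unfold ac; abel
  rw [h]

private lemma Tzero_left (C : Mat n) (ψ : Fk n) : Ss (ac 0 C) ψ = 0 := by
  have := Tsmul_left 0 (0 : Mat n) C ψ
  simpa using this

private lemma Tsum_left {m : ℕ} (f : Fin m → Mat n) (C : Mat n) (ψ : Fk n) :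
    Ss (ac (∑ j, f j) C) ψ = ∑ j, Ss (ac (f j) C) ψ := by
  let φ : Mat n →+ Fk n :=
    { toFun := fun A => Ss (ac A C) ψ
      map_zero' := Tzero_left C ψ
      map_add' := fun A B => Tadd_left A B C ψ }
  exact map_sum φ f Finset.univ

private lemma ip_zero_of {L : Mat n} (h : ip L L = 0) : L = 0 := by
  unfold ip at h
  have h1 : ∑ i, ∑ j, L i j * L i j = 0 := by linarith
  have h2 := (Finset.sum_eq_zero_iff_of_nonneg
    (fun i _ => Finset.sum_nonneg fun j _ => mul_self_nonneg (L i j))).1 h1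
  ext i j
  have h3 := h2 i (Finset.mem_univ i)
  have h4 := (Finset.sum_eq_zero_iff_of_nonneg (fun j _ => mul_self_nonneg (L i j))).1 h3
  exact mul_self_eq_zero.1 (h4 j (Finset.mem_univ j))

private lemma par {x y : Fk n} : ‖x + y‖ ^ 2 + ‖x - y‖ ^ 2 = 2 * ‖x‖ ^ 2 + 2 * ‖y‖ ^ 2 := by
  rw [@norm_add_sq_real, @norm_sub_sq_real]; ring

private lemma skew_comb {L M : Mat n} (hL : Skew L) (hM : Skew M) (a b : ℝ) :
    Skew (a • L + b • M) := by
  intro i j
  simp only [Matrix.add_apply, Matrix.smul_apply, smul_eq_mul]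
  rw [hL i j, hM i j]; ring

private lemma Texp (L M : Mat n) (a b : ℝ) (ψ : Fk n) :
    Ss (ac (a • L + b • M) (a • L + b • M)) ψ =
      (a ^ 2 • Ss (ac L L) ψ + b ^ 2 • Ss (ac M M) ψ) + (2 * (a * b)) • Ss (ac L M) ψ := by
  rw [Tadd_left, Tsmul_left, Tsmul_left, Tsymm L, Tsymm M, Tadd_left, Tadd_left, Tsmul_left,
    Tsmul_left, Tsmul_left, Tsmul_left, Tsymm M L]
  module

theorem pair_SB {β : ℝ} (hβ : 0 ≤ β) (H : ∀ L : Mat n, Skew L →
      ‖Ss (ac L L) ψ‖ ^ 2 + 4 * β * (ip L L * ‖rho L ψ‖ ^ 2) ≤ 4 * ip L L ^ 2)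
    {L M : Mat n} (hL : Skew L) (hM : Skew M) (ho : ip L M = 0) :
    ‖Ss (ac L M) ψ‖ ^ 2 + 2 * β * (ip M M * ‖rho L ψ‖ ^ 2 + ip L L * ‖rho M ψ‖ ^ 2) ≤
      4 * (ip L L * ip M M) := by
  rcases (ip_self_nonneg L).eq_or_lt with h0 | hl
  · have hz : L = 0 := ip_zero_of h0.symm
    subst hz
    rw [Tzero_left]
    simp [← h0]
  rcases (ip_self_nonneg M).eq_or_lt with h0 | hm
  · have hz : M = 0 := ip_zero_of h0.symm
    subst hz
    rw [Tsymm, Tzero_left]
    simp [← h0]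
  set l := ip L L with hldef
  set μ := ip M M with hmdef
  have hsl : √l ^ 2 = l := Real.sq_sqrt hl.le
  have hsm : √μ ^ 2 = μ := Real.sq_sqrt hm.le
  have hML : ip M L = 0 := by rw [ip_symm]; exact ho
  have hip : ∀ b : ℝ, b ^ 2 = l → ip (√μ • L + b • M) (√μ • L + b • M) = 2 * (l * μ) := by
    intro b hb
    rw [ip_add_left, ip_add_right, ip_add_right, ip_smul_left, ip_smul_left, ip_smul_left,
      ip_smul_left, ip_smul_right, ip_smul_right, ip_smul_right, ip_smul_right, ho, hML,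
      ← hldef, ← hmdef]
    have : √μ * (√μ * l) + √μ * (b * 0) + (b * (√μ * 0) + b * (b * μ)) =
      √μ ^ 2 * l + b ^ 2 * μ := by ring
    rw [this, hsm, hb]; ring
  have hp := H _ (skew_comb hL hM (√μ) (√l))
  have hn := H _ (skew_comb hL hM (√μ) (-√l))
  rw [hip _ hsl, Texp, hsm, hsl] at hp
  rw [hip _ (by rw [neg_sq]; exact hsl), Texp, hsm, neg_sq, hsl] at hn
  have e1 : (2 * (√μ * -√l)) • Ss (ac L M) ψ = -((2 * (√μ * √l)) • Ss (ac L M) ψ) := by
    rw [← neg_smul]; congr 1; ring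
  rw [e1, ← sub_eq_add_neg] at hn
  have e2 : rho (√μ • L + √l • M) ψ = √μ • rho L ψ + √l • rho M ψ := by
    simp only [map_add, map_smul, LinearMap.add_apply, LinearMap.smul_apply]
  have e3 : rho (√μ • L + (-√l) • M) ψ = √μ • rho L ψ - √l • rho M ψ := by
    rw [map_add, map_smul, map_smul, LinearMap.add_apply, LinearMap.smul_apply,
      LinearMap.smul_apply, neg_smul, sub_eq_add_neg]
  rw [e2] at hp
  rw [e3] at hn
  have p1 := par (x := μ • Ss (ac L L) ψ + l • Ss (ac M M) ψ) (y := (2 * (√μ * √l)) • Ss (ac L M) ψ)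
  have p2 := par (x := √μ • rho L ψ) (y := √l • rho M ψ)
  have n1 : ‖(2 * (√μ * √l)) • Ss (ac L M) ψ‖ ^ 2 = 4 * (l * μ) * ‖Ss (ac L M) ψ‖ ^ 2 := by
    rw [norm_smul, mul_pow, Real.norm_eq_abs, sq_abs, mul_pow, mul_pow, hsm, hsl]; ring
  have n2 : ‖√μ • rho L ψ‖ ^ 2 = μ * ‖rho L ψ‖ ^ 2 := by
    rw [norm_smul, mul_pow, Real.norm_eq_abs, sq_abs, hsm]
  have n3 : ‖√l • rho M ψ‖ ^ 2 = l * ‖rho M ψ‖ ^ 2 := by
    rw [norm_smul, mul_pow, Real.norm_eq_abs, sq_abs, hsl]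
  rw [n1] at p1
  rw [n2, n3] at p2
  have hsq := sq_nonneg ‖μ • Ss (ac L L) ψ + l • Ss (ac M M) ψ‖
  have hlm : 0 < l * μ := mul_pos hl hm
  set X := ‖(μ • Ss (ac L L) ψ + l • Ss (ac M M) ψ) + (2 * (√μ * √l)) • Ss (ac L M) ψ‖ ^ 2
  set Y := ‖(μ • Ss (ac L L) ψ + l • Ss (ac M M) ψ) - (2 * (√μ * √l)) • Ss (ac L M) ψ‖ ^ 2
  set X' := ‖√μ • rho L ψ + √l • rho M ψ‖ ^ 2
  set Y' := ‖√μ • rho L ψ - √l • rho M ψ‖ ^ 2
  have hsum : (l * μ) * (8 * (‖Ss (ac L M) ψ‖ ^ 2) +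
      8 * β * (2 * (μ * ‖rho L ψ‖ ^ 2) + 2 * (l * ‖rho M ψ‖ ^ 2))) ≤
      (l * μ) * (32 * (l * μ)) := by
    have k : 4 * β * (2 * (l * μ) * X') + 4 * β * (2 * (l * μ) * Y') =
      (l * μ) * (8 * β * (X' + Y')) := by ring
    rw [p2] at k
    nlinarith
  have := le_of_mul_le_mul_left hsum hlm
  nlinarith

private lemma orth_sum {m : ℕ} {U : Matrix (Fin m) (Fin m) ℝ} (hU : U * U.transpose = 1)
    (f : Fin m → Fin m → ℝ) :
    ∑ i, ∑ j, ∑ k, U j i * (U k i * f j k) = ∑ j, f j j := by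
  rw [Finset.sum_comm]
  refine Finset.sum_congr rfl fun j _ => ?_
  rw [Finset.sum_comm]
  have h : ∀ k, ∑ i, U j i * (U k i * f j k) = (if j = k then f j k else 0) := by
    intro k
    have h1 := congrFun (congrFun hU j) k
    rw [Matrix.mul_apply] at h1
    simp only [Matrix.transpose_apply, Matrix.one_apply] at h1
    calc ∑ i, U j i * (U k i * f j k) = (∑ i, U j i * U k i) * f j k := by
          rw [Finset.sum_mul]; exact Finset.sum_congr rfl fun i _ => by ring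
      _ = _ := by rw [h1]; split_ifs <;> simp
  rw [Finset.sum_congr rfl fun k _ => h k]
  simp

private lemma rot {m : ℕ} {U : Matrix (Fin m) (Fin m) ℝ} (hU : U * U.transpose = 1)
    (v : Fin m → Fk n) : ∑ i, ‖∑ j, U j i • v j‖ ^ 2 = ∑ j, ‖v j‖ ^ 2 := by
  have h : ∀ i, ‖∑ j, U j i • v j‖ ^ 2 = ∑ j, ∑ k, U j i * (U k i * inner ℝ (v j) (v k)) := by
    intro i
    rw [← real_inner_self_eq_norm_sq, sum_inner]
    refine Finset.sum_congr rfl fun j _ => ?_
    rw [inner_sum]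
    refine Finset.sum_congr rfl fun k _ => ?_
    rw [real_inner_smul_left, real_inner_smul_right]
  rw [Finset.sum_congr rfl fun i _ => h i, orth_sum hU]
  exact Finset.sum_congr rfl fun j _ => real_inner_self_eq_norm_sq (v j)

private lemma ip_comb2 {m : ℕ} (U : Matrix (Fin m) (Fin m) ℝ) (N : Fin m → Mat n) (i l : Fin m) :
    ip (∑ j, U j i • N j) (∑ k, U k l • N k) =
      ∑ j, ∑ k, U j i * (U k l * ip (N j) (N k)) := by
  rw [ip_sum_left]
  refine Finset.sum_congr rfl fun j _ => ?_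
  rw [ip_sum_right]
  refine Finset.sum_congr rfl fun k _ => ?_
  rw [ip_smul_left, ip_smul_right]

private lemma exists_U {m : ℕ} (N : Fin m → Mat n) :
    ∃ U : Matrix (Fin m) (Fin m) ℝ, U * U.transpose = 1 ∧
      ∀ i l, i ≠ l → ∑ j, ∑ k, U j i * (U k l * ip (N j) (N k)) = 0 := by
  set G : Matrix (Fin m) (Fin m) ℝ := Matrix.of fun j k => ip (N j) (N k) with hG
  have hGt : G.IsHermitian := by
    rw [Matrix.IsHermitian]
    ext i j
    rw [Matrix.conjTranspose_apply]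
    simp only [hG, Matrix.of_apply, star_trivial]
    exact ip_symm _ _
  set U : Matrix (Fin m) (Fin m) ℝ := (hGt.eigenvectorUnitary : Matrix (Fin m) (Fin m) ℝ) with hU
  have hstar : star U = U.transpose := by
    ext i j; simp [Matrix.star_apply]
  have hUU : U * U.transpose = 1 := by
    rw [← hstar]; exact Unitary.mul_star_self_of_mem hGt.eigenvectorUnitary.2
  have hUU' : U.transpose * U = 1 := by
    rw [← hstar]; exact Unitary.star_mul_self_of_mem hGt.eigenvectorUnitary.2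
  obtain ⟨d, hspec⟩ : ∃ d : Fin m → ℝ, G = U * Matrix.diagonal d * U.transpose := by
    refine ⟨hGt.eigenvalues, ?_⟩
    have h := hGt.spectral_theorem
    rw [← hstar]
    rw [Unitary.conjStarAlgAut_apply] at h
    simpa using h
  refine ⟨U, hUU, fun i l hil => ?_⟩
  have h1 : U.transpose * G * U = Matrix.diagonal d := by
    calc U.transpose * G * U = U.transpose * (U * Matrix.diagonal d * U.transpose) * U := by
          rw [← hspec]
      _ = (U.transpose * U) * Matrix.diagonal d * (U.transpose * U) := by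
          simp only [Matrix.mul_assoc]
      _ = _ := by rw [hUU', Matrix.one_mul, Matrix.mul_one]
  have h2 := congrFun (congrFun h1 i) l
  rw [Matrix.diagonal_apply_ne _ hil, Matrix.mul_apply] at h2
  rw [← h2, Finset.sum_comm]
  refine Finset.sum_congr rfl fun k _ => ?_
  rw [Matrix.mul_apply, Finset.sum_mul]
  refine Finset.sum_congr rfl fun j _ => ?_
  simp only [Matrix.transpose_apply, hG, Matrix.of_apply]
  ring

theorem SB_fam {β : ℝ} (hβ : 0 ≤ β) (H : ∀ L : Mat n, Skew L →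
      ‖Ss (ac L L) ψ‖ ^ 2 + 4 * β * (ip L L * ‖rho L ψ‖ ^ 2) ≤ 4 * ip L L ^ 2)
    (hs : ∀ i, Skew (N i)) (htr : ∑ i, ip (N i) (N i) = 1) :
    SS ψ N N + 4 * β * QN ψ N ≤ 4 := by
  obtain ⟨U, hU, hort⟩ := exists_U N
  set N' : Fin m → Mat n := fun i => ∑ j, U j i • N j with hN'
  have hsk : ∀ i, Skew (N' i) := by
    intro i a b
    simp only [hN', Matrix.sum_apply, Matrix.smul_apply, smul_eq_mul]
    rw [← Finset.sum_neg_distrib]
    exact Finset.sum_congr rfl fun j _ => by rw [hs j a b]; ring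
  have hro : ∀ i, rho (N' i) ψ = ∑ j, U j i • rho (N j) ψ := by
    intro i
    simp only [hN', map_sum, map_smul, LinearMap.sum_apply, LinearMap.smul_apply]
  have hQ : ∑ i, ‖rho (N' i) ψ‖ ^ 2 = ∑ j, ‖rho (N j) ψ‖ ^ 2 := by
    rw [Finset.sum_congr rfl fun i _ => by rw [hro i]]
    exact rot hU fun j => rho (N j) ψ
  have hx : ∑ i, ip (N' i) (N' i) = 1 := by
    rw [← htr, ← orth_sum hU fun j k => ip (N j) (N k)]
    exact Finset.sum_congr rfl fun i _ => ip_comb2 U N i i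
  have hip0 : ∀ i j, i ≠ j → ip (N' i) (N' j) = 0 := by
    intro i j hij
    rw [← hort i j hij]
    exact ip_comb2 U N i j
  have hT : ∀ (i : Fin m) (C : Mat n), Ss (ac (N' i) C) ψ = ∑ j, U j i • Ss (ac (N j) C) ψ := by
    intro i C
    simp only [hN']
    rw [Tsum_left]
    exact Finset.sum_congr rfl fun j _ => Tsmul_left _ _ _ _
  have hTC : ∀ C : Mat n, ∑ i, ‖Ss (ac (N' i) C) ψ‖ ^ 2 = ∑ i, ‖Ss (ac (N i) C) ψ‖ ^ 2 := by
    intro C
    rw [Finset.sum_congr rfl fun i _ => by rw [hT i C]]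
    exact rot hU fun j => Ss (ac (N j) C) ψ
  have hSS : SS ψ N N = ∑ i, ∑ j, ‖Ss (ac (N' i) (N' j)) ψ‖ ^ 2 := by
    unfold SS
    calc ∑ i, ∑ j, ‖Ss (ac (N i) (N j)) ψ‖ ^ 2
        = ∑ i, ∑ j, ‖Ss (ac (N j) (N i)) ψ‖ ^ 2 := Finset.sum_comm
      _ = ∑ i, ∑ j, ‖Ss (ac (N' j) (N i)) ψ‖ ^ 2 := by
          exact Finset.sum_congr rfl fun i _ => (hTC (N i)).symm
      _ = ∑ j, ∑ i, ‖Ss (ac (N i) (N' j)) ψ‖ ^ 2 := by
          rw [Finset.sum_comm]
          exact Finset.sum_congr rfl fun i _ => Finset.sum_congr rfl fun j _ => by rw [Tsymm]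
      _ = ∑ j, ∑ i, ‖Ss (ac (N' i) (N' j)) ψ‖ ^ 2 := by
          exact Finset.sum_congr rfl fun j _ => (hTC (N' j)).symm
      _ = _ := Finset.sum_comm
  have hQN : QN ψ N = ∑ i, ‖rho (N' i) ψ‖ ^ 2 := by
    unfold QN; exact hQ.symm
  set x : Fin m → ℝ := fun i => ip (N' i) (N' i) with hxdef
  set q : Fin m → ℝ := fun i => ‖rho (N' i) ψ‖ ^ 2 with hqdef
  have hij : ∀ i j, ‖Ss (ac (N' i) (N' j)) ψ‖ ^ 2 ≤
      4 * (x i * x j) - 2 * β * (x j * q i + x i * q j) := by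
    intro i j
    rcases eq_or_ne i j with rfl | hne
    · have := H (N' i) (hsk i)
      simp only [hxdef, hqdef]
      nlinarith
    · have := pair_SB hβ H (hsk i) (hsk j) (hip0 i j hne)
      simp only [hxdef, hqdef]
      linarith
  have hsum : ∑ i, ∑ j, ‖Ss (ac (N' i) (N' j)) ψ‖ ^ 2 ≤
      ∑ i, ∑ j, (4 * (x i * x j) - 2 * β * (x j * q i + x i * q j)) :=
    Finset.sum_le_sum fun i _ => Finset.sum_le_sum fun j _ => hij i j
  have hsx : ∑ i, x i = 1 := hx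
  have hval : ∑ i, ∑ j, (4 * (x i * x j) - 2 * β * (x j * q i + x i * q j)) =
      4 * ((∑ i, x i) * (∑ j, x j)) -
        2 * β * ((∑ i, q i) * (∑ j, x j) + (∑ i, x i) * (∑ j, q j)) := by
    rw [Finset.sum_mul_sum, Finset.sum_mul_sum, Finset.sum_mul_sum, ← Finset.sum_add_distrib,
      Finset.mul_sum, Finset.mul_sum, ← Finset.sum_sub_distrib]
    refine Finset.sum_congr rfl fun i _ => ?_
    rw [← Finset.sum_add_distrib, Finset.mul_sum, Finset.mul_sum, ← Finset.sum_sub_distrib]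
    exact Finset.sum_congr rfl fun j _ => by ring
  rw [hval, hsx] at hsum
  rw [hSS, hQN]
  linarith

end HopfQ5
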