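import Pool.Agent.Lib.MP_4a593f_gt.Q5.MM
import Pool.Agent.Lib.MP_4a593f_gt.Q5.SB
import Pool.Agent.Lib.MP_4a593f_gt.Q5.SBf
import Pool.Agent.Lib.MP_4a593f_gt.Q5.L10
import Pool.Agent.Lib.MP_4a593f_gt.Q5.L11
import Pool.Agent.Lib.MP_4a593f_gt.Q5.L12

/-! Task III: the basic inequality.

`S + Q/2 ≤ ((4-c)/2) S + ((c-2)/2)(S+Q)` (`3 ≤ c ≤ 4`, `Q ≥ 0`), `S ≤ 4 - 4β QN` (`SB_fam`),
`S + Q ≤ 2a1 + 4τ - 4q` (`L11`), `2τ ≤ a2` (`geo`), `mainM`. -/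

open scoped BigOperators

namespace HopfQ5

open HopfBig HopfN2 HopfQ4 HopfD8

variable {n m p : ℕ} {c ε : ℝ} {N P : Fin m → Mat n} {ψ : Fk n}

theorem ineqIII (h : CritP c ε N P p ψ) (hp : 2 ≤ p) (hε : 0 < ε) (hc : 3 ≤ c) (hc4 : c ≤ 4)
    {Cp Cm β : ℝ} (hβ : 0 ≤ β)
    (H : ∀ L : Mat n, Skew L →
      ‖Ss (ac L L) ψ‖ ^ 2 + 4 * β * (ip L L * ‖rho L ψ‖ ^ 2) ≤ 4 * ip L L ^ 2)
    (hCp : Bd n m (p + 2) Cp) (hCm : Bd n m (p - 2) Cm) :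
    (c - 2) ^ 2 * A1 N + 2 * (c - 2) * qN ψ N + 2 * (c - Cp) * WN ψ N + 2 * (c - Cm) * RN ψ N ≤
      2 * (4 - c) * (1 - β * QN ψ N) := by
  have hM := mainM h hp hε (by linarith) hCp hCm
  have hS := SB_fam hβ H h.bal.skN h.trN
  have hL := L11 (N := N) h.bal.skN h.deg h.norm
  have hG := geo h.bal (crit_orthP h (by linarith) hε)
  have hQ : 0 ≤ QQ ψ N N :=
    Finset.sum_nonneg fun i _ => Finset.sum_nonneg fun j _ => sq_nonneg _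
  have h1 : 0 ≤ (4 - c) * (4 - (SS ψ N N + 4 * β * QN ψ N)) :=
    mul_nonneg (by linarith) (by linarith)
  have h2 : 0 ≤ (c - 2) * (2 * A1 N + 4 * tau N - (SS ψ N N + QQ ψ N N + 4 * qN ψ N)) :=
    mul_nonneg (by linarith) (by linarith)
  have h3 : 0 ≤ (c - 3) * QQ ψ N N := mul_nonneg (by linarith) hQ
  have h4 : 0 ≤ (c - 2) * ((X1 N * X1 P).trace - 2 * tau N) :=
    mul_nonneg (by linarith) (by linarith)
  nlinarith [hM, h1, h2, h3, h4]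

end HopfQ5
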