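import Pool.Agent.Lib.MP_4a593f_gt.Q5.First
import Pool.Agent.Lib.MP_4a593f_gt.Q4.Geo

/-! Task QNP: `QQ ψ N P ≤ p (tr(X1N X1P) + 2 tau N)`.

`rho_bd` for `br (N i) (P j)`: `‖ρ_{br}ψ‖² ≤ p |br|²`, `|br (N i) (P j)|² = tr(N_i²P_j²) -
tr(N_iP_jN_iP_j)`; `∑ tr(N_i²P_j²) = tr(X1 N X1 P)` and `tau N = -(1/2) ∑ tr(N_iP_jN_iP_j)`
(inside the proof of `geo` in Q4/Geo.lean: `four_wedge`, orthogonality). -/

open scoped BigOperators

namespace HopfQ5

open HopfBig HopfN2 HopfQ4 HopfD8

variable {n m p : ℕ} {c ε : ℝ} {N P : Fin m → Mat n} {ψ : Fk n}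

private theorem tau_eq_mixed (h : Bal N P) (ho : ∀ i j, ip (N i) (P j) = 0) :
    tau N = -(1 / 2) * ∑ i, ∑ j, (N i * P j * N i * P j).trace := by
  have h1 : ∀ i, ∑ j, (-(1 / 2) * (N i * P j * N i * P j).trace) =
      ∑ j, (ip (N i) (N j) ^ 2 - (1 / 2) * (N i * N j * N i * N j).trace) := by
    intro i
    have h2 := h.bal _ (four_wedge (h.skN i) (h.skN i))
    have e : ∀ L : Mat n, ∑ x, (N i * L * N i * L) x x = (N i * L * N i * L).trace := fun L => rfl
    simp only [e] at h2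
    rw [Finset.sum_congr rfl fun j _ => show (ip (N i) (N j) ^ 2 -
      (1 / 2) * (N i * N j * N i * N j).trace) = ip (N i) (N j) * ip (N i) (N j) -
      (1 / 2) * (N i * N j * N i * N j).trace by rw [sq], h2]
    refine Finset.sum_congr rfl fun j _ => ?_
    rw [ho i j]
    ring
  unfold tau
  rw [Finset.mul_sum]
  refine Finset.sum_congr rfl fun i _ => ?_
  rw [← h1 i, Finset.mul_sum]

private theorem X1_mul_trace' (N P : Fin m → Mat n) :
    (X1 N * X1 P).trace = ∑ i, ∑ j, (N i * N i * (P j * P j)).trace := by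
  unfold X1
  rw [neg_mul_neg, Finset.sum_mul_sum, Matrix.trace_sum]
  refine Finset.sum_congr rfl fun i _ => ?_
  rw [Matrix.trace_sum]

private theorem ip_br_self {A B : Mat n} (hA : Skew A) (hB : Skew B) :
    ip (br A B) (br A B) = (A * A * (B * B)).trace - (A * B * A * B).trace := by
  rw [ip_eq_trace]
  unfold br
  have e0 : (A * B - B * A).transpose * (A * B - B * A) =
      B * A * (A * B) - B * A * (B * A) - (A * B * (A * B) - A * B * (B * A)) := by
    rw [Matrix.transpose_sub, Matrix.transpose_mul, Matrix.transpose_mul, hA.transpose,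
      hB.transpose, neg_mul_neg, neg_mul_neg, sub_mul, mul_sub, mul_sub]
  have e1 : (B * A * (A * B)).trace = (A * A * (B * B)).trace := by
    rw [Matrix.mul_assoc, Matrix.trace_mul_comm]
    simp only [Matrix.mul_assoc]
  have e2 : (B * A * (B * A)).trace = (A * B * A * B).trace := by
    rw [Matrix.mul_assoc, Matrix.trace_mul_comm]
    simp only [Matrix.mul_assoc]
  have e3 : (A * B * (A * B)).trace = (A * B * A * B).trace := by
    simp only [Matrix.mul_assoc]
  have e4 : (A * B * (B * A)).trace = (A * A * (B * B)).trace := by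
    rw [← Matrix.mul_assoc, Matrix.trace_mul_comm]
    simp only [Matrix.mul_assoc]
  rw [e0, Matrix.trace_sub, Matrix.trace_sub, Matrix.trace_sub, e1, e2, e3, e4]
  ring

theorem QNP_le (h : Bal N P) (ho : ∀ i j, ip (N i) (P j) = 0) (hd : Deg p ψ) (hψ : ‖ψ‖ = 1) :
    QQ ψ N P ≤ p * ((X1 N * X1 P).trace + 2 * tau N) := by
  have h1 : QQ ψ N P ≤ ∑ i, ∑ j, (p : ℝ) * ((N i * N i * (P j * P j)).trace -
      (N i * P j * N i * P j).trace) := by
    unfold QQ
    refine Finset.sum_le_sum fun i _ => Finset.sum_le_sum fun j _ => ?_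
    have h2 := rho_bd hd (Skew.br (h.skN i) (h.skP j))
    rw [hψ, ip_br_self (h.skN i) (h.skP j)] at h2
    linarith
  refine h1.trans (le_of_eq ?_)
  rw [tau_eq_mixed h ho, X1_mul_trace']
  simp only [← Finset.mul_sum, Finset.sum_sub_distrib]
  ring

end HopfQ5
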