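import Pool.Agent.Lib.MP_4a593f_gt.Q5.First
import Pool.Agent.Lib.MP_4a593f_gt.Q4.Star3

/-! Task Star: `star0` (Q4/Star3.lean) for `CritP`: same proof with `crit_margP`. -/

open scoped BigOperators

namespace HopfQ5

open HopfBig HopfN2 HopfQ4 HopfD8

variable {n m p : ℕ} {c ε : ℝ} {N P : Fin m → Mat n} {ψ : Fk n}

private theorem starP_X1 {N : Fin m → Mat n} (hs : ∀ i, Skew (N i)) :
    (X1 N).transpose = X1 N := by
  unfold X1
  rw [Matrix.transpose_neg, Matrix.transpose_sum]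
  congr 1
  refine Finset.sum_congr rfl fun i _ => ?_
  rw [Matrix.transpose_mul, (hs i).transpose]
  simp

theorem star0P (h : CritP c ε N P p ψ) (C : Mat n)
    (hC : C = (c - 1) • X1 N + (1 + ε) • X1 P) :
    (C * C).trace + ((X1 N - X1 P) * C).trace +
      ((1 / 2) * QQ ψ N N - QQ ψ N P + (1 / 2) * QQ ψ P P) ≤ 0 := by
  have hN := starP_X1 h.bal.skN
  have hP := starP_X1 h.bal.skP
  have hCs : C.transpose = C := by
    rw [hC, Matrix.transpose_add, Matrix.transpose_smul, Matrix.transpose_smul, hN, hP]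
  have hRs : (X1 N - X1 P).transpose = X1 N - X1 P := by
    rw [Matrix.transpose_sub, hN, hP]
  -- Cauchy-Schwarz
  have h0 : 0 ≤ ∑ a, ‖Wv N P ψ a + ∑ b, C a b • lq b ψ‖ ^ 2 :=
    Finset.sum_nonneg fun a _ => sq_nonneg _
  have hexp : ∑ a, ‖Wv N P ψ a + ∑ b, C a b • lq b ψ‖ ^ 2 =
      ∑ a, ‖Wv N P ψ a‖ ^ 2 + 2 * ∑ a, inner ℝ (∑ b, C a b • lq b ψ) (Wv N P ψ a) +
        ∑ a, inner ℝ (∑ b, C a b • lq b ψ) (∑ b, C a b • lq b ψ) := by
    rw [Finset.mul_sum, ← Finset.sum_add_distrib, ← Finset.sum_add_distrib]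
    refine Finset.sum_congr rfl fun a _ => ?_
    rw [norm_add_sq_real, real_inner_self_eq_norm_sq, real_inner_comm]
  have h1 := lW h.bal h.deg hCs
  have h2 := lcontr C C ψ ψ
  have h3 := normW h.bal h.deg
  have h4 := crit_margP h hCs
  have h5 := crit_margP h hRs
  have hz : C.transpose * C - (C.transpose * C).transpose = 0 := by
    rw [Matrix.transpose_mul, Matrix.transpose_transpose, sub_self]
  have hh0 : (hop (0 : Mat n)) ψ = 0 := by
    unfold hop
    rw [map_zero, map_zero, sub_self, LinearMap.zero_apply]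
  rw [hz, smul_zero, map_zero, hh0, LinearMap.zero_apply, sub_self,
    inner_zero_right, mul_zero, sub_zero, real_inner_self_eq_norm_sq, h.norm, one_pow, mul_one,
    hCs] at h2
  have h6 : (c - 1) * (C * X1 N).trace + (1 + ε) * (C * X1 P).trace = (C * C).trace := by
    conv_rhs => rw [hC, mul_add, ← hC, Matrix.mul_smul, Matrix.mul_smul, Matrix.trace_add,
      Matrix.trace_smul, Matrix.trace_smul, smul_eq_mul, smul_eq_mul]
  have h7 : (c - 1) * ((X1 N - X1 P) * X1 N).trace + (1 + ε) * ((X1 N - X1 P) * X1 P).trace =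
      ((X1 N - X1 P) * C).trace := by
    rw [hC, mul_add, Matrix.mul_smul, Matrix.mul_smul, Matrix.trace_add,
      Matrix.trace_smul, Matrix.trace_smul, smul_eq_mul, smul_eq_mul]
  rw [hexp, h1, h2] at h0
  rw [h6] at h4
  rw [h7] at h5
  linarith

end HopfQ5
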