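import Pool.Agent.Lib.MP_4a593f_gt.Q5.Hf
import Pool.Agent.Lib.MP_4a593f_gt.Q5.Star
import Pool.Agent.Lib.MP_4a593f_gt.Q5.QNP
import Pool.Agent.Lib.MP_4a593f_gt.Q4.Geo

/-! Task MM: combination of `hformE`, `star0P`, `QNP_le`.

With `a1 = A1 N`, `a2 = tr(X1N X1P) ≥ 0`, `a3 = tr(X1P²) ≥ 0` (`X1_mul_nonneg`): expand `star0P`
(as in `mainC`, Q4/CoreC.lean): `(c-1)²a1 + 2(c-1)(1+ε)a2 + (1+ε)²a3 + (c-1)a1 + (1+ε)a2 - (c-1)a2
- (1+ε)a3 + Q/2 - QNP + QPP/2 ≤ 0`.  `mainM`: add to `hformE`, drop `SNP, QPP, a3`, `ε`-terms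
(`1 < c` makes the coefficient of `ε a2` nonpositive).  `starQ`: `QNP ≥ c(c-1)a1 + c a2 + Q/2`. -/

open scoped BigOperators

namespace HopfQ5

open HopfBig HopfN2 HopfQ4 HopfD8

variable {n m p : ℕ} {c ε : ℝ} {N P : Fin m → Mat n} {ψ : Fk n}

private theorem starE (h : CritP c ε N P p ψ) :
    c * (c - 1) * (X1 N * X1 N).trace + (c + ε * (2 * c - 1)) * (X1 N * X1 P).trace +
      ε * (1 + ε) * (X1 P * X1 P).trace + (1 / 2) * QQ ψ N N - QQ ψ N P + (1 / 2) * QQ ψ P P ≤ 0 := by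
  have hcomm : (X1 P * X1 N).trace = (X1 N * X1 P).trace := Matrix.trace_mul_comm _ _
  have hst := star0P h ((c - 1) • X1 N + (1 + ε) • X1 P) rfl
  have e1 : (((c - 1) • X1 N + (1 + ε) • X1 P) * ((c - 1) • X1 N + (1 + ε) • X1 P)).trace =
      (c - 1) * ((c - 1) * (X1 N * X1 N).trace + (1 + ε) * (X1 N * X1 P).trace) +
      (1 + ε) * ((c - 1) * (X1 N * X1 P).trace + (1 + ε) * (X1 P * X1 P).trace) := by
    simp only [Matrix.add_mul, Matrix.mul_add, Matrix.smul_mul, Matrix.mul_smul, Matrix.trace_add,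
      Matrix.trace_smul, smul_eq_mul, hcomm]
  have e2 : ((X1 N - X1 P) * ((c - 1) • X1 N + (1 + ε) • X1 P)).trace =
      ((c - 1) * (X1 N * X1 N).trace + (1 + ε) * (X1 N * X1 P).trace) -
      ((c - 1) * (X1 N * X1 P).trace + (1 + ε) * (X1 P * X1 P).trace) := by
    simp only [Matrix.sub_mul, Matrix.mul_add, Matrix.mul_smul, Matrix.trace_add,
      Matrix.trace_sub, Matrix.trace_smul, smul_eq_mul, hcomm]
    ring
  rw [e1, e2] at hst
  linarith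

theorem mainM (h : CritP c ε N P p ψ) (hp : 2 ≤ p) (hε : 0 < ε) (hc : 2 ≤ c) {Cp Cm : ℝ}
    (hCp : Bd n m (p + 2) Cp) (hCm : Bd n m (p - 2) Cm) :
    2 * (c - Cp) * WN ψ N + 2 * (c - Cm) * RN ψ N + (c - 2) * (c - 1) * A1 N +
      (c - 2) * (X1 N * X1 P).trace ≤ SS ψ N N + (1 / 2) * QQ ψ N N := by
  have h1 := starE h
  have h2 := hformE h hp hε.le hCp hCm
  have hsN := h.bal.skN
  have hsP := h.bal.skP
  have ha2 : 0 ≤ (X1 N * X1 P).trace := X1_mul_nonneg hsN hsP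
  have ha3 : 0 ≤ (X1 P * X1 P).trace := X1_mul_nonneg hsP hsP
  have hSP : 0 ≤ SS ψ N P :=
    Finset.sum_nonneg fun i _ => Finset.sum_nonneg fun j _ => sq_nonneg _
  have hQPP : 0 ≤ QQ ψ P P :=
    Finset.sum_nonneg fun i _ => Finset.sum_nonneg fun j _ => sq_nonneg _
  have h3 : 0 ≤ ε * (1 + ε) * (X1 P * X1 P).trace := by positivity
  have h4 : 0 ≤ ε * (2 * c - 3) * (X1 N * X1 P).trace := by
    have : 0 ≤ 2 * c - 3 := by linarith
    positivity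
  unfold A1
  linarith

theorem starQ (h : CritP c ε N P p ψ) (hε : 0 < ε) (hc : 2 ≤ c) :
    c * (c - 1) * A1 N + (1 / 2) * QQ ψ N N ≤
      ((p : ℝ) - c) * (X1 N * X1 P).trace + 2 * p * tau N := by
  have h1 := starE h
  have ho := crit_orthP h (by linarith) hε
  have h2 := QNP_le h.bal ho h.deg h.norm
  have hsN := h.bal.skN
  have hsP := h.bal.skP
  have ha2 : 0 ≤ (X1 N * X1 P).trace := X1_mul_nonneg hsN hsP
  have ha3 : 0 ≤ (X1 P * X1 P).trace := X1_mul_nonneg hsP hsP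
  have hQPP : 0 ≤ QQ ψ P P :=
    Finset.sum_nonneg fun i _ => Finset.sum_nonneg fun j _ => sq_nonneg _
  have h3 : 0 ≤ ε * (1 + ε) * (X1 P * X1 P).trace := by positivity
  have h4 : 0 ≤ ε * (2 * c - 1) * (X1 N * X1 P).trace := by
    have : 0 ≤ 2 * c - 1 := by linarith
    positivity
  unfold A1
  linarith

end HopfQ5
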