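import Pool.Agent.Lib.MP_4a593f_gt.Q5.Defs

/-! Task Num: real arithmetic for the small cases.

First reduce to `c = 20/7` (all coefficients `2(c-5/2)`, `2(c-2)`, `(c-2)(c-1)`, `c-2`, `c(c-1)`,
`-(4-c)` are monotone and multiply nonnegative numbers) and `k = 20/7` (`67/16 - k > 0`;
`k - 2u + 4R = k - 2 + 2(W+R)`).  `num94`: `0.5175 hB + 0.143929 hF + 0.338571 hL + 0.035 hSt +
0.817143 hg` eliminates `S, Q, t, a2` (exact: `y5 = 7/200`, `2 y3 = 6/7 - (36/7) y5`,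
`y2 = 1/2 - y3 - y5/2`, `y1 = 1 - y2 - y3`, `y4 = 2 y3 + 4 y5`); then linearise the squares at
`W = 1/5, R = 0` (`x² ≥ 2x₀x - x₀²`); total slack `0.0546`.
`num105`: `(23/64) hB + (5/64) hF + (9/16) hL`, slack `0.081` (square in `hq` at `W+R = 0`).
`num104b`: equality holds for `c = 3, k = 3, u = 1, W = R = 0` (so `3 < c` is needed). -/

open scoped BigOperators

namespace HopfQ5

open HopfBig HopfN2 HopfQ4 HopfD8

theorem num94 {c S Q W R Z a1 a2 t q u k : ℝ} (hc : 20 / 7 ≤ c) (hc4 : c ≤ 4) (hk : c ≤ k)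
    (hk4 : k ≤ 4) (hW : 0 ≤ W)
    (hR : 0 ≤ R) (hZ : 0 ≤ Z) (hQ : 0 ≤ Q) (ha1 : 0 ≤ a1) (ha2 : 0 ≤ a2)
    (hu : W - R = 1 - u)
    (hM : 2 * (c - 5 / 2) * W + 2 * (c - 2) * R + (c - 2) * (c - 1) * a1 + (c - 2) * a2 ≤
      S + (1 / 2) * Q)
    (hSt : c * (c - 1) * a1 + (1 / 2) * Q ≤ (4 - c) * a2 + 8 * t)
    (hL : S + Q + 4 * q ≤ 2 * a1 + 4 * t) (hg : 2 * t ≤ a2)
    (hF : S + Q ≤ 8 * (W + R) + 2 * Z)
    (hB : S + 2 * Z ≤ (1 / 2) * (67 / 16 - k) ^ 2)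
    (hq : (k - 2 * u + 4 * R) ^ 2 ≤ 20 * q)
    (ha : 80 + (9 * u - 8) ^ 2 ≤ 180 * a1) : False := by
  have e1 : (5 / 7) * W ≤ 2 * (c - 5 / 2) * W := mul_le_mul_of_nonneg_right (by linarith) hW
  have e2 : (12 / 7) * R ≤ 2 * (c - 2) * R := mul_le_mul_of_nonneg_right (by linarith) hR
  have e3 : (78 / 49) * a1 ≤ (c - 2) * (c - 1) * a1 :=
    mul_le_mul_of_nonneg_right (by nlinarith) ha1
  have e4 : (6 / 7) * a2 ≤ (c - 2) * a2 := mul_le_mul_of_nonneg_right (by linarith) ha2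
  have e5 : (260 / 49) * a1 ≤ c * (c - 1) * a1 :=
    mul_le_mul_of_nonneg_right (by nlinarith) ha1
  have e6 : (4 - c) * a2 ≤ (8 / 7) * a2 := mul_le_mul_of_nonneg_right (by linarith) ha2
  have e7 : (67 / 16 - k) ^ 2 ≤ (149 / 112) ^ 2 := by nlinarith
  have hX : 6 / 7 + 2 * (W + R) ≤ k - 2 * u + 4 * R := by linarith
  have hX2 : (6 / 7 + 2 * (W + R)) ^ 2 ≤ (k - 2 * u + 4 * R) ^ 2 := by
    apply pow_le_pow_left₀ (by positivity) hX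
  have hX3 : 2 * (44 / 35) * (6 / 7 + 2 * (W + R)) - (44 / 35) ^ 2 ≤ (6 / 7 + 2 * (W + R)) ^ 2 := by
    nlinarith [sq_nonneg ((6 / 7 + 2 * (W + R)) - 44 / 35)]
  have hY : 2 * (-4 / 5) * (9 * u - 8) - (4 / 5) ^ 2 ≤ (9 * u - 8) ^ 2 := by
    nlinarith [sq_nonneg ((9 * u - 8) + 4 / 5)]
  have hu' : u = 1 - W + R := by linarith
  subst hu'
  linarith

theorem num105 {c S Q W R a1 a2 t q u k : ℝ} (hc : 25 / 8 ≤ c) (hc4 : c ≤ 4) (hk : c ≤ k)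
    (hW : 0 ≤ W) (hR : 0 ≤ R) (hQ : 0 ≤ Q) (ha1 : 0 ≤ a1) (ha2 : 0 ≤ a2) (hu : W - R = 1 - u)
    (hM : 2 * (c - 5 / 2) * W + 2 * (c - 5 / 2) * R + (c - 2) * (c - 1) * a1 + (c - 2) * a2 ≤
      S + (1 / 2) * Q)
    (hL : S + Q + 4 * q ≤ 2 * a1 + 4 * t) (hg : 2 * t ≤ a2)
    (hF : S + Q ≤ 16 * (W + R)) (hB : S + 4 * (1 / 5) * k ≤ 4)
    (hq : (k - 2 * u + 4 * R) ^ 2 ≤ 25 * q) (ha : 100 + (10 * u - 10) ^ 2 ≤ 250 * a1) :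
    False := by
  have e1 : (5 / 4) * W ≤ 2 * (c - 5 / 2) * W := mul_le_mul_of_nonneg_right (by linarith) hW
  have e2 : (5 / 4) * R ≤ 2 * (c - 5 / 2) * R := mul_le_mul_of_nonneg_right (by linarith) hR
  have e3 : (9 / 8 * (17 / 8)) * a1 ≤ (c - 2) * (c - 1) * a1 :=
    mul_le_mul_of_nonneg_right (by nlinarith) ha1
  have e4 : (9 / 8) * a2 ≤ (c - 2) * a2 := mul_le_mul_of_nonneg_right (by linarith) ha2
  have hX : 9 / 8 + 2 * (W + R) ≤ k - 2 * u + 4 * R := by linarith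
  have hX2 : (9 / 8 + 2 * (W + R)) ^ 2 ≤ (k - 2 * u + 4 * R) ^ 2 := by
    apply pow_le_pow_left₀ (by positivity) hX
  have hX3 : 2 * (9 / 8) * (9 / 8 + 2 * (W + R)) - (9 / 8) ^ 2 ≤ (9 / 8 + 2 * (W + R)) ^ 2 := by
    nlinarith [sq_nonneg ((9 / 8 + 2 * (W + R)) - 9 / 8)]
  have hY : 0 ≤ (10 * u - 10) ^ 2 := sq_nonneg _
  linarith

/-- first step for `(n,p) = (10,4)` -/
theorem num104a {c W R a1 q u k : ℝ} (hc : 37 / 12 ≤ c) (hc4 : c < 4) (hk : c ≤ k)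
    (hku : k ≤ 4 * u) (hW : 0 ≤ W) (hR : 0 ≤ R) (hu : W - R = 1 - u)
    (hq : (k - 2 * u + 4 * R) ^ 2 ≤ 24 * q) (ha : 96 + (10 * u - 8) ^ 2 ≤ 240 * a1)
    (h : (c - 2) ^ 2 * a1 + 2 * (c - 2) * q + 2 * (c - 18 / 5) * W + 2 * (c - 2) * R ≤
      2 * (4 - c) * (1 - 1 / 4 * k)) : False := by
  have hWe : W = R + 1 - u := by linarith
  subst hWe
  -- X = k - 2u + 4R
  have h1 : (c - 2) ^ 2 * (96 + (10 * u - 8) ^ 2) ≤ (c - 2) ^ 2 * (240 * a1) :=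
    mul_le_mul_of_nonneg_left ha (sq_nonneg _)
  have h2 : (c - 2) * (k - 2 * u + 4 * R) ^ 2 ≤ (c - 2) * (24 * q) :=
    mul_le_mul_of_nonneg_left hq (by linarith)
  have hX : (k - 2 * u + 4 * R) ^ 2 ≥ 2 * (37 / 24) * (k - 2 * u + 4 * R) - (37 / 24) ^ 2 := by
    nlinarith [sq_nonneg ((k - 2 * u + 4 * R) - 37 / 24)]
  have h3 : (c - 2) * (2 * (37 / 24) * (k - 2 * u + 4 * R) - (37 / 24) ^ 2) ≤ (c - 2) * (k - 2 * u + 4 * R) ^ 2 :=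
    mul_le_mul_of_nonneg_left hX (by linarith)
  have hY : (10 * u - 8) ^ 2 ≥ 2 * (-7 / 24) * (10 * u - 8) - (7 / 24) ^ 2 := by
    nlinarith [sq_nonneg ((10 * u - 8) + 7 / 24)]
  have h4 : (c - 2) ^ 2 * (96 + (2 * (-7 / 24) * (10 * u - 8) - (7 / 24) ^ 2)) ≤ (c - 2) ^ 2 * (96 + (10 * u - 8) ^ 2) :=
    mul_le_mul_of_nonneg_left (by linarith) (sq_nonneg _)
  nlinarith [mul_nonneg (sub_nonneg.2 hc) hR, mul_nonneg (sub_nonneg.2 hc) hW,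
    mul_nonneg (sub_nonneg.2 hc) (sub_nonneg.2 hk), mul_nonneg (sub_nonneg.2 hc) (sub_nonneg.2 hku),
    mul_nonneg (sub_nonneg.2 hc) (sub_nonneg.2 hc), mul_nonneg (sub_nonneg.2 hc4.le) (sub_nonneg.2 hk),
    mul_nonneg (sub_nonneg.2 hc4.le) (sub_nonneg.2 hku), mul_nonneg (sub_nonneg.2 hc4.le) (sub_nonneg.2 hc)]

/-- second step -/
theorem num104b {c W R a1 q u k : ℝ} (hc : 3 < c) (hc4 : c < 4) (hk : c ≤ k)
    (hku : k ≤ 4 * u) (hW : 0 ≤ W) (hR : 0 ≤ R) (hu : W - R = 1 - u)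
    (hq : (k - 2 * u + 4 * R) ^ 2 ≤ 24 * q) (ha : 96 + (10 * u - 8) ^ 2 ≤ 240 * a1)
    (h : (c - 2) ^ 2 * a1 + 2 * (c - 2) * q + 2 * (c - 37 / 12) * W + 2 * (c - 2) * R ≤
      2 * (4 - c) * (1 - 1 / 4 * k)) : False := by
  have hWe : W = R + 1 - u := by linarith
  subst hWe
  have h1 : (c - 2) ^ 2 * (96 + (10 * u - 8) ^ 2) ≤ (c - 2) ^ 2 * (240 * a1) :=
    mul_le_mul_of_nonneg_left ha (sq_nonneg _)
  have h2 : (c - 2) * (k - 2 * u + 4 * R) ^ 2 ≤ (c - 2) * (24 * q) :=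
    mul_le_mul_of_nonneg_left hq (by linarith)
  have hX : (k - 2 * u + 4 * R) ^ 2 ≥ 2 * (k - 2 * u + 4 * R) - 1 := by
    nlinarith [sq_nonneg ((k - 2 * u + 4 * R) - 1)]
  have h3 : (c - 2) * (2 * (k - 2 * u + 4 * R) - 1) ≤ (c - 2) * (k - 2 * u + 4 * R) ^ 2 :=
    mul_le_mul_of_nonneg_left hX (by linarith)
  have hY : (10 * u - 8) ^ 2 ≥ 4 * (10 * u - 8) - 4 := by
    nlinarith [sq_nonneg ((10 * u - 8) - 2)]
  have h4 : (c - 2) ^ 2 * (96 + (4 * (10 * u - 8) - 4)) ≤ (c - 2) ^ 2 * (96 + (10 * u - 8) ^ 2) :=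
    mul_le_mul_of_nonneg_left (by linarith) (sq_nonneg _)
  have hd : 0 < c - 3 := by linarith
  nlinarith [mul_nonneg hd.le hR, mul_nonneg hd.le hW,
    mul_nonneg hd.le (sub_nonneg.2 hk), mul_nonneg hd.le (sub_nonneg.2 hku),
    mul_nonneg hd.le hd.le, mul_nonneg (sub_nonneg.2 hc4.le) (sub_nonneg.2 hk),
    mul_nonneg (mul_nonneg hd.le hd.le) (sub_nonneg.2 hku),
    mul_nonneg (mul_nonneg hd.le hd.le) (sub_nonneg.2 hk),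
    mul_nonneg (mul_nonneg hd.le hd.le) hd.le]

/-- `(n,p) = (11,4)` -/
theorem num114 {c W R a1 q u k : ℝ} (hc : 28 / 9 ≤ c) (hc4 : c < 4) (hk : c ≤ k)
    (hku : k ≤ 4 * u) (hW : 0 ≤ W) (hR : 0 ≤ R) (hu : W - R = 1 - u)
    (hq : (k - 2 * u + 4 * R) ^ 2 ≤ 28 * q) (ha : 112 + (11 * u - 8) ^ 2 ≤ 308 * a1)
    (h : (c - 2) ^ 2 * a1 + 2 * (c - 2) * q + 2 * (c - 10 / 3) * W + 2 * (c - 2) * R ≤
      2 * (4 - c) * (1 - 1 / 4 * k)) : False := by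
  have hWe : W = R + 1 - u := by linarith
  subst hWe
  have h1 : (c - 2) ^ 2 * (112 + (11 * u - 8) ^ 2) ≤ (c - 2) ^ 2 * (308 * a1) :=
    mul_le_mul_of_nonneg_left ha (sq_nonneg _)
  have h2 : (c - 2) * (k - 2 * u + 4 * R) ^ 2 ≤ (c - 2) * (28 * q) :=
    mul_le_mul_of_nonneg_left hq (by linarith)
  have hX : (k - 2 * u + 4 * R) ^ 2 ≥ 2 * (14 / 9) * (k - 2 * u + 4 * R) - (14 / 9) ^ 2 := by
    nlinarith [sq_nonneg ((k - 2 * u + 4 * R) - 14 / 9)]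
  have h3 : (c - 2) * (2 * (14 / 9) * (k - 2 * u + 4 * R) - (14 / 9) ^ 2) ≤ (c - 2) * (k - 2 * u + 4 * R) ^ 2 :=
    mul_le_mul_of_nonneg_left hX (by linarith)
  have hY : (11 * u - 8) ^ 2 ≥ 2 * (5 / 9) * (11 * u - 8) - (5 / 9) ^ 2 := by
    nlinarith [sq_nonneg ((11 * u - 8) - 5 / 9)]
  have h4 : (c - 2) ^ 2 * (112 + (2 * (5 / 9) * (11 * u - 8) - (5 / 9) ^ 2)) ≤ (c - 2) ^ 2 * (112 + (11 * u - 8) ^ 2) :=
    mul_le_mul_of_nonneg_left (by linarith) (sq_nonneg _)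
  nlinarith [mul_nonneg (sub_nonneg.2 hc) hR, mul_nonneg (sub_nonneg.2 hc) hW,
    mul_nonneg (sub_nonneg.2 hc) (sub_nonneg.2 hk), mul_nonneg (sub_nonneg.2 hc) (sub_nonneg.2 hku),
    mul_nonneg (sub_nonneg.2 hc) (sub_nonneg.2 hc), mul_nonneg (sub_nonneg.2 hc4.le) (sub_nonneg.2 hk),
    mul_nonneg (sub_nonneg.2 hc4.le) (sub_nonneg.2 hku), mul_nonneg (sub_nonneg.2 hc4.le) (sub_nonneg.2 hc)]

end HopfQ5
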