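import Pool.Agent.Lib.MP_4a593f_gt.Q5.Defs
import Pool.Agent.Lib.MP_4a593f_gt.Q4.Tau

/-! Task Tau: `tau N + (1/2) tr X1² ≤ (∑|N_i|²)²`.

Pairwise: with `g(L,M) = ⟨L,M⟩² - (1/2)tr(LMLM)` the proof of `g_le` in Q4/Tau.lean gives
`g(L,M)² ≤ g(L,L) g(M,M)`, `g(L,L) = |L|⁴ - (1/2)tr L⁴ ≥ 0` (copy), and
`(tr L²M²)² ≤ tr L⁴ tr M⁴` (Cauchy-Schwarz for the symmetric matrices `L²`, `M²`); so
`g(L,M) + (1/2)tr(L²M²) ≤ √(g(L,L) g(M,M)) + √((1/2)tr L⁴ · (1/2)tr M⁴) ≤ |L|²|M|²`
(`√(ab) + √(a'b') ≤ √((a+a')(b+b'))`).  Sum over pairs; `tr X1² = ∑_ij tr(N_i²N_j²)`.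
`tau_nonneg`: `tau = ∑_ij g(N_i,N_j)` is a multiple of `‖∑_i w(N_i)‖²`, see Q4/Tau.lean. -/

open scoped BigOperators

namespace HopfQ5

open HopfBig HopfN2 HopfQ4 HopfD8

variable {n m p : ℕ} {c ε : ℝ} {N P : Fin m → Mat n} {ψ : Fk n}

/-- the 4-form `L ∧ L` -/
private def w (L : Mat n) (a b c d : Fin n) : ℝ :=
  L a b * L c d - L a c * L b d + L a d * L b c

private def S4 (f : Fin n → Fin n → Fin n → Fin n → ℝ) : ℝ := ∑ a, ∑ b, ∑ c, ∑ d, f a b c d

private theorem S12 (f : Fin n → Fin n → Fin n → Fin n → ℝ) :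
    S4 (fun a b c d => f b a c d) = S4 f := by
  unfold S4; exact Finset.sum_comm

private theorem S23 (f : Fin n → Fin n → Fin n → Fin n → ℝ) :
    S4 (fun a b c d => f a c b d) = S4 f := by
  unfold S4; exact Finset.sum_congr rfl fun a _ => Finset.sum_comm

private theorem S34 (f : Fin n → Fin n → Fin n → Fin n → ℝ) :
    S4 (fun a b c d => f a b d c) = S4 f := by
  unfold S4
  exact Finset.sum_congr rfl fun a _ => Finset.sum_congr rfl fun b _ => Finset.sum_comm

private theorem S_add (f g : Fin n → Fin n → Fin n → Fin n → ℝ) :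
    S4 (fun a b c d => f a b c d + g a b c d) = S4 f + S4 g := by
  simp only [S4, Finset.sum_add_distrib]

private theorem S_neg (f : Fin n → Fin n → Fin n → Fin n → ℝ) :
    S4 (fun a b c d => -f a b c d) = -S4 f := by
  simp only [S4, Finset.sum_neg_distrib]

private theorem S_congr {f g : Fin n → Fin n → Fin n → Fin n → ℝ}
    (h : ∀ a b c d, f a b c d = g a b c d) : S4 f = S4 g := by
  have : f = g := by funext a b c d; exact h a b c d
  rw [this]

/-- `tr (L M L M)` as a sum -/
private def T (L M : Mat n) : ℝ := S4 fun a b c d => L a b * L c d * (M b c * M d a)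

private theorem tr4 (L M : Mat n) : (L * M * L * M).trace = T L M := by
  have h1 : (L * M * L * M).trace =
      ∑ a, ∑ d, ∑ c, ∑ b, L a b * L c d * (M b c * M d a) := by
    simp only [Matrix.trace, Matrix.diag, Matrix.mul_apply, Finset.sum_mul]
    refine Finset.sum_congr rfl fun a _ => Finset.sum_congr rfl fun d _ =>
      Finset.sum_congr rfl fun c _ => Finset.sum_congr rfl fun b _ => by ring
  rw [h1]
  have h2 : ∑ a, ∑ d, ∑ c, ∑ b, L a b * L c d * (M b c * M d a) =
      S4 (fun a d c b => L a b * L c d * (M b c * M d a)) := rfl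
  rw [h2, ← S23 (fun a d c b => L a b * L c d * (M b c * M d a)),
    ← S34 (fun a c d b => L a b * L c d * (M b c * M d a)),
    ← S23 (fun a c b d => L a b * L c d * (M b c * M d a))]
  rfl

private theorem t0 (L M : Mat n) :
    S4 (fun a b c d => L a b * L c d * (M a b * M c d)) = 4 * ip L M ^ 2 := by
  unfold S4 ip
  have : ∑ a, ∑ b, ∑ c, ∑ d, L a b * L c d * (M a b * M c d) =
      (∑ a, ∑ b, L a b * M a b) * ∑ c, ∑ d, L c d * M c d := by
    rw [Finset.sum_mul]
    refine Finset.sum_congr rfl fun a _ => ?_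
    rw [Finset.sum_mul]
    refine Finset.sum_congr rfl fun b _ => ?_
    rw [Finset.mul_sum]
    refine Finset.sum_congr rfl fun c _ => ?_
    rw [Finset.mul_sum]
    exact Finset.sum_congr rfl fun d _ => by ring
  rw [this]; ring

/-- `⟨L∧L, M∧M⟩ = 12 (⟨L,M⟩² - tr(LMLM)/2)` -/
private theorem ww {L M : Mat n} (hL : Skew L) (hM : Skew M) :
    S4 (fun a b c d => w L a b c d * w M a b c d) =
      12 * (ip L M ^ 2 - (1 / 2) * (L * M * L * M).trace) := by
  rw [tr4]
  have e0 := t0 L M
  -- the nine terms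
  have b1 : S4 (fun a b c d => L a c * L b d * (M a c * M b d)) =
      S4 (fun a b c d => L a b * L c d * (M a b * M c d)) :=
    S23 (fun a b c d => L a b * L c d * (M a b * M c d))
  have b2 : S4 (fun a b c d => L a d * L b c * (M a d * M b c)) =
      S4 (fun a b c d => L a c * L b d * (M a c * M b d)) :=
    S34 (fun a b c d => L a c * L b d * (M a c * M b d))
  -- L_ab L_cd M_ac M_bd = T
  have c1 : S4 (fun a b c d => L a b * L c d * (M a c * M b d)) = T L M := by
    have h := S34 (fun a b c d => L a b * L c d * (M b c * M d a))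
    unfold T
    rw [← h]
    refine S_congr fun a b c d => ?_
    rw [hL c d, hM a c]; ring
  have c2 : S4 (fun a b c d => L a b * L c d * (M a d * M b c)) = -T L M := by
    unfold T
    rw [← S_neg]
    refine S_congr fun a b c d => ?_
    rw [hM a d]; ring
  have c3 : S4 (fun a b c d => L a c * L b d * (M a b * M c d)) = T L M := by
    rw [← c1]
    exact S23 (fun a b c d => L a b * L c d * (M a c * M b d))
  have c4 : S4 (fun a b c d => L a c * L b d * (M a d * M b c)) = T L M := by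
    have h : S4 (fun a b c d => L a c * L b d * (M a d * M b c)) =
        S4 (fun a b c d => L a b * L c d * (M a d * M c b)) :=
      S23 (fun a b c d => L a b * L c d * (M a d * M c b))
    rw [h, ← neg_neg (T L M), ← c2, ← S_neg]
    refine S_congr fun a b c d => ?_
    rw [hM b c]; ring
  have c5 : S4 (fun a b c d => L a d * L b c * (M a b * M c d)) = -T L M := by
    rw [← c3]
    have h : S4 (fun a b c d => L a d * L b c * (M a b * M c d)) =
        S4 (fun a b c d => L a c * L b d * (M a b * M d c)) :=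
      S34 (fun a b c d => L a c * L b d * (M a b * M d c))
    rw [h, ← S_neg]
    refine S_congr fun a b c d => ?_
    rw [hM c d]; ring
  have c6 : S4 (fun a b c d => L a d * L b c * (M a c * M b d)) = T L M := by
    have h : S4 (fun a b c d => L a d * L b c * (M a c * M b d)) =
        S4 (fun a b c d => L a c * L b d * (M a d * M b c)) :=
      S34 (fun a b c d => L a c * L b d * (M a d * M b c))
    rw [h, c4]
  have key : S4 (fun a b c d => w L a b c d * w M a b c d) =
      S4 (fun a b c d => L a b * L c d * (M a b * M c d)) +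
      S4 (fun a b c d => L a c * L b d * (M a c * M b d)) +
      S4 (fun a b c d => L a d * L b c * (M a d * M b c)) -
      S4 (fun a b c d => L a b * L c d * (M a c * M b d)) +
      S4 (fun a b c d => L a b * L c d * (M a d * M b c)) -
      S4 (fun a b c d => L a c * L b d * (M a b * M c d)) -
      S4 (fun a b c d => L a c * L b d * (M a d * M b c)) +
      S4 (fun a b c d => L a d * L b c * (M a b * M c d)) -
      S4 (fun a b c d => L a d * L b c * (M a c * M b d)) := by
    simp only [sub_eq_add_neg, ← S_neg, ← S_add]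
    refine S_congr fun a b c d => ?_
    simp only [w]
    ring
  rw [key, b2, b1, e0, c1, c2, c3, c4, c5, c6]
  ring

private theorem S4_cs (f g : Fin n → Fin n → Fin n → Fin n → ℝ) :
    S4 (fun a b c d => f a b c d * g a b c d) ^ 2 ≤
      S4 (fun a b c d => f a b c d ^ 2) * S4 (fun a b c d => g a b c d ^ 2) := by
  have e : ∀ h : Fin n → Fin n → Fin n → Fin n → ℝ, S4 h =
      ∑ x : Fin n × Fin n × Fin n × Fin n, h x.1 x.2.1 x.2.2.1 x.2.2.2 := by
    intro h
    unfold S4
    simp only [Fintype.sum_prod_type]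
  rw [e, e, e]
  exact Finset.sum_mul_sq_le_sq_mul_sq _ _ _

private theorem sq_symm {L : Mat n} (hL : Skew L) (i j : Fin n) : (L * L) j i = (L * L) i j := by
  simp only [Matrix.mul_apply]
  refine Finset.sum_congr rfl fun k _ => ?_
  rw [hL k j, hL i k]; ring

private theorem tr_sq_sq {L M : Mat n} (hM : Skew M) :
    (L * L * M * M).trace = ∑ x : Fin n × Fin n, (L * L) x.1 x.2 * (M * M) x.1 x.2 := by
  rw [Matrix.mul_assoc (L * L) M M, Fintype.sum_prod_type]
  simp only [Matrix.trace, Matrix.diag]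
  refine Finset.sum_congr rfl fun i _ => ?_
  rw [Matrix.mul_apply]
  refine Finset.sum_congr rfl fun j _ => ?_
  rw [sq_symm hM i j]

private theorem pair_aux {x y a b a' b' u v : ℝ} (ha : 0 ≤ a) (hb : 0 ≤ b) (ha' : 0 ≤ a')
    (hb' : 0 ≤ b') (hx : x ^ 2 ≤ a * b) (hy : y ^ 2 ≤ a' * b') (hu : 0 ≤ u) (hv : 0 ≤ v)
    (h1 : a + a' = u ^ 2) (h2 : b + b' = v ^ 2) : x + y ≤ u * v := by
  have h3 : (x * y) ^ 2 ≤ (a * b) * (a' * b') := by
    rw [mul_pow]
    exact mul_le_mul hx hy (sq_nonneg y) (mul_nonneg ha hb)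
  have h4 : (2 * (x * y)) ^ 2 ≤ (a * b' + a' * b) ^ 2 := by
    nlinarith [sq_nonneg (a * b' - a' * b)]
  have h5 : 2 * (x * y) ≤ a * b' + a' * b :=
    (le_abs_self _).trans (abs_le_of_sq_le_sq h4
      (add_nonneg (mul_nonneg ha hb') (mul_nonneg ha' hb)))
  have h6 : (x + y) ^ 2 ≤ (u * v) ^ 2 := by
    have e : (u * v) ^ 2 = (a + a') * (b + b') := by rw [h1, h2]; ring
    rw [e]
    nlinarith
  exact (le_abs_self _).trans (abs_le_of_sq_le_sq h6 (mul_nonneg hu hv))

private theorem pair_le {L M : Mat n} (hL : Skew L) (hM : Skew M) :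
    (ip L M ^ 2 - (1 / 2) * (L * M * L * M).trace) + (1 / 2) * (L * L * M * M).trace ≤
      ip L L * ip M M := by
  have h1 := S4_cs (w L) (w M)
  have h2 : ∀ K : Mat n, S4 (fun a b c d => w K a b c d ^ 2) =
      S4 (fun a b c d => w K a b c d * w K a b c d) := fun K => S_congr fun a b c d => by ring
  rw [h2, h2, ww hL hM, ww hL hL, ww hM hM] at h1
  have h5 : 0 ≤ S4 (fun a b c d => w L a b c d * w L a b c d) := by
    unfold S4
    exact Finset.sum_nonneg fun a _ => Finset.sum_nonneg fun b _ => Finset.sum_nonneg fun c _ =>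
      Finset.sum_nonneg fun d _ => mul_self_nonneg _
  rw [ww hL hL] at h5
  have h6 : 0 ≤ S4 (fun a b c d => w M a b c d * w M a b c d) := by
    unfold S4
    exact Finset.sum_nonneg fun a _ => Finset.sum_nonneg fun b _ => Finset.sum_nonneg fun c _ =>
      Finset.sum_nonneg fun d _ => mul_self_nonneg _
  rw [ww hM hM] at h6
  have t1 := tr_sq_sq (L := L) hM
  have t2 := tr_sq_sq (L := L) hL
  have t3 := tr_sq_sq (L := M) hM
  have cs := Finset.sum_mul_sq_le_sq_mul_sq Finset.univ
    (fun x : Fin n × Fin n => (L * L) x.1 x.2) (fun x : Fin n × Fin n => (M * M) x.1 x.2)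
  have e2 : ∑ x : Fin n × Fin n, (L * L) x.1 x.2 ^ 2 = (L * L * L * L).trace := by
    rw [t2]
    exact Finset.sum_congr rfl fun x _ => sq _
  have e3 : ∑ x : Fin n × Fin n, (M * M) x.1 x.2 ^ 2 = (M * M * M * M).trace := by
    rw [t3]
    exact Finset.sum_congr rfl fun x _ => sq _
  rw [← t1, e2, e3] at cs
  have p2 : 0 ≤ (L * L * L * L).trace := by
    rw [← e2]
    exact Finset.sum_nonneg fun x _ => sq_nonneg _
  have p3 : 0 ≤ (M * M * M * M).trace := by
    rw [← e3]
    exact Finset.sum_nonneg fun x _ => sq_nonneg _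
  refine pair_aux (a := ip L L ^ 2 - (1 / 2) * (L * L * L * L).trace)
    (b := ip M M ^ 2 - (1 / 2) * (M * M * M * M).trace)
    (a' := (1 / 2) * (L * L * L * L).trace) (b' := (1 / 2) * (M * M * M * M).trace)
    (by linarith) (by linarith) (by linarith) (by linarith) ?_ ?_ (ip_self_nonneg L)
    (ip_self_nonneg M) (by ring) (by ring)
  · nlinarith
  · nlinarith

private theorem A1_eq : A1 N = ∑ i, ∑ j, (N i * N i * N j * N j).trace := by
  unfold A1 X1
  rw [neg_mul_neg, Finset.sum_mul, Matrix.trace_sum]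
  refine Finset.sum_congr rfl fun i _ => ?_
  rw [Finset.mul_sum, Matrix.trace_sum]
  refine Finset.sum_congr rfl fun j _ => ?_
  rw [Matrix.mul_assoc (N i * N i) (N j) (N j)]

theorem tau_half (hs : ∀ i, Skew (N i)) :
    tau N + (1 / 2) * A1 N ≤ (∑ i, ip (N i) (N i)) ^ 2 := by
  have e : tau N + (1 / 2) * A1 N = ∑ i, ∑ j,
      ((ip (N i) (N j) ^ 2 - (1 / 2) * (N i * N j * N i * N j).trace) +
        (1 / 2) * (N i * N i * N j * N j).trace) := by
    unfold tau
    rw [A1_eq, Finset.mul_sum, ← Finset.sum_add_distrib]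
    refine Finset.sum_congr rfl fun i _ => ?_
    rw [Finset.mul_sum, ← Finset.sum_add_distrib]
  rw [e, sq, Finset.sum_mul]
  refine Finset.sum_le_sum fun i _ => ?_
  rw [Finset.mul_sum]
  exact Finset.sum_le_sum fun j _ => pair_le (hs i) (hs j)

theorem tau_nonneg (hs : ∀ i, Skew (N i)) : 0 ≤ tau N := by
  have e : 12 * tau N = S4 (fun a b c d => (∑ i, w (N i) a b c d) * ∑ j, w (N j) a b c d) := by
    have h1 : 12 * tau N = ∑ i, ∑ j, S4 (fun a b c d => w (N i) a b c d * w (N j) a b c d) := by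
      unfold tau
      rw [Finset.mul_sum]
      refine Finset.sum_congr rfl fun i _ => ?_
      rw [Finset.mul_sum]
      exact Finset.sum_congr rfl fun j _ => (ww (hs i) (hs j)).symm
    rw [h1]
    have e4 : ∀ h : Fin n → Fin n → Fin n → Fin n → ℝ, S4 h =
        ∑ x : Fin n × Fin n × Fin n × Fin n, h x.1 x.2.1 x.2.2.1 x.2.2.2 := by
      intro h
      unfold S4
      simp only [Fintype.sum_prod_type]
    simp only [e4]
    have h2 : ∀ i : Fin m, ∑ j, ∑ x : Fin n × Fin n × Fin n × Fin n,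
        w (N i) x.1 x.2.1 x.2.2.1 x.2.2.2 * w (N j) x.1 x.2.1 x.2.2.1 x.2.2.2 =
        ∑ x : Fin n × Fin n × Fin n × Fin n, ∑ j,
        w (N i) x.1 x.2.1 x.2.2.1 x.2.2.2 * w (N j) x.1 x.2.1 x.2.2.1 x.2.2.2 :=
      fun i => Finset.sum_comm
    rw [Finset.sum_congr rfl fun i _ => h2 i, Finset.sum_comm]
    refine Finset.sum_congr rfl fun x _ => ?_
    rw [Finset.sum_mul]
    exact Finset.sum_congr rfl fun i _ => (Finset.mul_sum _ _ _).symm
  have h : 0 ≤ S4 (fun a b c d => (∑ i, w (N i) a b c d) * ∑ j, w (N j) a b c d) := by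
    unfold S4
    exact Finset.sum_nonneg fun a _ => Finset.sum_nonneg fun b _ => Finset.sum_nonneg fun c _ =>
      Finset.sum_nonneg fun d _ => mul_self_nonneg _
  linarith

end HopfQ5
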