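import Pool.Agent.Lib.MP_4a593f_gt.Q5.Defs
import Pool.Agent.Lib.MP_4a593f_gt.Q4.Cl
import Pool.Agent.Lib.MP_4a593f_gt.N2.Q1
import Pool.Agent.Lib.MP_4a593f_gt.N2.Q2

/-! Task Wdg1: `S + Q` in terms of `[wdg, ctr]`.

`X_LM = wdg L (ctr M ψ) - ctr M (wdg L ψ)`.  From `hopB_hop` and `hop_lie2` (`hop = wdg - ctr`,
`hopB = wdg + ctr`; the `wdg` commute with each other, so do the `ctr`):
`Ss (ac L M) ψ = -(X_LM + X_ML)`, `rho (br L M) ψ = -(X_LM - X_ML)` (up to sign), hence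
`SS + QQ = 4 ∑_ij ‖X_ij‖²`.
`SQ_le`: `‖x - y‖² = ‖x‖² + ‖y‖² - 2⟨x,y⟩` and
`∑_ij ⟨wdg_i ctr_j ψ, ctr_j wdg_i ψ⟩ = ⟨Aψ, Bψ⟩`, `A = ∑ wdg_j ctr_j`, `B = ∑ ctr_i wdg_i`
(adjointness and `ctr_i ctr_j = ctr_j ctr_i`), `B - A = -Ss X1` (`[ctr L, wdg L] = |L|² + ρ_{L²}`),
`-2⟨Aψ,Bψ⟩·4 = -2‖(A+B)ψ‖² + 2‖(B-A)ψ‖²`; `‖wdg_i ctr_jψ‖² ≤ a |N_i|² ‖ctr_jψ‖²` etc. -/

open scoped BigOperators

namespace HopfQ5

open HopfBig HopfN2 HopfQ4 HopfD8

variable {n m p : ℕ} {c ε : ℝ} {N P : Fin m → Mat n} {ψ : Fk n}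

private theorem W1_wdg_apply (L : Mat n) (f : Fk n) :
    wdg L f = (1 / 2 : ℝ) • ∑ a, ∑ b, L a b • cr a (cr b f) := by
  simp only [wdg, LinearMap.coe_mk, AddHom.coe_mk, LinearMap.smul_apply,
    LinearMap.sum_apply, LinearMap.comp_apply]

private theorem W1_ctr_apply (L : Mat n) (f : Fk n) :
    ctr L f = (1 / 2 : ℝ) • ∑ a, ∑ b, L a b • an b (an a f) := by
  simp only [ctr, LinearMap.coe_mk, AddHom.coe_mk, LinearMap.smul_apply,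
    LinearMap.sum_apply, LinearMap.comp_apply]

private theorem W1_adj (L : Mat n) (f g : Fk n) :
    inner ℝ (wdg L f) g = inner ℝ f (ctr L g) := by
  rw [W1_wdg_apply, W1_ctr_apply]
  simp only [sum_inner, inner_sum, real_inner_smul_left, real_inner_smul_right]
  refine congrArg _ ?_
  refine Finset.sum_congr rfl fun a _ => Finset.sum_congr rfl fun b _ => ?_
  rw [inner_cr, inner_cr]

private theorem W1_wdg_cr (L : Mat n) (c : Fin n) (f : Fk n) :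
    wdg L (cr c f) = cr c (wdg L f) := by
  rw [W1_wdg_apply, W1_wdg_apply, map_smul, map_sum]
  congr 1
  refine Finset.sum_congr rfl fun a _ => ?_
  rw [map_sum]
  refine Finset.sum_congr rfl fun b _ => ?_
  rw [map_smul, cr_cr b c, map_neg, cr_cr a c, neg_neg]

private theorem W1_wdg_comm (L M : Mat n) (f : Fk n) : wdg L (wdg M f) = wdg M (wdg L f) := by
  rw [W1_wdg_apply M f, W1_wdg_apply M (wdg L f), map_smul, map_sum]
  congr 1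
  refine Finset.sum_congr rfl fun a _ => ?_
  rw [map_sum]
  refine Finset.sum_congr rfl fun b _ => ?_
  rw [map_smul, W1_wdg_cr, W1_wdg_cr]

private theorem W1_ctr_comm (L M : Mat n) (f : Fk n) : ctr L (ctr M f) = ctr M (ctr L f) := by
  refine ext_inner_left ℝ fun g => ?_
  rw [← W1_adj, ← W1_adj, ← W1_adj, ← W1_adj, W1_wdg_comm]

/-- the commutator -/
private noncomputable def W1x (L M : Mat n) (f : Fk n) : Fk n :=
  wdg L (ctr M f) - ctr M (wdg L f)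

private theorem W1_Ss {L M : Mat n} (hL : Skew L) (hM : Skew M) (f : Fk n) :
    Ss (ac L M) f = -(W1x L M f + W1x M L f) := by
  rw [← hopB_hop hL hM]
  have e : ∀ x : Fk n, hopB L x = wdg L x + ctr L x := fun x => rfl
  rw [e, e, hop_apply, hop_apply, map_sub, map_sub, map_add, map_add, W1_wdg_comm L M,
    W1_ctr_comm L M]
  unfold W1x
  abel

private theorem W1_br {L M : Mat n} (hL : Skew L) (hM : Skew M) (f : Fk n) :
    rho (br L M) f = -(W1x L M f - W1x M L f) := by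
  rw [← hop_lie2 hL hM, hop_apply, hop_apply, hop_apply, hop_apply, map_sub, map_sub, map_sub,
    map_sub, W1_wdg_comm L M, W1_ctr_comm L M]
  unfold W1x
  abel

private theorem W1_par (x y : Fk n) : ‖-(x + y)‖ ^ 2 + ‖-(x - y)‖ ^ 2 = 2 * ‖x‖ ^ 2 + 2 * ‖y‖ ^ 2 := by
  have h := parallelogram_law_with_norm ℝ x y
  rw [norm_neg, norm_neg]
  nlinarith [h]

theorem SQ_eq (hs : ∀ i, Skew (N i)) :
    SS ψ N N + QQ ψ N N =
      4 * ∑ i, ∑ j, ‖wdg (N i) (ctr (N j) ψ) - ctr (N j) (wdg (N i) ψ)‖ ^ 2 := by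
  have h1 : SS ψ N N + QQ ψ N N = ∑ i, ∑ j, (2 * ‖W1x (N i) (N j) ψ‖ ^ 2 +
      2 * ‖W1x (N j) (N i) ψ‖ ^ 2) := by
    unfold SS QQ
    rw [← Finset.sum_add_distrib]
    refine Finset.sum_congr rfl fun i _ => ?_
    rw [← Finset.sum_add_distrib]
    refine Finset.sum_congr rfl fun j _ => ?_
    rw [W1_Ss (hs i) (hs j), W1_br (hs i) (hs j), W1_par]
  rw [h1]
  simp only [Finset.sum_add_distrib]
  rw [Finset.sum_comm (f := fun i j => 2 * ‖W1x (N j) (N i) ψ‖ ^ 2)]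
  simp only [← Finset.mul_sum]
  unfold W1x
  ring

/-- the sums of the two kinds of squares -/
private theorem W1_sums (hs : ∀ i, Skew (N i)) (htr : ∑ i, ip (N i) (N i) = 1) (hp : 2 ≤ p)
    (hd : Deg p ψ)
    {a b : ℝ} (H1 : ∀ L : Mat n, Skew L → ∀ χ : Fk n, Deg (p - 2) χ →
      ‖wdg L χ‖ ^ 2 ≤ a * ip L L * ‖χ‖ ^ 2)
    (H2 : ∀ L : Mat n, Skew L → ∀ χ : Fk n, Deg (p + 2) χ →
      ‖ctr L χ‖ ^ 2 ≤ b * ip L L * ‖χ‖ ^ 2) :
    ∑ i, ∑ j, (‖wdg (N i) (ctr (N j) ψ)‖ ^ 2 + ‖ctr (N j) (wdg (N i) ψ)‖ ^ 2) ≤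
      a * RN ψ N + b * WN ψ N := by
  obtain ⟨q, rfl⟩ : ∃ q, p = q + 2 := ⟨p - 2, by omega⟩
  have e1 : ∑ i, ∑ j, ‖wdg (N i) (ctr (N j) ψ)‖ ^ 2 ≤ a * RN ψ N := by
    calc ∑ i, ∑ j, ‖wdg (N i) (ctr (N j) ψ)‖ ^ 2
        ≤ ∑ i, ∑ j, a * ip (N i) (N i) * ‖ctr (N j) ψ‖ ^ 2 := by
          refine Finset.sum_le_sum fun i _ => Finset.sum_le_sum fun j _ => ?_
          exact H1 (N i) (hs i) _ (deg_ctr hd (N j))
      _ = a * RN ψ N := by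
          unfold RN
          simp only [← Finset.mul_sum]
          rw [← Finset.sum_mul, ← Finset.mul_sum, htr, mul_one]
  have e2 : ∑ i, ∑ j, ‖ctr (N j) (wdg (N i) ψ)‖ ^ 2 ≤ b * WN ψ N := by
    calc ∑ i, ∑ j, ‖ctr (N j) (wdg (N i) ψ)‖ ^ 2
        ≤ ∑ i, ∑ j, b * ip (N j) (N j) * ‖wdg (N i) ψ‖ ^ 2 := by
          refine Finset.sum_le_sum fun i _ => Finset.sum_le_sum fun j _ => ?_
          exact H2 (N j) (hs j) _ (deg_wdg hd (N i))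
      _ = b * WN ψ N := by
          unfold WN
          rw [Finset.sum_comm]
          simp only [← Finset.mul_sum]
          rw [← Finset.sum_mul, ← Finset.mul_sum, htr, mul_one]
  simp only [Finset.sum_add_distrib]
  linarith

private theorem W1_rho_Ss (S : Fin m → Mat n) (f : Fk n) :
    ∑ i, Ss (S i) f = Ss (∑ i, S i) f := by
  have e : ∀ (T : Mat n) (x : Fk n), Ss T x = rho T x - (T.trace / 2) • x := fun T x => rfl
  simp only [e]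
  rw [Finset.sum_sub_distrib, ← Finset.sum_smul, map_sum, LinearMap.sum_apply, Matrix.trace_sum,
    Finset.sum_div]

private theorem W1_Ss_smul (r : ℝ) (S : Mat n) (f : Fk n) : Ss (r • S) f = r • Ss S f := by
  have e : ∀ (T : Mat n) (x : Fk n), Ss T x = rho T x - (T.trace / 2) • x := fun T x => rfl
  rw [e, e, map_smul, LinearMap.smul_apply, Matrix.trace_smul, smul_sub, smul_smul, smul_eq_mul,
    mul_div_assoc]

private theorem W1_diag (hs : ∀ i, Skew (N i)) :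
    ∑ i, W1x (N i) (N i) ψ = Ss (X1 N) ψ := by
  have h1 : ∀ i, W1x (N i) (N i) ψ = Ss (-(N i * N i)) ψ := by
    intro i
    have h2 := W1_Ss (hs i) (hs i) ψ
    have h3 : ac (N i) (N i) = (-2 : ℝ) • (-(N i * N i)) := by
      unfold ac
      rw [smul_neg, neg_smul, neg_neg, two_smul]
    rw [h3, W1_Ss_smul] at h2
    have h4 : (2 : ℝ) • W1x (N i) (N i) ψ = (2 : ℝ) • Ss (-(N i * N i)) ψ := by
      have h5 : (2 : ℝ) • W1x (N i) (N i) ψ = -((-2 : ℝ) • Ss (-(N i * N i)) ψ) := by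
        rw [h2, neg_neg, two_smul]
      rw [h5, neg_smul, neg_neg]
    exact smul_right_injective _ (two_ne_zero) h4
  simp only [h1]
  rw [W1_rho_Ss, Finset.sum_neg_distrib]
  rfl

/-- the cross terms -/
private theorem W1_cross (hs : ∀ i, Skew (N i)) :
    -(8 * ∑ i, ∑ j, inner ℝ (wdg (N i) (ctr (N j) ψ)) (ctr (N j) (wdg (N i) ψ))) ≤
      2 * ZN ψ N := by
  set A : Fk n := ∑ j, wdg (N j) (ctr (N j) ψ) with hA
  set B : Fk n := ∑ i, ctr (N i) (wdg (N i) ψ) with hB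
  have h1 : ∑ i, ∑ j, inner ℝ (wdg (N i) (ctr (N j) ψ)) (ctr (N j) (wdg (N i) ψ)) =
      inner ℝ A B := by
    rw [hA, hB, sum_inner]
    rw [Finset.sum_comm]
    refine Finset.sum_congr rfl fun j _ => ?_
    rw [inner_sum]
    refine Finset.sum_congr rfl fun i _ => ?_
    rw [← W1_adj, W1_wdg_comm, W1_adj]
  have h2 : A - B = Ss (X1 N) ψ := by
    rw [← W1_diag hs, hA, hB, ← Finset.sum_sub_distrib]
    rfl
  have h3 : ZN ψ N = ‖A - B‖ ^ 2 := by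
    unfold ZN
    rw [h2]
  rw [h1, h3]
  have h4 := norm_sub_sq_real A B
  have h5 := norm_add_sq_real A B
  nlinarith [sq_nonneg ‖A + B‖]

private theorem W1_expand : ∑ i, ∑ j, ‖wdg (N i) (ctr (N j) ψ) - ctr (N j) (wdg (N i) ψ)‖ ^ 2 =
    ∑ i, ∑ j, (‖wdg (N i) (ctr (N j) ψ)‖ ^ 2 + ‖ctr (N j) (wdg (N i) ψ)‖ ^ 2) -
      2 * ∑ i, ∑ j, inner ℝ (wdg (N i) (ctr (N j) ψ)) (ctr (N j) (wdg (N i) ψ)) := by
  rw [Finset.mul_sum, ← Finset.sum_sub_distrib]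
  refine Finset.sum_congr rfl fun i _ => ?_
  rw [Finset.mul_sum, ← Finset.sum_sub_distrib]
  refine Finset.sum_congr rfl fun j _ => ?_
  rw [norm_sub_sq_real]
  ring

theorem SQ_le (hs : ∀ i, Skew (N i)) (htr : ∑ i, ip (N i) (N i) = 1) (hp : 2 ≤ p) (hd : Deg p ψ)
    {a b : ℝ} (H1 : ∀ L : Mat n, Skew L → ∀ χ : Fk n, Deg (p - 2) χ →
      ‖wdg L χ‖ ^ 2 ≤ a * ip L L * ‖χ‖ ^ 2)
    (H2 : ∀ L : Mat n, Skew L → ∀ χ : Fk n, Deg (p + 2) χ →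
      ‖ctr L χ‖ ^ 2 ≤ b * ip L L * ‖χ‖ ^ 2) :
    SS ψ N N + QQ ψ N N ≤ 4 * (a * RN ψ N + b * WN ψ N) + 2 * ZN ψ N := by
  rw [SQ_eq hs, W1_expand]
  have h1 := W1_sums hs htr hp hd H1 H2
  have h2 := W1_cross (ψ := ψ) hs
  linarith

theorem SQ_le' (hs : ∀ i, Skew (N i)) (htr : ∑ i, ip (N i) (N i) = 1) (hp : 2 ≤ p) (hd : Deg p ψ)
    {a b : ℝ} (H1 : ∀ L : Mat n, Skew L → ∀ χ : Fk n, Deg (p - 2) χ →
      ‖wdg L χ‖ ^ 2 ≤ a * ip L L * ‖χ‖ ^ 2)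
    (H2 : ∀ L : Mat n, Skew L → ∀ χ : Fk n, Deg (p + 2) χ →
      ‖ctr L χ‖ ^ 2 ≤ b * ip L L * ‖χ‖ ^ 2) :
    SS ψ N N + QQ ψ N N ≤ 8 * (a * RN ψ N + b * WN ψ N) := by
  rw [SQ_eq hs]
  have h1 := W1_sums hs htr hp hd H1 H2
  have h2 : ∑ i, ∑ j, ‖wdg (N i) (ctr (N j) ψ) - ctr (N j) (wdg (N i) ψ)‖ ^ 2 ≤
      2 * ∑ i, ∑ j, (‖wdg (N i) (ctr (N j) ψ)‖ ^ 2 + ‖ctr (N j) (wdg (N i) ψ)‖ ^ 2) := by
    rw [Finset.mul_sum]
    refine Finset.sum_le_sum fun i _ => ?_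
    rw [Finset.mul_sum]
    refine Finset.sum_le_sum fun j _ => ?_
    have h3 := parallelogram_law_with_norm ℝ (wdg (N i) (ctr (N j) ψ)) (ctr (N j) (wdg (N i) ψ))
    nlinarith [sq_nonneg ‖wdg (N i) (ctr (N j) ψ) + ctr (N j) (wdg (N i) ψ)‖]
  linarith

end HopfQ5
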