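import Pool.Agent.Lib.MP_4a593f_gt.Q5.L12
import Pool.Agent.Lib.MP_4a593f_gt.N2.Q2

/-! Task Wdg2: norms of `wdg L`, `ctr L`.

`ctr_of_wdg`, `wdg_of_ctr`: `wdg L` (degree `q`) and `ctr L` (degree `q+2`) are adjoint, so they
have the same norm (`‖ctr χ‖² = ⟨χ, wdg (ctr χ)⟩ ≤ ‖χ‖ √K ‖ctr χ‖`).
`wdg_low`: induction `q → q+2` with `WR1` and `x_bounds`:
`‖wdg L χ‖² ≤ ‖ctr L χ‖² + |L|²‖χ‖²`.  `wdg_high`: downward induction from `q ≥ n-1`
(`wdg L χ = 0`): for `χ` of degree `q+2`, `‖ctr L χ‖² ≤ ‖wdg L χ‖² + |L|²‖χ‖²`. -/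

open scoped BigOperators

namespace HopfQ5

open HopfBig HopfN2 HopfQ4 HopfD8

variable {n m p : ℕ} {c ε : ℝ} {N P : Fin m → Mat n} {ψ : Fk n}

private theorem Wdg2_wdg_apply (L : Mat n) (ψ : Fk n) :
    wdg L ψ = (1 / 2 : ℝ) • ∑ a, ∑ b, L a b • cr a (cr b ψ) := by
  simp only [wdg, LinearMap.coe_mk, AddHom.coe_mk, LinearMap.smul_apply,
    LinearMap.sum_apply, LinearMap.comp_apply]

private theorem Wdg2_ctr_apply (L : Mat n) (ψ : Fk n) :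
    ctr L ψ = (1 / 2 : ℝ) • ∑ a, ∑ b, L a b • an b (an a ψ) := by
  simp only [ctr, LinearMap.coe_mk, AddHom.coe_mk, LinearMap.smul_apply,
    LinearMap.sum_apply, LinearMap.comp_apply]

private theorem Wdg2_adj (L : Mat n) (f g : Fk n) :
    inner ℝ (wdg L f) g = inner ℝ f (ctr L g) := by
  rw [Wdg2_wdg_apply, Wdg2_ctr_apply, real_inner_smul_left, real_inner_smul_right]
  simp only [sum_inner, inner_sum, real_inner_smul_left, real_inner_smul_right, inner_cr]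

private theorem Wdg2_ip_nonneg (L : Mat n) : 0 ≤ ip L L := by
  unfold ip
  refine mul_nonneg (by norm_num) (Finset.sum_nonneg fun i _ => Finset.sum_nonneg fun j _ => ?_)
  exact mul_self_nonneg _

private theorem Wdg2_alg {x y z K : ℝ} (hK : 0 ≤ K) (hx : 0 ≤ x) (hy : 0 ≤ y) (hz : 0 ≤ z)
    (h1 : x ^ 2 ≤ y * z) (h2 : y ^ 2 ≤ K * x ^ 2) : x ^ 2 ≤ K * z ^ 2 := by
  rcases eq_or_lt_of_le hx with h0 | h0
  · rw [← h0]
    have := mul_nonneg hK (sq_nonneg z)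
    simpa using this
  · have h3 : (x ^ 2) * (x ^ 2) ≤ (x ^ 2) * (K * z ^ 2) := by
      calc (x ^ 2) * (x ^ 2) ≤ (y * z) * (y * z) :=
            mul_le_mul h1 h1 (sq_nonneg _) (mul_nonneg hy hz)
        _ = y ^ 2 * z ^ 2 := by ring
        _ ≤ (K * x ^ 2) * z ^ 2 := mul_le_mul_of_nonneg_right h2 (sq_nonneg _)
        _ = (x ^ 2) * (K * z ^ 2) := by ring
    exact le_of_mul_le_mul_left h3 (by positivity)

theorem ctr_of_wdg {q : ℕ} {K : ℝ} (hK : 0 ≤ K) {L : Mat n}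
    (H : ∀ χ : Fk n, Deg q χ → ‖wdg L χ‖ ^ 2 ≤ K * ‖χ‖ ^ 2) {χ : Fk n} (hd : Deg (q + 2) χ) :
    ‖ctr L χ‖ ^ 2 ≤ K * ‖χ‖ ^ 2 := by
  have h1 := H (ctr L χ) (deg_ctr hd L)
  have h2 : ‖ctr L χ‖ ^ 2 ≤ ‖wdg L (ctr L χ)‖ * ‖χ‖ := by
    rw [← real_inner_self_eq_norm_sq, ← Wdg2_adj]
    exact real_inner_le_norm _ _
  exact Wdg2_alg hK (norm_nonneg _) (norm_nonneg _) (norm_nonneg _) h2 h1

theorem wdg_of_ctr {q : ℕ} {K : ℝ} (hK : 0 ≤ K) {L : Mat n}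
    (H : ∀ χ : Fk n, Deg (q + 2) χ → ‖ctr L χ‖ ^ 2 ≤ K * ‖χ‖ ^ 2) {χ : Fk n} (hd : Deg q χ) :
    ‖wdg L χ‖ ^ 2 ≤ K * ‖χ‖ ^ 2 := by
  have h1 := H (wdg L χ) (deg_wdg hd L)
  have h2 : ‖wdg L χ‖ ^ 2 ≤ ‖ctr L (wdg L χ)‖ * ‖χ‖ := by
    rw [← real_inner_self_eq_norm_sq, Wdg2_adj, real_inner_comm]
    exact real_inner_le_norm _ _
  exact Wdg2_alg hK (norm_nonneg _) (norm_nonneg _) (norm_nonneg _) h2 h1

theorem wdg_low {q : ℕ} {L : Mat n} (hL : Skew L) {χ : Fk n} (hd : Deg q χ) :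
    ‖wdg L χ‖ ^ 2 ≤ ((q / 2 : ℕ) + 1 : ℝ) * ip L L * ‖χ‖ ^ 2 := by
  have hip := Wdg2_ip_nonneg L
  have key : ∀ q : ℕ, ∀ χ : Fk n, Deg q χ →
      ‖wdg L χ‖ ^ 2 ≤ ((q / 2 : ℕ) + 1 : ℝ) * ip L L * ‖χ‖ ^ 2 := by
    intro q
    induction q using Nat.strong_induction_on with
    | _ q ih =>
      intro χ hχ
      have hw := WR1 hL χ
      have hx := (x_bounds hL χ).1
      by_cases hq : q ≤ 1
      · rw [ctr_small hq hχ, norm_zero] at hw
        have h2 : q / 2 = 0 := by omega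
        rw [h2, hw]
        push_cast
        linarith
      · obtain ⟨r, rfl⟩ : ∃ r, q = r + 2 := ⟨q - 2, by omega⟩
        have h3 : ‖ctr L χ‖ ^ 2 ≤ (((r / 2 : ℕ) + 1 : ℝ) * ip L L) * ‖χ‖ ^ 2 :=
          ctr_of_wdg (by positivity) (ih r (by omega)) hχ
        have h2 : (r + 2) / 2 = r / 2 + 1 := by omega
        rw [h2]
        push_cast
        linarith
  exact key q χ hd

theorem wdg_high {q : ℕ} {L : Mat n} (hL : Skew L) {χ : Fk n} (hd : Deg q χ) :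
    ‖wdg L χ‖ ^ 2 ≤ ((n - q) / 2 : ℕ) * ip L L * ‖χ‖ ^ 2 := by
  have hip := Wdg2_ip_nonneg L
  have key : ∀ k : ℕ, ∀ q : ℕ, n - q = k → ∀ χ : Fk n, Deg q χ →
      ‖wdg L χ‖ ^ 2 ≤ ((n - q) / 2 : ℕ) * ip L L * ‖χ‖ ^ 2 := by
    intro k
    induction k using Nat.strong_induction_on with
    | _ k ih =>
      intro q hk χ hχ
      by_cases hq : n < q + 2
      · have h0 : wdg L χ = 0 := by
          ext s
          rw [PiLp.zero_apply]
          apply deg_wdg hχ L s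
          have := s.card_le_univ
          rw [Fintype.card_fin] at this
          omega
        rw [h0, norm_zero, zero_pow two_ne_zero]
        positivity
      · have h1 : ∀ χ' : Fk n, Deg (q + 2) χ' →
            ‖ctr L χ'‖ ^ 2 ≤ (((n - q) / 2 : ℕ) * ip L L) * ‖χ'‖ ^ 2 := by
          intro χ' hχ'
          have hw := WR1 hL χ'
          have hx := (x_bounds hL χ').2
          have h2 := ih (n - (q + 2)) (by omega) (q + 2) rfl χ' hχ'
          have h3 : (n - q) / 2 = (n - (q + 2)) / 2 + 1 := by omega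
          rw [h3]
          push_cast
          linarith
        exact wdg_of_ctr (by positivity) h1 hχ
  exact key _ q rfl χ hd

end HopfQ5
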