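import Pool.Agent.Lib.MP_4a593f_gt.Q5.Ex
import Pool.Agent.Lib.MP_4a593f_gt.Q5.MM
import Pool.Agent.Lib.MP_4a593f_gt.Q5.III
import Pool.Agent.Lib.MP_4a593f_gt.Q5.L10
import Pool.Agent.Lib.MP_4a593f_gt.Q5.L11
import Pool.Agent.Lib.MP_4a593f_gt.Q5.L12
import Pool.Agent.Lib.MP_4a593f_gt.Q5.Wdg1
import Pool.Agent.Lib.MP_4a593f_gt.Q5.Wdg2
import Pool.Agent.Lib.MP_4a593f_gt.Q5.Num
import Pool.Agent.Lib.MP_4a593f_gt.Q5.Hodge
import Pool.Agent.Lib.MP_4a593f_gt.Q5.P3b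
import Pool.Agent.Lib.MP_4a593f_gt.Q5.Tau
import Pool.Agent.Lib.MP_4a593f_gt.Q4.CoreC

/-! Task B10: dimension 10.

`bd105`: as `B9` with `SQ_le'` (`a = b = 2`: `wdg_low` degree 3, `wdg_high` degree 5), `SB_fam`
with `SB_p` (`β = 1/5`), `bd3` for degrees 3 and 7 (`bd_hodge`), `num105`.
`bd104a`: `exists_critP` with `c0 = 37/12`, `ineqIII` with `β = 1/4` (`SB_p`), `Cp = 18/5` for
degree 6 from `mainC` (`10 (4 - 3.6) = 4 ≤ 2·3.6·0.6`), `Cm = 2` (`bd_triv`), `L10`, `L13`, `WR`,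
`QN_le_u`, `num104a`; `c < 4` by `mainC` with `C = 18/5`.
`bd104`: `bd_lim`: for every `c0 > 3` the same with `Cp = 37/12` (`bd104a` + `bd_hodge`) and
`num104b`. -/

open scoped BigOperators

namespace HopfQ5

open HopfBig HopfN2 HopfQ4 HopfD8

variable {n m p : ℕ} {c ε : ℝ} {N P : Fin m → Mat n} {ψ : Fk n}

private theorem b10_deg_smul {p : ℕ} {ψ : Fk n} (hd : Deg p ψ) (r : ℝ) : Deg p (r • ψ) := by
  intro s hs
  rw [PiLp.smul_apply, hd s hs, smul_zero]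

private theorem b10_exists {c0 : ℝ} (hc0 : 0 < c0) (hbd : ¬ Bd n m p c0) :
    ∃ (c ε : ℝ) (N P : Fin m → Mat n) (ψ : Fk n), c0 ≤ c ∧ 0 < ε ∧ CritP c ε N P p ψ := by
  unfold Bd at hbd
  push Not at hbd
  obtain ⟨N, P, hb, ψ, hd, hlt⟩ := hbd
  have hne : ψ ≠ 0 := by
    rintro rfl
    simp at hlt
  have hpos : 0 < ‖ψ‖ := norm_pos_iff.2 hne
  have hsq : (‖ψ‖⁻¹) ^ 2 * ‖ψ‖ ^ 2 = 1 := by
    field_simp
  have hn1 : ‖(‖ψ‖⁻¹ • ψ)‖ = 1 := by
    rw [norm_smul, norm_inv, norm_norm, inv_mul_cancel₀ hpos.ne']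
  refine exists_critP hc0 hb (b10_deg_smul hd _) hn1 ?_
  have e : ∀ L : Mat n, ‖rho L (‖ψ‖⁻¹ • ψ)‖ ^ 2 = (‖ψ‖⁻¹) ^ 2 * ‖rho L ψ‖ ^ 2 := by
    intro L
    rw [map_smul, norm_smul, norm_inv, norm_norm, mul_pow]
  simp only [e, ← Finset.mul_sum]
  have h1 : 0 < (‖ψ‖⁻¹) ^ 2 := by positivity
  have h2 := mul_lt_mul_of_pos_left hlt h1
  have h3 : (‖ψ‖⁻¹) ^ 2 * ((c0 * ∑ i, ip (N i) (N i)) * ‖ψ‖ ^ 2) =
      c0 * ∑ i, ip (N i) (N i) := by
    calc (‖ψ‖⁻¹) ^ 2 * ((c0 * ∑ i, ip (N i) (N i)) * ‖ψ‖ ^ 2)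
        = (c0 * ∑ i, ip (N i) (N i)) * ((‖ψ‖⁻¹) ^ 2 * ‖ψ‖ ^ 2) := by ring
      _ = c0 * ∑ i, ip (N i) (N i) := by rw [hsq, mul_one]
  rw [mul_sub] at h2
  linarith

private theorem b10_WN_nonneg : 0 ≤ WN ψ N := Finset.sum_nonneg fun _ _ => by positivity

private theorem b10_RN_nonneg : 0 ≤ RN ψ N := Finset.sum_nonneg fun _ _ => by positivity

private theorem b10_QQ_nonneg : 0 ≤ QQ ψ N N :=
  Finset.sum_nonneg fun _ _ => Finset.sum_nonneg fun _ _ => by positivity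

private theorem b10_c_le (h : CritP c ε N P p ψ) (hε : 0 < ε) {C : ℝ}
    (hC : ∑ i, ‖rho (N i) ψ‖ ^ 2 - ∑ j, ‖rho (P j) ψ‖ ^ 2 ≤ C * ∑ i, ip (N i) (N i)) : c ≤ C := by
  have h0 := h.zero
  unfold Hf at h0
  rw [h.trN, h.norm, one_pow, mul_one, mul_one] at h0
  rw [h.trN, mul_one] at hC
  have h1 : 0 ≤ ε * ∑ j, ip (P j) (P j) :=
    mul_nonneg hε.le (Finset.sum_nonneg fun j _ => ip_self_nonneg _)
  linarith

private theorem b10_bd_of_unit {C : ℝ} (H : ∀ N P : Fin m → Mat n, Bal N P → ∀ χ : Fk n,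
    Deg p χ → ‖χ‖ = 1 →
      ∑ i, ‖rho (N i) χ‖ ^ 2 - ∑ j, ‖rho (P j) χ‖ ^ 2 ≤ C * ∑ i, ip (N i) (N i)) :
    Bd n m p C := by
  intro N P hb ψ hd
  by_cases hne : ψ = 0
  · subst hne
    simp
  have hpos : 0 < ‖ψ‖ := norm_pos_iff.2 hne
  have hn1 : ‖(‖ψ‖⁻¹ • ψ)‖ = 1 := by
    rw [norm_smul, norm_inv, norm_norm, inv_mul_cancel₀ hpos.ne']
  have h1 := H N P hb _ (b10_deg_smul hd ‖ψ‖⁻¹) hn1
  have e : ∀ L : Mat n, ‖rho L ψ‖ ^ 2 = ‖ψ‖ ^ 2 * ‖rho L (‖ψ‖⁻¹ • ψ)‖ ^ 2 := by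
    intro L
    rw [map_smul, norm_smul, norm_inv, norm_norm, mul_pow, ← mul_assoc, ← mul_pow,
      mul_inv_cancel₀ hpos.ne', one_pow, one_mul]
  simp only [e, ← Finset.mul_sum]
  rw [← mul_sub, mul_comm (C * _)]
  exact mul_le_mul_of_nonneg_left h1 (sq_nonneg _)

theorem bd105 (m : ℕ) : Bd 10 m 5 (25 / 8) := by
  by_contra hbd
  obtain ⟨c, ε, N, P, ψ, hc, hε, h⟩ := b10_exists (by norm_num) hbd
  have hsN := h.bal.skN
  have hsP := h.bal.skP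
  have hc4 : c ≤ 4 := b10_c_le h hε
    (mainC (C := 4) (by norm_num) (by norm_num) h.bal h.norm)
  have hk := le_QN h hε.le
  have hCp : Bd 10 m (5 + 2) (5 / 2) := bd_hodge (p := 3) (by norm_num) (bd3 (by norm_num) m)
  have hCm : Bd 10 m (5 - 2) (5 / 2) := bd3 (by norm_num) m
  have hM := mainM h (by norm_num) hε (by linarith) hCp hCm
  have hL := L11 hsN h.deg h.norm
  have hg := geo h.bal (crit_orthP h (by linarith) hε)
  have hF := SQ_le' hsN h.trN (by norm_num) h.deg (a := 2) (b := 2)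
    (by
      intro L hL χ hχ
      have h1 := wdg_low hL hχ
      norm_num at h1 ⊢
      exact h1)
    (by
      intro L hL χ hχ
      refine ctr_of_wdg (q := 5) (K := 2 * ip L L) (by have := ip_self_nonneg L; linarith) ?_ hχ
      intro χ' hχ'
      have h1 := wdg_high hL hχ'
      norm_num at h1 ⊢
      exact h1)
  have hB := SB_fam (β := 1 / ((5 : ℕ) : ℝ)) (N := N) (ψ := ψ) (by positivity)
    (fun L hL => SB_p hL (by norm_num) h.deg h.norm) hsN h.trN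
  have hq := L10 hsN h.deg h.norm
  have ha := L13 hsN h.deg h.norm h.trN
  have hu := WR hsN h.norm h.trN
  have ha1 : 0 ≤ A1 N := X1_mul_nonneg hsN hsN
  have ha2 := X1_mul_nonneg hsN hsP
  push_cast at hB hq ha
  refine num105 hc hc4 hk b10_WN_nonneg b10_RN_nonneg b10_QQ_nonneg ha1 ha2 hu
    hM (t := tau N) (q := qN ψ N) hL hg ?_ hB ?_ ?_
  · linarith
  · linarith
  · linarith

theorem bd104a (m : ℕ) : Bd 10 m 4 (37 / 12) := by
  by_contra hbd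
  obtain ⟨c, ε, N, P, ψ, hc, hε, h⟩ := b10_exists (by norm_num) hbd
  have hsN := h.bal.skN
  have hc4 : c ≤ 18 / 5 := b10_c_le h hε
    (mainC (C := 18 / 5) (by norm_num) (by norm_num) h.bal h.norm)
  have hk := le_QN h hε.le
  have hCp : Bd 10 m (4 + 2) (18 / 5) :=
    b10_bd_of_unit fun N P hb χ _ hχ => mainC (by norm_num) (by norm_num) hb hχ
  have hCm : Bd 10 m (4 - 2) 2 := by
    have h1 : Bd 10 m 2 ((2 : ℕ) : ℝ) := bd_triv
    norm_num at h1 ⊢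
    exact h1
  have hI := ineqIII h (by norm_num) hε (by linarith) (by linarith) (β := 1 / ((4 : ℕ) : ℝ))
    (by positivity) (fun L hL => SB_p hL (by norm_num) h.deg h.norm) hCp hCm
  have hq := L10 hsN h.deg h.norm
  have ha := L13 hsN h.deg h.norm h.trN
  have hu := WR hsN h.norm h.trN
  have hku := QN_le_u hsN h.deg (ψ := ψ) (N := N)
  push_cast at hI hq ha hku
  refine num104a hc (by linarith) hk hku b10_WN_nonneg b10_RN_nonneg hu
    (q := qN ψ N) ?_ ?_ hI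
  · linarith
  · linarith

theorem bd104 (m : ℕ) : Bd 10 m 4 3 := by
  refine bd_lim fun C' hC' => ?_
  by_contra hbd
  obtain ⟨c, ε, N, P, ψ, hc, hε, h⟩ := b10_exists (by linarith) hbd
  have hsN := h.bal.skN
  have hc4 : c ≤ 18 / 5 := b10_c_le h hε
    (mainC (C := 18 / 5) (by norm_num) (by norm_num) h.bal h.norm)
  have hk := le_QN h hε.le
  have hCp : Bd 10 m (4 + 2) (37 / 12) := bd_hodge (p := 4) (by norm_num) (bd104a m)
  have hCm : Bd 10 m (4 - 2) 2 := by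
    have h1 : Bd 10 m 2 ((2 : ℕ) : ℝ) := bd_triv
    norm_num at h1 ⊢
    exact h1
  have hI := ineqIII h (by norm_num) hε (by linarith) (by linarith) (β := 1 / ((4 : ℕ) : ℝ))
    (by positivity) (fun L hL => SB_p hL (by norm_num) h.deg h.norm) hCp hCm
  have hq := L10 hsN h.deg h.norm
  have ha := L13 hsN h.deg h.norm h.trN
  have hu := WR hsN h.norm h.trN
  have hku := QN_le_u hsN h.deg (ψ := ψ) (N := N)
  push_cast at hI hq ha hku
  refine num104b (by linarith) (by linarith) hk hku b10_WN_nonneg b10_RN_nonneg hu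
    (q := qN ψ N) ?_ ?_ hI
  · linarith
  · linarith

end HopfQ5
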