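import Pool.Agent.Lib.MP_4a593f_gt.Q5.SB
import Pool.Agent.Lib.MP_4a593f_gt.Q5.SBf
import Pool.Agent.Lib.MP_4a593f_gt.Q5.L10
import Pool.Agent.Lib.MP_4a593f_gt.Q5.L11
import Pool.Agent.Lib.MP_4a593f_gt.Q5.L12
import Pool.Agent.Lib.MP_4a593f_gt.Q4.CoreC

/-! Task G: a constant for all degrees.

As `mainC` (Q4/CoreC.lean) for `Crit` (`exists_crit`, `hform_sum`, `star0`, `geo`, `crit_orth`);
`QN ≥ c` from `h.zero`.  For `c ≥ 4` `main4` gives a contradiction (or: if `C ≥ 4` use `main4`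
directly), so `C ≤ c < 4`.  Then with `SB_fam` (`β = 2/n`, `SB_n`), `L11`, `2τ ≤ a2`:
`(c-2)² a1 + 2(c-2) q ≤ 2(4-c)(1 - 2c/n)`; `a1 ≥ 4/n` (trace), `q p(n-p) ≥ (c-2)²` (`L10`, `WR`:
`QN - 2u + 4R = QN + 2(W+R) - 2 ≥ c - 2`), `p(n-p) ≤ n²/4`.  Strictness: `n(4-c)(n-2c) <
2n(c-2)² + 4(c-2)³` for `c > C`; at `c = C` use the strict term `ε` or argue with `c0 > C`
(`exists_crit` for every `c0 > C` close to `C`, then let `c0 → C`: the bound for all `C' > C`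
implies the bound for `C`). -/

open scoped BigOperators

namespace HopfQ5

open HopfBig HopfN2 HopfQ4 HopfD8

variable {n m p : ℕ} {c ε : ℝ} {N P : Fin m → Mat n} {ψ : Fk n}

private theorem arithG {n c C ε a1 a2 a3 τ S Q SP QP QPP QN q p W R u : ℝ} (hn : 1 ≤ n)
    (hC3 : 3 ≤ C)
    (hG : n * (4 - C) * (n - 2 * C) ≤ 2 * n * (C - 2) ^ 2 + 4 * (C - 2) ^ 3)
    (hc : C < c) (hε : 0 < ε) (ha2 : 0 ≤ a2) (ha3 : 0 ≤ a3)
    (h1n : 4 ≤ n * a1) (hSP : 0 ≤ SP) (hQ : 0 ≤ Q) (hQPP : 0 ≤ QPP) (hgeo : 2 * τ ≤ a2)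
    (hform : 0 ≤ S + Q - SP - QP + 2 * ((c - 1) * a1 + (1 + ε) * a2))
    (hstar : ((c - 1) * ((c - 1) * a1 + (1 + ε) * a2) + (1 + ε) * ((c - 1) * a2 + (1 + ε) * a3)) +
      (((c - 1) * a1 + (1 + ε) * a2) - ((c - 1) * a2 + (1 + ε) * a3)) +
      ((1 / 2) * Q - QP + (1 / 2) * QPP) ≤ 0)
    (hE : S + Q + 4 * q ≤ 2 * a1 + 4 * τ) (hS : S + 4 * (2 / n) * QN ≤ 4) (hQN : c ≤ QN)
    (hq : (QN - 2 * u + 4 * R) ^ 2 ≤ p * (n - p) * q) (hWR : W - R = 1 - u) (hW : 0 ≤ W)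
    (hR : 0 ≤ R) (hq0 : 0 ≤ q) : False := by
  have hc3 : 3 < c := by linarith
  have hn0 : 0 < n := by linarith
  have ha1 : 0 < a1 := by
    by_contra hcon
    push Not at hcon
    nlinarith
  have h3 : 0 ≤ ε * (1 + ε) * a3 := by positivity
  have h4 : 0 ≤ ε * (2 * c - 3) * a2 := by
    have : 0 ≤ 2 * c - 3 := by linarith
    positivity
  have key : (c - 1) * (c - 2) * a1 + (c - 2) * a2 ≤ S + (1 / 2) * Q := by nlinarith
  rcases le_or_gt 4 c with h5 | h5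
  · have h6 : (c - 1) * (c - 2) * a1 + (c - 2) * a2 ≤ 2 * a1 + 2 * a2 := by linarith
    have h7 : 0 < c * (c - 3) * a1 := by
      have : 0 < c - 3 := by linarith
      positivity
    have h8 : 0 ≤ (c - 4) * a2 := mul_nonneg (by linarith) ha2
    nlinarith
  -- `c < 4`
  have hnS : n * S + 8 * QN ≤ 4 * n := by
    have h6 : n * (S + 4 * (2 / n) * QN) ≤ n * 4 := mul_le_mul_of_nonneg_left hS hn0.le
    have h7 : n * (S + 4 * (2 / n) * QN) = n * S + 8 * QN := by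
      field_simp
      ring
    linarith
  have hsplit : S + (1 / 2) * Q ≤ (4 - c) / 2 * S + (c - 2) / 2 * (S + Q) := by nlinarith
  have hB : (c - 2) / 2 * (S + Q) ≤ (c - 2) / 2 * (2 * a1 + 2 * a2 - 4 * q) :=
    mul_le_mul_of_nonneg_left (by linarith) (by linarith)
  have hA : n * ((4 - c) / 2 * S) ≤ (4 - c) / 2 * (4 * n - 8 * c) := by
    have : (4 - c) / 2 * (n * S) ≤ (4 - c) / 2 * (4 * n - 8 * c) :=
      mul_le_mul_of_nonneg_left (by linarith) (by linarith)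
    linarith
  have hmain : (c - 2) ^ 2 * a1 + 2 * (c - 2) * q ≤ (4 - c) / 2 * S := by nlinarith
  have hmain2 : n * ((c - 2) ^ 2 * a1 + 2 * (c - 2) * q) ≤ (4 - c) / 2 * (4 * n - 8 * c) :=
    (mul_le_mul_of_nonneg_left hmain hn0.le).trans hA
  have hq1 : (c - 2) ^ 2 ≤ n ^ 2 / 4 * q := by
    have h6 : QN - 2 * u + 4 * R = QN - 2 + 2 * (W + R) := by linarith
    have h7 : c - 2 ≤ QN - 2 * u + 4 * R := by rw [h6]; linarith
    have h8 : (c - 2) ^ 2 ≤ (QN - 2 * u + 4 * R) ^ 2 :=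
      pow_le_pow_left₀ (by linarith) h7 2
    have h9 : p * (n - p) ≤ n ^ 2 / 4 := by nlinarith [sq_nonneg (n - 2 * p)]
    exact (h8.trans hq).trans (mul_le_mul_of_nonneg_right h9 hq0)
  have h10 : 4 * (c - 2) ^ 2 ≤ n * ((c - 2) ^ 2 * a1) := by
    have : (c - 2) ^ 2 * 4 ≤ (c - 2) ^ 2 * (n * a1) :=
      mul_le_mul_of_nonneg_left h1n (sq_nonneg _)
    linarith
  have h11 : 8 * (c - 2) ^ 3 ≤ n * (n * (2 * (c - 2) * q)) := by
    have : 8 * (c - 2) * (c - 2) ^ 2 ≤ 8 * (c - 2) * (n ^ 2 / 4 * q) :=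
      mul_le_mul_of_nonneg_left hq1 (by linarith)
    nlinarith
  have h12 : n * (4 * (c - 2) ^ 2) ≤ n * (n * ((c - 2) ^ 2 * a1)) :=
    mul_le_mul_of_nonneg_left h10 hn0.le
  have h13 : n * (n * ((c - 2) ^ 2 * a1 + 2 * (c - 2) * q)) ≤
      n * ((4 - c) / 2 * (4 * n - 8 * c)) := mul_le_mul_of_nonneg_left hmain2 hn0.le
  have h14 : 2 * n * (c - 2) ^ 2 + 4 * (c - 2) ^ 3 ≤ n * (4 - c) * (n - 2 * c) := by
    nlinarith
  have h15 : (C - 2) ^ 2 ≤ (c - 2) ^ 2 := pow_le_pow_left₀ (by linarith) (by linarith) 2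
  have h16 : (C - 2) ^ 3 < (c - 2) ^ 3 := pow_lt_pow_left₀ (by linarith) (by linarith) (by norm_num)
  have h17 : 2 * n * (C - 2) ^ 2 ≤ 2 * n * (c - 2) ^ 2 :=
    mul_le_mul_of_nonneg_left h15 (by linarith)
  rcases le_or_gt n (2 * c) with h18 | h18
  · have h19 : n * (4 - c) * (n - 2 * c) ≤ 0 :=
      mul_nonpos_of_nonneg_of_nonpos (mul_nonneg hn0.le (by linarith)) (by linarith)
    have h20 : 0 < 2 * n * (c - 2) ^ 2 := by
      have : 0 < c - 2 := by linarith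
      positivity
    have h21 : 0 < (c - 2) ^ 3 := pow_pos (by linarith) 3
    linarith
  · have h19 : (4 - c) * (n - 2 * c) ≤ (4 - C) * (n - 2 * C) :=
      mul_le_mul (by linarith) (by linarith) (by linarith) (by linarith)
    have h20 : n * ((4 - c) * (n - 2 * c)) ≤ n * ((4 - C) * (n - 2 * C)) :=
      mul_le_mul_of_nonneg_left h19 hn0.le
    linarith

private theorem trace_sq_leG (A : Mat n) (hA : A.transpose = A) :
    A.trace ^ 2 ≤ n * (A * A).trace := by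
  have h1 : (∑ i, ∑ j, A i j ^ 2) = (A * A).trace := by
    simp only [Matrix.trace, Matrix.diag, Matrix.mul_apply]
    refine Finset.sum_congr rfl fun i _ => Finset.sum_congr rfl fun j _ => ?_
    have : A j i = A i j := by
      have := congrFun (congrFun hA i) j
      simpa [Matrix.transpose_apply] using this
    rw [this]; ring
  have h2 : A.trace ^ 2 ≤ n * ∑ i, A i i ^ 2 := by
    have h := sq_sum_le_card_mul_sum_sq (s := Finset.univ) (f := fun i : Fin n => A i i)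
    simpa [Matrix.trace, Matrix.diag] using h
  have h3 : ∑ i, A i i ^ 2 ≤ ∑ i, ∑ j, A i j ^ 2 :=
    Finset.sum_le_sum fun i _ => Finset.single_le_sum (f := fun j => A i j ^ 2)
      (fun j _ => sq_nonneg _) (Finset.mem_univ i)
  rw [← h1]
  exact h2.trans (mul_le_mul_of_nonneg_left h3 (Nat.cast_nonneg n))

theorem mainG {C : ℝ} (hC3 : 3 ≤ C)
    (hG : (n : ℝ) * (4 - C) * (n - 2 * C) ≤ 2 * n * (C - 2) ^ 2 + 4 * (C - 2) ^ 3)
    (h : Bal N P) (hψ : ‖ψ‖ = 1) :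
    ∑ i, ‖rho (N i) ψ‖ ^ 2 - ∑ j, ‖rho (P j) ψ‖ ^ 2 ≤ C * ∑ i, ip (N i) (N i) := by
  by_contra hcon
  push Not at hcon
  -- a constant slightly larger than `C`
  obtain ⟨c0, hc0, hcon0⟩ : ∃ c0 : ℝ, C < c0 ∧ c0 * ∑ i, ip (N i) (N i) <
      ∑ i, ‖rho (N i) ψ‖ ^ 2 - ∑ j, ‖rho (P j) ψ‖ ^ 2 := by
    set X := ∑ i, ip (N i) (N i) with hX
    set Y := ∑ i, ‖rho (N i) ψ‖ ^ 2 - ∑ j, ‖rho (P j) ψ‖ ^ 2 with hY
    have hd : 0 < Y - C * X := by linarith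
    have hX1 : 0 < |X| + 1 := by positivity
    refine ⟨C + (Y - C * X) / (2 * (|X| + 1)), ?_, ?_⟩
    · have : 0 < (Y - C * X) / (2 * (|X| + 1)) := by positivity
      linarith
    · have h1 : (Y - C * X) / (2 * (|X| + 1)) * X ≤ (Y - C * X) / (2 * (|X| + 1)) * (|X| + 1) :=
        mul_le_mul_of_nonneg_left (by linarith [le_abs_self X]) (by positivity)
      have h2 : (Y - C * X) / (2 * (|X| + 1)) * (|X| + 1) = (Y - C * X) / 2 := by
        field_simp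
      rw [h2] at h1
      linarith
  obtain ⟨c, ε, N, P, p, ψ, hc, hε, hcr⟩ := exists_crit (by linarith) h hψ hcon0
  have hsN := hcr.bal.skN
  have hsP := hcr.bal.skP
  have hn : 1 ≤ (n : ℝ) := by
    rcases Nat.eq_zero_or_pos n with h0 | h0
    · exfalso
      subst h0
      have := hcr.trN
      simp [ip] at this
    · exact_mod_cast h0
  have hn' : 0 < n := by
    have : (0 : ℝ) < n := by linarith
    exact_mod_cast this
  have hXN := X1_symm hsN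
  have htr := X1_trace hsN
  rw [hcr.trN] at htr
  have h1 := trace_sq_leG (X1 N) hXN
  rw [htr] at h1
  have hcomm : (X1 P * X1 N).trace = (X1 N * X1 P).trace := Matrix.trace_mul_comm _ _
  have ho := crit_orth hcr (by linarith) hε
  have hst := star0 hcr ((c - 1) • X1 N + (1 + ε) • X1 P) rfl
  have e1 : (((c - 1) • X1 N + (1 + ε) • X1 P) * ((c - 1) • X1 N + (1 + ε) • X1 P)).trace =
      (c - 1) * ((c - 1) * (X1 N * X1 N).trace + (1 + ε) * (X1 N * X1 P).trace) +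
      (1 + ε) * ((c - 1) * (X1 N * X1 P).trace + (1 + ε) * (X1 P * X1 P).trace) := by
    simp only [Matrix.add_mul, Matrix.mul_add, Matrix.smul_mul, Matrix.mul_smul, Matrix.trace_add,
      Matrix.trace_smul, smul_eq_mul, hcomm]
  have e2 : ((X1 N - X1 P) * ((c - 1) • X1 N + (1 + ε) • X1 P)).trace =
      ((c - 1) * (X1 N * X1 N).trace + (1 + ε) * (X1 N * X1 P).trace) -
      ((c - 1) * (X1 N * X1 P).trace + (1 + ε) * (X1 P * X1 P).trace) := by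
    simp only [Matrix.sub_mul, Matrix.mul_add, Matrix.mul_smul, Matrix.trace_add,
      Matrix.trace_sub, Matrix.trace_smul, smul_eq_mul, hcomm]
    ring
  rw [e1, e2] at hst
  have hQN : c ≤ QN ψ N := by
    have hz := hcr.zero
    rw [Hf, hcr.trN, hcr.norm] at hz
    have h2 : 0 ≤ ∑ j, ip (P j) (P j) := by
      refine Finset.sum_nonneg fun j _ => ?_
      unfold ip
      have : 0 ≤ ∑ a, ∑ b, P j a b * P j a b :=
        Finset.sum_nonneg fun a _ => Finset.sum_nonneg fun b _ => mul_self_nonneg _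
      linarith
    have h3 : 0 ≤ ∑ j, ‖rho (P j) ψ‖ ^ 2 := Finset.sum_nonneg fun j _ => sq_nonneg _
    have h4 : 0 ≤ ε * ∑ j, ip (P j) (P j) := mul_nonneg hε.le h2
    have h5 : QN ψ N = ∑ i, ‖rho (N i) ψ‖ ^ 2 := rfl
    rw [h5]
    nlinarith
  have hSB : SS ψ N N + 4 * (2 / (n : ℝ)) * QN ψ N ≤ 4 :=
    SB_fam (by positivity) (fun L hL => SB_n hL hn' hcr.deg hcr.norm) hsN hcr.trN
  exact arithG hn hC3 hG (lt_of_lt_of_le hc0 hc) hε (X1_mul_nonneg hsN hsP) (X1_mul_nonneg hsP hsP)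
    (by linarith)
    (show 0 ≤ SS ψ N P from Finset.sum_nonneg fun i _ => Finset.sum_nonneg fun j _ => sq_nonneg _)
    (show 0 ≤ QQ ψ N N from Finset.sum_nonneg fun i _ => Finset.sum_nonneg fun j _ => sq_nonneg _)
    (show 0 ≤ QQ ψ P P from Finset.sum_nonneg fun i _ => Finset.sum_nonneg fun j _ => sq_nonneg _)
    (geo hcr.bal ho) (hform_sum hcr) hst (L11 hsN hcr.deg hcr.norm) hSB hQN
    (L10 hsN hcr.deg hcr.norm) (WR hsN hcr.norm hcr.trN)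
    (show 0 ≤ WN ψ N from Finset.sum_nonneg fun i _ => sq_nonneg _)
    (show 0 ≤ RN ψ N from Finset.sum_nonneg fun i _ => sq_nonneg _)
    (show 0 ≤ qN ψ N from mul_nonneg (by norm_num)
      (Finset.sum_nonneg fun i _ => Finset.sum_nonneg fun j _ => sq_nonneg _))

theorem bdG {C : ℝ} (hC3 : 3 ≤ C)
    (hG : (n : ℝ) * (4 - C) * (n - 2 * C) ≤ 2 * n * (C - 2) ^ 2 + 4 * (C - 2) ^ 3) (m q : ℕ) :
    Bd n m q C := by
  intro N P hb χ _
  by_cases h0 : ‖χ‖ = 0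
  · have hχ : χ = 0 := norm_eq_zero.1 h0
    subst hχ
    simp
  · have h1 : ‖(‖χ‖⁻¹) • χ‖ = 1 := by
      rw [norm_smul, norm_inv, norm_norm, inv_mul_cancel₀ h0]
    have h2 := mainG hC3 hG hb h1
    have h3 : ∀ L : Mat n, ‖rho L ((‖χ‖⁻¹) • χ)‖ ^ 2 = (‖χ‖⁻¹) ^ 2 * ‖rho L χ‖ ^ 2 := by
      intro L
      rw [map_smul, norm_smul, norm_inv, norm_norm, mul_pow]
    simp only [h3, ← Finset.mul_sum] at h2
    have h4 : 0 < ‖χ‖ ^ 2 := by positivity
    have h5 : ‖χ‖ ^ 2 * ((‖χ‖⁻¹) ^ 2 * ∑ i, ‖rho (N i) χ‖ ^ 2 -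
        (‖χ‖⁻¹) ^ 2 * ∑ j, ‖rho (P j) χ‖ ^ 2) =
        ∑ i, ‖rho (N i) χ‖ ^ 2 - ∑ j, ‖rho (P j) χ‖ ^ 2 := by
      field_simp
    have h6 := mul_le_mul_of_nonneg_left h2 h4.le
    rw [h5] at h6
    linarith

end HopfQ5
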