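import Pool.Agent.Lib.MP_4a593f_gt.Q5.Defs

/-! Task Num4: real arithmetic for 4-forms, `n ≥ 12` (slack is smallest at `n = 12`).

Write `x = 8/(n-2)`.  First reduce: `k ≥ c`, `u ≥ k/4`, `W = R + 1 - u`.  The left side minus the
right side is increasing in `c, k` and, for `n ≥ 12`, the worst case is `R = 0`, `u = c/4`,
`c = 4 - x`: there `a1 = (16(n-4) + (nc/4-8)²)/(4n(n-4))`, `q = (c/2)²/(4(n-4))` and
`(c-2)² a1 + 2(c-2) q > (4-c)²`: at `n = 12`: `0.6816 > 0.64`.  Suggestion: treat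
`n = 12, ..., 20` numerically (`interval_cases`), and `n ≥ 21` with `q ≥ 0` only. -/

open scoped BigOperators

namespace HopfQ5

open HopfBig HopfN2 HopfQ4 HopfD8

private theorem num4_12 {c W R a1 q u k : ℝ} (hc : 16 / 5 ≤ c)
    (hc4 : c < 4) (hk : c ≤ k) (hku : k ≤ 4 * u) (hW : 0 ≤ W) (hR : 0 ≤ R) (hu : W - R = 1 - u)
    (hq : (k - 2 * u + 4 * R) ^ 2 ≤ 32 * q)
    (ha : 128 + (12 * u - 8) ^ 2 ≤ 384 * a1)
    (h : (c - 2) ^ 2 * a1 + 2 * (c - 2) * q + 2 * (c - 4) * W + 2 * (c - 2) * R ≤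
      2 * (4 - c) * (1 - 1 / 4 * k)) : False := by
  have hWe : W = R + 1 - u := by linarith
  subst hWe
  have h1 : (c - 2) ^ 2 * (128 + (12 * u - 8) ^ 2) ≤ (c - 2) ^ 2 * (384 * a1) :=
    mul_le_mul_of_nonneg_left ha (sq_nonneg _)
  have h2 : (c - 2) * (k - 2 * u + 4 * R) ^ 2 ≤ (c - 2) * (32 * q) :=
    mul_le_mul_of_nonneg_left hq (by linarith)
  have hX : (k - 2 * u + 4 * R) ^ 2 ≥ 2 * (8 / 5) * (k - 2 * u + 4 * R) - (8 / 5) ^ 2 := by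
    nlinarith [sq_nonneg ((k - 2 * u + 4 * R) - (8 / 5))]
  have h3 : (c - 2) * (2 * (8 / 5) * (k - 2 * u + 4 * R) - (8 / 5) ^ 2) ≤
      (c - 2) * (k - 2 * u + 4 * R) ^ 2 :=
    mul_le_mul_of_nonneg_left hX (by linarith)
  have hY : (12 * u - 8) ^ 2 ≥ 2 * (8 / 5) * (12 * u - 8) - (8 / 5) ^ 2 := by
    nlinarith [sq_nonneg ((12 * u - 8) - (8 / 5))]
  have h4 : (c - 2) ^ 2 * (128 + (2 * (8 / 5) * (12 * u - 8) - (8 / 5) ^ 2)) ≤
      (c - 2) ^ 2 * (128 + (12 * u - 8) ^ 2) :=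
    mul_le_mul_of_nonneg_left (by linarith) (sq_nonneg _)
  nlinarith [mul_nonneg (sub_nonneg.2 hc) hR, mul_nonneg (sub_nonneg.2 hc) hW,
    mul_nonneg (sub_nonneg.2 hc) (sub_nonneg.2 hk), mul_nonneg (sub_nonneg.2 hc) (sub_nonneg.2 hku),
    mul_nonneg (sub_nonneg.2 hc) (sub_nonneg.2 hc),
    mul_nonneg (sub_nonneg.2 hc4.le) (sub_nonneg.2 hk),
    mul_nonneg (sub_nonneg.2 hc4.le) (sub_nonneg.2 hku),
    mul_nonneg (sub_nonneg.2 hc4.le) (sub_nonneg.2 hc)]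

private theorem num4_13 {c W R a1 q u k : ℝ} (hc : 36 / 11 ≤ c)
    (hc4 : c < 4) (hk : c ≤ k) (hku : k ≤ 4 * u) (hW : 0 ≤ W) (hR : 0 ≤ R) (hu : W - R = 1 - u)
    (hq : (k - 2 * u + 4 * R) ^ 2 ≤ 36 * q)
    (ha : 144 + (13 * u - 8) ^ 2 ≤ 468 * a1)
    (h : (c - 2) ^ 2 * a1 + 2 * (c - 2) * q + 2 * (c - 4) * W + 2 * (c - 2) * R ≤
      2 * (4 - c) * (1 - 1 / 4 * k)) : False := by
  have hWe : W = R + 1 - u := by linarith
  subst hWe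
  have h1 : (c - 2) ^ 2 * (144 + (13 * u - 8) ^ 2) ≤ (c - 2) ^ 2 * (468 * a1) :=
    mul_le_mul_of_nonneg_left ha (sq_nonneg _)
  have h2 : (c - 2) * (k - 2 * u + 4 * R) ^ 2 ≤ (c - 2) * (36 * q) :=
    mul_le_mul_of_nonneg_left hq (by linarith)
  have hX : (k - 2 * u + 4 * R) ^ 2 ≥ 2 * (18 / 11) * (k - 2 * u + 4 * R) - (18 / 11) ^ 2 := by
    nlinarith [sq_nonneg ((k - 2 * u + 4 * R) - (18 / 11))]
  have h3 : (c - 2) * (2 * (18 / 11) * (k - 2 * u + 4 * R) - (18 / 11) ^ 2) ≤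
      (c - 2) * (k - 2 * u + 4 * R) ^ 2 :=
    mul_le_mul_of_nonneg_left hX (by linarith)
  have hY : (13 * u - 8) ^ 2 ≥ 2 * (29 / 11) * (13 * u - 8) - (29 / 11) ^ 2 := by
    nlinarith [sq_nonneg ((13 * u - 8) - (29 / 11))]
  have h4 : (c - 2) ^ 2 * (144 + (2 * (29 / 11) * (13 * u - 8) - (29 / 11) ^ 2)) ≤
      (c - 2) ^ 2 * (144 + (13 * u - 8) ^ 2) :=
    mul_le_mul_of_nonneg_left (by linarith) (sq_nonneg _)
  nlinarith [mul_nonneg (sub_nonneg.2 hc) hR, mul_nonneg (sub_nonneg.2 hc) hW,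
    mul_nonneg (sub_nonneg.2 hc) (sub_nonneg.2 hk), mul_nonneg (sub_nonneg.2 hc) (sub_nonneg.2 hku),
    mul_nonneg (sub_nonneg.2 hc) (sub_nonneg.2 hc),
    mul_nonneg (sub_nonneg.2 hc4.le) (sub_nonneg.2 hk),
    mul_nonneg (sub_nonneg.2 hc4.le) (sub_nonneg.2 hku),
    mul_nonneg (sub_nonneg.2 hc4.le) (sub_nonneg.2 hc)]

private theorem num4_fin {c W R a1 q u k : ℝ} (hc : 10 / 3 ≤ c)
    (hc4 : c < 4) (hk : c ≤ k) (hku : k ≤ 4 * u) (hR : 0 ≤ R) (hu : W - R = 1 - u)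
    (hq : 0 ≤ q) (ha : 1 / 4 < a1)
    (h : (c - 2) ^ 2 * a1 + 2 * (c - 2) * q + 2 * (c - 4) * W + 2 * (c - 2) * R ≤
      2 * (4 - c) * (1 - 1 / 4 * k)) : False := by
  have hWe : W = R + 1 - u := by linarith
  subst hWe
  have h1 : (c - 2) ^ 2 * (1 / 4) < (c - 2) ^ 2 * a1 :=
    mul_lt_mul_of_pos_left ha (by nlinarith)
  nlinarith [mul_nonneg (sub_nonneg.2 hc) hR, mul_nonneg (sub_nonneg.2 hc) hq,
    mul_nonneg (sub_nonneg.2 hc4.le) (sub_nonneg.2 hk),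
    mul_nonneg (sub_nonneg.2 hc4.le) (sub_nonneg.2 hku)]

private theorem num4_a {N c a1 u k : ℝ} (hN : 14 ≤ N) (hc : (4 - c) * (N - 2) ≤ 8)
    (hc4 : c < 4) (hk : c ≤ k) (hku : k ≤ 4 * u)
    (ha : 16 * (N - 4) + (N * u - 8) ^ 2 ≤ 4 * N * (N - 4) * a1) : 1 / 4 < a1 := by
  obtain ⟨w, hw⟩ : ∃ w : ℝ, w = N * (4 - c) / 4 := ⟨_, rfl⟩
  have hw0 : 0 < w := by rw [hw]; nlinarith
  have hw1 : w * (N - 2) ≤ 2 * N := by rw [hw]; nlinarith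
  have hw2 : w ≤ 7 / 3 := by
    by_contra hcon
    push Not at hcon
    nlinarith
  have hy : N - 8 - w ≤ N * u - 8 := by rw [hw]; nlinarith
  have hy0 : 0 ≤ N - 8 - w := by linarith
  have hy2 : (N - 8 - w) ^ 2 ≤ (N * u - 8) ^ 2 := pow_le_pow_left₀ hy0 hy 2
  have key : N * (N - 4) < 4 * N * (N - 4) * a1 := by nlinarith
  have hp : 0 < N * (N - 4) := by nlinarith
  by_contra hcon
  push Not at hcon
  nlinarith

theorem num4 {n : ℕ} {c W R a1 q u k : ℝ} (hn : 12 ≤ n) (hc : 4 - 8 / ((n : ℝ) - 2) ≤ c)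
    (hc4 : c < 4) (hk : c ≤ k) (hku : k ≤ 4 * u) (hW : 0 ≤ W) (hR : 0 ≤ R) (hu : W - R = 1 - u)
    (hq : (k - 2 * u + 4 * R) ^ 2 ≤ 4 * ((n : ℝ) - 4) * q)
    (ha : 16 * ((n : ℝ) - 4) + (n * u - 8) ^ 2 ≤ 4 * n * ((n : ℝ) - 4) * a1)
    (h : (c - 2) ^ 2 * a1 + 2 * (c - 2) * q + 2 * (c - 4) * W + 2 * (c - 2) * R ≤
      2 * (4 - c) * (1 - 1 / 4 * k)) : False := by
  have hnR : (12 : ℝ) ≤ n := by exact_mod_cast hn
  have hc' : (4 - c) * ((n : ℝ) - 2) ≤ 8 := by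
    have h2 : (0 : ℝ) < (n : ℝ) - 2 := by linarith
    have h3 : 4 - c ≤ 8 / ((n : ℝ) - 2) := by linarith
    calc (4 - c) * ((n : ℝ) - 2) ≤ 8 / ((n : ℝ) - 2) * ((n : ℝ) - 2) :=
          mul_le_mul_of_nonneg_right h3 h2.le
      _ = 8 := div_mul_cancel₀ _ h2.ne'
  rcases Nat.lt_or_ge n 14 with hlt | hge
  · interval_cases n
    · norm_num at hq ha hc'
      exact num4_12 (c := c) (W := W) (R := R) (a1 := a1) (q := q) (u := u) (k := k)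
        (by linarith) hc4 hk hku hW hR hu (by linarith) (by linarith) h
    · norm_num at hq ha hc'
      exact num4_13 (c := c) (W := W) (R := R) (a1 := a1) (q := q) (u := u) (k := k)
        (by linarith) hc4 hk hku hW hR hu (by linarith) (by linarith) h
  · have hn14 : (14 : ℝ) ≤ n := by exact_mod_cast hge
    have hq0 : 0 ≤ q := by
      by_contra hcon
      push Not at hcon
      nlinarith [sq_nonneg (k - 2 * u + 4 * R)]
    have ha' : 1 / 4 < a1 := num4_a hn14 hc' hc4 hk hku ha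
    have hc3 : 10 / 3 ≤ c := by nlinarith
    exact num4_fin hc3 hc4 hk hku hR hu hq0 ha' h

end HopfQ5
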