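import Pool.Agent.Lib.MP_4a593f_gt.Q5.Defs

/-! Task Num5: the same for the threshold `4 - 12/(n-1)`, `n ≥ 18` (slack at `n = 18` about
`0.076`), and for `n = 15, 16, 17` with `171/50`, `7/2`, `18/5` instead of `4` (slack about `0.0188`,
`0.091`, `0.141`; worst case `c = c0`, `k = c`, `u = c/4`, `R = 0`).  See Num4 for the method. -/

open scoped BigOperators

namespace HopfQ5

open HopfBig HopfN2 HopfQ4 HopfD8

private theorem num5_18 {c W R a1 q u k : ℝ} (hc : 56 / 17 ≤ c)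
    (hc4 : c < 4) (hk : c ≤ k) (hku : k ≤ 4 * u) (hW : 0 ≤ W) (hR : 0 ≤ R) (hu : W - R = 1 - u)
    (hq : (k - 2 * u + 4 * R) ^ 2 ≤ 56 * q)
    (ha : 224 + (18 * u - 8) ^ 2 ≤ 1008 * a1)
    (h : (c - 2) ^ 2 * a1 + 2 * (c - 2) * q + 2 * (c - 4) * W + 2 * (c - 2) * R ≤
      2 * (4 - c) * (1 - 1 / 4 * k)) : False := by
  have hWe : W = R + 1 - u := by linarith
  subst hWe
  have h1 : (c - 2) ^ 2 * (224 + (18 * u - 8) ^ 2) ≤ (c - 2) ^ 2 * (1008 * a1) :=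
    mul_le_mul_of_nonneg_left ha (sq_nonneg _)
  have h2 : (c - 2) * (k - 2 * u + 4 * R) ^ 2 ≤ (c - 2) * (56 * q) :=
    mul_le_mul_of_nonneg_left hq (by linarith)
  have hX : (k - 2 * u + 4 * R) ^ 2 ≥ 2 * (28 / 17) * (k - 2 * u + 4 * R) - (28 / 17) ^ 2 := by
    nlinarith [sq_nonneg ((k - 2 * u + 4 * R) - (28 / 17))]
  have h3 : (c - 2) * (2 * (28 / 17) * (k - 2 * u + 4 * R) - (28 / 17) ^ 2) ≤
      (c - 2) * (k - 2 * u + 4 * R) ^ 2 :=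
    mul_le_mul_of_nonneg_left hX (by linarith)
  have hY : (18 * u - 8) ^ 2 ≥ 2 * (116 / 17) * (18 * u - 8) - (116 / 17) ^ 2 := by
    nlinarith [sq_nonneg ((18 * u - 8) - (116 / 17))]
  have h4 : (c - 2) ^ 2 * (224 + (2 * (116 / 17) * (18 * u - 8) - (116 / 17) ^ 2)) ≤
      (c - 2) ^ 2 * (224 + (18 * u - 8) ^ 2) :=
    mul_le_mul_of_nonneg_left (by linarith) (sq_nonneg _)
  nlinarith [mul_nonneg (sub_nonneg.2 hc) hR, mul_nonneg (sub_nonneg.2 hc) hW,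
    mul_nonneg (sub_nonneg.2 hc) (sub_nonneg.2 hk), mul_nonneg (sub_nonneg.2 hc) (sub_nonneg.2 hku),
    mul_nonneg (sub_nonneg.2 hc) (sub_nonneg.2 hc),
    mul_nonneg (sub_nonneg.2 hc4.le) (sub_nonneg.2 hk),
    mul_nonneg (sub_nonneg.2 hc4.le) (sub_nonneg.2 hku),
    mul_nonneg (sub_nonneg.2 hc4.le) (sub_nonneg.2 hc)]

private theorem num5_19 {c W R a1 q u k : ℝ} (hc : 10 / 3 ≤ c)
    (hc4 : c < 4) (hk : c ≤ k) (hku : k ≤ 4 * u) (hW : 0 ≤ W) (hR : 0 ≤ R) (hu : W - R = 1 - u)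
    (hq : (k - 2 * u + 4 * R) ^ 2 ≤ 60 * q)
    (ha : 240 + (19 * u - 8) ^ 2 ≤ 1140 * a1)
    (h : (c - 2) ^ 2 * a1 + 2 * (c - 2) * q + 2 * (c - 4) * W + 2 * (c - 2) * R ≤
      2 * (4 - c) * (1 - 1 / 4 * k)) : False := by
  have hWe : W = R + 1 - u := by linarith
  subst hWe
  have h1 : (c - 2) ^ 2 * (240 + (19 * u - 8) ^ 2) ≤ (c - 2) ^ 2 * (1140 * a1) :=
    mul_le_mul_of_nonneg_left ha (sq_nonneg _)
  have h2 : (c - 2) * (k - 2 * u + 4 * R) ^ 2 ≤ (c - 2) * (60 * q) :=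
    mul_le_mul_of_nonneg_left hq (by linarith)
  have hX : (k - 2 * u + 4 * R) ^ 2 ≥ 2 * (5 / 3) * (k - 2 * u + 4 * R) - (5 / 3) ^ 2 := by
    nlinarith [sq_nonneg ((k - 2 * u + 4 * R) - (5 / 3))]
  have h3 : (c - 2) * (2 * (5 / 3) * (k - 2 * u + 4 * R) - (5 / 3) ^ 2) ≤
      (c - 2) * (k - 2 * u + 4 * R) ^ 2 :=
    mul_le_mul_of_nonneg_left hX (by linarith)
  have hY : (19 * u - 8) ^ 2 ≥ 2 * (47 / 6) * (19 * u - 8) - (47 / 6) ^ 2 := by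
    nlinarith [sq_nonneg ((19 * u - 8) - (47 / 6))]
  have h4 : (c - 2) ^ 2 * (240 + (2 * (47 / 6) * (19 * u - 8) - (47 / 6) ^ 2)) ≤
      (c - 2) ^ 2 * (240 + (19 * u - 8) ^ 2) :=
    mul_le_mul_of_nonneg_left (by linarith) (sq_nonneg _)
  nlinarith [mul_nonneg (sub_nonneg.2 hc) hR, mul_nonneg (sub_nonneg.2 hc) hW,
    mul_nonneg (sub_nonneg.2 hc) (sub_nonneg.2 hk), mul_nonneg (sub_nonneg.2 hc) (sub_nonneg.2 hku),
    mul_nonneg (sub_nonneg.2 hc) (sub_nonneg.2 hc),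
    mul_nonneg (sub_nonneg.2 hc4.le) (sub_nonneg.2 hk),
    mul_nonneg (sub_nonneg.2 hc4.le) (sub_nonneg.2 hku),
    mul_nonneg (sub_nonneg.2 hc4.le) (sub_nonneg.2 hc)]

private theorem num5_fin {c W R a1 q u k : ℝ} (hc : 64 / 19 ≤ c)
    (hc4 : c < 4) (hk : c ≤ k) (hku : k ≤ 4 * u) (hR : 0 ≤ R) (hu : W - R = 1 - u)
    (hq : 0 ≤ q) (ha : 6 / 25 < a1)
    (h : (c - 2) ^ 2 * a1 + 2 * (c - 2) * q + 2 * (c - 4) * W + 2 * (c - 2) * R ≤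
      2 * (4 - c) * (1 - 1 / 4 * k)) : False := by
  have hWe : W = R + 1 - u := by linarith
  subst hWe
  have h1 : (c - 2) ^ 2 * (6 / 25) < (c - 2) ^ 2 * a1 :=
    mul_lt_mul_of_pos_left ha (by nlinarith)
  nlinarith [mul_nonneg (sub_nonneg.2 hc) hR, mul_nonneg (sub_nonneg.2 hc) hq,
    mul_nonneg (sub_nonneg.2 hc4.le) (sub_nonneg.2 hk),
    mul_nonneg (sub_nonneg.2 hc4.le) (sub_nonneg.2 hku)]

private theorem num5_a {N c a1 u k : ℝ} (hN : 20 ≤ N) (hc : (4 - c) * (N - 1) ≤ 12)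
    (hc4 : c < 4) (hk : c ≤ k) (hku : k ≤ 4 * u)
    (ha : 16 * (N - 4) + (N * u - 8) ^ 2 ≤ 4 * N * (N - 4) * a1) : 6 / 25 < a1 := by
  obtain ⟨w, hw⟩ : ∃ w : ℝ, w = N * (4 - c) / 4 := ⟨_, rfl⟩
  have hN1 : 0 < N - 1 := by linarith
  obtain ⟨v, hv⟩ : ∃ v : ℝ, v * (N - 1) = 3 * N := ⟨3 * N / (N - 1), by field_simp⟩
  have hw1 : w * (N - 1) ≤ 3 * N := by rw [hw]; nlinarith
  have hwv : w ≤ v := by
    by_contra hcon
    push Not at hcon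
    nlinarith
  have hv3 : 3 ≤ v := by
    by_contra hcon
    push Not at hcon
    nlinarith
  have hv4 : v ≤ 4 := by
    by_contra hcon
    push Not at hcon
    nlinarith
  have hy : N - 8 - w ≤ N * u - 8 := by rw [hw]; nlinarith
  have hy1 : N - 8 - v ≤ N * u - 8 := by linarith
  have hy0 : 0 ≤ N - 8 - v := by linarith
  have hy2 : (N - 8 - v) ^ 2 ≤ (N * u - 8) ^ 2 := pow_le_pow_left₀ hy0 hy1 2
  have key : 24 / 25 * (N * (N - 4)) < 4 * N * (N - 4) * a1 := by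
    nlinarith [sq_nonneg (N - 27)]
  have hp : 0 < N * (N - 4) := by nlinarith
  by_contra hcon
  push Not at hcon
  nlinarith

theorem num5 {n : ℕ} {c W R a1 q u k : ℝ} (hn : 18 ≤ n) (hc : 4 - 12 / ((n : ℝ) - 1) ≤ c)
    (hc4 : c < 4) (hk : c ≤ k) (hku : k ≤ 4 * u) (hW : 0 ≤ W) (hR : 0 ≤ R) (hu : W - R = 1 - u)
    (hq : (k - 2 * u + 4 * R) ^ 2 ≤ 4 * ((n : ℝ) - 4) * q)
    (ha : 16 * ((n : ℝ) - 4) + (n * u - 8) ^ 2 ≤ 4 * n * ((n : ℝ) - 4) * a1)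
    (h : (c - 2) ^ 2 * a1 + 2 * (c - 2) * q + 2 * (c - 4) * W + 2 * (c - 2) * R ≤
      2 * (4 - c) * (1 - 1 / 4 * k)) : False := by
  have hnR : (18 : ℝ) ≤ n := by exact_mod_cast hn
  have hc' : (4 - c) * ((n : ℝ) - 1) ≤ 12 := by
    have h2 : (0 : ℝ) < (n : ℝ) - 1 := by linarith
    have h3 : 4 - c ≤ 12 / ((n : ℝ) - 1) := by linarith
    calc (4 - c) * ((n : ℝ) - 1) ≤ 12 / ((n : ℝ) - 1) * ((n : ℝ) - 1) :=
          mul_le_mul_of_nonneg_right h3 h2.le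
      _ = 12 := div_mul_cancel₀ _ h2.ne'
  rcases Nat.lt_or_ge n 20 with hlt | hge
  · interval_cases n
    · norm_num at hq ha hc'
      exact num5_18 (c := c) (W := W) (R := R) (a1 := a1) (q := q) (u := u) (k := k)
        (by linarith) hc4 hk hku hW hR hu (by linarith) (by linarith) h
    · norm_num at hq ha hc'
      exact num5_19 (c := c) (W := W) (R := R) (a1 := a1) (q := q) (u := u) (k := k)
        (by linarith) hc4 hk hku hW hR hu (by linarith) (by linarith) h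
  · have hn14 : (20 : ℝ) ≤ n := by exact_mod_cast hge
    have hq0 : 0 ≤ q := by
      by_contra hcon
      push Not at hcon
      nlinarith [sq_nonneg (k - 2 * u + 4 * R)]
    have ha' : 6 / 25 < a1 := num5_a hn14 hc' hc4 hk hku ha
    have hc3 : 64 / 19 ≤ c := by nlinarith
    exact num5_fin hc3 hc4 hk hku hR hu hq0 ha' h

theorem num15 {c W R a1 q u k : ℝ} (hc : 22 / 7 ≤ c)
    (hc4 : c < 4) (hk : c ≤ k) (hku : k ≤ 4 * u) (hW : 0 ≤ W) (hR : 0 ≤ R) (hu : W - R = 1 - u)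
    (hq : (k - 2 * u + 4 * R) ^ 2 ≤ 44 * q)
    (ha : 176 + (15 * u - 8) ^ 2 ≤ 660 * a1)
    (h : (c - 2) ^ 2 * a1 + 2 * (c - 2) * q + 2 * (c - 171 / 50) * W + 2 * (c - 2) * R ≤
      2 * (4 - c) * (1 - 1 / 4 * k)) : False := by
  have hWe : W = R + 1 - u := by linarith
  subst hWe
  have h1 : (c - 2) ^ 2 * (176 + (15 * u - 8) ^ 2) ≤ (c - 2) ^ 2 * (660 * a1) :=
    mul_le_mul_of_nonneg_left ha (sq_nonneg _)
  have h2 : (c - 2) * (k - 2 * u + 4 * R) ^ 2 ≤ (c - 2) * (44 * q) :=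
    mul_le_mul_of_nonneg_left hq (by linarith)
  have hX : (k - 2 * u + 4 * R) ^ 2 ≥ 2 * (11 / 7) * (k - 2 * u + 4 * R) - (11 / 7) ^ 2 := by
    nlinarith [sq_nonneg ((k - 2 * u + 4 * R) - (11 / 7))]
  have h3 : (c - 2) * (2 * (11 / 7) * (k - 2 * u + 4 * R) - (11 / 7) ^ 2) ≤
      (c - 2) * (k - 2 * u + 4 * R) ^ 2 :=
    mul_le_mul_of_nonneg_left hX (by linarith)
  have hY : (15 * u - 8) ^ 2 ≥ 2 * (53 / 14) * (15 * u - 8) - (53 / 14) ^ 2 := by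
    nlinarith [sq_nonneg ((15 * u - 8) - (53 / 14))]
  have h4 : (c - 2) ^ 2 * (176 + (2 * (53 / 14) * (15 * u - 8) - (53 / 14) ^ 2)) ≤
      (c - 2) ^ 2 * (176 + (15 * u - 8) ^ 2) :=
    mul_le_mul_of_nonneg_left (by linarith) (sq_nonneg _)
  nlinarith [mul_nonneg (sub_nonneg.2 hc) hR, mul_nonneg (sub_nonneg.2 hc) hW,
    mul_nonneg (sub_nonneg.2 hc) (sub_nonneg.2 hk), mul_nonneg (sub_nonneg.2 hc) (sub_nonneg.2 hku),
    mul_nonneg (sub_nonneg.2 hc) (sub_nonneg.2 hc),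
    mul_nonneg (sub_nonneg.2 hc4.le) (sub_nonneg.2 hk),
    mul_nonneg (sub_nonneg.2 hc4.le) (sub_nonneg.2 hku),
    mul_nonneg (sub_nonneg.2 hc4.le) (sub_nonneg.2 hc)]

theorem num16 {c W R a1 q u k : ℝ} (hc : 16 / 5 ≤ c)
    (hc4 : c < 4) (hk : c ≤ k) (hku : k ≤ 4 * u) (hW : 0 ≤ W) (hR : 0 ≤ R) (hu : W - R = 1 - u)
    (hq : (k - 2 * u + 4 * R) ^ 2 ≤ 48 * q)
    (ha : 192 + (16 * u - 8) ^ 2 ≤ 768 * a1)
    (h : (c - 2) ^ 2 * a1 + 2 * (c - 2) * q + 2 * (c - 7 / 2) * W + 2 * (c - 2) * R ≤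
      2 * (4 - c) * (1 - 1 / 4 * k)) : False := by
  have hWe : W = R + 1 - u := by linarith
  subst hWe
  have h1 : (c - 2) ^ 2 * (192 + (16 * u - 8) ^ 2) ≤ (c - 2) ^ 2 * (768 * a1) :=
    mul_le_mul_of_nonneg_left ha (sq_nonneg _)
  have h2 : (c - 2) * (k - 2 * u + 4 * R) ^ 2 ≤ (c - 2) * (48 * q) :=
    mul_le_mul_of_nonneg_left hq (by linarith)
  have hX : (k - 2 * u + 4 * R) ^ 2 ≥ 2 * (8 / 5) * (k - 2 * u + 4 * R) - (8 / 5) ^ 2 := by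
    nlinarith [sq_nonneg ((k - 2 * u + 4 * R) - (8 / 5))]
  have h3 : (c - 2) * (2 * (8 / 5) * (k - 2 * u + 4 * R) - (8 / 5) ^ 2) ≤
      (c - 2) * (k - 2 * u + 4 * R) ^ 2 :=
    mul_le_mul_of_nonneg_left hX (by linarith)
  have hY : (16 * u - 8) ^ 2 ≥ 2 * (24 / 5) * (16 * u - 8) - (24 / 5) ^ 2 := by
    nlinarith [sq_nonneg ((16 * u - 8) - (24 / 5))]
  have h4 : (c - 2) ^ 2 * (192 + (2 * (24 / 5) * (16 * u - 8) - (24 / 5) ^ 2)) ≤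
      (c - 2) ^ 2 * (192 + (16 * u - 8) ^ 2) :=
    mul_le_mul_of_nonneg_left (by linarith) (sq_nonneg _)
  nlinarith [mul_nonneg (sub_nonneg.2 hc) hR, mul_nonneg (sub_nonneg.2 hc) hW,
    mul_nonneg (sub_nonneg.2 hc) (sub_nonneg.2 hk), mul_nonneg (sub_nonneg.2 hc) (sub_nonneg.2 hku),
    mul_nonneg (sub_nonneg.2 hc) (sub_nonneg.2 hc),
    mul_nonneg (sub_nonneg.2 hc4.le) (sub_nonneg.2 hk),
    mul_nonneg (sub_nonneg.2 hc4.le) (sub_nonneg.2 hku),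
    mul_nonneg (sub_nonneg.2 hc4.le) (sub_nonneg.2 hc)]

theorem num17 {c W R a1 q u k : ℝ} (hc : 13 / 4 ≤ c)
    (hc4 : c < 4) (hk : c ≤ k) (hku : k ≤ 4 * u) (hW : 0 ≤ W) (hR : 0 ≤ R) (hu : W - R = 1 - u)
    (hq : (k - 2 * u + 4 * R) ^ 2 ≤ 52 * q)
    (ha : 208 + (17 * u - 8) ^ 2 ≤ 884 * a1)
    (h : (c - 2) ^ 2 * a1 + 2 * (c - 2) * q + 2 * (c - 18 / 5) * W + 2 * (c - 2) * R ≤
      2 * (4 - c) * (1 - 1 / 4 * k)) : False := by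
  have hWe : W = R + 1 - u := by linarith
  subst hWe
  have h1 : (c - 2) ^ 2 * (208 + (17 * u - 8) ^ 2) ≤ (c - 2) ^ 2 * (884 * a1) :=
    mul_le_mul_of_nonneg_left ha (sq_nonneg _)
  have h2 : (c - 2) * (k - 2 * u + 4 * R) ^ 2 ≤ (c - 2) * (52 * q) :=
    mul_le_mul_of_nonneg_left hq (by linarith)
  have hX : (k - 2 * u + 4 * R) ^ 2 ≥ 2 * (13 / 8) * (k - 2 * u + 4 * R) - (13 / 8) ^ 2 := by
    nlinarith [sq_nonneg ((k - 2 * u + 4 * R) - (13 / 8))]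
  have h3 : (c - 2) * (2 * (13 / 8) * (k - 2 * u + 4 * R) - (13 / 8) ^ 2) ≤
      (c - 2) * (k - 2 * u + 4 * R) ^ 2 :=
    mul_le_mul_of_nonneg_left hX (by linarith)
  have hY : (17 * u - 8) ^ 2 ≥ 2 * (93 / 16) * (17 * u - 8) - (93 / 16) ^ 2 := by
    nlinarith [sq_nonneg ((17 * u - 8) - (93 / 16))]
  have h4 : (c - 2) ^ 2 * (208 + (2 * (93 / 16) * (17 * u - 8) - (93 / 16) ^ 2)) ≤
      (c - 2) ^ 2 * (208 + (17 * u - 8) ^ 2) :=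
    mul_le_mul_of_nonneg_left (by linarith) (sq_nonneg _)
  nlinarith [mul_nonneg (sub_nonneg.2 hc) hR, mul_nonneg (sub_nonneg.2 hc) hW,
    mul_nonneg (sub_nonneg.2 hc) (sub_nonneg.2 hk), mul_nonneg (sub_nonneg.2 hc) (sub_nonneg.2 hku),
    mul_nonneg (sub_nonneg.2 hc) (sub_nonneg.2 hc),
    mul_nonneg (sub_nonneg.2 hc4.le) (sub_nonneg.2 hk),
    mul_nonneg (sub_nonneg.2 hc4.le) (sub_nonneg.2 hku),
    mul_nonneg (sub_nonneg.2 hc4.le) (sub_nonneg.2 hc)]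

end HopfQ5
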