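import Pool.Agent.Lib.MP_4a593f_gt.Q5.Ex
import Pool.Agent.Lib.MP_4a593f_gt.Q5.III
import Pool.Agent.Lib.MP_4a593f_gt.Q5.G
import Pool.Agent.Lib.MP_4a593f_gt.Q5.L10
import Pool.Agent.Lib.MP_4a593f_gt.Q5.L12
import Pool.Agent.Lib.MP_4a593f_gt.Q5.Num
import Pool.Agent.Lib.MP_4a593f_gt.Q5.Num4
import Pool.Agent.Lib.MP_4a593f_gt.Q5.Num5
import Pool.Agent.Lib.MP_4a593f_gt.Q5.Hodge
import Pool.Agent.Lib.MP_4a593f_gt.Q4.CoreC

/-! Task B4: 4-forms, `n ≥ 11`.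

As `bd104a` in B10: `exists_critP`, `ineqIII` with `β = 1/4`, `Cm = 2` (`bd_triv`), `Cp` from `bdG`
(`10/3` for `n = 11`; `4` for `n ≥ 12` (`bdG` or `main4`); in `bd4'`: `171/50`, `7/2`, `18/5`
for `n = 15, 16, 17`); `c < 4` (`bdG` with a suitable constant `< 4`, e.g. `4 - 1/n`... or `mainC`; if `c ≥ 4`
were possible one still has `c ≤ 4` and `ineqIII` at `c = 4` gives a contradiction with
`L13`: `A1 > 0`). -/

open scoped BigOperators

namespace HopfQ5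

open HopfBig HopfN2 HopfQ4 HopfD8

variable {n : ℕ}

private theorem b4_ip_nonneg (A : Mat n) : 0 ≤ ip A A := by
  unfold ip
  exact mul_nonneg (by norm_num) (Finset.sum_nonneg fun i _ => Finset.sum_nonneg fun j _ =>
    mul_self_nonneg _)

private theorem b4_zero {m p : ℕ} {c ε : ℝ} {N P : Fin m → Mat n} {ψ : Fk n}
    (h : CritP c ε N P p ψ) :
    c + ε * ∑ j, ip (P j) (P j) = ∑ i, ‖rho (N i) ψ‖ ^ 2 - ∑ j, ‖rho (P j) ψ‖ ^ 2 := by
  have h1 := h.zero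
  unfold Hf at h1
  rw [h.trN, h.norm] at h1
  linarith

private theorem b4_le {m p : ℕ} {c ε : ℝ} {N P : Fin m → Mat n} {ψ : Fk n}
    (h : CritP c ε N P p ψ) (hε : 0 < ε) {C : ℝ} (hC : Bd n m p C) : c ≤ C := by
  have h1 := b4_zero h
  have h2 := hC N P h.bal ψ h.deg
  rw [h.trN, h.norm] at h2
  have h3 : 0 ≤ ε * ∑ j, ip (P j) (P j) :=
    mul_nonneg hε.le (Finset.sum_nonneg fun j _ => b4_ip_nonneg _)
  linarith

private theorem b4_ge {m p : ℕ} {c ε : ℝ} {N P : Fin m → Mat n} {ψ : Fk n}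
    (h : CritP c ε N P p ψ) (hε : 0 < ε) : c ≤ QN ψ N := by
  have h1 := b4_zero h
  have h3 : 0 ≤ ε * ∑ j, ip (P j) (P j) :=
    mul_nonneg hε.le (Finset.sum_nonneg fun j _ => b4_ip_nonneg _)
  have h4 : 0 ≤ ∑ j, ‖rho (P j) ψ‖ ^ 2 := Finset.sum_nonneg fun j _ => sq_nonneg _
  unfold QN
  linarith

private theorem b4_common {m : ℕ} {c0 Cp C4 : ℝ} (hc0 : 3 ≤ c0) (h6 : Bd n m 6 Cp)
    (h4 : Bd n m 4 C4) (hC4 : C4 < 4)
    (hnum : ∀ c W R a1 q u k : ℝ, c0 ≤ c → c < 4 → c ≤ k → k ≤ 4 * u → 0 ≤ W → 0 ≤ R →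
      W - R = 1 - u → (k - 2 * u + 4 * R) ^ 2 ≤ 4 * ((n : ℝ) - 4) * q →
      16 * ((n : ℝ) - 4) + (n * u - 8) ^ 2 ≤ 4 * n * ((n : ℝ) - 4) * a1 →
      (c - 2) ^ 2 * a1 + 2 * (c - 2) * q + 2 * (c - Cp) * W + 2 * (c - 2) * R ≤
        2 * (4 - c) * (1 - 1 / 4 * k) → False) : Bd n m 4 c0 := by
  intro N0 P0 hbal ψ0 hd
  by_contra hcon
  rw [not_le] at hcon
  have hψ0 : ψ0 ≠ 0 := by
    rintro rfl
    simp at hcon
  have hn0 : 0 < ‖ψ0‖ := norm_pos_iff.2 hψ0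
  have hχ : ‖(‖ψ0‖)⁻¹ • ψ0‖ = 1 := by
    rw [norm_smul, norm_inv, norm_norm, inv_mul_cancel₀ hn0.ne']
  have hdχ : Deg 4 ((‖ψ0‖)⁻¹ • ψ0) := by
    intro s hs
    show (‖ψ0‖)⁻¹ * ψ0 s = 0
    rw [hd s hs, mul_zero]
  have hsc : ∀ L : Mat n, ‖rho L ((‖ψ0‖)⁻¹ • ψ0)‖ ^ 2 = ((‖ψ0‖)⁻¹) ^ 2 * ‖rho L ψ0‖ ^ 2 := by
    intro L
    rw [map_smul, norm_smul, mul_pow, norm_inv, norm_norm]
  have hbad : c0 * ∑ i, ip (N0 i) (N0 i) <
      ∑ i, ‖rho (N0 i) ((‖ψ0‖)⁻¹ • ψ0)‖ ^ 2 - ∑ j, ‖rho (P0 j) ((‖ψ0‖)⁻¹ • ψ0)‖ ^ 2 := by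
    rw [Finset.sum_congr rfl fun i _ => hsc (N0 i), Finset.sum_congr rfl fun i _ => hsc (P0 i),
      ← Finset.mul_sum, ← Finset.mul_sum, ← mul_sub]
    have h1 : 0 < ((‖ψ0‖)⁻¹) ^ 2 := by positivity
    have h2 := mul_lt_mul_of_pos_left hcon h1
    have h3 : ((‖ψ0‖)⁻¹) ^ 2 * (c0 * (∑ i, ip (N0 i) (N0 i)) * ‖ψ0‖ ^ 2) =
        c0 * ∑ i, ip (N0 i) (N0 i) := by
      field_simp
    rw [h3] at h2
    exact h2
  obtain ⟨c, ε, N, P, ψ, hc, hε, h⟩ := exists_critP (by linarith) hbal hdχ hχ hbad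
  have hc4 : c < 4 := (b4_le h hε h4).trans_lt hC4
  have hk := b4_ge h hε
  have hIII := ineqIII h (by norm_num) hε (hc0.trans hc) hc4.le (β := 1 / 4) (by norm_num)
    (fun L hL => by
      have h1 := SB_p hL (by norm_num : 0 < 4) h.deg h.norm
      simpa using h1) h6 (Cm := 2) (by
      have h1 : Bd n m 2 ((2 : ℕ) : ℝ) := bd_triv
      simpa using h1)
  have hL10 := L10 h.bal.skN h.deg h.norm
  have hL13 := L13 h.bal.skN h.deg h.norm h.trN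
  have hQu := QN_le_u h.bal.skN h.deg
  have hWR := WR h.bal.skN h.norm h.trN
  simp only [Nat.cast_ofNat] at hL10 hL13 hQu
  refine hnum c (WN ψ N) (RN ψ N) (A1 N) (qN ψ N) (uN ψ N) (QN ψ N) hc hc4 hk hQu
    (Finset.sum_nonneg fun i _ => sq_nonneg _) (Finset.sum_nonneg fun i _ => sq_nonneg _) hWR
    hL10 ?_ hIII
  nlinarith [hL13]

private theorem b4_four (hn : 12 ≤ n) (m q : ℕ) : Bd n m q 4 := by
  refine bdG (by norm_num) ?_ m q
  have : (0 : ℝ) ≤ n := Nat.cast_nonneg n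
  nlinarith

private theorem b4_lt (hn : 12 ≤ n) (m q : ℕ) : Bd n m q (4 - 1 / (n : ℝ)) := by
  have hn' : (12 : ℝ) ≤ n := by exact_mod_cast hn
  have hx0 : 0 < 1 / (n : ℝ) := by positivity
  have hx1 : 1 / (n : ℝ) ≤ 1 := by
    rw [div_le_one (by linarith)]
    linarith
  have hnx : (n : ℝ) * (1 / (n : ℝ)) = 1 := by field_simp
  refine bdG (by linarith) ?_ m q
  obtain ⟨x, hx⟩ : ∃ x : ℝ, x = 1 / (n : ℝ) := ⟨_, rfl⟩
  rw [← hx] at hx0 hx1 hnx ⊢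
  have e1 : (n : ℝ) * (4 - (4 - x)) * (n - 2 * (4 - x)) = (n * x) * (n - 8 + 2 * x) := by ring
  have e2 : 2 * (n : ℝ) * (4 - x - 2) ^ 2 + 4 * (4 - x - 2) ^ 3 =
      8 * n - 8 * (n * x) + 2 * (n * x) * x + 4 * (2 - x) ^ 3 := by ring
  rw [e1, e2, hnx]
  have e3 : 0 ≤ (2 - x) ^ 3 := pow_nonneg (by linarith) 3
  linarith

theorem bd114 (m : ℕ) : Bd 11 m 4 (28 / 9) := by
  have hG : ∀ q : ℕ, Bd 11 m q (10 / 3) := fun q => bdG (by norm_num) (by norm_num) m q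
  refine b4_common (by norm_num) (hG 6) (hG 4) (by norm_num) ?_
  intro c W R a1 q u k hc hc4 hk hku hW hR hu hq ha h
  refine num114 hc hc4 hk hku hW hR hu ?_ ?_ h
  · push_cast at hq
    linarith
  · push_cast at ha
    linarith

theorem bd4 (hn : 12 ≤ n) (m : ℕ) : Bd n m 4 (4 - 8 / ((n : ℝ) - 2)) := by
  have hn' : (12 : ℝ) ≤ n := by exact_mod_cast hn
  refine b4_common (C4 := 4 - 1 / (n : ℝ)) ?_ (b4_four hn m 6) (b4_lt hn m 4) ?_ ?_
  · have : 8 / ((n : ℝ) - 2) ≤ 1 := by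
      rw [div_le_one (by linarith)]
      linarith
    linarith
  · have : 0 < 1 / (n : ℝ) := by positivity
    linarith
  · intro c W R a1 q u k hc hc4 hk hku hW hR hu hq ha h
    exact num4 hn hc hc4 hk hku hW hR hu hq ha h

theorem bd4' (hn : 15 ≤ n) (m : ℕ) : Bd n m 4 (4 - 12 / ((n : ℝ) - 1)) := by
  have hn' : (15 : ℝ) ≤ n := by exact_mod_cast hn
  have hlt : 4 - 1 / (n : ℝ) < 4 := by
    have : 0 < 1 / (n : ℝ) := by positivity
    linarith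
  have hc0 : 3 ≤ 4 - 12 / ((n : ℝ) - 1) := by
    have : 12 / ((n : ℝ) - 1) ≤ 1 := by
      rw [div_le_one (by linarith)]
      linarith
    linarith
  rcases le_or_gt 18 n with h18 | h18
  · refine b4_common (C4 := 4 - 1 / (n : ℝ)) hc0 (b4_four (by omega) m 6)
      (b4_lt (by omega) m 4) hlt ?_
    intro c W R a1 q u k hc hc4 hk hku hW hR hu hq ha h
    exact num5 h18 hc hc4 hk hku hW hR hu hq ha h
  · have h3 : n = 15 ∨ n = 16 ∨ n = 17 := by omega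
    rcases h3 with rfl | rfl | rfl
    · refine b4_common (Cp := 171 / 50) hc0 (bdG (by norm_num) (by norm_num) m 6)
        (b4_lt (by norm_num) m 4) hlt ?_
      intro c W R a1 q u k hc hc4 hk hku hW hR hu hq ha h
      refine num15 ?_ hc4 hk hku hW hR hu ?_ ?_ h
      · norm_num at hc
        linarith
      · push_cast at hq
        linarith
      · push_cast at ha
        linarith
    · refine b4_common (Cp := 7 / 2) hc0 (bdG (by norm_num) (by norm_num) m 6)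
        (b4_lt (by norm_num) m 4) hlt ?_
      intro c W R a1 q u k hc hc4 hk hku hW hR hu hq ha h
      refine num16 ?_ hc4 hk hku hW hR hu ?_ ?_ h
      · norm_num at hc
        linarith
      · push_cast at hq
        linarith
      · push_cast at ha
        linarith
    · refine b4_common (Cp := 18 / 5) hc0 (bdG (by norm_num) (by norm_num) m 6)
        (b4_lt (by norm_num) m 4) hlt ?_
      intro c W R a1 q u k hc hc4 hk hku hW hR hu hq ha h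
      refine num17 ?_ hc4 hk hku hW hR hu ?_ ?_ h
      · norm_num at hc
        linarith
      · push_cast at hq
        linarith
      · push_cast at ha
        linarith

end HopfQ5
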