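import Pool.Agent.Lib.MP_4a593f_gt.Q5.Defs
import Pool.Agent.Lib.MP_4a593f_gt.P3.Main
import Pool.Agent.Lib.MP_4a593f_gt.Big.G5

/-! Task P3b: constant `5/2` for 3-forms.

For `ψ` of degree 3 put `φ a b c = inner (e-coefficient)`, e.g. `φ a b c = (an c (an b (an a ψ))) ∅`
(a `Form3`); `ip3 φ φ = ‖ψ‖²`, `ip3 (rho L φ) (rho L φ) = ‖rho L ψ‖²` for skew `L`
(`(an c (an b (an a (rho L ψ)))) ∅` is `rho L φ` up to the sign convention), `ip2 = ip`.
`Pool.Hopf3.exists_quad` gives `Q`; `L ↦ quad4 Q L` is `Four` (`Alt4 (Q/4)`), so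
`∑_N quad4 Q (N i) = ∑_P quad4 Q (P j)`, and the two-sided bound gives the claim (`ψ = 0` trivial). -/

open scoped BigOperators

namespace HopfQ5

open HopfBig HopfN2 HopfQ4 HopfD8

variable {n : ℕ}

/-- commutator of a contraction and the derivation action -/
private theorem an_rho (a : Fin n) (L : Mat n) (f : Fk n) :
    an a (rho L f) = rho L (an a f) + ∑ t, L a t • an t f := by
  rw [rho_apply, rho_apply]
  simp only [map_sum, map_smul, an_cr, an_an a, smul_add, map_neg, sub_neg_eq_add,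
    Finset.sum_add_distrib]
  rw [add_comm]
  congr 1
  rw [Finset.sum_comm]
  refine Finset.sum_congr rfl fun t _ => ?_
  rw [Finset.sum_eq_single a]
  · rw [if_pos rfl]
  · intro b _ hb
    rw [if_neg (Ne.symm hb), smul_zero]
  · intro h
    exact absurd (Finset.mem_univ a) h

private theorem rho_deg_zero {f : Fk n} (h : Deg 0 f) (L : Mat n) : rho L f = 0 := by
  rw [rho_apply]
  refine Finset.sum_eq_zero fun a _ => Finset.sum_eq_zero fun b _ => ?_
  rw [h.an_zero, map_zero, smul_zero]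

/-- components of a 3-form -/
private noncomputable def cmp (ψ : Fk n) (a b c : Fin n) : ℝ := (an c (an b (an a ψ))) ∅

private theorem ev_add (f g : Fk n) (s : Finset (Fin n)) : (f + g) s = f s + g s := rfl

private theorem ev_sum {ι : Type} (T : Finset ι) (f : ι → Fk n) (s : Finset (Fin n)) :
    (∑ i ∈ T, f i) s = ∑ i ∈ T, f i s := by
  induction T using Finset.cons_induction with
  | empty => simp
  | cons a T ha ih => rw [Finset.sum_cons, Finset.sum_cons, ev_add, ih]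

private theorem cmp_form (ψ : Fk n) : Pool.Hopf3.Form3 (cmp ψ) where
  s12 i j k := by
    unfold cmp
    rw [an_an i j, map_neg]
    rfl
  s23 i j k := by
    unfold cmp
    rw [an_an j k]
    rfl

private theorem cmp_rho {ψ : Fk n} (hψ : Deg 3 ψ) (L : Mat n) :
    cmp (rho L ψ) = Pool.Hopf3.rho (fun i j => L i j) (cmp ψ) := by
  funext a b c
  unfold cmp Pool.Hopf3.rho
  have h0 : rho L (an c (an b (an a ψ))) = 0 :=
    rho_deg_zero (((hψ.an a).an b).an c) L
  rw [an_rho, map_add, map_add, an_rho, map_add, an_rho, h0, zero_add]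
  simp only [map_sum, map_smul, ev_add, ev_sum]
  rw [Finset.sum_add_distrib, Finset.sum_add_distrib]
  have e : ∀ (x : ℝ) (f : Fk n) (s : Finset (Fin n)), (x • f) s = x * f s := fun _ _ _ => rfl
  simp only [e]
  ring

private theorem norm_deg_zero {f : Fk n} (h : Deg 0 f) : ‖f‖ ^ 2 = f ∅ * f ∅ := by
  rw [EuclideanSpace.real_norm_sq_eq, Finset.sum_eq_single ∅]
  · ring
  · intro s _ hs
    rw [h s (fun h1 => hs (Finset.card_eq_zero.1 h1))]
    ring
  · intro h
    exact absurd (Finset.mem_univ _) h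

private theorem cmp_norm {ψ : Fk n} (hψ : Deg 3 ψ) :
    Pool.Hopf3.ip3 (cmp ψ) (cmp ψ) = ‖ψ‖ ^ 2 := by
  unfold Pool.Hopf3.ip3
  have h1 : ∑ i, ∑ j, ∑ k, cmp ψ i j k * cmp ψ i j k = 6 * ‖ψ‖ ^ 2 := by
    have e1 : ∀ i j, ∑ k, cmp ψ i j k * cmp ψ i j k = 1 * ‖an j (an i ψ)‖ ^ 2 := by
      intro i j
      have h2 := sum_norm_an ((hψ.an i).an j)
      rw [Nat.cast_one] at h2
      rw [← h2]
      refine Finset.sum_congr rfl fun k _ => ?_
      unfold cmp
      rw [norm_deg_zero (((hψ.an i).an j).an k)]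
    have e2 : ∀ i, ∑ j, ∑ k, cmp ψ i j k * cmp ψ i j k = 2 * ‖an i ψ‖ ^ 2 := by
      intro i
      have h2 := sum_norm_an (hψ.an i)
      rw [Nat.cast_two] at h2
      rw [← h2]
      refine Finset.sum_congr rfl fun j _ => ?_
      rw [e1, one_mul]
    rw [Finset.sum_congr rfl fun i _ => e2 i, ← Finset.mul_sum, sum_norm_an hψ]
    push_cast
    ring
  rw [h1]
  ring

theorem bd3 (hn : 6 ≤ n) (m : ℕ) : Bd n m 3 (5 / 2) := by
  intro N P hbal ψ hψ
  rcases eq_or_ne ψ 0 with h0 | h0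
  · subst h0
    simp
  · have hpos : 0 < Pool.Hopf3.ip3 (cmp ψ) (cmp ψ) := by
      rw [cmp_norm hψ]
      exact pow_pos (norm_pos_iff.2 h0) 2
    obtain ⟨Q, hQ, hc⟩ := Pool.Hopf3.exists_quad hn (cmp_form ψ) hpos
    have hsk : ∀ L : Mat n, Skew L → Pool.Hopf3.Skew (fun i j => L i j) := fun L hL i j => hL i j
    have hkey : ∀ L : Mat n, Skew L →
        ‖ψ‖ ^ 2 * Pool.Hopf3.quad4 Q (fun i j => L i j) ≤ ‖rho L ψ‖ ^ 2 ∧
        ‖rho L ψ‖ ^ 2 ≤ ‖ψ‖ ^ 2 * Pool.Hopf3.quad4 Q (fun i j => L i j) +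
          5 / 2 * ‖ψ‖ ^ 2 * ip L L := by
      intro L hL
      obtain ⟨h1, h2⟩ := hc _ (hsk L hL)
      rw [← cmp_rho hψ L, cmp_norm (hψ.rho L), cmp_norm hψ] at h1 h2
      have h3 : Pool.Hopf3.ip2 (fun i j => L i j) (fun i j => L i j) = ip L L := rfl
      rw [h3] at h2
      constructor <;> linarith
    have hfour : Four (fun L : Mat n => Pool.Hopf3.quad4 Q (fun i j => L i j)) := by
      refine ⟨fun a b c d => 1 / 4 * Q a b c d, ⟨?_, ?_, ?_⟩, ?_⟩
      · intro a b c d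
        show 1 / 4 * Q b a c d = -(1 / 4 * Q a b c d)
        rw [hQ.s12 a b c d]
        ring
      · intro a b c d
        show 1 / 4 * Q a c b d = -(1 / 4 * Q a b c d)
        rw [hQ.s23 a b c d]
        ring
      · intro a b c d
        show 1 / 4 * Q a b d c = -(1 / 4 * Q a b c d)
        rw [hQ.s34 a b c d]
        ring
      · intro L _
        unfold Pool.Hopf3.quad4
        simp only [Finset.mul_sum]
        refine Finset.sum_congr rfl fun a _ => Finset.sum_congr rfl fun b _ =>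
          Finset.sum_congr rfl fun c _ => Finset.sum_congr rfl fun d _ => ?_
        ring
    have hb := hbal.bal _ hfour
    have h1 : ∑ i, ‖rho (N i) ψ‖ ^ 2 ≤
        ‖ψ‖ ^ 2 * ∑ i, Pool.Hopf3.quad4 Q (fun a b => N i a b) +
          5 / 2 * ‖ψ‖ ^ 2 * ∑ i, ip (N i) (N i) := by
      rw [Finset.mul_sum, Finset.mul_sum, ← Finset.sum_add_distrib]
      exact Finset.sum_le_sum fun i _ => (hkey _ (hbal.skN i)).2
    have h2 : ‖ψ‖ ^ 2 * ∑ i, Pool.Hopf3.quad4 Q (fun a b => P i a b) ≤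
        ∑ i, ‖rho (P i) ψ‖ ^ 2 := by
      rw [Finset.mul_sum]
      exact Finset.sum_le_sum fun i _ => (hkey _ (hbal.skP i)).1
    rw [hb] at h1
    linarith

end HopfQ5
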