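import Pool.Agent.Lib.MP_4a593f_gt.Q5.B9
import Pool.Agent.Lib.MP_4a593f_gt.Q5.B10
import Pool.Agent.Lib.MP_4a593f_gt.Q5.B4
import Pool.Agent.Lib.MP_4a593f_gt.Q5.P3b
import Pool.Agent.Lib.MP_4a593f_gt.Q5.Hodge
import Pool.Agent.Lib.MP_4a593f_gt.D8.Emb
import Pool.Agent.Lib.MP_4a593f_gt.D8.Bd84
import Pool.Agent.Lib.MP_4a593f_gt.D8.BdW
import Pool.Agent.Lib.MP_4a593f_gt.N2.Z3

/-! The final theorems (no task): `(n-2)`-positive and `(n-1)`-positive curvature operators. -/

open scoped BigOperators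

namespace HopfQ5

open HopfBig HopfN2 HopfQ4 HopfD8

variable {n : ℕ}

theorem bd73 (m : ℕ) : Bd 7 m 3 2 := bd_emb (bd84 m)

theorem bd63 (m : ℕ) : Bd 6 m 3 2 := by
  have h : Bd 7 m (7 - 3) 2 := bd_hodge (by norm_num) (bd73 m)
  exact bd_emb h

/-- constant for `p ≥ 5` -/
private theorem bdG_of {C : ℝ} (hC3 : 3 ≤ C)
    (hG : (n : ℝ) * (4 - C) * (n - 2 * C) ≤ 2 * n * (C - 2) ^ 2 + 4 * (C - 2) ^ 3)
    {k p : ℕ} (hk : C * (k : ℝ) ≤ p * ((n : ℝ) - p))
    {R : Fin n → Fin n → Fin n → Fin n → ℝ} (hR : IsCurvature R) (hKP : KPositive R k)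
    {φ : (Fin p → Fin n) → ℝ} (hφ : IsForm φ) (hφ0 : φ ≠ 0) : 0 < bochner R φ :=
  bd_kpos (C := C) (by linarith) (fun m' => bdG hC3 hG m' p) hk hR hKP hφ hφ0

private theorem prod_ge {p : ℕ} (hp : 5 ≤ p) (h2p : 2 * p ≤ n) :
    5 * ((n : ℝ) - 5) ≤ p * ((n : ℝ) - p) := by
  have h1 : (5 : ℝ) ≤ p := by exact_mod_cast hp
  have h2 : 2 * (p : ℝ) ≤ n := by exact_mod_cast h2p
  nlinarith

private theorem triv1 {k : ℕ} (hn : 3 ≤ n) (hk : (k : ℝ) ≤ (n : ℝ) - 1)
    {R : Fin n → Fin n → Fin n → Fin n → ℝ} (hR : IsCurvature R) (hKP : KPositive R k)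
    {φ : (Fin 1 → Fin n) → ℝ} (hφ : IsForm φ) (h0 : φ ≠ 0) : 0 < bochner R φ := by
  refine bochner_pos (C := 1) le_rfl one_pos ?_ ?_ hR hKP ?_ hφ h0
  · push_cast
    linarith
  · have h1 : (k : ℝ) + 1 ≤ n := by linarith
    have h2 : k + 1 ≤ n := by exact_mod_cast h1
    rw [Nat.le_div_iff_mul_le (by norm_num)]
    have h3 : n * 2 ≤ n * (n - 1) := Nat.mul_le_mul_left _ (by omega)
    have h4 : 2 * (n - 1) ≤ n * (n - 1) := Nat.mul_le_mul_right _ (by omega)
    omega
  · intro m X P N _ hP hN _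
    have h := core_trivial X P N hP hN
    push_cast at h
    exact h

theorem nminus2 (hn : 3 ≤ n) {R : Fin n → Fin n → Fin n → Fin n → ℝ} (hR : IsCurvature R)
    (hKP : KPositive R (n - 2)) {p : ℕ} (hp : 1 ≤ p) (h2p : 2 * p ≤ n)
    {φ : (Fin p → Fin n) → ℝ} (hφ : IsForm φ) (h0 : φ ≠ 0) : 0 < bochner R φ := by
  have hc : ((n - 2 : ℕ) : ℝ) = (n : ℝ) - 2 := by
    rw [Nat.cast_sub (by omega)]
    norm_num
  rcases Nat.lt_or_ge p 5 with h5 | h5
  · have hcase : p = 1 ∨ p = 2 ∨ p = 3 ∨ p = 4 := by omega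
    rcases hcase with rfl | rfl | rfl | rfl
    · exact triv1 hn (by rw [hc]; linarith) hR hKP hφ h0
    · refine bd_kpos (C := 2) le_rfl (fun m' => ?_) ?_ hR hKP hφ h0
      · have := bd_triv (n := n) (m := m') (p := 2)
        exact_mod_cast this
      · rw [hc]
        push_cast
        linarith
    · rcases Nat.lt_or_ge n 8 with h8 | h8
      · have hcase : n = 6 ∨ n = 7 := by omega
        rcases hcase with rfl | rfl
        · refine bd_kpos (C := 2) le_rfl (fun m' => bd63 m') ?_ hR hKP hφ h0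
          norm_num
        · refine bd_kpos (C := 2) le_rfl (fun m' => bd73 m') ?_ hR hKP hφ h0
          norm_num
      · refine bd_kpos (C := 5 / 2) (by norm_num) (fun m' => bd3 (by omega) m') ?_ hR hKP hφ h0
        have h8' : (8 : ℝ) ≤ n := by exact_mod_cast h8
        rw [hc]
        push_cast
        linarith
    · rcases Nat.lt_or_ge n 12 with h12 | h12
      · have hcase : n = 8 ∨ n = 9 ∨ n = 10 ∨ n = 11 := by omega
        rcases hcase with rfl | rfl | rfl | rfl
        · refine bd_kpos (C := 2) le_rfl (fun m' => bd84 m') ?_ hR hKP hφ h0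
          norm_num
        · refine bd_kpos (C := 20 / 7) (by norm_num) (fun m' => bd94 m') ?_ hR hKP hφ h0
          norm_num
        · refine bd_kpos (C := 3) (by norm_num) (fun m' => bd104 m') ?_ hR hKP hφ h0
          norm_num
        · refine bd_kpos (C := 28 / 9) (by norm_num) (fun m' => bd114 m') ?_ hR hKP hφ h0
          norm_num
      · have h12' : (12 : ℝ) ≤ n := by exact_mod_cast h12
        have h2 : 0 < (n : ℝ) - 2 := by linarith
        have h3 : 8 / ((n : ℝ) - 2) ≤ 8 / 10 := by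
          rw [div_le_div_iff₀ h2 (by norm_num)]
          linarith
        refine bd_kpos (C := 4 - 8 / ((n : ℝ) - 2)) (by linarith) (fun m' => bd4 h12 m') ?_
          hR hKP hφ h0
        rw [hc, sub_mul, div_mul_cancel₀ _ h2.ne']
        push_cast
        linarith
  · have hpr := prod_ge h5 h2p
    rcases Nat.lt_or_ge n 17 with h17 | h17
    · have hn10 : 10 ≤ n := by omega
      have hcase : n = 10 ∨ n = 11 ∨ n = 12 ∨ n = 13 ∨ n = 14 ∨ n = 15 ∨ n = 16 := by omega
      rcases hcase with rfl | rfl | rfl | rfl | rfl | rfl | rfl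
      · have hp5 : p = 5 := by omega
        subst hp5
        refine bd_kpos (C := 25 / 8) (by norm_num) (fun m' => bd105 m') ?_ hR hKP hφ h0
        norm_num
      · exact bdG_of (C := 30 / 9) (by norm_num) (by norm_num)
          (by push_cast; push_cast at hpr; linarith) hR hKP hφ h0
      · exact bdG_of (C := 35 / 10) (by norm_num) (by norm_num)
          (by push_cast; push_cast at hpr; linarith) hR hKP hφ h0
      · exact bdG_of (C := 40 / 11) (by norm_num) (by norm_num)
          (by push_cast; push_cast at hpr; linarith) hR hKP hφ h0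
      · exact bdG_of (C := 45 / 12) (by norm_num) (by norm_num)
          (by push_cast; push_cast at hpr; linarith) hR hKP hφ h0
      · exact bdG_of (C := 50 / 13) (by norm_num) (by norm_num)
          (by push_cast; push_cast at hpr; linarith) hR hKP hφ h0
      · exact bdG_of (C := 55 / 14) (by norm_num) (by norm_num)
          (by push_cast; push_cast at hpr; linarith) hR hKP hφ h0
    · have h17' : (17 : ℝ) ≤ n := by exact_mod_cast h17
      refine bdG_of (C := 4) (by norm_num) ?_ ?_ hR hKP hφ h0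
      · nlinarith
      · rw [hc]
        linarith

theorem nminus1 (hn : 13 ≤ n) {R : Fin n → Fin n → Fin n → Fin n → ℝ} (hR : IsCurvature R)
    (hKP : KPositive R (n - 1)) {p : ℕ} (hp : 1 ≤ p) (h2p : 2 * p ≤ n) (hp2 : p ≠ 2)
    (hp4 : p = 4 → 15 ≤ n) {φ : (Fin p → Fin n) → ℝ} (hφ : IsForm φ) (h0 : φ ≠ 0) :
    0 < bochner R φ := by
  have hc : ((n - 1 : ℕ) : ℝ) = (n : ℝ) - 1 := by
    rw [Nat.cast_sub (by omega)]
    norm_num
  have hnr : (13 : ℝ) ≤ n := by exact_mod_cast hn
  rcases Nat.lt_or_ge p 5 with h5 | h5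
  · have hcase : p = 1 ∨ p = 3 ∨ p = 4 := by omega
    rcases hcase with rfl | rfl | rfl
    · exact triv1 (by omega) (by rw [hc]) hR hKP hφ h0
    · refine bd_kpos (C := 5 / 2) (by norm_num) (fun m' => bd3 (by omega) m') ?_ hR hKP hφ h0
      rw [hc]
      push_cast
      linarith
    · have h15 : 15 ≤ n := hp4 rfl
      have h15' : (15 : ℝ) ≤ n := by exact_mod_cast h15
      have h2 : 0 < (n : ℝ) - 1 := by linarith
      have h3 : 12 / ((n : ℝ) - 1) ≤ 12 / 14 := by
        rw [div_le_div_iff₀ h2 (by norm_num)]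
        linarith
      refine bd_kpos (C := 4 - 12 / ((n : ℝ) - 1)) (by linarith) (fun m' => bd4' h15 m') ?_
        hR hKP hφ h0
      rw [hc, sub_mul, div_mul_cancel₀ _ h2.ne']
      push_cast
      linarith
  · have hpr := prod_ge h5 h2p
    rcases Nat.lt_or_ge n 21 with h21 | h21
    · have hcase : n = 13 ∨ n = 14 ∨ n = 15 ∨ n = 16 ∨ n = 17 ∨ n = 18 ∨ n = 19 ∨ n = 20 := by
        omega
      rcases hcase with rfl | rfl | rfl | rfl | rfl | rfl | rfl | rfl
      · exact bdG_of (C := 40 / 12) (by norm_num) (by norm_num)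
          (by push_cast; push_cast at hpr; linarith) hR hKP hφ h0
      · exact bdG_of (C := 45 / 13) (by norm_num) (by norm_num)
          (by push_cast; push_cast at hpr; linarith) hR hKP hφ h0
      · exact bdG_of (C := 50 / 14) (by norm_num) (by norm_num)
          (by push_cast; push_cast at hpr; linarith) hR hKP hφ h0
      · exact bdG_of (C := 55 / 15) (by norm_num) (by norm_num)
          (by push_cast; push_cast at hpr; linarith) hR hKP hφ h0
      · exact bdG_of (C := 60 / 16) (by norm_num) (by norm_num)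
          (by push_cast; push_cast at hpr; linarith) hR hKP hφ h0
      · exact bdG_of (C := 65 / 17) (by norm_num) (by norm_num)
          (by push_cast; push_cast at hpr; linarith) hR hKP hφ h0
      · exact bdG_of (C := 70 / 18) (by norm_num) (by norm_num)
          (by push_cast; push_cast at hpr; linarith) hR hKP hφ h0
      · exact bdG_of (C := 75 / 19) (by norm_num) (by norm_num)
          (by push_cast; push_cast at hpr; linarith) hR hKP hφ h0
    · have h21' : (21 : ℝ) ≤ n := by exact_mod_cast h21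
      refine bdG_of (C := 4) (by norm_num) ?_ ?_ hR hKP hφ h0
      · nlinarith
      · rw [hc]
        linarith

end HopfQ5
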