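import Pool.Agent.Lib.MP_4a593f_gt.Q5.Defs
import Pool.Agent.Lib.MP_4a593f_gt.Big.G3

/-! Task NFc: the normal form in coordinates.

`-(nfM μ)²` is diagonal with entries `μ(i/2)²` (if `n` is odd, `μ((n-1)/2) = 0`), so `rho` of it is
diagonal: multiplication of `χ s` by `∑_{i∈s} μ(i/2)²`; this gives `nf_one`, `nf_Ss`
(`ac A A = 2A²`, `tr(A²) = -2∑μ²`).
`nf_rho`: `(rho (nfM μ) χ)(s) = ∑_{k, occ s k = 1} ± μ_k χ(s △ {2k,2k+1})`; by Cauchy-Schwarz
`(…)² ≤ (∑_{k∈U(s)} μ_k) (∑_{k∈U(s)} μ_k χ(s△pair k)²)`, `U(s) = {k | occ s k = 1}`, and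
`s ↦ s △ {2k,2k+1}` is a bijection of `{s | occ s k = 1}` preserving `U`. -/

open scoped BigOperators

namespace HopfQ5

open HopfBig HopfN2 HopfQ4 HopfD8

variable {n m p : ℕ} {c ε : ℝ} {N P : Fin m → Mat n} {ψ : Fk n}

/-! ### the square of the normal form -/

private theorem nfc_diag {μ : ℕ → ℝ} (h0 : ∀ k, n ≤ 2 * k + 1 → μ k = 0) :
    nfM n μ * nfM n μ = -Matrix.diagonal fun i : Fin n => μ (i.val / 2) ^ 2 := by
  ext i j
  rw [Matrix.mul_apply, Matrix.neg_apply, Matrix.diagonal_apply]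
  have hi := i.isLt
  have hj := j.isLt
  rcases Nat.mod_two_eq_zero_or_one i.val with he | ho
  · -- `i` even
    by_cases hn : i.val + 1 < n
    · rw [Finset.sum_eq_single (⟨i.val + 1, hn⟩ : Fin n)]
      · have e1 : nfM n μ i ⟨i.val + 1, hn⟩ = μ (i.val / 2) := by
          show Pool.Hopf3.nf μ i.val (i.val + 1) = _
          rw [Pool.Hopf3.nf, if_pos ⟨rfl, he⟩]
        rw [e1]
        by_cases hij : i = j
        · subst hij
          have e2 : nfM n μ ⟨i.val + 1, hn⟩ i = -μ (i.val / 2) := by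
            show Pool.Hopf3.nf μ (i.val + 1) i.val = _
            rw [Pool.Hopf3.nf, if_neg (by omega), if_pos ⟨rfl, he⟩]
          rw [e2, if_pos rfl]
          ring
        · have e2 : nfM n μ ⟨i.val + 1, hn⟩ j = 0 := by
            show Pool.Hopf3.nf μ (i.val + 1) j.val = _
            have hij' : i.val ≠ j.val := fun h => hij (Fin.ext h)
            rw [Pool.Hopf3.nf, if_neg (by omega), if_neg (by omega)]
          rw [e2, if_neg hij, mul_zero, neg_zero]
      · intro k _ hk
        have hk' : k.val ≠ i.val + 1 := fun h => hk (Fin.ext h)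
        have e1 : nfM n μ i k = 0 := by
          show Pool.Hopf3.nf μ i.val k.val = _
          rw [Pool.Hopf3.nf, if_neg (by omega), if_neg (by omega)]
        rw [e1, zero_mul]
      · intro h
        exact absurd (Finset.mem_univ _) h
    · have hμ : μ (i.val / 2) = 0 := h0 _ (by omega)
      rw [Finset.sum_eq_zero]
      · rw [hμ]
        simp
      · intro k _
        have hk := k.isLt
        have e1 : nfM n μ i k = 0 := by
          show Pool.Hopf3.nf μ i.val k.val = _
          rw [Pool.Hopf3.nf, if_neg (by omega), if_neg (by omega)]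
        rw [e1, zero_mul]
  · -- `i` odd
    have hn : i.val - 1 < n := by omega
    rw [Finset.sum_eq_single (⟨i.val - 1, hn⟩ : Fin n)]
    · have e1 : nfM n μ i ⟨i.val - 1, hn⟩ = -μ (i.val / 2) := by
        show Pool.Hopf3.nf μ i.val (i.val - 1) = _
        rw [Pool.Hopf3.nf, if_neg (by omega), if_pos (by omega)]
        congr 2
        omega
      rw [e1]
      by_cases hij : i = j
      · subst hij
        have e2 : nfM n μ ⟨i.val - 1, hn⟩ i = μ (i.val / 2) := by
          show Pool.Hopf3.nf μ (i.val - 1) i.val = _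
          rw [Pool.Hopf3.nf, if_pos (by omega)]
          congr 1
          omega
        rw [e2, if_pos rfl]
        ring
      · have e2 : nfM n μ ⟨i.val - 1, hn⟩ j = 0 := by
          show Pool.Hopf3.nf μ (i.val - 1) j.val = _
          have hij' : i.val ≠ j.val := fun h => hij (Fin.ext h)
          rw [Pool.Hopf3.nf, if_neg (by omega), if_neg (by omega)]
        rw [e2, if_neg hij, mul_zero, neg_zero]
    · intro k _ hk
      have hk' : k.val ≠ i.val - 1 := fun h => hk (Fin.ext h)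
      have e1 : nfM n μ i k = 0 := by
        show Pool.Hopf3.nf μ i.val k.val = _
        rw [Pool.Hopf3.nf, if_neg (by omega), if_neg (by omega)]
      rw [e1, zero_mul]
    · intro h
      exact absurd (Finset.mem_univ _) h

private theorem nfc_cr_an (a : Fin n) (f : Fk n) (s : Finset (Fin n)) :
    cr a (an a f) s = if a ∈ s then f s else 0 := by
  rw [cr_apply, an_apply]
  by_cases ha : a ∈ s
  · rw [if_pos ha, if_pos ha, if_neg (Finset.notMem_erase a s), Finset.insert_erase ha,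
      ← mul_assoc]
    have e : sg a (s.erase a) = sg a s := by
      unfold sg
      congr 2
      ext b
      simp only [Finset.mem_filter, Finset.mem_erase]
      constructor
      · rintro ⟨⟨-, h1⟩, h2⟩
        exact ⟨h1, h2⟩
      · rintro ⟨h1, h2⟩
        exact ⟨⟨h2.ne, h1⟩, h2⟩
    rw [e, sg_sq, one_mul]
  · rw [if_neg ha, if_neg ha]

private theorem nfc_sum_apply {ι : Type} (t : Finset ι) (F : ι → Fk n) (s : Finset (Fin n)) :
    (∑ i ∈ t, F i) s = ∑ i ∈ t, F i s := by
  classical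
  induction t using Finset.induction_on with
  | empty => simp
  | insert a t ha ih => rw [Finset.sum_insert ha, Finset.sum_insert ha, PiLp.add_apply, ih]

private theorem nfc_rho_diag (d : Fin n → ℝ) (f : Fk n) (s : Finset (Fin n)) :
    rho (Matrix.diagonal d) f s = (∑ i ∈ s, d i) * f s := by
  rw [rho_apply]
  have h1 : ∀ a : Fin n, ∑ b, Matrix.diagonal d a b • cr a (an b f) = d a • cr a (an a f) := by
    intro a
    rw [Finset.sum_eq_single a]
    · rw [Matrix.diagonal_apply_eq]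
    · intro b _ hb
      rw [Matrix.diagonal_apply_ne _ (Ne.symm hb), zero_smul]
    · intro h
      exact absurd (Finset.mem_univ _) h
  rw [Finset.sum_congr rfl fun a _ => h1 a, nfc_sum_apply]
  have h2 : ∀ a : Fin n, (d a • cr a (an a f)) s = if a ∈ s then d a * f s else 0 := by
    intro a
    rw [PiLp.smul_apply, nfc_cr_an, smul_eq_mul, mul_ite, mul_zero]
  rw [Finset.sum_congr rfl fun a _ => h2 a, Finset.sum_ite_mem, Finset.univ_inter,
    Finset.sum_mul]

private theorem nfc_inner (f g : Fk n) : inner ℝ f g = ∑ s, f s * g s := by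
  simp [PiLp.inner_apply, mul_comm]

private theorem nfc_norm (f : Fk n) : ‖f‖ ^ 2 = ∑ s, f s ^ 2 := by
  rw [EuclideanSpace.norm_sq_eq]
  exact Finset.sum_congr rfl fun s _ => by rw [Real.norm_eq_abs, sq_abs]

private theorem nfc_range (f : ℕ → ℝ) (N : ℕ) :
    ∑ i ∈ Finset.range (2 * N), f (i / 2) = 2 * ∑ k ∈ Finset.range N, f k := by
  induction N with
  | zero => simp
  | succ N ih =>
    have e : 2 * (N + 1) = 2 * N + 1 + 1 := by ring
    rw [e, Finset.sum_range_succ, Finset.sum_range_succ, Finset.sum_range_succ, ih,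
      show 2 * N / 2 = N by omega, show (2 * N + 1) / 2 = N by omega]
    ring

private theorem nfc_trace {μ : ℕ → ℝ} (h0 : ∀ k, n ≤ 2 * k + 1 → μ k = 0) :
    ∑ i : Fin n, μ (i.val / 2) ^ 2 = 2 * ∑ k ∈ Finset.range n, μ k ^ 2 := by
  rw [Fin.sum_univ_eq_sum_range (fun i => μ (i / 2) ^ 2) n, ← nfc_range (fun k => μ k ^ 2) n]
  refine Finset.sum_subset (fun i hi => ?_) fun i _ hi => ?_
  · rw [Finset.mem_range] at hi ⊢
    omega
  · rw [Finset.mem_range, not_lt] at hi
    rw [h0 (i / 2) (by omega)]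
    ring

theorem nf_one {μ : ℕ → ℝ} (h0 : ∀ k, n ≤ 2 * k + 1 → μ k = 0) (χ : Fk n) :
    inner ℝ (rho (-(nfM n μ * nfM n μ)) χ) χ = ∑ s, χ s ^ 2 * ∑ i ∈ s, μ (i.val / 2) ^ 2 := by
  rw [nfc_diag h0, neg_neg, nfc_inner]
  refine Finset.sum_congr rfl fun s _ => ?_
  rw [nfc_rho_diag]
  ring

theorem nf_Ss {μ : ℕ → ℝ} (h0 : ∀ k, n ≤ 2 * k + 1 → μ k = 0) (χ : Fk n) :
    ‖Ss (ac (nfM n μ) (nfM n μ)) χ‖ ^ 2 =
      4 * ∑ s, χ s ^ 2 * (∑ i ∈ s, μ (i.val / 2) ^ 2 - ∑ k ∈ Finset.range n, μ k ^ 2) ^ 2 := by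
  have h1 : ac (nfM n μ) (nfM n μ) =
      Matrix.diagonal fun i : Fin n => -2 * μ (i.val / 2) ^ 2 := by
    unfold ac
    rw [nfc_diag h0]
    ext i j
    rw [Matrix.add_apply, Matrix.neg_apply, Matrix.diagonal_apply, Matrix.diagonal_apply]
    split_ifs <;> ring
  rw [nfc_norm, Finset.mul_sum]
  refine Finset.sum_congr rfl fun s _ => ?_
  have h2 : Ss (ac (nfM n μ) (nfM n μ)) χ s =
      -2 * (∑ i ∈ s, μ (i.val / 2) ^ 2 - ∑ k ∈ Finset.range n, μ k ^ 2) * χ s := by
    unfold Ss
    rw [LinearMap.sub_apply, PiLp.sub_apply, h1, nfc_rho_diag, LinearMap.smul_apply,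
      LinearMap.id_apply, PiLp.smul_apply, smul_eq_mul, Matrix.trace_diagonal,
      ← Finset.mul_sum, ← Finset.mul_sum, nfc_trace h0]
    ring
  rw [h2]
  ring

/-! ### the action of the normal form -/

private theorem nfc_abs {μ : ℕ → ℝ} (hμ : ∀ k, 0 ≤ μ k) (a b : Fin n) :
    |nfM n μ a b| = ∑ k ∈ Finset.range n,
      ((if a.val = 2 * k ∧ b.val = 2 * k + 1 then μ k else 0) +
        (if a.val = 2 * k + 1 ∧ b.val = 2 * k then μ k else 0)) := by
  have ha := a.isLt
  have hb := b.isLt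
  show |Pool.Hopf3.nf μ a.val b.val| = _
  rw [Pool.Hopf3.nf]
  by_cases h1 : b.val = a.val + 1 ∧ a.val % 2 = 0
  · rw [if_pos h1, abs_of_nonneg (hμ _), Finset.sum_eq_single (a.val / 2)]
    · rw [if_pos (by omega), if_neg (by omega), add_zero]
    · intro k _ hk
      rw [if_neg (by omega), if_neg (by omega), add_zero]
    · intro h
      exact absurd (Finset.mem_range.2 (by omega)) h
  · rw [if_neg h1]
    by_cases h2 : a.val = b.val + 1 ∧ b.val % 2 = 0
    · rw [if_pos h2, abs_neg, abs_of_nonneg (hμ _), Finset.sum_eq_single (b.val / 2)]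
      · rw [if_neg (by omega), if_pos (by omega), zero_add]
      · intro k _ hk
        rw [if_neg (by omega), if_neg (by omega), add_zero]
      · intro h
        exact absurd (Finset.mem_range.2 (by omega)) h
    · rw [if_neg h2, abs_zero, Finset.sum_eq_zero]
      intro k _
      rw [if_neg (by omega), if_neg (by omega), add_zero]

private theorem nfc_half {μ : ℕ → ℝ} {a b : Fin n} (h : nfM n μ a b ≠ 0) :
    a.val / 2 = b.val / 2 := by
  by_contra hne
  apply h
  show Pool.Hopf3.nf μ a.val b.val = 0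
  rw [Pool.Hopf3.nf, if_neg (by omega), if_neg (by omega)]

private theorem nfc_symm (μ : ℕ → ℝ) (a b : Fin n) : |nfM n μ a b| = |nfM n μ b a| := by
  show |Pool.Hopf3.nf μ a.val b.val| = |Pool.Hopf3.nf μ b.val a.val|
  unfold Pool.Hopf3.nf
  by_cases h1 : b.val = a.val + 1 ∧ a.val % 2 = 0
  · rw [if_pos h1, if_neg (by omega), if_pos h1, abs_neg]
  · rw [if_neg h1]
    by_cases h2 : a.val = b.val + 1 ∧ b.val % 2 = 0
    · rw [if_pos h2, if_pos h2, abs_neg]
    · rw [if_neg h2, if_neg h2, if_neg h1]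

private theorem nfc_occ (s : Finset (Fin n)) {k : ℕ} (hk : 2 * k + 1 < n) :
    occ s k = (if (⟨2 * k, by omega⟩ : Fin n) ∈ s then 1 else 0) +
      (if (⟨2 * k + 1, hk⟩ : Fin n) ∈ s then 1 else 0) := by
  unfold occ
  have h1 : (s.filter fun i => i.val / 2 = k) =
      ({(⟨2 * k, by omega⟩ : Fin n), ⟨2 * k + 1, hk⟩} : Finset (Fin n)).filter (· ∈ s) := by
    ext i
    simp only [Finset.mem_filter, Finset.mem_insert, Finset.mem_singleton, Fin.ext_iff]
    constructor
    · rintro ⟨h1, h2⟩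
      exact ⟨by omega, h1⟩
    · rintro ⟨h1, h2⟩
      exact ⟨h2, by omega⟩
  rw [h1, Finset.filter_insert, Finset.filter_singleton]
  have hne : (⟨2 * k, by omega⟩ : Fin n) ≠ ⟨2 * k + 1, hk⟩ := by
    intro h
    have := congrArg Fin.val h
    simp at this
  split_ifs <;> simp [hne]

private theorem nfc_U {μ : ℕ → ℝ} (hμ : ∀ k, 0 ≤ μ k) (h0 : ∀ k, n ≤ 2 * k + 1 → μ k = 0)
    (s : Finset (Fin n)) :
    ∑ a, ∑ b, (if a ∈ s ∧ b ∉ s then |nfM n μ a b| else 0) =
      ∑ k ∈ Finset.range n, if occ s k = 1 then μ k else 0 := by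
  have h1 : ∀ a b : Fin n, (if a ∈ s ∧ b ∉ s then |nfM n μ a b| else 0) =
      ∑ k ∈ Finset.range n, (if a ∈ s ∧ b ∉ s then
        ((if a.val = 2 * k ∧ b.val = 2 * k + 1 then μ k else 0) +
        (if a.val = 2 * k + 1 ∧ b.val = 2 * k then μ k else 0)) else 0) := by
    intro a b
    by_cases h : a ∈ s ∧ b ∉ s
    · simp only [if_pos h]
      exact nfc_abs hμ a b
    · simp only [if_neg h, Finset.sum_const_zero]
  simp only [h1]
  have h2 : ∀ a : Fin n, ∑ b, ∑ k ∈ Finset.range n, (if a ∈ s ∧ b ∉ s then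
        ((if a.val = 2 * k ∧ b.val = 2 * k + 1 then μ k else 0) +
        (if a.val = 2 * k + 1 ∧ b.val = 2 * k then μ k else 0)) else 0) =
      ∑ k ∈ Finset.range n, ∑ b : Fin n, (if a ∈ s ∧ b ∉ s then
        ((if a.val = 2 * k ∧ b.val = 2 * k + 1 then μ k else 0) +
        (if a.val = 2 * k + 1 ∧ b.val = 2 * k then μ k else 0)) else 0) :=
    fun a => Finset.sum_comm
  rw [Finset.sum_congr rfl fun a _ => h2 a, Finset.sum_comm]
  refine Finset.sum_congr rfl fun k hk => ?_
  by_cases hkn : 2 * k + 1 < n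
  · have h3 : ∀ a b : Fin n, (if a ∈ s ∧ b ∉ s then
        ((if a.val = 2 * k ∧ b.val = 2 * k + 1 then μ k else 0) +
        (if a.val = 2 * k + 1 ∧ b.val = 2 * k then μ k else 0)) else 0) =
        (if a = (⟨2 * k, by omega⟩ : Fin n) then (if b = (⟨2 * k + 1, hkn⟩ : Fin n) then
          (if a ∈ s ∧ b ∉ s then μ k else 0) else 0) else 0) +
        (if a = (⟨2 * k + 1, hkn⟩ : Fin n) then (if b = (⟨2 * k, by omega⟩ : Fin n) then
          (if a ∈ s ∧ b ∉ s then μ k else 0) else 0) else 0) := by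
      intro a b
      simp only [Fin.ext_iff]
      by_cases c1 : a ∈ s ∧ b ∉ s
      · simp only [if_pos c1, ite_and]
      · simp only [if_neg c1, ite_self, add_zero]
    simp only [h3, Finset.sum_add_distrib]
    have h4 : ∀ (p q : Fin n), ∑ a : Fin n, ∑ b : Fin n, (if a = p then (if b = q then
          (if a ∈ s ∧ b ∉ s then μ k else 0) else 0) else 0) =
          if p ∈ s ∧ q ∉ s then μ k else 0 := by
      intro p q
      rw [Finset.sum_eq_single p]
      · simp only [if_true]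
        rw [Finset.sum_ite_eq' Finset.univ q, if_pos (Finset.mem_univ _)]
      · intro a _ ha
        simp only [if_neg ha, Finset.sum_const_zero]
      · intro h
        exact absurd (Finset.mem_univ _) h
    rw [h4, h4, nfc_occ s hkn]
    by_cases c1 : (⟨2 * k, by omega⟩ : Fin n) ∈ s <;> by_cases c2 : (⟨2 * k + 1, hkn⟩ : Fin n) ∈ s
      <;> simp [c1, c2]
  · have h3 : μ k = 0 := h0 k (by omega)
    simp only [h3, ite_self, add_zero, Finset.sum_const_zero]

/-- exchanging `a` and `b` does not change the occupation numbers -/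
private theorem nfc_occ_swap {s : Finset (Fin n)} {a b : Fin n} (ha : a ∈ s) (hb : b ∉ s)
    (hab : a.val / 2 = b.val / 2) (k : ℕ) : occ (insert b (s.erase a)) k = occ s k := by
  unfold occ
  rw [Finset.filter_insert, Finset.filter_erase]
  by_cases h : b.val / 2 = k
  · have ha' : a ∈ s.filter fun i => i.val / 2 = k := Finset.mem_filter.2 ⟨ha, by omega⟩
    rw [if_pos h, Finset.card_insert_of_notMem, Finset.card_erase_of_mem ha']
    · have := Finset.card_pos.2 ⟨a, ha'⟩
      omega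
    · intro hc
      exact hb (Finset.mem_filter.1 (Finset.mem_of_mem_erase hc)).1
  · rw [if_neg h, Finset.erase_eq_of_notMem]
    intro hc
    have := (Finset.mem_filter.1 hc).2
    omega

private theorem nfc_point (μ : ℕ → ℝ) (χ : Fk n) (s : Finset (Fin n)) :
    |rho (nfM n μ) χ s| ≤ ∑ a, ∑ b, (if a ∈ s ∧ b ∉ s then |nfM n μ a b| else 0) *
      |χ (insert b (s.erase a))| := by
  rw [rho_apply, nfc_sum_apply]
  refine (Finset.abs_sum_le_sum_abs _ _).trans (Finset.sum_le_sum fun a _ => ?_)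
  rw [nfc_sum_apply]
  refine (Finset.abs_sum_le_sum_abs _ _).trans (Finset.sum_le_sum fun b _ => ?_)
  rw [PiLp.smul_apply, smul_eq_mul, abs_mul]
  have hsg : ∀ (a : Fin n) (t : Finset (Fin n)), |sg a t| = 1 := by
    intro a t
    unfold sg
    rw [abs_pow, abs_neg, abs_one, one_pow]
  by_cases hab : a = b
  · subst hab
    have h1 : nfM n μ a a = 0 := by
      show Pool.Hopf3.nf μ a.val a.val = 0
      rw [Pool.Hopf3.nf, if_neg (by omega), if_neg (by omega)]
    rw [h1, abs_zero, zero_mul]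
    simp
  rw [cr_apply]
  by_cases ha : a ∈ s
  · rw [if_pos ha, an_apply]
    by_cases hb : b ∈ s
    · rw [if_pos (Finset.mem_erase.2 ⟨Ne.symm hab, hb⟩)]
      simp [hb]
    · rw [if_neg (fun h => hb (Finset.mem_of_mem_erase h)), if_pos ⟨ha, hb⟩, abs_mul, abs_mul,
        hsg, hsg, one_mul, one_mul]
  · rw [if_neg ha, abs_zero, mul_zero]
    simp [ha]

/-- reindexing the subsets -/
private theorem nfc_reindex {a b : Fin n} (hab : a ≠ b) (F : Finset (Fin n) → ℝ) :
    ∑ s : Finset (Fin n), (if a ∈ s ∧ b ∉ s then F (insert b (s.erase a)) else 0) =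
      ∑ t : Finset (Fin n), (if b ∈ t ∧ a ∉ t then F t else 0) := by
  rw [← Finset.sum_filter, ← Finset.sum_filter]
  refine Finset.sum_nbij' (fun s => insert b (s.erase a)) (fun t => insert a (t.erase b))
    ?_ ?_ ?_ ?_ ?_
  · intro s hs
    rw [Finset.mem_filter] at hs ⊢
    refine ⟨Finset.mem_univ _, Finset.mem_insert_self _ _, ?_⟩
    rw [Finset.mem_insert, not_or]
    exact ⟨hab, Finset.notMem_erase a s⟩
  · intro t ht
    rw [Finset.mem_filter] at ht ⊢
    refine ⟨Finset.mem_univ _, Finset.mem_insert_self _ _, ?_⟩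
    rw [Finset.mem_insert, not_or]
    exact ⟨Ne.symm hab, Finset.notMem_erase b t⟩
  · intro s hs
    rw [Finset.mem_filter] at hs
    rw [Finset.erase_insert (fun h => hs.2.2 (Finset.mem_of_mem_erase h)),
      Finset.insert_erase hs.2.1]
  · intro t ht
    rw [Finset.mem_filter] at ht
    rw [Finset.erase_insert (fun h => ht.2.2 (Finset.mem_of_mem_erase h)),
      Finset.insert_erase ht.2.1]
  · intro s _
    rfl

theorem nf_rho {μ : ℕ → ℝ} (hμ : ∀ k, 0 ≤ μ k) (h0 : ∀ k, n ≤ 2 * k + 1 → μ k = 0) (χ : Fk n) :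
    ‖rho (nfM n μ) χ‖ ^ 2 ≤
      ∑ s, χ s ^ 2 * (∑ k ∈ Finset.range n, if occ s k = 1 then μ k else 0) ^ 2 := by
  obtain ⟨U, hU⟩ : ∃ U : Finset (Fin n) → ℝ, ∀ s, U s =
      ∑ k ∈ Finset.range n, if occ s k = 1 then μ k else 0 := ⟨_, fun _ => rfl⟩
  obtain ⟨E, hE⟩ : ∃ E : Finset (Fin n) → Fin n → Fin n → ℝ, ∀ s a b, E s a b =
      if a ∈ s ∧ b ∉ s then |nfM n μ a b| else 0 := ⟨_, fun _ _ _ => rfl⟩
  have hE0 : ∀ s a b, 0 ≤ E s a b := by
    intro s a b
    rw [hE]
    split_ifs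
    · exact abs_nonneg _
    · exact le_rfl
  have hUE : ∀ s, ∑ a, ∑ b, E s a b = U s := by
    intro s
    rw [hU, ← nfc_U hμ h0 s]
    exact Finset.sum_congr rfl fun a _ => Finset.sum_congr rfl fun b _ => hE s a b
  have hU0 : ∀ s, 0 ≤ U s := by
    intro s
    rw [← hUE]
    exact Finset.sum_nonneg fun a _ => Finset.sum_nonneg fun b _ => hE0 s a b
  -- Cauchy-Schwarz
  have hCS : ∀ s, rho (nfM n μ) χ s ^ 2 ≤
      U s * ∑ a, ∑ b, E s a b * χ (insert b (s.erase a)) ^ 2 := by
    intro s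
    have h1 := nfc_point μ χ s
    simp only [← hE] at h1
    have h2 : rho (nfM n μ) χ s ^ 2 ≤
        (∑ a, ∑ b, E s a b * |χ (insert b (s.erase a))|) ^ 2 := by
      rw [← sq_abs]
      exact pow_le_pow_left₀ (abs_nonneg _) h1 2
    refine h2.trans ?_
    rw [← hUE]
    simp only [← Finset.sum_product', Finset.univ_product_univ]
    have h3 := Finset.sum_mul_sq_le_sq_mul_sq (Finset.univ : Finset (Fin n × Fin n))
      (fun x => √(E s x.1 x.2)) (fun x => √(E s x.1 x.2) * |χ (insert x.2 (s.erase x.1))|)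
    have e1 : ∀ x : Fin n × Fin n, √(E s x.1 x.2) *
        (√(E s x.1 x.2) * |χ (insert x.2 (s.erase x.1))|) =
        E s x.1 x.2 * |χ (insert x.2 (s.erase x.1))| := by
      intro x
      rw [← mul_assoc, Real.mul_self_sqrt (hE0 _ _ _)]
    have e2 : ∀ x : Fin n × Fin n, √(E s x.1 x.2) ^ 2 = E s x.1 x.2 := fun x =>
      Real.sq_sqrt (hE0 _ _ _)
    have e3 : ∀ x : Fin n × Fin n, (√(E s x.1 x.2) * |χ (insert x.2 (s.erase x.1))|) ^ 2 =
        E s x.1 x.2 * χ (insert x.2 (s.erase x.1)) ^ 2 := by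
      intro x
      rw [mul_pow, Real.sq_sqrt (hE0 _ _ _), sq_abs]
    simp only [e1, e2, e3] at h3
    exact h3
  rw [nfc_norm]
  refine (Finset.sum_le_sum fun s _ => hCS s).trans (le_of_eq ?_)
  -- change of variables
  have h1 : ∀ (s : Finset (Fin n)) (a b : Fin n), U s * (E s a b * χ (insert b (s.erase a)) ^ 2) =
      if a ∈ s ∧ b ∉ s then |nfM n μ a b| * (U (insert b (s.erase a)) *
        χ (insert b (s.erase a)) ^ 2) else 0 := by
    intro s a b
    rw [hE]
    by_cases h : a ∈ s ∧ b ∉ s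
    · rw [if_pos h, if_pos h]
      by_cases hM : nfM n μ a b = 0
      · rw [hM, abs_zero]
        ring
      · have e : U (insert b (s.erase a)) = U s := by
          rw [hU, hU]
          refine Finset.sum_congr rfl fun k _ => ?_
          rw [nfc_occ_swap h.1 h.2 (nfc_half hM)]
        rw [e]
        ring
    · rw [if_neg h, if_neg h]
      ring
  have h2 : ∀ s : Finset (Fin n), U s * ∑ a, ∑ b, E s a b * χ (insert b (s.erase a)) ^ 2 =
      ∑ a, ∑ b, if a ∈ s ∧ b ∉ s then |nfM n μ a b| * (U (insert b (s.erase a)) *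
        χ (insert b (s.erase a)) ^ 2) else 0 := by
    intro s
    rw [Finset.mul_sum]
    refine Finset.sum_congr rfl fun a _ => ?_
    rw [Finset.mul_sum]
    exact Finset.sum_congr rfl fun b _ => h1 s a b
  rw [Finset.sum_congr rfl fun s _ => h2 s, Finset.sum_comm]
  have h3 : ∀ a : Fin n, ∑ s : Finset (Fin n), ∑ b, (if a ∈ s ∧ b ∉ s then |nfM n μ a b| *
      (U (insert b (s.erase a)) * χ (insert b (s.erase a)) ^ 2) else 0) =
      ∑ b, ∑ t : Finset (Fin n), (if b ∈ t ∧ a ∉ t then |nfM n μ b a| * (U t * χ t ^ 2) else 0) := by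
    intro a
    rw [Finset.sum_comm]
    refine Finset.sum_congr rfl fun b _ => ?_
    by_cases hab : a = b
    · subst hab
      refine Finset.sum_congr rfl fun s _ => ?_
      rw [if_neg (fun h => h.2 h.1), if_neg (fun h => h.2 h.1)]
    · rw [nfc_reindex hab (fun t => |nfM n μ a b| * (U t * χ t ^ 2)), nfc_symm]
  rw [Finset.sum_congr rfl fun a _ => h3 a]
  have h4 : ∀ t : Finset (Fin n), χ t ^ 2 * (∑ k ∈ Finset.range n, if occ t k = 1 then μ k else 0) ^ 2
      = ∑ a, ∑ b, (if b ∈ t ∧ a ∉ t then |nfM n μ b a| * (U t * χ t ^ 2) else 0) := by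
    intro t
    rw [← hU]
    have e1 : χ t ^ 2 * U t ^ 2 = (∑ b, ∑ a, E t b a) * (U t * χ t ^ 2) := by
      rw [hUE]
      ring
    rw [e1, Finset.sum_comm, Finset.sum_mul]
    refine Finset.sum_congr rfl fun a _ => ?_
    rw [Finset.sum_mul]
    refine Finset.sum_congr rfl fun b _ => ?_
    rw [hE, ite_mul, zero_mul]
  rw [Finset.sum_congr rfl fun t _ => h4 t, Finset.sum_comm (s := (Finset.univ : Finset (Finset (Fin n))))]
  refine Finset.sum_congr rfl fun a _ => ?_
  rw [Finset.sum_comm]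

end HopfQ5
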