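import Pool.Agent.Lib.MP_4a593f_gt.Q5.NF
import Pool.Agent.Lib.MP_4a593f_gt.Q5.NFc

/-! `A12`: `A1`, `A2n`, `A2p`; `x = ⟨ρ_{-L²}ψ,ψ⟩`.

`A1`: `ρ_L ψ = ∑_a cr a φ_a`, `φ_a = ∑_b L_ab an b ψ` of degree `p-1`;
`‖∑_a cr a φ_a‖² ≤ p ∑‖φ_a‖²` (duality with `sum_norm_an`), `∑_a ‖φ_a‖² = x`.
`A2n`: `ρ_L ψ = -∑_b an b (∑_a L_ab cr a ψ)` (skew: the anticommutator term vanishes), the same with
`∑_a ‖cr a χ‖² = (n-q)‖χ‖²` for degree `q`.
`A2p`: `exists_normal`, `nf_one`, `nf_rho`: for `|s| = p`,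
`(∑_{occ=1} μ_k)² ≤ |U| ∑_{occ=1} μ_k² ≤ p ∑_k (2 - occ s k) μ_k²`, `|U| ≤ p`, and
`∑_{i∈s} μ(i/2)² = ∑_k occ s k μ_k²`.
`x_bounds`: `-L²` is positive semidefinite with trace `2|L|²`: `x = ∑_a ‖∑_b L_ab an b ψ‖²`,
`2|L|²‖ψ‖² - x = ∑_b ‖∑_a L_ab cr a ψ‖²`. -/

open scoped BigOperators

namespace HopfQ5

open HopfBig HopfN2 HopfQ4 HopfD8

variable {n m p : ℕ} {c ε : ℝ} {N P : Fin m → Mat n} {ψ : Fk n}

private theorem x_eq {L : Mat n} (hL : Skew L) (ψ : Fk n) :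
    inner ℝ (rho (-(L * L)) ψ) ψ = ∑ c, ‖anv (L c) ψ‖ ^ 2 := by
  have h1 : ∀ c, ‖anv (L c) ψ‖ ^ 2 =
      ∑ a, ∑ b, (L c a * L c b) * inner ℝ (an b ψ) (an a ψ) := by
    intro c
    rw [← real_inner_self_eq_norm_sq, anv_apply, inner_sum]
    refine Finset.sum_congr rfl fun a _ => ?_
    rw [sum_inner]
    refine Finset.sum_congr rfl fun b _ => ?_
    rw [real_inner_smul_left, real_inner_smul_right]
    ring
  have h2 : inner ℝ (rho (-(L * L)) ψ) ψ =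
      ∑ a, ∑ b, ∑ c, (L c a * L c b) * inner ℝ (an b ψ) (an a ψ) := by
    rw [rho_apply, sum_inner]
    refine Finset.sum_congr rfl fun a _ => ?_
    rw [sum_inner]
    refine Finset.sum_congr rfl fun b _ => ?_
    rw [real_inner_smul_left, inner_cr, Matrix.neg_apply, Matrix.mul_apply, ← Finset.sum_mul,
      ← Finset.sum_neg_distrib]
    congr 1
    refine Finset.sum_congr rfl fun c _ => ?_
    rw [hL c a]
    ring
  rw [h2]
  simp only [h1]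
  rw [Finset.sum_comm (s := (Finset.univ : Finset (Fin n)))
    (f := fun c a => ∑ b, L c a * L c b * inner ℝ (an b ψ) (an a ψ))]
  refine Finset.sum_congr rfl fun a _ => ?_
  rw [Finset.sum_comm]

private theorem y_eq {L : Mat n} (hL : Skew L) (ψ : Fk n) :
    2 * ip L L * ‖ψ‖ ^ 2 - inner ℝ (rho (-(L * L)) ψ) ψ = ∑ c, ‖crv (L c) ψ‖ ^ 2 := by
  rw [x_eq hL, two_ip_self]
  unfold hs
  rw [Finset.sum_mul, ← Finset.sum_sub_distrib]
  refine Finset.sum_congr rfl fun c _ => ?_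
  rw [← norm_anv_crv]
  ring

theorem x_bounds {L : Mat n} (hL : Skew L) (ψ : Fk n) :
    0 ≤ inner ℝ (rho (-(L * L)) ψ) ψ ∧
      inner ℝ (rho (-(L * L)) ψ) ψ ≤ 2 * ip L L * ‖ψ‖ ^ 2 := by
  constructor
  · rw [x_eq hL]
    exact Finset.sum_nonneg fun _ _ => sq_nonneg _
  · have h1 := y_eq hL ψ
    have h2 : 0 ≤ ∑ c, ‖crv (L c) ψ‖ ^ 2 := Finset.sum_nonneg fun _ _ => sq_nonneg _
    linarith

/-- duality: Cauchy-Schwarz for sums of inner products -/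
private theorem dual_aux {χ : Fk n} {f g : Fin n → Fk n} {r y : ℝ}
    (h1 : ‖χ‖ ^ 2 = ∑ a, inner ℝ (f a) (g a)) (h2 : ∑ a, ‖f a‖ ^ 2 = r * ‖χ‖ ^ 2)
    (h3 : ∑ a, ‖g a‖ ^ 2 = y) (h4 : 0 ≤ r * y) : ‖χ‖ ^ 2 ≤ r * y := by
  have h5 : ‖χ‖ ^ 2 ≤ ∑ a, ‖f a‖ * ‖g a‖ := by
    rw [h1]
    exact Finset.sum_le_sum fun a _ => real_inner_le_norm _ _
  have h6 := Finset.sum_mul_sq_le_sq_mul_sq Finset.univ (fun a => ‖f a‖) (fun a => ‖g a‖)
  rw [h2, h3] at h6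
  have h7 : (‖χ‖ ^ 2) ^ 2 ≤ (∑ a, ‖f a‖ * ‖g a‖) ^ 2 :=
    pow_le_pow_left₀ (sq_nonneg _) h5 2
  by_contra hc
  push Not at hc
  have h8 : 0 < ‖χ‖ ^ 2 := lt_of_le_of_lt h4 hc
  have h9 : r * y * ‖χ‖ ^ 2 < ‖χ‖ ^ 2 * ‖χ‖ ^ 2 := mul_lt_mul_of_pos_right hc h8
  have h10 : ‖χ‖ ^ 2 * ‖χ‖ ^ 2 ≤ r * y * ‖χ‖ ^ 2 := by
    calc ‖χ‖ ^ 2 * ‖χ‖ ^ 2 = (‖χ‖ ^ 2) ^ 2 := by ring
      _ ≤ (∑ a, ‖f a‖ * ‖g a‖) ^ 2 := h7
      _ ≤ r * ‖χ‖ ^ 2 * y := h6
      _ = r * y * ‖χ‖ ^ 2 := by ring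
  linarith

theorem rho_A1 {L : Mat n} (hL : Skew L) (hd : Deg p ψ) :
    ‖rho L ψ‖ ^ 2 ≤ p * inner ℝ (rho (-(L * L)) ψ) ψ := by
  have e : rho L ψ = ∑ a, cr a (anv (L a) ψ) := by
    rw [rho_apply]
    refine Finset.sum_congr rfl fun a _ => ?_
    rw [anv_apply, map_sum]
    refine Finset.sum_congr rfl fun b _ => ?_
    rw [map_smul]
  refine dual_aux (f := fun a => an a (rho L ψ)) (g := fun a => anv (L a) ψ) ?_
    (sum_norm_an (hd.rho L)) (x_eq hL ψ).symm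
    (mul_nonneg (Nat.cast_nonneg _) (x_bounds hL ψ).1)
  rw [← real_inner_self_eq_norm_sq]
  nth_rw 2 [e]
  rw [inner_sum]
  refine Finset.sum_congr rfl fun a _ => ?_
  rw [inner_an]

private theorem sum_norm_cr {f : Fk n} (h : Deg p f) :
    ∑ a, ‖cr a f‖ ^ 2 = ((n : ℝ) - p) * ‖f‖ ^ 2 := by
  have h1 : ∀ a, ‖cr a f‖ ^ 2 = ‖f‖ ^ 2 - ‖an a f‖ ^ 2 := by
    intro a
    have h2 : inner ℝ (cr a f) (cr a f) = inner ℝ f f - inner ℝ (an a f) (an a f) := by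
      rw [inner_cr, an_cr, if_pos rfl, inner_sub_right, ← inner_an]
    rw [real_inner_self_eq_norm_sq, real_inner_self_eq_norm_sq, real_inner_self_eq_norm_sq] at h2
    exact h2
  simp only [h1]
  rw [Finset.sum_sub_distrib, sum_norm_an h, Finset.sum_const, Finset.card_univ, Fintype.card_fin,
    nsmul_eq_mul]
  ring

theorem rho_A2n {L : Mat n} (hL : Skew L) (hd : Deg p ψ) :
    ‖rho L ψ‖ ^ 2 ≤ ((n : ℝ) - p) *
      (2 * ip L L * ‖ψ‖ ^ 2 - inner ℝ (rho (-(L * L)) ψ) ψ) := by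
  have e : rho L ψ = ∑ b, an b (crv (L b) ψ) := by
    have e1 : ∀ b, an b (crv (L b) ψ) = ∑ a, L b a • an b (cr a ψ) := by
      intro b
      rw [crv_apply, map_sum]
      refine Finset.sum_congr rfl fun a _ => ?_
      rw [map_smul]
    simp only [e1]
    rw [rho_apply, Finset.sum_comm]
    refine Finset.sum_congr rfl fun b _ => ?_
    refine Finset.sum_congr rfl fun a _ => ?_
    rw [an_cr, hL b a]
    by_cases hab : b = a
    · subst hab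
      have h0 : L b b = 0 := by
        have := hL b b
        linarith
      rw [h0]
      simp
    · rw [if_neg hab, zero_sub, smul_neg, neg_smul]
  have hy : 0 ≤ ∑ c, ‖crv (L c) ψ‖ ^ 2 := Finset.sum_nonneg fun _ _ => sq_nonneg _
  have hn : 0 ≤ ((n : ℝ) - p) * ∑ c, ‖crv (L c) ψ‖ ^ 2 := by
    have h1 := sum_norm_cr hd
    have h2 : 0 ≤ ((n : ℝ) - p) * ‖ψ‖ ^ 2 := by
      rw [← h1]
      exact Finset.sum_nonneg fun _ _ => sq_nonneg _
    by_cases h3 : ψ = 0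
    · have h4 : ∑ c, ‖crv (L c) ψ‖ ^ 2 = 0 := by
        rw [h3]
        simp
      rw [h4, mul_zero]
    · have h4 : 0 < ‖ψ‖ ^ 2 := pow_pos (norm_pos_iff.2 h3) 2
      exact mul_nonneg (nonneg_of_mul_nonneg_left h2 h4) hy
  rw [y_eq hL]
  refine dual_aux (f := fun b => cr b (rho L ψ)) (g := fun b => crv (L b) ψ) ?_
    (sum_norm_cr (hd.rho L)) rfl hn
  rw [← real_inner_self_eq_norm_sq]
  nth_rw 2 [e]
  rw [inner_sum]
  refine Finset.sum_congr rfl fun b _ => ?_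
  rw [inner_cr]

private theorem occ_eq (s : Finset (Fin n)) (k : ℕ) :
    (occ s k : ℝ) = ∑ i ∈ s, if i.val / 2 = k then 1 else 0 := by
  unfold occ
  rw [Finset.sum_boole]

private theorem occ_le (s : Finset (Fin n)) (k : ℕ) : occ s k ≤ 2 := by
  unfold occ
  have h1 : (s.filter fun i => i.val / 2 = k).card ≤ (Finset.Ico (2 * k) (2 * k + 2)).card := by
    apply Finset.card_le_card_of_injOn (fun i => i.val)
    · intro i hi
      rw [Finset.mem_coe, Finset.mem_filter] at hi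
      rw [Finset.mem_coe, Finset.mem_Ico]
      change 2 * k ≤ i.val ∧ i.val < 2 * k + 2
      omega
    · intro i _ j _ h
      exact Fin.ext h
  rwa [Nat.card_Ico, Nat.add_sub_cancel_left] at h1

private theorem sum_occ (s : Finset (Fin n)) (w : ℕ → ℝ) :
    ∑ i ∈ s, w (i.val / 2) = ∑ k ∈ Finset.range n, (occ s k : ℝ) * w k := by
  have h1 : ∀ k ∈ Finset.range n, (occ s k : ℝ) * w k =
      ∑ i ∈ s, if i.val / 2 = k then w (i.val / 2) else 0 := by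
    intro k _
    rw [occ_eq, Finset.sum_mul]
    refine Finset.sum_congr rfl fun i _ => ?_
    split_ifs with h
    · rw [one_mul, h]
    · rw [zero_mul]
  rw [Finset.sum_congr rfl h1, Finset.sum_comm]
  refine Finset.sum_congr rfl fun i _ => ?_
  rw [Finset.sum_ite_eq, if_pos]
  rw [Finset.mem_range]
  have := i.isLt
  omega

private theorem set_aux (μ : ℕ → ℝ) (s : Finset (Fin n)) :
    (∑ k ∈ Finset.range n, if occ s k = 1 then μ k else 0) ^ 2 ≤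
      s.card * (2 * ∑ k ∈ Finset.range n, μ k ^ 2 - ∑ i ∈ s, μ (i.val / 2) ^ 2) := by
  rw [sum_occ s (fun k => μ k ^ 2), ← Finset.sum_filter]
  have h1 := sq_sum_le_card_mul_sum_sq (s := (Finset.range n).filter fun k => occ s k = 1)
    (f := μ)
  have h2 : (((Finset.range n).filter fun k => occ s k = 1).card : ℝ) ≤ s.card := by
    have h3 := sum_occ s (fun _ => 1)
    rw [Finset.sum_const, nsmul_eq_mul, mul_one] at h3
    rw [h3, Finset.card_eq_sum_ones, Finset.sum_filter, Nat.cast_sum]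
    refine Finset.sum_le_sum fun k _ => ?_
    split_ifs with h
    · rw [h]
      simp
    · simp
  have h3 : ∑ k ∈ (Finset.range n).filter (fun k => occ s k = 1), μ k ^ 2 ≤
      2 * ∑ k ∈ Finset.range n, μ k ^ 2 -
        ∑ k ∈ Finset.range n, (occ s k : ℝ) * μ k ^ 2 := by
    rw [Finset.sum_filter, Finset.mul_sum, ← Finset.sum_sub_distrib]
    refine Finset.sum_le_sum fun k _ => ?_
    split_ifs with h
    · rw [h]
      push_cast
      linarith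
    · have h4 : (occ s k : ℝ) ≤ 2 := by exact_mod_cast occ_le s k
      have h5 := mul_le_mul_of_nonneg_right h4 (sq_nonneg (μ k))
      linarith
  calc (∑ k ∈ (Finset.range n).filter (fun k => occ s k = 1), μ k) ^ 2
      ≤ (((Finset.range n).filter fun k => occ s k = 1).card : ℝ) *
        ∑ k ∈ (Finset.range n).filter (fun k => occ s k = 1), μ k ^ 2 := h1
    _ ≤ s.card * (2 * ∑ k ∈ Finset.range n, μ k ^ 2 -
        ∑ k ∈ Finset.range n, (occ s k : ℝ) * μ k ^ 2) :=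
      mul_le_mul h2 h3 (Finset.sum_nonneg fun _ _ => sq_nonneg _) (Nat.cast_nonneg _)

theorem rho_A2p {L : Mat n} (hL : Skew L) (hd : Deg p ψ) :
    ‖rho L ψ‖ ^ 2 ≤ p * (2 * ip L L * ‖ψ‖ ^ 2 - inner ℝ (rho (-(L * L)) ψ) ψ) := by
  obtain ⟨μ, χ, hμ, h0, hdχ, hn, hip, h1, _, h3⟩ := exists_normal hL hd
  rw [h1, hip, h3, ← hn, nf_one h0]
  refine (nf_rho hμ h0 χ).trans ?_
  have h4 : ‖χ‖ ^ 2 = ∑ s, χ s ^ 2 := by
    rw [EuclideanSpace.norm_sq_eq]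
    refine Finset.sum_congr rfl fun s _ => ?_
    rw [Real.norm_eq_abs, sq_abs]
  rw [h4, Finset.mul_sum, ← Finset.sum_sub_distrib, Finset.mul_sum]
  refine Finset.sum_le_sum fun s _ => ?_
  by_cases hs : s.card = p
  · have h5 := mul_le_mul_of_nonneg_left (set_aux μ s) (sq_nonneg (χ s))
    rw [hs] at h5
    linarith
  · rw [hdχ s hs]
    simp

end HopfQ5
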