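import Pool.Agent.Lib.MP_4a593f_gt.Q5.Defs
import Pool.Agent.Lib.MP_4a593f_gt.Q4.Cl

/-! Task Rad: Rademacher average.

For signs `σ : Fin m → {±1}` put `L_σ = ∑ σ_i N_i`, average `H` over all `2^m` signs.
`T_ij = Ss (ac (N i) (N j)) ψ` (symmetric), `a_ij = a⟨N_i,N_j⟩ - ⟨ρ_iψ,ρ_jψ⟩` (positive
semidefinite by `H0`): `E‖∑σ_iσ_j T_ij‖² = ‖∑T_ii‖² + 2∑_{i≠j}‖T_ij‖²`, `∑_i T_ii = -2 Ss X1 ψ`,
`E(∑σ_iσ_j a_ij)² = (∑a_ii)² + 2∑_{i≠j} a_ij²`.  Add twice the diagonal inequalities
`‖T_ii‖² ≤ (1/3)a_ii²`: `4 ZN + 2 SS ≤ (1/3)((∑a_ii)² + 2∑_{ij}a_ij²) ≤ (∑a_ii)²`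
(`a_ij² ≤ a_ii a_jj`). -/

open scoped BigOperators

namespace HopfQ5

open HopfBig HopfN2 HopfQ4 HopfD8

variable {n m p : ℕ} {c ε : ℝ} {N P : Fin m → Mat n} {ψ : Fk n}

/-- sign -/
private def sgb (b : Bool) : ℝ := if b then 1 else -1

private theorem sgb_not (b : Bool) : sgb (!b) = -sgb b := by
  cases b <;> simp [sgb]

private theorem sgb_sq (b : Bool) : sgb b * sgb b = 1 := by
  cases b <;> simp [sgb]

/-- change of one sign -/
private def flip (i : Fin m) : (Fin m → Bool) ≃ (Fin m → Bool) where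
  toFun σ := Function.update σ i (!σ i)
  invFun σ := Function.update σ i (!σ i)
  left_inv σ := by simp
  right_inv σ := by simp

private theorem flip_self (i : Fin m) (σ : Fin m → Bool) : flip i σ i = !σ i := by
  simp [flip]

private theorem flip_ne {i j : Fin m} (h : j ≠ i) (σ : Fin m → Bool) : flip i σ j = σ j := by
  simp [flip, Function.update_of_ne h]

private theorem sum_flip (i : Fin m) (f : (Fin m → Bool) → ℝ) (h : ∀ σ, f (flip i σ) = -f σ) :
    ∑ σ, f σ = 0 := by
  have h1 : ∑ σ, f (flip i σ) = ∑ σ, f σ := Equiv.sum_comp (flip i) f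
  have h2 : ∑ σ, f (flip i σ) = -∑ σ, f σ := by
    rw [← Finset.sum_neg_distrib]
    exact Finset.sum_congr rfl fun σ _ => h σ
  linarith

private theorem sum_one : ∑ _σ : Fin m → Bool, (1 : ℝ) = 2 ^ m := by
  rw [Finset.sum_const, nsmul_eq_mul, mul_one, Finset.card_univ, Fintype.card_fun]
  simp

private theorem rad2 (i j : Fin m) :
    ∑ σ : Fin m → Bool, sgb (σ i) * sgb (σ j) = 2 ^ m * (if i = j then 1 else 0) := by
  by_cases h : i = j
  · subst h
    rw [if_pos rfl, mul_one, ← sum_one]
    exact Finset.sum_congr rfl fun σ _ => sgb_sq _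
  · rw [if_neg h, mul_zero]
    refine sum_flip i _ fun σ => ?_
    rw [flip_self, flip_ne (Ne.symm h), sgb_not]
    ring

private theorem rad4 (i j k l : Fin m) :
    ∑ σ : Fin m → Bool, sgb (σ i) * sgb (σ j) * (sgb (σ k) * sgb (σ l)) =
      2 ^ m * ((if i = j then (if k = l then 1 else 0) else 0) +
        (if i = k then (if j = l then 1 else 0) else 0) +
        (if i = l then (if j = k then 1 else 0) else 0) -
        2 * (if i = j then (if i = k then (if i = l then 1 else 0) else 0) else 0)) := by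
  by_cases hij : i = j
  · subst hij
    have e : ∀ σ : Fin m → Bool, sgb (σ i) * sgb (σ i) * (sgb (σ k) * sgb (σ l)) =
        sgb (σ k) * sgb (σ l) := fun σ => by rw [sgb_sq, one_mul]
    rw [Finset.sum_congr rfl fun σ _ => e σ, rad2]
    congr 1
    by_cases h1 : i = k
    · by_cases h2 : i = l
      · subst h1; subst h2; simp; norm_num
      · subst h1; simp [h2]
    · by_cases h2 : i = l
      · subst h2; simp [h1]
      · simp [h1, h2]
  · by_cases hik : i = k
    · subst hik
      have e : ∀ σ : Fin m → Bool, sgb (σ i) * sgb (σ j) * (sgb (σ i) * sgb (σ l)) =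
          sgb (σ j) * sgb (σ l) := fun σ => by
        linear_combination sgb (σ j) * sgb (σ l) * sgb_sq (σ i)
      rw [Finset.sum_congr rfl fun σ _ => e σ, rad2]
      congr 1
      by_cases h2 : i = l
      · subst h2; simp [hij, Ne.symm hij]
      · simp [hij, h2]
    · by_cases hil : i = l
      · subst hil
        have e : ∀ σ : Fin m → Bool, sgb (σ i) * sgb (σ j) * (sgb (σ k) * sgb (σ i)) =
            sgb (σ j) * sgb (σ k) := fun σ => by
          linear_combination sgb (σ j) * sgb (σ k) * sgb_sq (σ i)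
        rw [Finset.sum_congr rfl fun σ _ => e σ, rad2]
        simp [hij, hik]
      · rw [sum_flip i _ fun σ => by
          rw [flip_self, flip_ne (Ne.symm hij), flip_ne (Ne.symm hik), flip_ne (Ne.symm hil),
            sgb_not]
          ring]
        simp [hij, hik, hil]

private theorem rad_avg (c : Fin m → Fin m → Fin m → Fin m → ℝ)
    (h : ∀ σ : Fin m → Bool, 0 ≤ ∑ i, ∑ j, ∑ k, ∑ l,
      sgb (σ i) * sgb (σ j) * (sgb (σ k) * sgb (σ l)) * c i j k l) :
    0 ≤ ∑ i, ∑ k, c i i k k + ∑ i, ∑ j, c i j i j + ∑ i, ∑ j, c i j j i -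
      2 * ∑ i, c i i i i := by
  have h1 : 0 ≤ ∑ σ : Fin m → Bool, ∑ i, ∑ j, ∑ k, ∑ l,
      sgb (σ i) * sgb (σ j) * (sgb (σ k) * sgb (σ l)) * c i j k l :=
    Finset.sum_nonneg fun σ _ => h σ
  have h2 : ∑ σ : Fin m → Bool, ∑ i, ∑ j, ∑ k, ∑ l,
      sgb (σ i) * sgb (σ j) * (sgb (σ k) * sgb (σ l)) * c i j k l =
      ∑ i, ∑ j, ∑ k, ∑ l, (2 ^ m * ((if i = j then (if k = l then 1 else 0) else 0) +
        (if i = k then (if j = l then 1 else 0) else 0) +
        (if i = l then (if j = k then 1 else 0) else 0) -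
        2 * (if i = j then (if i = k then (if i = l then 1 else 0) else 0) else 0))) *
        c i j k l := by
    rw [Finset.sum_comm]
    refine Finset.sum_congr rfl fun i _ => ?_
    rw [Finset.sum_comm]
    refine Finset.sum_congr rfl fun j _ => ?_
    rw [Finset.sum_comm]
    refine Finset.sum_congr rfl fun k _ => ?_
    rw [Finset.sum_comm]
    refine Finset.sum_congr rfl fun l _ => ?_
    rw [← rad4, Finset.sum_mul]
  rw [h2] at h1
  have h3 : ∑ i, ∑ j, ∑ k, ∑ l, (2 ^ m * ((if i = j then (if k = l then 1 else 0) else 0) +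
        (if i = k then (if j = l then 1 else 0) else 0) +
        (if i = l then (if j = k then 1 else 0) else 0) -
        2 * (if i = j then (if i = k then (if i = l then (1 : ℝ) else 0) else 0) else 0))) *
        c i j k l = 2 ^ m * (∑ i, ∑ k, c i i k k + ∑ i, ∑ j, c i j i j + ∑ i, ∑ j, c i j j i -
      2 * ∑ i, c i i i i) := by
    have e : ∀ i j k l : Fin m, (2 ^ m * ((if i = j then (if k = l then 1 else 0) else 0) +
        (if i = k then (if j = l then 1 else 0) else 0) +
        (if i = l then (if j = k then 1 else 0) else 0) -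
        2 * (if i = j then (if i = k then (if i = l then (1 : ℝ) else 0) else 0) else 0))) *
        c i j k l = 2 ^ m * (if i = j then (if k = l then c i j k l else 0) else 0) +
        2 ^ m * (if i = k then (if j = l then c i j k l else 0) else 0) +
        2 ^ m * (if i = l then (if j = k then c i j k l else 0) else 0) -
        2 ^ m * (2 * (if i = j then (if i = k then (if i = l then c i j k l else 0) else 0)
          else 0)) := by
      intro i j k l
      split_ifs <;> ring
    simp only [e, Finset.sum_sub_distrib, Finset.sum_add_distrib, ← Finset.mul_sum]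
    have e1 : ∑ i, ∑ j, ∑ k, ∑ l, (if i = j then (if k = l then c i j k l else 0) else 0) =
        ∑ i, ∑ k, c i i k k := by
      refine Finset.sum_congr rfl fun i _ => ?_
      rw [Finset.sum_eq_single i]
      · refine Finset.sum_congr rfl fun k _ => ?_
        simp
      · intro j _ hj
        simp [Ne.symm hj]
      · simp
    have e2 : ∑ i, ∑ j, ∑ k, ∑ l, (if i = k then (if j = l then c i j k l else 0) else 0) =
        ∑ i, ∑ j, c i j i j := by
      refine Finset.sum_congr rfl fun i _ => Finset.sum_congr rfl fun j _ => ?_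
      rw [Finset.sum_eq_single i]
      · simp
      · intro k _ hk
        simp [Ne.symm hk]
      · simp
    have e3 : ∑ i, ∑ j, ∑ k, ∑ l, (if i = l then (if j = k then c i j k l else 0) else 0) =
        ∑ i, ∑ j, c i j j i := by
      refine Finset.sum_congr rfl fun i _ => Finset.sum_congr rfl fun j _ => ?_
      rw [Finset.sum_eq_single j]
      · simp
      · intro k _ hk
        simp [Ne.symm hk]
      · simp
    have e4 : ∑ i, ∑ j, ∑ k, ∑ l, (if i = j then (if i = k then (if i = l then c i j k l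
        else 0) else 0) else 0) = ∑ i, c i i i i := by
      refine Finset.sum_congr rfl fun i _ => ?_
      rw [Finset.sum_eq_single i]
      · rw [Finset.sum_eq_single i]
        · simp
        · intro k _ hk
          simp [Ne.symm hk]
        · simp
      · intro j _ hj
        simp [Ne.symm hj]
      · simp
    rw [e1, e2, e3, e4]
    ring
  rw [h3] at h1
  exact nonneg_of_mul_nonneg_right h1 (by positivity)

private theorem ac_comm' (A B : Mat n) : ac A B = ac B A := by
  unfold ac
  rw [add_comm]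

private theorem Ss_apply' (S : Mat n) (f : Fk n) : Ss S f = rho S f - (S.trace / 2) • f := rfl

/-- `Ss (ac L M) ψ` as a bilinear map -/
private noncomputable def Bl (ψ : Fk n) : Mat n →ₗ[ℝ] Mat n →ₗ[ℝ] Fk n :=
  LinearMap.mk₂ ℝ (fun L M => Ss (ac L M) ψ)
    (fun L L' M => by
      have : ac (L + L') M = ac L M + ac L' M := by
        unfold ac; rw [add_mul, mul_add]; abel
      simp only [this, Ss_apply', map_add, LinearMap.add_apply, Matrix.trace_add, add_div,
        add_smul]
      abel)
    (fun r L M => by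
      have : ac (r • L) M = r • ac L M := by
        unfold ac; rw [smul_mul_assoc, mul_smul_comm, smul_add]
      simp only [this, Ss_apply', map_smul, LinearMap.smul_apply, Matrix.trace_smul, smul_sub,
        smul_smul, smul_eq_mul, mul_div_assoc])
    (fun L M M' => by
      have : ac L (M + M') = ac L M + ac L M' := by
        unfold ac; rw [add_mul, mul_add]; abel
      simp only [this, Ss_apply', map_add, LinearMap.add_apply, Matrix.trace_add, add_div,
        add_smul]
      abel)
    (fun r L M => by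
      have : ac L (r • M) = r • ac L M := by
        unfold ac; rw [smul_mul_assoc, mul_smul_comm, smul_add]
      simp only [this, Ss_apply', map_smul, LinearMap.smul_apply, Matrix.trace_smul, smul_sub,
        smul_smul, smul_eq_mul, mul_div_assoc])

private theorem Bl_apply (ψ : Fk n) (L M : Mat n) : Bl ψ L M = Ss (ac L M) ψ := rfl

/-- `a⟨L,M⟩ - ⟨ρ_L ψ, ρ_M ψ⟩` as a bilinear form -/
private noncomputable def Al (a : ℝ) (ψ : Fk n) : Mat n →ₗ[ℝ] Mat n →ₗ[ℝ] ℝ :=
  LinearMap.mk₂ ℝ (fun L M => a * ip L M - inner ℝ (rho L ψ) (rho M ψ))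
    (fun L L' M => by
      simp only [ip, Matrix.add_apply, add_mul, Finset.sum_add_distrib, map_add,
        LinearMap.add_apply, inner_add_left]
      ring)
    (fun r L M => by
      simp only [ip, Matrix.smul_apply, smul_eq_mul, mul_assoc, ← Finset.mul_sum, map_smul,
        LinearMap.smul_apply, real_inner_smul_left]
      ring)
    (fun L M M' => by
      simp only [ip, Matrix.add_apply, mul_add, Finset.sum_add_distrib, map_add,
        LinearMap.add_apply, inner_add_right]
      ring)
    (fun r L M => by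
      simp only [ip, Matrix.smul_apply, smul_eq_mul, mul_left_comm _ r, ← Finset.mul_sum,
        map_smul, LinearMap.smul_apply, real_inner_smul_right]
      ring)

private theorem Al_apply (a : ℝ) (ψ : Fk n) (L M : Mat n) :
    Al a ψ L M = a * ip L M - inner ℝ (rho L ψ) (rho M ψ) := rfl

private theorem Al_comm (a : ℝ) (ψ : Fk n) (L M : Mat n) : Al a ψ L M = Al a ψ M L := by
  rw [Al_apply, Al_apply, real_inner_comm]
  congr 2
  unfold ip
  refine congrArg _ (Finset.sum_congr rfl fun i _ => Finset.sum_congr rfl fun j _ => mul_comm _ _)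

private theorem skew_add {L M : Mat n} (hL : Skew L) (hM : Skew M) : Skew (L + M) := by
  intro i j
  rw [Matrix.add_apply, Matrix.add_apply, hL, hM]
  ring

private theorem skew_smul {L : Mat n} (r : ℝ) (hL : Skew L) : Skew (r • L) := by
  intro i j
  rw [Matrix.smul_apply, Matrix.smul_apply, hL, smul_neg]

private theorem skew_sum {ι : Type} (T : Finset ι) (F : ι → Mat n) (h : ∀ i, Skew (F i)) :
    Skew (∑ i ∈ T, F i) := by
  intro i j
  rw [Matrix.sum_apply, Matrix.sum_apply, ← Finset.sum_neg_distrib]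
  exact Finset.sum_congr rfl fun k _ => h k i j

private theorem bl_sum {V : Type} [AddCommGroup V] [Module ℝ V] (B : Mat n →ₗ[ℝ] Mat n →ₗ[ℝ] V)
    (x : Fin m → ℝ) (N : Fin m → Mat n) :
    B (∑ i, x i • N i) (∑ i, x i • N i) = ∑ i, ∑ j, (x i * x j) • B (N i) (N j) := by
  simp only [map_sum, map_smul, LinearMap.sum_apply, LinearMap.smul_apply, Finset.smul_sum,
    smul_smul]
  rw [Finset.sum_comm]
  refine Finset.sum_congr rfl fun i _ => Finset.sum_congr rfl fun j _ => ?_
  rw [mul_comm]

theorem rad {a : ℝ} (H : ∀ L : Mat n, Skew L →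
      ‖Ss (ac L L) ψ‖ ^ 2 ≤ (1 / 3) * (a * ip L L - ‖rho L ψ‖ ^ 2) ^ 2)
    (H0 : ∀ L : Mat n, Skew L → ‖rho L ψ‖ ^ 2 ≤ a * ip L L)
    (hs : ∀ i, Skew (N i)) :
    SS ψ N N + 2 * ZN ψ N ≤ (1 / 2) * (a * ∑ i, ip (N i) (N i) - QN ψ N) ^ 2 := by
  obtain ⟨T, hT⟩ : ∃ T : Fin m → Fin m → Fk n, T = fun i j => Bl ψ (N i) (N j) := ⟨_, rfl⟩
  obtain ⟨A, hA⟩ : ∃ A : Fin m → Fin m → ℝ, A = fun i j => Al a ψ (N i) (N j) := ⟨_, rfl⟩
  have hTs : ∀ i j, T j i = T i j := fun i j => by
    rw [hT]
    show Ss _ ψ = Ss _ ψ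
    rw [ac_comm']
  have hAs : ∀ i j, A j i = A i j := fun i j => by
    rw [hA]
    exact Al_comm a ψ _ _
  have hH : ∀ L : Mat n, Skew L → ‖Bl ψ L L‖ ^ 2 ≤ (1 / 3) * (Al a ψ L L) ^ 2 := by
    intro L hL
    rw [Bl_apply, Al_apply, real_inner_self_eq_norm_sq]
    exact H L hL
  have hH0 : ∀ L : Mat n, Skew L → 0 ≤ Al a ψ L L := by
    intro L hL
    rw [Al_apply, real_inner_self_eq_norm_sq]
    linarith [H0 L hL]
  -- Cauchy-Schwarz
  have hCS : ∀ i j, A i j ^ 2 ≤ A i i * A j j := by
    intro i j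
    have h1 : ∀ x : ℝ, 0 ≤ A j j * (x * x) + (2 * A i j) * x + A i i := by
      intro x
      have h2 := hH0 (N i + x • N j) (skew_add (hs i) (skew_smul x (hs j)))
      have h3 : Al a ψ (N i + x • N j) (N i + x • N j) =
          A j j * (x * x) + (2 * A i j) * x + A i i := by
        rw [hA]
        simp only [map_add, map_smul, LinearMap.add_apply, LinearMap.smul_apply, smul_eq_mul]
        rw [Al_comm a ψ (N j) (N i)]
        ring
      rw [h3] at h2
      exact h2
    have h2 := discrim_le_zero h1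
    unfold discrim at h2
    nlinarith
  -- the average
  have havg := rad_avg (fun i j k l => (1 / 3) * (A i j * A k l) - inner ℝ (T i j) (T k l)) (by
    intro σ
    have h1 := hH (∑ i, sgb (σ i) • N i) (skew_sum _ _ fun i => skew_smul _ (hs i))
    rw [bl_sum, bl_sum] at h1
    have h2 : ‖∑ i, ∑ j, (sgb (σ i) * sgb (σ j)) • Bl ψ (N i) (N j)‖ ^ 2 =
        ∑ i, ∑ j, ∑ k, ∑ l, sgb (σ i) * sgb (σ j) * (sgb (σ k) * sgb (σ l)) *
          inner ℝ (T i j) (T k l) := by
      rw [← real_inner_self_eq_norm_sq, sum_inner]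
      refine Finset.sum_congr rfl fun i _ => ?_
      rw [sum_inner]
      refine Finset.sum_congr rfl fun j _ => ?_
      rw [inner_sum]
      refine Finset.sum_congr rfl fun k _ => ?_
      rw [inner_sum]
      refine Finset.sum_congr rfl fun l _ => ?_
      rw [real_inner_smul_left, real_inner_smul_right, hT]
      ring
    have h3 : (∑ i, ∑ j, (sgb (σ i) * sgb (σ j)) • Al a ψ (N i) (N j)) ^ 2 =
        ∑ i, ∑ j, ∑ k, ∑ l, sgb (σ i) * sgb (σ j) * (sgb (σ k) * sgb (σ l)) *
          (A i j * A k l) := by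
      rw [pow_two, Finset.sum_mul]
      refine Finset.sum_congr rfl fun i _ => ?_
      rw [Finset.sum_mul]
      refine Finset.sum_congr rfl fun j _ => ?_
      rw [Finset.mul_sum]
      refine Finset.sum_congr rfl fun k _ => ?_
      rw [Finset.mul_sum]
      refine Finset.sum_congr rfl fun l _ => ?_
      rw [smul_eq_mul, smul_eq_mul, hA]
      ring
    rw [h2, h3, Finset.mul_sum] at h1
    have h4 : ∑ i, ∑ j, ∑ k, ∑ l, sgb (σ i) * sgb (σ j) * (sgb (σ k) * sgb (σ l)) *
        ((1 / 3) * (A i j * A k l) - inner ℝ (T i j) (T k l)) =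
        ∑ i, 1 / 3 * ∑ j, ∑ k, ∑ l, sgb (σ i) * sgb (σ j) * (sgb (σ k) * sgb (σ l)) *
          (A i j * A k l) -
        ∑ i, ∑ j, ∑ k, ∑ l, sgb (σ i) * sgb (σ j) * (sgb (σ k) * sgb (σ l)) *
          inner ℝ (T i j) (T k l) := by
      rw [← Finset.sum_sub_distrib]
      refine Finset.sum_congr rfl fun i _ => ?_
      simp only [Finset.mul_sum, ← Finset.sum_sub_distrib]
      refine Finset.sum_congr rfl fun j _ => Finset.sum_congr rfl fun k _ =>
        Finset.sum_congr rfl fun l _ => ?_
      ring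
    rw [h4]
    linarith)
  have hdiag : 0 ≤ ∑ i, ((1 / 3) * (A i i * A i i) - inner ℝ (T i i) (T i i)) := by
    refine Finset.sum_nonneg fun i _ => ?_
    have h1 := hH (N i) (hs i)
    rw [real_inner_self_eq_norm_sq, hA, hT]
    dsimp only
    nlinarith
  -- identification
  have e1 : ∑ i, ∑ k, ((1 / 3) * (A i i * A k k) - inner ℝ (T i i) (T k k)) =
      (1 / 3) * (∑ i, A i i) ^ 2 - 4 * ZN ψ N := by
    have h1 : ∑ i, T i i = (-2 : ℝ) • Ss (X1 N) ψ := by
      have h2 : ∀ i, T i i = (2 : ℝ) • Ss (N i * N i) ψ := by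
        intro i
        rw [hT]
        show Ss (ac (N i) (N i)) ψ = _
        have h3 : ac (N i) (N i) = (2 : ℝ) • (N i * N i) := by
          unfold ac
          rw [two_smul]
        rw [h3, Ss_apply', Ss_apply', map_smul, LinearMap.smul_apply, Matrix.trace_smul,
          smul_sub, smul_smul, smul_eq_mul, mul_div_assoc]
      have h3 : Ss (X1 N) ψ = -∑ i, Ss (N i * N i) ψ := by
        have h4 : ∀ i, Ss (N i * N i) ψ = rho (N i * N i) ψ - ((N i * N i).trace / 2) • ψ :=
          fun i => rfl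
        rw [Finset.sum_congr rfl fun i _ => h4 i, Finset.sum_sub_distrib, ← Finset.sum_smul,
          Ss_apply']
        unfold X1
        rw [map_neg, map_sum, LinearMap.neg_apply, LinearMap.sum_apply, Matrix.trace_neg,
          Matrix.trace_sum, neg_div, Finset.sum_div, neg_smul]
        abel
      rw [Finset.sum_congr rfl fun i _ => h2 i, ← Finset.smul_sum, h3, smul_neg, neg_smul,
        neg_neg]
    have h2 : ∑ i, ∑ k, inner ℝ (T i i) (T k k) = 4 * ZN ψ N := by
      have h3 : ∑ i, ∑ k, inner ℝ (T i i) (T k k) = inner ℝ (∑ i, T i i) (∑ k, T k k) := by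
        rw [sum_inner]
        exact Finset.sum_congr rfl fun i _ => (inner_sum _ _ _).symm
      rw [h3, h1, real_inner_smul_left, real_inner_smul_right, real_inner_self_eq_norm_sq]
      unfold ZN
      ring
    have h3 : ∑ i, ∑ k, (1 / 3) * (A i i * A k k) = (1 / 3) * (∑ i, A i i) ^ 2 := by
      rw [pow_two, Finset.sum_mul_sum, Finset.mul_sum]
      exact Finset.sum_congr rfl fun i _ => (Finset.mul_sum _ _ _).symm
    simp only [Finset.sum_sub_distrib]
    rw [h2, h3]
  have e2 : ∑ i, ∑ j, ((1 / 3) * (A i j * A i j) - inner ℝ (T i j) (T i j)) =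
      (1 / 3) * ∑ i, ∑ j, A i j ^ 2 - SS ψ N N := by
    have h1 : ∑ i, ∑ j, inner ℝ (T i j) (T i j) = SS ψ N N := by
      unfold SS
      refine Finset.sum_congr rfl fun i _ => Finset.sum_congr rfl fun j _ => ?_
      rw [real_inner_self_eq_norm_sq, hT]
      rfl
    have h2 : ∑ i, ∑ j, (1 / 3) * (A i j * A i j) = (1 / 3) * ∑ i, ∑ j, A i j ^ 2 := by
      rw [Finset.mul_sum]
      refine Finset.sum_congr rfl fun i _ => ?_
      rw [Finset.mul_sum]
      exact Finset.sum_congr rfl fun j _ => by rw [pow_two]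
    simp only [Finset.sum_sub_distrib]
    rw [h1, h2]
  have e3 : ∑ i, ∑ j, ((1 / 3) * (A i j * A j i) - inner ℝ (T i j) (T j i)) =
      ∑ i, ∑ j, ((1 / 3) * (A i j * A i j) - inner ℝ (T i j) (T i j)) :=
    Finset.sum_congr rfl fun i _ => Finset.sum_congr rfl fun j _ => by rw [hAs i j, hTs i j]
  have e4 : ∑ i, ∑ j, A i j ^ 2 ≤ (∑ i, A i i) ^ 2 := by
    rw [pow_two (∑ i, A i i), Finset.sum_mul_sum]
    exact Finset.sum_le_sum fun i _ => Finset.sum_le_sum fun j _ => hCS i j
  have e5 : ∑ i, A i i = a * ∑ i, ip (N i) (N i) - QN ψ N := by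
    rw [hA]
    unfold QN
    rw [Finset.mul_sum, ← Finset.sum_sub_distrib]
    refine Finset.sum_congr rfl fun i _ => ?_
    show Al a ψ (N i) (N i) = _
    rw [Al_apply, real_inner_self_eq_norm_sq]
  rw [e1, e3, e2] at havg
  rw [← e5]
  linarith

end HopfQ5
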