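import Pool.Agent.Lib.MP_4a593f_gt.Q5.Rot2
import Pool.Agent.Lib.MP_4a593f_gt.P3.NFa

/-! Task NF: reduction to the normal form.

`Pool.Hopf3.exists_nf n L` gives `O`, `μ` with `pull2 L O = nf μ` and orthonormal rows of `O`, i.e.
`O L Oᵀ = nfM n μ` (as matrices).  Take `U` from `exists_rot` for `O` (`Oᵀ O = 1`), `χ = U ψ`;
`U (rho M ψ) = rho (O M Oᵀ) χ` for `M = L`, `M = ac L L`, `M = -(L*L)`; traces are invariant, so
`U (Ss M ψ) = Ss (O M Oᵀ) χ`; inner products are preserved by a linear isometry.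
`ip (nfM n μ) (nfM n μ) = ∑_{k<n} μ_k²` (each pair gives two entries; `μ_k = 0` if `n ≤ 2k+1`). -/

open scoped BigOperators

namespace HopfQ5

open HopfBig HopfN2 HopfQ4 HopfD8

variable {n m p : ℕ} {c ε : ℝ} {N P : Fin m → Mat n} {ψ : Fk n}

private theorem NF_row {μ : ℕ → ℝ} (hz : ∀ k, n ≤ 2 * k + 1 → μ k = 0) {i : ℕ} (hi : i < n) :
    ∑ j ∈ Finset.range n, Pool.Hopf3.nf μ i j * Pool.Hopf3.nf μ i j = μ (i / 2) ^ 2 := by
  rcases Nat.even_or_odd' i with ⟨k, rfl | rfl⟩
  · have e1 : 2 * k / 2 = k := by omega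
    rw [e1]
    by_cases h : n ≤ 2 * k + 1
    · rw [hz k h]
      rw [Finset.sum_eq_zero]
      · norm_num
      · intro j hj
        rw [Finset.mem_range] at hj
        have h1 : ¬ (j = 2 * k + 1 ∧ 2 * k % 2 = 0) := by omega
        have h2 : ¬ (2 * k = j + 1 ∧ j % 2 = 0) := by omega
        unfold Pool.Hopf3.nf
        rw [if_neg h1, if_neg h2, mul_zero]
    · rw [Finset.sum_eq_single (2 * k + 1)]
      · unfold Pool.Hopf3.nf
        rw [if_pos ⟨rfl, by omega⟩, e1]
        ring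
      · intro j _ hj
        have h1 : ¬ (j = 2 * k + 1 ∧ 2 * k % 2 = 0) := fun h => hj h.1
        have h2 : ¬ (2 * k = j + 1 ∧ j % 2 = 0) := by omega
        unfold Pool.Hopf3.nf
        rw [if_neg h1, if_neg h2, mul_zero]
      · intro h1
        exact absurd (Finset.mem_range.2 (by omega)) h1
  · have e1 : (2 * k + 1) / 2 = k := by omega
    rw [e1, Finset.sum_eq_single (2 * k)]
    · unfold Pool.Hopf3.nf
      rw [if_neg (by omega), if_pos ⟨rfl, by omega⟩]
      have e2 : 2 * k / 2 = k := by omega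
      rw [e2]
      ring
    · intro j _ hj
      have h1 : ¬ (j = 2 * k + 1 + 1 ∧ (2 * k + 1) % 2 = 0) := by omega
      have h2 : ¬ (2 * k + 1 = j + 1 ∧ j % 2 = 0) := by omega
      unfold Pool.Hopf3.nf
      rw [if_neg h1, if_neg h2, mul_zero]
    · intro h1
      exact absurd (Finset.mem_range.2 (by omega)) h1

private theorem NF_dbl (μ : ℕ → ℝ) (l : ℕ) :
    ∑ i ∈ Finset.range (2 * l), μ (i / 2) ^ 2 = 2 * ∑ k ∈ Finset.range l, μ k ^ 2 := by
  induction l with
  | zero => simp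
  | succ l ih =>
    have e : 2 * (l + 1) = 2 * l + 1 + 1 := by ring
    rw [e, Finset.sum_range_succ, Finset.sum_range_succ, ih, Finset.sum_range_succ]
    have e1 : 2 * l / 2 = l := by omega
    have e2 : (2 * l + 1) / 2 = l := by omega
    rw [e1, e2]
    ring

private theorem NF_ip {μ : ℕ → ℝ} (hz : ∀ k, n ≤ 2 * k + 1 → μ k = 0) :
    ip (nfM n μ) (nfM n μ) = ∑ k ∈ Finset.range n, μ k ^ 2 := by
  have e1 : ∑ i : Fin n, ∑ j : Fin n, nfM n μ i j * nfM n μ i j =
      ∑ i ∈ Finset.range n, μ (i / 2) ^ 2 := by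
    rw [← Fin.sum_univ_eq_sum_range (fun i => μ (i / 2) ^ 2) n]
    refine Finset.sum_congr rfl fun i _ => ?_
    rw [← NF_row hz i.isLt]
    exact Fin.sum_univ_eq_sum_range
      (fun j => Pool.Hopf3.nf μ i.val j * Pool.Hopf3.nf μ i.val j) n
  have e2 : ∑ i ∈ Finset.range n, μ (i / 2) ^ 2 = ∑ i ∈ Finset.range (2 * n), μ (i / 2) ^ 2 := by
    refine Finset.sum_subset (fun i hi => ?_) fun i _ hi => ?_
    · rw [Finset.mem_range] at hi ⊢
      omega
    · rw [Finset.mem_range] at hi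
      rw [hz _ (by omega)]
      norm_num
  unfold ip
  rw [e1, e2, NF_dbl]
  ring

private theorem NF_ip_tr (A : Mat n) : ip A A = (1 / 2) * (A * A.transpose).trace := by
  unfold ip Matrix.trace
  congr 1

theorem exists_normal {L : Mat n} (hL : Skew L) (hd : Deg p ψ) :
    ∃ (μ : ℕ → ℝ) (χ : Fk n), (∀ k, 0 ≤ μ k) ∧ (∀ k, n ≤ 2 * k + 1 → μ k = 0) ∧ Deg p χ ∧
      ‖χ‖ = ‖ψ‖ ∧ ip L L = ∑ k ∈ Finset.range n, μ k ^ 2 ∧
      ‖rho L ψ‖ = ‖rho (nfM n μ) χ‖ ∧
      ‖Ss (ac L L) ψ‖ = ‖Ss (ac (nfM n μ) (nfM n μ)) χ‖ ∧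
      inner ℝ (rho (-(L * L)) ψ) ψ = inner ℝ (rho (-(nfM n μ * nfM n μ)) χ) χ := by
  obtain ⟨O', μ, hO', -, hμ, hz, hnf⟩ := Pool.Hopf3.exists_nf n L hL
  set O : Mat n := Matrix.of O' with hOdef
  have hO1 : O * O.transpose = 1 := by
    ext i j
    rw [Matrix.mul_apply, Matrix.one_apply]
    exact hO' i j
  have hO : O.transpose * O = 1 := mul_eq_one_comm.1 hO1
  have hK : O * L * O.transpose = nfM n μ := by
    ext i j
    have h1 : nfM n μ i j = Pool.Hopf3.nf μ i.val j.val := rfl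
    rw [h1, ← hnf i j]
    unfold Pool.Hopf3.pull2
    rw [Matrix.mul_apply, Finset.sum_comm]
    refine Finset.sum_congr rfl fun b _ => ?_
    rw [Matrix.mul_apply, Finset.sum_mul]
    refine Finset.sum_congr rfl fun a _ => ?_
    have h2 : O i a = O' i a := rfl
    have h3 : O.transpose b j = O' j b := rfl
    rw [h2, h3]
    ring
  have hKK : O * (L * L) * O.transpose = nfM n μ * nfM n μ := by
    rw [← hK]
    calc O * (L * L) * O.transpose = O * L * (1 * (L * O.transpose)) := by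
          rw [one_mul]; simp only [Matrix.mul_assoc]
      _ = O * L * ((O.transpose * O) * (L * O.transpose)) := by rw [hO]
      _ = O * L * O.transpose * (O * L * O.transpose) := by simp only [Matrix.mul_assoc]
  have htr : ∀ M : Mat n, (O * M * O.transpose).trace = M.trace := by
    intro M
    rw [Matrix.mul_assoc, Matrix.trace_mul_comm, Matrix.mul_assoc, hO, Matrix.mul_one]
  have hac : O * ac L L * O.transpose = ac (nfM n μ) (nfM n μ) := by
    unfold ac
    rw [Matrix.mul_add, Matrix.add_mul, hKK]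
  have hneg : O * (-(L * L)) * O.transpose = -(nfM n μ * nfM n μ) := by
    rw [Matrix.mul_neg, Matrix.neg_mul, hKK]
  obtain ⟨U, hU, hUd, hUr⟩ := exists_rot hO
  have hUi : ∀ f g : Fk n, inner ℝ (U f) (U g) = inner ℝ f g := fun f g =>
    (LinearIsometry.mk U hU).inner_map_map f g
  refine ⟨μ, U ψ, hμ, hz, hUd p ψ hd, hU ψ, ?_, ?_, ?_, ?_⟩
  · rw [← NF_ip hz, NF_ip_tr, NF_ip_tr]
    congr 1
    rw [← htr (L * L.transpose), ← hK]
    congr 1
    rw [Matrix.transpose_mul, Matrix.transpose_mul, Matrix.transpose_transpose]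
    symm
    calc O * L * O.transpose * (O * (L.transpose * O.transpose))
        = O * L * ((O.transpose * O) * (L.transpose * O.transpose)) := by
          simp only [Matrix.mul_assoc]
      _ = O * L * (1 * (L.transpose * O.transpose)) := by rw [hO]
      _ = O * (L * L.transpose) * O.transpose := by
          rw [one_mul]; simp only [Matrix.mul_assoc]
  · rw [← hU (rho L ψ), hUr, hK]
  · rw [← hU (Ss (ac L L) ψ)]
    congr 1
    unfold Ss
    rw [LinearMap.sub_apply, LinearMap.sub_apply, map_sub, hUr, hac, LinearMap.smul_apply,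
      LinearMap.smul_apply, LinearMap.id_apply, LinearMap.id_apply, map_smul, ← htr (ac L L), hac]
  · rw [← hUi, hUr, hneg]

end HopfQ5
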