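import Pool.Agent.Lib.MP_4a593f_gt.Q5.PatS
import Pool.Agent.Lib.MP_4a593f_gt.Q5.NF
import Pool.Agent.Lib.MP_4a593f_gt.Q5.NFc
import Pool.Agent.Lib.MP_4a593f_gt.Big.G4

/-! Task SL9: `‖Ss(2L²)ψ‖² ≤ (1/3)((67/16)|L|² - ‖ρ_Lψ‖²)²` in dimension 9, degree 4.

`exists_normal`; `t = ∑μ_k²`, `s = ∑ μ_k` (`μ_k = 0` for `k ≥ 4`), `V = 4t - s² ≥ 0`.  Multiply
`pat_all` by `χ(s)²` and sum (`nf_Ss`, `nf_rho`, coefficient `4/3 V + t/4 ≥ 0`):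
`‖Ss(..)‖² ≤ (4/3)(V + 3t/16)(4t - V - ‖ρ‖²) ≤ (4/3)(1/4)(4t + 3t/16 - ‖ρ‖²)²` (`xy ≤ ((x+y)/2)²`).
`Deg 4 χ`: only `|s| = 4` contribute. -/

open scoped BigOperators

namespace HopfQ5

open HopfBig HopfN2 HopfQ4 HopfD8

theorem SL9 {L : Mat 9} (hL : Skew L) {ψ : Fk 9} (hd : Deg 4 ψ) (hψ : ‖ψ‖ = 1) :
    ‖Ss (ac L L) ψ‖ ^ 2 ≤ (1 / 3) * (67 / 16 * ip L L - ‖rho L ψ‖ ^ 2) ^ 2 := by
  obtain ⟨μ, χ, hμ, h0, hdχ, hn, hip, hrho, hSs, -⟩ := exists_normal hL hd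
  rw [hip, hrho, hSs, nf_Ss h0 χ]
  have hρ := nf_rho hμ h0 χ
  set t : ℝ := ∑ k ∈ Finset.range 9, μ k ^ 2 with ht
  set S : ℝ := ∑ k ∈ Finset.range 9, μ k with hS
  have ht0 : 0 ≤ t := Finset.sum_nonneg fun k _ => sq_nonneg _
  have hz : ∀ k, 4 ≤ k → μ k = 0 := fun k hk => h0 k (by omega)
  have hV : S ^ 2 ≤ 4 * t := by
    have e1 : S = μ 0 + μ 1 + μ 2 + μ 3 := by
      rw [hS]
      simp only [Finset.sum_range_succ, Finset.sum_range_zero, hz 4 (by norm_num),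
        hz 5 (by norm_num), hz 6 (by norm_num), hz 7 (by norm_num), hz 8 (by norm_num)]
      ring
    have e2 : t = μ 0 ^ 2 + μ 1 ^ 2 + μ 2 ^ 2 + μ 3 ^ 2 := by
      rw [ht]
      simp only [Finset.sum_range_succ, Finset.sum_range_zero, hz 4 (by norm_num),
        hz 5 (by norm_num), hz 6 (by norm_num), hz 7 (by norm_num), hz 8 (by norm_num)]
      ring
    rw [e1, e2]
    nlinarith [sq_nonneg (μ 0 - μ 1), sq_nonneg (μ 0 - μ 2), sq_nonneg (μ 0 - μ 3),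
      sq_nonneg (μ 1 - μ 2), sq_nonneg (μ 1 - μ 3), sq_nonneg (μ 2 - μ 3)]
  have hc : 0 ≤ 4 / 3 * (4 * t - S ^ 2) + 1 / 4 * t := by nlinarith
  have hsum1 : ∑ s, χ s ^ 2 = 1 := by
    rw [← EuclideanSpace.real_norm_sq_eq, hn, hψ, one_pow]
  have key : 4 * ∑ s, χ s ^ 2 * (∑ i ∈ s, μ (i.val / 2) ^ 2 - t) ^ 2 ≤
      (4 / 3 * (4 * t - S ^ 2) + 1 / 4 * t) *
        (S ^ 2 - ∑ s, χ s ^ 2 * (∑ k ∈ Finset.range 9, if occ s k = 1 then μ k else 0) ^ 2) := by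
    have h1 : (4 / 3 * (4 * t - S ^ 2) + 1 / 4 * t) *
        (S ^ 2 - ∑ s, χ s ^ 2 * (∑ k ∈ Finset.range 9, if occ s k = 1 then μ k else 0) ^ 2) =
        ∑ s, χ s ^ 2 * ((4 / 3 * (4 * t - S ^ 2) + 1 / 4 * t) *
          (S ^ 2 - (∑ k ∈ Finset.range 9, if occ s k = 1 then μ k else 0) ^ 2)) := by
      have h2 : S ^ 2 = ∑ s, χ s ^ 2 * S ^ 2 := by rw [← Finset.sum_mul, hsum1, one_mul]
      conv_lhs => rw [show (S ^ 2 - ∑ s, χ s ^ 2 *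
          (∑ k ∈ Finset.range 9, if occ s k = 1 then μ k else 0) ^ 2) =
        ∑ s, χ s ^ 2 * (S ^ 2 - (∑ k ∈ Finset.range 9, if occ s k = 1 then μ k else 0) ^ 2) by
          simp only [mul_sub, Finset.sum_sub_distrib]
          rw [← h2]]
      rw [Finset.mul_sum]
      exact Finset.sum_congr rfl fun s _ => by ring
    rw [h1, Finset.mul_sum]
    refine Finset.sum_le_sum fun s _ => ?_
    by_cases hs : s.card = 4
    · have h3 := pat_all hμ h0 hs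
      rw [← ht, ← hS] at h3
      have h4 := mul_le_mul_of_nonneg_left h3 (sq_nonneg (χ s))
      linarith
    · rw [hdχ s hs]
      simp
  set R : ℝ := ‖rho (nfM 9 μ) χ‖ ^ 2 with hR
  set Y : ℝ := ∑ s, χ s ^ 2 * (∑ k ∈ Finset.range 9, if occ s k = 1 then μ k else 0) ^ 2 with hY
  have h5 : (4 / 3 * (4 * t - S ^ 2) + 1 / 4 * t) * (S ^ 2 - Y) ≤
      (4 / 3 * (4 * t - S ^ 2) + 1 / 4 * t) * (S ^ 2 - R) :=
    mul_le_mul_of_nonneg_left (by linarith) hc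
  have h6 : (4 / 3 * (4 * t - S ^ 2) + 1 / 4 * t) * (S ^ 2 - R) ≤
      (1 / 3) * (67 / 16 * t - R) ^ 2 := by
    nlinarith [sq_nonneg ((4 * t - S ^ 2 + 3 / 16 * t) - (S ^ 2 - R))]
  exact key.trans (h5.trans h6)

end HopfQ5
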