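import Pool.Agent.Lib.MP_4a593f_gt.Q5.Ex
import Pool.Agent.Lib.MP_4a593f_gt.Q5.MM
import Pool.Agent.Lib.MP_4a593f_gt.Q5.L10
import Pool.Agent.Lib.MP_4a593f_gt.Q5.L11
import Pool.Agent.Lib.MP_4a593f_gt.Q5.L12
import Pool.Agent.Lib.MP_4a593f_gt.Q5.Wdg1
import Pool.Agent.Lib.MP_4a593f_gt.Q5.Wdg2
import Pool.Agent.Lib.MP_4a593f_gt.Q5.SL9
import Pool.Agent.Lib.MP_4a593f_gt.Q5.Rad
import Pool.Agent.Lib.MP_4a593f_gt.Q5.Num
import Pool.Agent.Lib.MP_4a593f_gt.Q5.Hodge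
import Pool.Agent.Lib.MP_4a593f_gt.Q5.P3b
import Pool.Agent.Lib.MP_4a593f_gt.Q5.Tau
import Pool.Agent.Lib.MP_4a593f_gt.Q4.Core

/-! Task B9: 4-forms in dimension 9.

By contradiction: `exists_critP` with `c0 = 20/7` (scale `ψ` to norm 1; `ψ = 0` trivial).  `c ≤ 4` by
`main4` (from `h.zero`, `trN`, `ε ≥ 0`).  Inputs: `bd3` + `bd_hodge` (degree 6: constant 5/2),
`bd_triv` (degree 2), `mainM`, `starQ`, `L11`, `geo` + `crit_orthP`, `SQ_le` with `a = b = 2`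
(`wdg_low` for degree 2, `wdg_high` + `ctr_of_wdg` for degree 6), `rad` with `a = 67/16` and `SL9`
(`H0` from `rho_bd`), `L10`, `L13`, `WR`, `le_QN`, `num94` with `k = QN`. -/

open scoped BigOperators

namespace HopfQ5

open HopfBig HopfN2 HopfQ4 HopfD8

variable {n m p : ℕ} {c ε : ℝ} {N P : Fin m → Mat n} {ψ : Fk n}

private theorem b9_deg_smul {p : ℕ} {ψ : Fk n} (hd : Deg p ψ) (r : ℝ) : Deg p (r • ψ) := by
  intro s hs
  rw [PiLp.smul_apply, hd s hs, smul_zero]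

private theorem b9_exists {c0 : ℝ} (hc0 : 0 < c0) (hbd : ¬ Bd n m p c0) :
    ∃ (c ε : ℝ) (N P : Fin m → Mat n) (ψ : Fk n), c0 ≤ c ∧ 0 < ε ∧ CritP c ε N P p ψ := by
  unfold Bd at hbd
  push Not at hbd
  obtain ⟨N, P, hb, ψ, hd, hlt⟩ := hbd
  have hne : ψ ≠ 0 := by
    rintro rfl
    simp at hlt
  have hpos : 0 < ‖ψ‖ := norm_pos_iff.2 hne
  have hsq : (‖ψ‖⁻¹) ^ 2 * ‖ψ‖ ^ 2 = 1 := by
    field_simp
  have hn1 : ‖(‖ψ‖⁻¹ • ψ)‖ = 1 := by
    rw [norm_smul, norm_inv, norm_norm, inv_mul_cancel₀ hpos.ne']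
  refine exists_critP hc0 hb (b9_deg_smul hd _) hn1 ?_
  have e : ∀ L : Mat n, ‖rho L (‖ψ‖⁻¹ • ψ)‖ ^ 2 = (‖ψ‖⁻¹) ^ 2 * ‖rho L ψ‖ ^ 2 := by
    intro L
    rw [map_smul, norm_smul, norm_inv, norm_norm, mul_pow]
  simp only [e, ← Finset.mul_sum]
  have h1 : 0 < (‖ψ‖⁻¹) ^ 2 := by positivity
  have h2 := mul_lt_mul_of_pos_left hlt h1
  have h3 : (‖ψ‖⁻¹) ^ 2 * ((c0 * ∑ i, ip (N i) (N i)) * ‖ψ‖ ^ 2) =
      c0 * ∑ i, ip (N i) (N i) := by
    calc (‖ψ‖⁻¹) ^ 2 * ((c0 * ∑ i, ip (N i) (N i)) * ‖ψ‖ ^ 2)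
        = (c0 * ∑ i, ip (N i) (N i)) * ((‖ψ‖⁻¹) ^ 2 * ‖ψ‖ ^ 2) := by ring
      _ = c0 * ∑ i, ip (N i) (N i) := by rw [hsq, mul_one]
  rw [mul_sub] at h2
  linarith

private theorem b9_WN_nonneg : 0 ≤ WN ψ N := Finset.sum_nonneg fun _ _ => by positivity

private theorem b9_RN_nonneg : 0 ≤ RN ψ N := Finset.sum_nonneg fun _ _ => by positivity

private theorem b9_QQ_nonneg : 0 ≤ QQ ψ N N :=
  Finset.sum_nonneg fun _ _ => Finset.sum_nonneg fun _ _ => by positivity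

private theorem b9_c_le (h : CritP c ε N P p ψ) (hε : 0 < ε) {C : ℝ}
    (hC : ∑ i, ‖rho (N i) ψ‖ ^ 2 - ∑ j, ‖rho (P j) ψ‖ ^ 2 ≤ C * ∑ i, ip (N i) (N i)) : c ≤ C := by
  have h0 := h.zero
  unfold Hf at h0
  rw [h.trN, h.norm, one_pow, mul_one, mul_one] at h0
  rw [h.trN, mul_one] at hC
  have h1 : 0 ≤ ε * ∑ j, ip (P j) (P j) :=
    mul_nonneg hε.le (Finset.sum_nonneg fun j _ => ip_self_nonneg _)
  linarith

theorem bd94 (m : ℕ) : Bd 9 m 4 (20 / 7) := by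
  by_contra hbd
  obtain ⟨c, ε, N, P, ψ, hc, hε, h⟩ := b9_exists (by norm_num) hbd
  have hsN := h.bal.skN
  have hsP := h.bal.skP
  have hc4 : c ≤ 4 := b9_c_le h hε (main4 h.bal h.norm)
  have hk := le_QN h hε.le
  have hk4 : QN ψ N ≤ 4 := by
    have h1 : QN ψ N ≤ ∑ i, 4 * ip (N i) (N i) := by
      refine Finset.sum_le_sum fun i _ => ?_
      have h2 := rho_bd h.deg (hsN i)
      rw [h.norm] at h2
      norm_num at h2
      exact h2
    rw [← Finset.mul_sum, h.trN] at h1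
    linarith
  have hCp : Bd 9 m (4 + 2) (5 / 2) := bd_hodge (p := 3) (by norm_num) (bd3 (by norm_num) m)
  have hCm : Bd 9 m (4 - 2) 2 := by
    have h1 : Bd 9 m 2 ((2 : ℕ) : ℝ) := bd_triv
    norm_num at h1 ⊢
    exact h1
  have hM := mainM h (by norm_num) hε (by linarith) hCp hCm
  have hSt := starQ h hε (by linarith)
  have hL := L11 hsN h.deg h.norm
  have hg := geo h.bal (crit_orthP h (by linarith) hε)
  have hF := SQ_le hsN h.trN (by norm_num) h.deg (a := 2) (b := 2)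
    (by
      intro L hL χ hχ
      have h1 := wdg_low hL hχ
      norm_num at h1 ⊢
      exact h1)
    (by
      intro L hL χ hχ
      refine ctr_of_wdg (q := 4) (K := 2 * ip L L) (by have := ip_self_nonneg L; linarith) ?_ hχ
      intro χ' hχ'
      have h1 := wdg_high hL hχ'
      norm_num at h1 ⊢
      exact h1)
  have hB := rad (a := 67 / 16) (N := N) (ψ := ψ) (fun L hL => SL9 hL h.deg h.norm)
    (by
      intro L hL
      have h1 := rho_bd h.deg hL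
      rw [h.norm] at h1
      have h2 := ip_self_nonneg L
      norm_num at h1
      linarith)
    hsN
  rw [h.trN, mul_one] at hB
  have hq := L10 hsN h.deg h.norm
  have ha := L13 hsN h.deg h.norm h.trN
  have hu := WR hsN h.norm h.trN
  have ha1 : 0 ≤ A1 N := X1_mul_nonneg hsN hsN
  have ha2 := X1_mul_nonneg hsN hsP
  push_cast at hSt hq ha
  refine num94 hc hc4 hk hk4 b9_WN_nonneg b9_RN_nonneg (sq_nonneg _) b9_QQ_nonneg ha1 ha2 hu
    hM (Z := ZN ψ N) (t := tau N) (q := qN ψ N) ?_ hL hg ?_ hB ?_ ?_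
  · linarith
  · linarith
  · linarith
  · linarith

end HopfQ5
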