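import Pool.Agent.Lib.MP_4a593f_gt.D8.Defs
import Pool.Agent.Lib.MP_4a593f_gt.P3.Defs

/-! # Explicit constants: definitions (no task)

`CritP` : a maximiser among forms of one degree `p`.  Quantities attached to `N`, `ψ`:
`WN = ∑ ‖N_i ∧ ψ‖²`, `RN = ∑ ‖ctr N_i ψ‖²`, `QN = ∑ ‖ρ_{N_i} ψ‖²`, `uN = ⟨ρ_{X1} ψ, ψ⟩`,
`qN = (1/2)∑_ab ‖ρ(X^♯ e_ab) ψ‖²`, `ZN = ‖Ss X1 ψ‖²`; `SS`, `QQ`, `tau`, `X1` are in `Q4/Defs`. -/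

open scoped BigOperators

namespace HopfQ5

open HopfBig HopfN2 HopfQ4 HopfD8

variable {n m : ℕ}

/-- a maximiser among the forms of degree `p` -/
structure CritP (c ε : ℝ) (N P : Fin m → Mat n) (p : ℕ) (ψ : Fk n) : Prop where
  bal : Bal N P
  deg : Deg p ψ
  norm : ‖ψ‖ = 1
  trN : ∑ i, ip (N i) (N i) = 1
  nonneg : ∀ N' P' : Fin m → Mat n, Bal N' P' → ∀ χ : Fk n, Deg p χ → 0 ≤ Hf c ε N' P' χ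
  zero : Hf c ε N P ψ = 0

/-- `∑ ‖N_i ∧ ψ‖²` -/
noncomputable def WN (ψ : Fk n) (N : Fin m → Mat n) : ℝ := ∑ i, ‖wdg (N i) ψ‖ ^ 2

/-- `∑ ‖ctr N_i ψ‖²` -/
noncomputable def RN (ψ : Fk n) (N : Fin m → Mat n) : ℝ := ∑ i, ‖ctr (N i) ψ‖ ^ 2

/-- `∑ ‖ρ_{N_i} ψ‖²` -/
noncomputable def QN (ψ : Fk n) (N : Fin m → Mat n) : ℝ := ∑ i, ‖rho (N i) ψ‖ ^ 2

/-- `⟨ρ_{X1} ψ, ψ⟩` -/
noncomputable def uN (ψ : Fk n) (N : Fin m → Mat n) : ℝ := inner ℝ (rho (X1 N) ψ) ψ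

/-- `(1/2) ∑_ab ‖ρ(X^♯ e_ab) ψ‖²` -/
noncomputable def qN (ψ : Fk n) (N : Fin m → Mat n) : ℝ :=
  (1 / 2) * ∑ a, ∑ b, ‖rho (Xs N (HopfQ4.eab a b)) ψ‖ ^ 2

/-- `‖Ss X1 ψ‖²` -/
noncomputable def ZN (ψ : Fk n) (N : Fin m → Mat n) : ℝ := ‖Ss (X1 N) ψ‖ ^ 2

/-- `tr X1²` -/
noncomputable def A1 (N : Fin m → Mat n) : ℝ := (X1 N * X1 N).trace

/-- the matrix `∑ μ_k (e_{2k} ∧ e_{2k+1})` -/
def nfM (n : ℕ) (μ : ℕ → ℝ) : Mat n := Matrix.of fun i j => Pool.Hopf3.nf μ i.val j.val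

/-- number of elements of `s` in the pair `{2k, 2k+1}` -/
def occ (s : Finset (Fin n)) (k : ℕ) : ℕ := (s.filter fun i => i.val / 2 = k).card

end HopfQ5
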