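import Pool.Agent.Lib.MP_4a593f_gt.Q5.First
import Pool.Agent.Lib.MP_4a593f_gt.Q4.Hf1
import Pool.Agent.Lib.MP_4a593f_gt.Q4.Hf2

/-! Task Hf: `hformP` is the identity behind `hform_sum` (Q4/Hf2.lean): copy that file; instead of
`0 ≤ Hf c ε N P (hop L ψ)` keep the value (`hform` for one `L` reads
`(1/2)∑(..)_N - (1/2)∑(..)_P + KK(L²)N - KK(L²)P = Hf c ε N P (hop L ψ)`, from `Hf2_sum`,
`crit_bilinP`, `bal_bilin`), sum over `L = N_k` and use `crit_margP` for `S = X1 N`.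
`Hf_hop_ge`: `hop L ψ = wdg L ψ - ctr L ψ` has components in degrees `p+2`, `p-2`
(cf. `Dg_deg_wdg`, `Dg_deg_ctr` in Q4/Dg.lean); `Hf c ε N P` of a sum of forms of different degrees
is the sum (`rho` preserves degrees), and `Hf c ε N P χ ≥ (c - C) ‖χ‖²` for `χ` of degree `q`
with `Bd n m q C` (`trN = 1`, `ε ≥ 0`). -/

open scoped BigOperators

namespace HopfQ5

open HopfBig HopfN2 HopfQ4 HopfD8

variable {n m p : ℕ} {c ε : ℝ} {N P : Fin m → Mat n} {ψ : Fk n}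

private theorem Hf_hop_add (A B : Mat n) (f : Fk n) : hop (A + B) f = hop A f + hop B f := by
  simp only [hop, map_add, LinearMap.sub_apply, LinearMap.add_apply]
  abel

private theorem Hf_hop_smul (t : ℝ) (A : Mat n) (f : Fk n) : hop (t • A) f = t • hop A f := by
  simp only [hop, map_smul, LinearMap.sub_apply, LinearMap.smul_apply, smul_sub]

private theorem Hf_kf_add (ψ : Fk n) (A B M : Mat n) : kf ψ (A + B) M = kf ψ A M + kf ψ B M := by
  unfold kf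
  rw [Hf_hop_add, inner_add_left]

private theorem Hf_kf_smul (ψ : Fk n) (t : ℝ) (A M : Mat n) : kf ψ (t • A) M = t * kf ψ A M := by
  unfold kf
  rw [Hf_hop_smul, real_inner_smul_left]

private theorem Hf_kf_neg (ψ : Fk n) (A M : Mat n) : kf ψ (-A) M = -kf ψ A M := by
  rw [← neg_one_smul ℝ A, Hf_kf_smul]
  ring

private theorem Hf_mat (r L : Mat n) :
    ac (ac r L) L + br (br r L) L = (2 : ℝ) • ac (L * L) r := by
  unfold ac br
  rw [two_smul]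
  noncomm_ring

/-- one member of the family -/
private theorem Hf_one (hd : Deg p ψ) {L r : Mat n} (hL : Skew L) (hr : Skew r) :
    (inner ℝ (hop r (hop L ψ)) (hop r (hop L ψ)) +
      inner ℝ (hopB r (hop L ψ)) (hopB r (hop L ψ))) +
    (inner ℝ (hop r (hop L (hop L ψ))) (hop r ψ) +
      inner ℝ (hopB r (hop L (hop L ψ))) (hopB r ψ)) =
    (‖Ss (ac r L) ψ‖ ^ 2 + ‖rho (br r L) ψ‖ ^ 2) + 2 * kf ψ (ac (L * L) r) r := by
  have h1 := G_B hL hr ψ
  have h2 := G_A hL hr ψ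
  rw [inner_hopB_hopB hd] at h1
  have h3 : (inner ℝ (hop (br (br r L) L) ψ) (hop r ψ) : ℝ) = kf ψ (br (br r L) L) r := rfl
  rw [h3] at h2
  have h4 : kf ψ (ac (ac r L) L) r + kf ψ (br (br r L) L) r = 2 * kf ψ (ac (L * L) r) r := by
    rw [← Hf_kf_add, Hf_mat, Hf_kf_smul]
  rw [real_inner_self_eq_norm_sq, real_inner_self_eq_norm_sq]
  linarith

private theorem Hf_sum (hd : Deg p ψ) {L : Mat n} (hL : Skew L) (hN : ∀ i, Skew (N i)) :
    ∑ i, ((1 / 2) * (inner ℝ (hop (N i) (hop L ψ)) (hop (N i) (hop L ψ)) +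
      inner ℝ (hopB (N i) (hop L ψ)) (hopB (N i) (hop L ψ)))) +
    ∑ i, ((1 / 2) * (inner ℝ (hop (N i) (hop L (hop L ψ))) (hop (N i) ψ) +
      inner ℝ (hopB (N i) (hop L (hop L ψ))) (hopB (N i) ψ))) =
    (1 / 2) * ∑ i, (‖Ss (ac (N i) L) ψ‖ ^ 2 + ‖rho (br (N i) L) ψ‖ ^ 2) + KK ψ (L * L) N := by
  unfold KK
  rw [← Finset.sum_add_distrib, Finset.mul_sum, ← Finset.sum_add_distrib]
  refine Finset.sum_congr rfl fun i _ => ?_
  have h := Hf_one hd hL (hN i)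
  linarith

private theorem Hf_value (h : CritP c ε N P p ψ) {L : Mat n} (hL : Skew L) :
    (1 / 2) * ∑ i, (‖Ss (ac (N i) L) ψ‖ ^ 2 + ‖rho (br (N i) L) ψ‖ ^ 2)
      - (1 / 2) * ∑ j, (‖Ss (ac (P j) L) ψ‖ ^ 2 + ‖rho (br (P j) L) ψ‖ ^ 2)
      + KK ψ (L * L) N - KK ψ (L * L) P = Hf c ε N P (hop L ψ) := by
  have hN := Hf_sum (N := N) h.deg hL h.bal.skN
  have hP := Hf_sum (N := P) h.deg hL h.bal.skP
  have h1 := crit_bilinP h (hop L (hop L ψ))
  have b1 := bal_bilin h.bal (hop L ψ) (hop L ψ)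
  have b2 := bal_bilin h.bal (hop L (hop L ψ)) ψ
  have hsk : (inner ℝ (hop L (hop L ψ)) ψ : ℝ) = -inner ℝ (hop L ψ) (hop L ψ) := hop_skew L _ _
  have hc : (inner ℝ ψ (hop L (hop L ψ)) : ℝ) = -inner ℝ (hop L ψ) (hop L ψ) := by
    rw [real_inner_comm, hsk]
  unfold Hf
  rw [hc] at h1
  rw [hsk] at b2
  simp only [Finset.sum_sub_distrib, Finset.sum_add_distrib, ← Finset.sum_mul] at b1 b2
  have e1 : ∀ K : Fin m → Mat n, ∑ i, inner ℝ (rho (K i) ψ) (rho (K i) (hop L (hop L ψ))) =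
      ∑ i, inner ℝ (rho (K i) (hop L (hop L ψ))) (rho (K i) ψ) := fun K =>
    Finset.sum_congr rfl fun i _ => real_inner_comm _ _
  have e2 : ∀ K : Fin m → Mat n, ∑ i, inner ℝ (rho (K i) (hop L ψ)) (rho (K i) (hop L ψ)) =
      ∑ i, ‖rho (K i) (hop L ψ)‖ ^ 2 := fun K =>
    Finset.sum_congr rfl fun i _ => real_inner_self_eq_norm_sq _
  rw [e1, e1] at h1
  rw [e2, e2] at b1
  rw [← real_inner_self_eq_norm_sq (hop L ψ)]
  linear_combination (-1) * hN + hP + b1 + b2 + h1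

private theorem Hf_KK_neg (ψ : Fk n) (S : Mat n) (N : Fin m → Mat n) :
    KK ψ (-S) N = -KK ψ S N := by
  unfold KK
  rw [← Finset.sum_neg_distrib]
  refine Finset.sum_congr rfl fun i _ => ?_
  rw [← Hf_kf_neg]
  congr 1
  unfold ac
  noncomm_ring

private theorem Hf_kf_sum {ι : Type*} (s : Finset ι) (ψ : Fk n) (F : ι → Mat n) (M : Mat n) :
    kf ψ (∑ i ∈ s, F i) M = ∑ i ∈ s, kf ψ (F i) M := by
  classical
  induction s using Finset.induction_on with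
  | empty =>
    have h : kf ψ (0 : Mat n) M = 0 := by
      have h1 := Hf_kf_smul ψ 0 (0 : Mat n) M
      rw [zero_smul, zero_mul] at h1
      exact h1
    simpa using h
  | insert a s ha ih => rw [Finset.sum_insert ha, Finset.sum_insert ha, Hf_kf_add, ih]

private theorem Hf_KK_sum (ψ : Fk n) (N K : Fin m → Mat n) :
    ∑ i, KK ψ (N i * N i) K = -KK ψ (X1 N) K := by
  rw [← Hf_KK_neg]
  have h : -X1 N = ∑ i, N i * N i := by unfold X1; rw [neg_neg]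
  rw [h]
  unfold KK
  rw [Finset.sum_comm]
  refine Finset.sum_congr rfl fun j _ => ?_
  rw [← Hf_kf_sum]
  congr 1
  unfold ac
  rw [Finset.sum_mul, Finset.mul_sum, ← Finset.sum_add_distrib]

private theorem Hf_X1_symm (hN : ∀ i, Skew (N i)) : (X1 N).transpose = X1 N := by
  unfold X1
  rw [Matrix.transpose_neg, Matrix.transpose_sum]
  congr 1
  refine Finset.sum_congr rfl fun i _ => ?_
  rw [Matrix.transpose_mul, (hN i).transpose]
  noncomm_ring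

private theorem Hf_SS_comm (ψ : Fk n) (N P : Fin m → Mat n) : SS ψ P N = SS ψ N P := by
  unfold SS
  rw [Finset.sum_comm]
  refine Finset.sum_congr rfl fun i _ => Finset.sum_congr rfl fun j _ => ?_
  have h : ac (P j) (N i) = ac (N i) (P j) := by unfold ac; rw [add_comm]
  rw [h]

private theorem Hf_QQ_comm (ψ : Fk n) (N P : Fin m → Mat n) : QQ ψ P N = QQ ψ N P := by
  unfold QQ
  rw [Finset.sum_comm]
  refine Finset.sum_congr rfl fun i _ => Finset.sum_congr rfl fun j _ => ?_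
  rw [br_neg_comm, map_neg, LinearMap.neg_apply, norm_neg]

private theorem Hf_deg_add {p : ℕ} (f g : Fk n) (hf : Deg p f) (hg : Deg p g) :
    Deg p (f + g) := by
  intro s hs
  rw [PiLp.add_apply, hf s hs, hg s hs, add_zero]

private theorem Hf_deg_zero {p : ℕ} : Deg p (0 : Fk n) := fun _ _ => rfl

private theorem Hf_deg_smul {p : ℕ} (r : ℝ) (f : Fk n) (hf : Deg p f) : Deg p (r • f) := by
  intro s hs
  rw [PiLp.smul_apply, hf s hs, smul_zero]

private theorem Hf_deg_wdg {p : ℕ} {f : Fk n} (h : Deg p f) (L : Mat n) :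
    Deg (p + 2) (wdg L f) := by
  have h0 : wdg L f = (1 / 2 : ℝ) • ∑ a, ∑ b, L a b • cr a (cr b f) := by
    simp only [wdg, LinearMap.coe_mk, AddHom.coe_mk, LinearMap.smul_apply,
      LinearMap.sum_apply, LinearMap.comp_apply]
  rw [h0]
  apply Hf_deg_smul
  refine Finset.sum_induction _ (Deg (p + 2)) Hf_deg_add Hf_deg_zero fun a _ => ?_
  refine Finset.sum_induction _ (Deg (p + 2)) Hf_deg_add Hf_deg_zero fun b _ => ?_
  exact Hf_deg_smul _ _ ((h.cr b).cr a)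

private theorem Hf_deg_ctr {p : ℕ} {f : Fk n} (h : Deg (p + 2) f) (L : Mat n) :
    Deg p (ctr L f) := by
  have h0 : ctr L f = (1 / 2 : ℝ) • ∑ a, ∑ b, L a b • an b (an a f) := by
    simp only [ctr, LinearMap.coe_mk, AddHom.coe_mk, LinearMap.smul_apply,
      LinearMap.sum_apply, LinearMap.comp_apply]
  rw [h0]
  apply Hf_deg_smul
  refine Finset.sum_induction _ (Deg p) Hf_deg_add Hf_deg_zero fun a _ => ?_
  refine Finset.sum_induction _ (Deg p) Hf_deg_add Hf_deg_zero fun b _ => ?_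
  exact Hf_deg_smul _ _ ((h.an a).an b)

private theorem Hf_inner_deg {p q : ℕ} (hpq : p ≠ q) {f g : Fk n} (hf : Deg p f)
    (hg : Deg q g) : inner ℝ f g = 0 := by
  rw [PiLp.inner_apply]
  refine Finset.sum_eq_zero fun s _ => ?_
  by_cases hs : s.card = p
  · rw [hg s (by rw [hs]; exact hpq), inner_zero_right]
  · rw [hf s hs, inner_zero_left]

private theorem Hf_norm_sub {p q : ℕ} (hpq : p ≠ q) {f g : Fk n} (hf : Deg p f)
    (hg : Deg q g) : ‖f - g‖ ^ 2 = ‖f‖ ^ 2 + ‖g‖ ^ 2 := by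
  rw [← real_inner_self_eq_norm_sq, real_inner_sub_sub_self, Hf_inner_deg hpq hf hg,
    real_inner_self_eq_norm_sq, real_inner_self_eq_norm_sq]
  ring

theorem hformP (h : CritP c ε N P p ψ) :
    SS ψ N N + QQ ψ N N - SS ψ N P - QQ ψ N P +
      2 * ((c - 1) * (X1 N * X1 N).trace + (1 + ε) * (X1 N * X1 P).trace) =
      2 * ∑ i, Hf c ε N P (hop (N i) ψ) := by
  have h1 : ∑ k, ((1 / 2) * ∑ i, (‖Ss (ac (N i) (N k)) ψ‖ ^ 2 + ‖rho (br (N i) (N k)) ψ‖ ^ 2)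
      - (1 / 2) * ∑ j, (‖Ss (ac (P j) (N k)) ψ‖ ^ 2 + ‖rho (br (P j) (N k)) ψ‖ ^ 2)
      + KK ψ (N k * N k) N - KK ψ (N k * N k) P) = ∑ k, Hf c ε N P (hop (N k) ψ) :=
    Finset.sum_congr rfl fun k _ => Hf_value h (h.bal.skN k)
  have h2 := crit_margP h (Hf_X1_symm h.bal.skN)
  have e : ∀ K : Fin m → Mat n,
      ∑ k, (1 / 2) * ∑ i, (‖Ss (ac (K i) (N k)) ψ‖ ^ 2 + ‖rho (br (K i) (N k)) ψ‖ ^ 2) =
      (1 / 2) * (SS ψ K N + QQ ψ K N) := by
    intro K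
    rw [← Finset.mul_sum, Finset.sum_comm]
    unfold SS QQ
    simp only [Finset.sum_add_distrib]
  rw [Finset.sum_sub_distrib, Finset.sum_add_distrib, Finset.sum_sub_distrib, e N, e P,
    Hf_KK_sum, Hf_KK_sum, Hf_SS_comm ψ N P, Hf_QQ_comm ψ N P] at h1
  linarith

theorem Hf_hop_ge (h : CritP c ε N P p ψ) (hp : 2 ≤ p) (hε : 0 ≤ ε) {Cp Cm : ℝ}
    (hCp : Bd n m (p + 2) Cp) (hCm : Bd n m (p - 2) Cm) (L : Mat n) :
    (c - Cp) * ‖wdg L ψ‖ ^ 2 + (c - Cm) * ‖ctr L ψ‖ ^ 2 ≤ Hf c ε N P (hop L ψ) := by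
  obtain ⟨q, rfl⟩ : ∃ q, p = q + 2 := ⟨p - 2, by omega⟩
  have hq : q + 2 - 2 = q := by omega
  rw [hq] at hCm
  have hW : Deg (q + 2 + 2) (wdg L ψ) := Hf_deg_wdg h.deg L
  have hR : Deg q (ctr L ψ) := Hf_deg_ctr h.deg L
  have hne : q + 2 + 2 ≠ q := by omega
  have hA := hCp N P h.bal (wdg L ψ) hW
  have hB := hCm N P h.bal (ctr L ψ) hR
  rw [h.trN] at hA hB
  have hP : 0 ≤ ∑ j, ip (P j) (P j) := Finset.sum_nonneg fun j _ => ip_self_nonneg _
  have hs : ∀ K : Fin m → Mat n, ∑ i, ‖rho (K i) (hop L ψ)‖ ^ 2 =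
      ∑ i, ‖rho (K i) (wdg L ψ)‖ ^ 2 + ∑ i, ‖rho (K i) (ctr L ψ)‖ ^ 2 := by
    intro K
    rw [← Finset.sum_add_distrib]
    refine Finset.sum_congr rfl fun i _ => ?_
    rw [hop_apply, map_sub]
    exact Hf_norm_sub hne (hW.rho (K i)) (hR.rho (K i))
  have hn : ‖hop L ψ‖ ^ 2 = ‖wdg L ψ‖ ^ 2 + ‖ctr L ψ‖ ^ 2 := by
    rw [hop_apply]
    exact Hf_norm_sub hne hW hR
  unfold Hf
  rw [hs N, hs P, hn, h.trN]
  have h1 : 0 ≤ ε * (∑ j, ip (P j) (P j)) * (‖wdg L ψ‖ ^ 2 + ‖ctr L ψ‖ ^ 2) := by positivity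
  linarith

theorem hformE (h : CritP c ε N P p ψ) (hp : 2 ≤ p) (hε : 0 ≤ ε) {Cp Cm : ℝ}
    (hCp : Bd n m (p + 2) Cp) (hCm : Bd n m (p - 2) Cm) :
    2 * (c - Cp) * WN ψ N + 2 * (c - Cm) * RN ψ N ≤
      SS ψ N N + QQ ψ N N - SS ψ N P - QQ ψ N P +
        2 * ((c - 1) * (X1 N * X1 N).trace + (1 + ε) * (X1 N * X1 P).trace) := by
  rw [hformP h]
  unfold WN RN
  rw [Finset.mul_sum, Finset.mul_sum, Finset.mul_sum, ← Finset.sum_add_distrib]
  refine Finset.sum_le_sum fun i _ => ?_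
  have h1 := Hf_hop_ge h hp hε hCp hCm (N i)
  linarith

end HopfQ5
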