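import Pool.Agent.Lib.MP_4a593f_gt.Q5.Fin

/-! The explicit constant `6/5`: `k`-positive curvature operators with `5 k ≤ 6 (n - 3)`. -/

open scoped BigOperators

namespace HopfQ5

open HopfBig HopfN2 HopfQ4 HopfD8

variable {n : ℕ}

private theorem odd_five (hn : 13 ≤ n) {k p : ℕ} (hp : 5 ≤ p) (h2p : 2 * p ≤ n)
    (hk : 5 * (k : ℝ) ≤ 6 * ((n : ℝ) - 3))
    {R : Fin n → Fin n → Fin n → Fin n → ℝ} (hR : IsCurvature R) (hKP : KPositive R k)
    {φ : (Fin p → Fin n) → ℝ} (hφ : IsForm φ) (h0 : φ ≠ 0) : 0 < bochner R φ := by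
  have hnr : (13 : ℝ) ≤ n := by exact_mod_cast hn
  have h5 : 5 * ((n : ℝ) - 5) ≤ p * ((n : ℝ) - p) := by
    have h1 : (5 : ℝ) ≤ p := by exact_mod_cast hp
    have h2 : 2 * (p : ℝ) ≤ n := by exact_mod_cast h2p
    nlinarith
  rcases Nat.lt_or_ge n 53 with h | h
  · have hpos : 0 < (n : ℝ) - 3 := by linarith
    have hC3 : (3 : ℝ) ≤ 25 * ((n : ℝ) - 5) / (6 * ((n : ℝ) - 3)) := by
      rw [le_div_iff₀ (by linarith)]
      linarith
    have hG : (n : ℝ) * (4 - 25 * ((n : ℝ) - 5) / (6 * ((n : ℝ) - 3))) *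
        (n - 2 * (25 * ((n : ℝ) - 5) / (6 * ((n : ℝ) - 3)))) ≤
        2 * n * (25 * ((n : ℝ) - 5) / (6 * ((n : ℝ) - 3)) - 2) ^ 2 +
          4 * (25 * ((n : ℝ) - 5) / (6 * ((n : ℝ) - 3)) - 2) ^ 3 := by
      clear hKP h0 hφ hR hC3 hpos h5 hnr hk h2p hp
      interval_cases n <;> norm_num
    refine bd_kpos (by linarith) (fun m' => bdG hC3 hG m' p) ?_ hR hKP hφ h0
    refine le_trans ?_ h5
    rw [div_mul_eq_mul_div, div_le_iff₀ (by linarith)]
    have h6 : 0 ≤ (n : ℝ) - 5 := by linarith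
    nlinarith [mul_le_mul_of_nonneg_left hk h6]
  · have hnr' : (53 : ℝ) ≤ n := by exact_mod_cast h
    refine bd_kpos (C := 4) (by norm_num) (fun m' => bdG (by norm_num) ?_ m' p) ?_ hR hKP hφ h0
    · norm_num
      nlinarith
    · refine le_trans ?_ h5
      linarith

private theorem odd_small (h1 : 10 ≤ n) (hn : n < 13) {k p : ℕ} (hp : 5 ≤ p) (h2p : 2 * p ≤ n)
    (hk : 5 * (k : ℝ) ≤ 6 * ((n : ℝ) - 3))
    {R : Fin n → Fin n → Fin n → Fin n → ℝ} (hR : IsCurvature R) (hKP : KPositive R k)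
    {φ : (Fin p → Fin n) → ℝ} (hφ : IsForm φ) (h0 : φ ≠ 0) : 0 < bochner R φ := by
  have hcase : n = 10 ∨ n = 11 ∨ n = 12 := by omega
  rcases hcase with rfl | rfl | rfl
  · have hp5 : p = 5 := by omega
    subst hp5
    have hk' : 5 * k ≤ 42 := by
      have : (5 : ℝ) * k ≤ 42 := by
        norm_num at hk ⊢
        linarith
      exact_mod_cast this
    have hk8 : (k : ℝ) ≤ 8 := by
      have : k ≤ 8 := by omega
      exact_mod_cast this
    refine bd_kpos (C := 25 / 8) (by norm_num) bd105 ?_ hR hKP hφ h0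
    push_cast
    linarith
  · have hp5 : p = 5 := by omega
    subst hp5
    have hk' : 5 * k ≤ 48 := by
      have : (5 : ℝ) * k ≤ 48 := by
        norm_num at hk ⊢
        linarith
      exact_mod_cast this
    have hk8 : (k : ℝ) ≤ 9 := by
      have : k ≤ 9 := by omega
      exact_mod_cast this
    refine bd_kpos (C := 10 / 3) (by norm_num)
      (fun m' => bdG (by norm_num) (by norm_num) m' 5) ?_ hR hKP hφ h0
    push_cast
    linarith
  · have hk' : 5 * k ≤ 54 := by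
      have : (5 : ℝ) * k ≤ 54 := by
        norm_num at hk ⊢
        linarith
      exact_mod_cast this
    have hk8 : (k : ℝ) ≤ 10 := by
      have : k ≤ 10 := by omega
      exact_mod_cast this
    have hcase' : p = 5 ∨ p = 6 := by omega
    rcases hcase' with rfl | rfl
    · refine bd_kpos (C := 7 / 2) (by norm_num)
        (fun m' => bdG (by norm_num) (by norm_num) m' 5) ?_ hR hKP hφ h0
      push_cast
      linarith
    · refine bd_kpos (C := 7 / 2) (by norm_num)
        (fun m' => bdG (by norm_num) (by norm_num) m' 6) ?_ hR hKP hφ h0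
      push_cast
      linarith

/-- all degrees `p ≥ 3` other than 4 -/
theorem six_fifths {k p : ℕ} (hp : 3 ≤ p) (hp4 : p ≠ 4) (h2p : 2 * p ≤ n)
    (hk : 5 * (k : ℝ) ≤ 6 * ((n : ℝ) - 3))
    {R : Fin n → Fin n → Fin n → Fin n → ℝ} (hR : IsCurvature R) (hKP : KPositive R k)
    {φ : (Fin p → Fin n) → ℝ} (hφ : IsForm φ) (h0 : φ ≠ 0) : 0 < bochner R φ := by
  rcases Nat.lt_or_ge p 5 with h5 | h5
  · have h3 : p = 3 := by omega
    subst h3
    refine bd_kpos (C := 5 / 2) (by norm_num) (fun m' => bd3 (by omega) m') ?_ hR hKP hφ h0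
    push_cast
    linarith
  · rcases Nat.lt_or_ge n 13 with hn | hn
    · exact odd_small (by omega) hn h5 h2p hk hR hKP hφ h0
    · exact odd_five hn h5 h2p hk hR hKP hφ h0

end HopfQ5
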