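import Pool.Agent.Lib.MP_4a593f_gt.Q5.Defs

/-! Task Pat: the five pattern inequalities (dimension 9, degree 4); `a, b, c, d ≥ 0`,
`t = a²+b²+c²+d²`, `s = a+b+c+d`, `V = 4t - s² = ∑_{pairs} (difference)² ≥ 0`.

Common right side `(4/3 V + t/4)(s² - r²)`, `r` = sum over the singly occupied pairs.  Numerically
the constant `1/4` can be lowered to `0.182`.  Hints: `pat0`: `(a²+b²-c²-d²)² ≤
((a-c)²+(b-d)²)((a+c)²+(b+d)²)` and the same with `c, d` exchanged; `pat2`: `V ≥ 2(c-d)²`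
(as `(a-c)²+(a-d)² ≥ (c-d)²/2`), `s² - (a+b)² = (c+d)(c+d+2(a+b))`; `pat3`:
`s² - (s-d)² = d(2s-d)`, divide by `d`; only `d` and `s` matter. -/

open scoped BigOperators

namespace HopfQ5

open HopfBig HopfN2 HopfQ4 HopfD8

private theorem g0_nonneg {a b u : ℝ} (ha : 0 ≤ a) (hb : 0 ≤ b) (hu : 0 ≤ u) :
    0 ≤ (17 / 4 * (a * a + b * b) - 8 / 3 * (a * b + a * u + b * u) + 35 / 24 * u * u) *
      ((b + u) * (b + u + 2 * a)) - (2 * b ^ 2 - u ^ 2) ^ 2 := by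
  nlinarith [mul_nonneg (mul_nonneg ha hu) (sq_nonneg (a - 2/5 * u)),
    mul_nonneg (mul_nonneg ha hb) (sq_nonneg (a - 1/2 * u)),
    mul_nonneg (mul_nonneg ha hu) (sq_nonneg (b - 1/2 * u)),
    mul_nonneg (mul_nonneg ha hb) (sq_nonneg (b - u)),
    mul_nonneg (mul_nonneg hb hu) (sq_nonneg (a - 1/2 * u)),
    mul_nonneg (mul_nonneg ha hb) (sq_nonneg (a - b)),
    sq_nonneg (u ^ 2 - 2 * a * u), sq_nonneg (u ^ 2 - 2 * a * u - a * b),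
    sq_nonneg (u ^ 2 - 2 * a * u + b * u), sq_nonneg (b * u - a * u), sq_nonneg (b * u - 1/2 * a * u - 1/2 * a * b),
    mul_nonneg ha hb, mul_nonneg hb hu, mul_nonneg ha hu,
    mul_nonneg (mul_nonneg ha hb) (mul_nonneg hb hu), mul_nonneg (mul_nonneg ha hb) (mul_nonneg ha hu),
    mul_nonneg (mul_nonneg hb hu) (mul_nonneg ha hu)]

private theorem p_nonneg {f g v : ℝ} (hf0 : 0 ≤ f) (hg0 : 0 ≤ g) (hv0 : 0 ≤ v) (hvg : v ≤ g ^ 2) :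
    0 ≤ (35 / 24 * f ^ 2 - 8 / 3 * f * g + 35 / 24 * g ^ 2) * (g + 2 * f) +
      v * (67 / 12 * f - 29 / 24 * g) := by
  have hP0 : 0 ≤ (35 / 24 * f ^ 2 - 8 / 3 * f * g + 35 / 24 * g ^ 2) * (g + 2 * f) := by
    apply mul_nonneg _ (by positivity)
    nlinarith [sq_nonneg (f - g), mul_nonneg hf0 hg0]
  have hP1 : 0 ≤ (35 / 24 * f ^ 2 - 8 / 3 * f * g + 35 / 24 * g ^ 2) * (g + 2 * f) +
      g ^ 2 * (67 / 12 * f - 29 / 24 * g) := by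
    have : 0 ≤ f * (35 / 12 * f ^ 2 - 93 / 24 * f * g + 35 / 6 * g ^ 2) := by
      apply mul_nonneg hf0
      nlinarith [sq_nonneg (f - 93 / 140 * g)]
    have h5 : 0 ≤ g ^ 3 := by positivity
    nlinarith [this, h5]
  rcases le_total 0 (67 / 12 * f - 29 / 24 * g) with h | h
  · nlinarith [mul_nonneg hv0 h]
  · nlinarith [mul_nonneg_of_nonpos_of_nonpos (sub_nonpos.2 hvg) h]

theorem pat3 {a b c d : ℝ} (ha : 0 ≤ a) (hb : 0 ≤ b) (hc : 0 ≤ c) (hd : 0 ≤ d) :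
    4 * (d ^ 2) ^ 2 ≤ (4 / 3 * (4 * (a ^ 2 + b ^ 2 + c ^ 2 + d ^ 2) - (a + b + c + d) ^ 2) +
      1 / 4 * (a ^ 2 + b ^ 2 + c ^ 2 + d ^ 2)) * ((a + b + c + d) ^ 2 - (a + b + c) ^ 2) := by
  obtain ⟨e, he⟩ : ∃ e, e = a + b + c := ⟨_, rfl⟩
  have he0 : 0 ≤ e := by rw [he]; positivity
  have hT : e ^ 2 / 3 ≤ a ^ 2 + b ^ 2 + c ^ 2 := by
    rw [he]
    nlinarith [sq_nonneg (a - b), sq_nonneg (a - c), sq_nonneg (b - c)]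
  have e1 : (a + b + c + d) ^ 2 - (a + b + c) ^ 2 = d * (d + 2 * e) := by
    rw [he]
    ring
  rw [e1, show a + b + c + d = e + d by rw [he]]
  obtain ⟨t, ht⟩ : ∃ t, t = a ^ 2 + b ^ 2 + c ^ 2 := ⟨_, rfl⟩
  rw [← ht] at hT
  rw [show a ^ 2 + b ^ 2 + c ^ 2 + d ^ 2 = t + d ^ 2 by rw [ht]]
  have h1 : 4 / 3 * (4 * (e ^ 2 / 3 + d ^ 2) - (e + d) ^ 2) + 1 / 4 * (e ^ 2 / 3 + d ^ 2) ≤
      4 / 3 * (4 * (t + d ^ 2) - (e + d) ^ 2) + 1 / 4 * (t + d ^ 2) := by linarith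
  have h2 : 0 ≤ d * (d + 2 * e) := by positivity
  refine le_trans ?_ (mul_le_mul_of_nonneg_right h1 h2)
  have h3 : 0 ≤ d * (1 / 4 * d ^ 3 + e * (35 / 6 * d ^ 2 - 173 / 36 * d * e + 19 / 18 * e ^ 2)) := by
    apply mul_nonneg hd
    apply add_nonneg (by positivity)
    apply mul_nonneg he0
    nlinarith [sq_nonneg (d - 173 / 420 * e)]
  nlinarith [h3]

theorem pat2 {a b c d : ℝ} (ha : 0 ≤ a) (hb : 0 ≤ b) (hc : 0 ≤ c) (hd : 0 ≤ d) :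
    4 * (c ^ 2 - d ^ 2) ^ 2 ≤
      (4 / 3 * (4 * (a ^ 2 + b ^ 2 + c ^ 2 + d ^ 2) - (a + b + c + d) ^ 2) +
        1 / 4 * (a ^ 2 + b ^ 2 + c ^ 2 + d ^ 2)) * ((a + b + c + d) ^ 2 - (a + b) ^ 2) := by
  obtain ⟨f, hf⟩ : ∃ f, f = a + b := ⟨_, rfl⟩
  obtain ⟨g, hg⟩ : ∃ g, g = c + d := ⟨_, rfl⟩
  obtain ⟨v, hv⟩ : ∃ v, v = (c - d) ^ 2 := ⟨_, rfl⟩
  have hf0 : 0 ≤ f := by rw [hf]; positivity
  have hg0 : 0 ≤ g := by rw [hg]; positivity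
  have hv0 : 0 ≤ v := by rw [hv]; positivity
  have hvg : v ≤ g ^ 2 := by
    rw [hv, hg]
    nlinarith [mul_nonneg hc hd]
  have hT : f ^ 2 / 2 ≤ a ^ 2 + b ^ 2 := by
    rw [hf]
    nlinarith [sq_nonneg (a - b)]
  have e1 : (a + b + c + d) ^ 2 - (a + b) ^ 2 = g * (g + 2 * f) := by
    rw [hf, hg]
    ring
  have e2 : (c ^ 2 - d ^ 2) ^ 2 = v * g ^ 2 := by
    rw [hv, hg]
    ring
  have e3 : c ^ 2 + d ^ 2 = (g ^ 2 + v) / 2 := by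
    rw [hv, hg]
    ring
  rw [e1, e2, show a + b + c + d = f + g by rw [hf, hg]; ring,
    show a ^ 2 + b ^ 2 + c ^ 2 + d ^ 2 = (a ^ 2 + b ^ 2) + (c ^ 2 + d ^ 2) by ring, e3]
  obtain ⟨t, ht⟩ : ∃ t, t = a ^ 2 + b ^ 2 := ⟨_, rfl⟩
  rw [← ht] at hT ⊢
  have h1 : 4 / 3 * (4 * (f ^ 2 / 2 + (g ^ 2 + v) / 2) - (f + g) ^ 2) +
      1 / 4 * (f ^ 2 / 2 + (g ^ 2 + v) / 2) ≤
      4 / 3 * (4 * (t + (g ^ 2 + v) / 2) - (f + g) ^ 2) + 1 / 4 * (t + (g ^ 2 + v) / 2) := by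
    linarith
  have h2 : 0 ≤ g * (g + 2 * f) := by positivity
  refine le_trans ?_ (mul_le_mul_of_nonneg_right h1 h2)
  -- P = P0 + v k
  have hP0 : 0 ≤ (35 / 24 * f ^ 2 - 8 / 3 * f * g + 35 / 24 * g ^ 2) * (g + 2 * f) := by
    apply mul_nonneg _ (by positivity)
    nlinarith [sq_nonneg (f - g), mul_nonneg hf0 hg0]
  have hP1 : 0 ≤ (35 / 24 * f ^ 2 - 8 / 3 * f * g + 35 / 24 * g ^ 2) * (g + 2 * f) +
      g ^ 2 * (67 / 12 * f - 29 / 24 * g) := by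
    have : 0 ≤ f * (35 / 12 * f ^ 2 - 93 / 24 * f * g + 35 / 6 * g ^ 2) := by
      apply mul_nonneg hf0
      nlinarith [sq_nonneg (f - 93 / 140 * g)]
    have h5 : 0 ≤ g ^ 3 := by positivity
    nlinarith [this, h5]
  have hP : 0 ≤ (35 / 24 * f ^ 2 - 8 / 3 * f * g + 35 / 24 * g ^ 2) * (g + 2 * f) +
      v * (67 / 12 * f - 29 / 24 * g) := by
    rcases le_total 0 (67 / 12 * f - 29 / 24 * g) with h | h
    · nlinarith [mul_nonneg hv0 h]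
    · nlinarith [mul_nonneg_of_nonpos_of_nonpos (sub_nonpos.2 hvg) h]
  nlinarith [mul_nonneg hg0 hP]

theorem pat1 {a b c d : ℝ} (ha : 0 ≤ a) (hb : 0 ≤ b) (hc : 0 ≤ c) (hd : 0 ≤ d) :
    4 * (b ^ 2 - c ^ 2 - d ^ 2) ^ 2 ≤
      (4 / 3 * (4 * (a ^ 2 + b ^ 2 + c ^ 2 + d ^ 2) - (a + b + c + d) ^ 2) +
        1 / 4 * (a ^ 2 + b ^ 2 + c ^ 2 + d ^ 2)) * ((a + b + c + d) ^ 2 - a ^ 2) := by
  obtain ⟨u, hu⟩ : ∃ u, u = c + d := ⟨_, rfl⟩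
  obtain ⟨B, hB⟩ : ∃ B, B = (c - d) ^ 2 := ⟨_, rfl⟩
  have hu0 : 0 ≤ u := by rw [hu]; positivity
  have hB0 : 0 ≤ B := by rw [hB]; positivity
  have hBu : B ≤ u ^ 2 := by
    rw [hB, hu]
    nlinarith [mul_nonneg hc hd]
  have e1 : 4 * (b ^ 2 - c ^ 2 - d ^ 2) ^ 2 = (2 * b ^ 2 - u ^ 2 - B) ^ 2 := by
    rw [hu, hB]
    ring
  have e2 : a ^ 2 + b ^ 2 + c ^ 2 + d ^ 2 = a ^ 2 + b ^ 2 + (u ^ 2 + B) / 2 := by
    rw [hu, hB]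
    ring
  rw [e1, e2, show a + b + c + d = a + b + u by rw [hu]; ring]
  have hg0 := g0_nonneg ha hb hu0
  have hg1 : 0 ≤ (17 / 4 * a ^ 2 - 8 / 3 * a * (b + u) + 67 / 12 * (b ^ 2 + u ^ 2) -
      4 / 3 * (b + u) ^ 2) * ((b + u) * (b + u + 2 * a)) - 4 * (b ^ 2 - u ^ 2) ^ 2 := by
    have h1 := p_nonneg (f := a) (g := b + u) (v := (b - u) ^ 2) ha (by positivity)
      (sq_nonneg _) (by nlinarith [mul_nonneg hb hu0])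
    have h2 : 0 ≤ (b + u) * (67 / 24 * a ^ 2 * (b + u + 2 * a)) := by positivity
    nlinarith [mul_nonneg (add_nonneg hb hu0) h1, h2]
  have hU : (2 * b ^ 2 - u ^ 2 - B) ^ 2 ≤ (2 * b ^ 2 - u ^ 2) ^ 2 - 2 * (2 * b ^ 2 - u ^ 2) * B +
      B * u ^ 2 := by
    nlinarith [mul_nonneg hB0 (sub_nonneg.2 hBu)]
  refine hU.trans ?_
  rcases le_total 0 (67 / 24 * ((b + u) * (b + u + 2 * a)) + 2 * (2 * b ^ 2 - u ^ 2) - u ^ 2)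
    with h | h
  · nlinarith [mul_nonneg hB0 h, hg0]
  · nlinarith [mul_nonneg_of_nonpos_of_nonpos (sub_nonpos.2 hBu) h, hg1]

theorem pat0 {a b c d : ℝ} (ha : 0 ≤ a) (hb : 0 ≤ b) (hc : 0 ≤ c) (hd : 0 ≤ d) :
    4 * (a ^ 2 + b ^ 2 - c ^ 2 - d ^ 2) ^ 2 ≤
      (4 / 3 * (4 * (a ^ 2 + b ^ 2 + c ^ 2 + d ^ 2) - (a + b + c + d) ^ 2) +
        1 / 4 * (a ^ 2 + b ^ 2 + c ^ 2 + d ^ 2)) * (a + b + c + d) ^ 2 := by
  obtain ⟨x, hx⟩ : ∃ x, x = a + b := ⟨_, rfl⟩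
  obtain ⟨y, hy⟩ : ∃ y, y = c + d := ⟨_, rfl⟩
  obtain ⟨A, hA⟩ : ∃ A, A = (a - b) ^ 2 := ⟨_, rfl⟩
  obtain ⟨B, hB⟩ : ∃ B, B = (c - d) ^ 2 := ⟨_, rfl⟩
  have hx0 : 0 ≤ x := by rw [hx]; positivity
  have hy0 : 0 ≤ y := by rw [hy]; positivity
  have hA0 : 0 ≤ A := by rw [hA]; positivity
  have hB0 : 0 ≤ B := by rw [hB]; positivity
  have hAx : A ≤ x ^ 2 := by
    rw [hA, hx]
    nlinarith [mul_nonneg ha hb]
  have hBy : B ≤ y ^ 2 := by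
    rw [hB, hy]
    nlinarith [mul_nonneg hc hd]
  have e1 : 4 * (a ^ 2 + b ^ 2 - c ^ 2 - d ^ 2) ^ 2 = (x ^ 2 - y ^ 2 + A - B) ^ 2 := by
    rw [hx, hy, hA, hB]
    ring
  have e2 : a ^ 2 + b ^ 2 + c ^ 2 + d ^ 2 = (x ^ 2 + y ^ 2 + A + B) / 2 := by
    rw [hx, hy, hA, hB]
    ring
  rw [e1, e2, show a + b + c + d = x + y by rw [hx, hy]; ring]
  have hU : (x ^ 2 - y ^ 2 + A - B) ^ 2 ≤ (x ^ 2 - y ^ 2) ^ 2 + A * (3 * x ^ 2 - 2 * y ^ 2) +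
      B * (3 * y ^ 2 - 2 * x ^ 2) - 2 * A * B := by
    nlinarith [mul_nonneg hA0 (sub_nonneg.2 hAx), mul_nonneg hB0 (sub_nonneg.2 hBy)]
  refine hU.trans ?_
  have hxy : 0 ≤ x * y := mul_nonneg hx0 hy0
  have h1 : 0 ≤ A * (134 / 24 * x * y + 115 / 24 * y ^ 2) := by positivity
  have h2 : 0 ≤ B * (134 / 24 * x * y + 115 / 24 * x ^ 2) := by positivity
  have h3 : 0 ≤ A * B := by positivity
  have h4 : 0 ≤ 5 / 24 * x ^ 2 * (x ^ 2 - A) := by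
    have := sub_nonneg.2 hAx
    positivity
  have h5 : 0 ≤ 5 / 24 * y ^ 2 * (y ^ 2 - B) := by
    have := sub_nonneg.2 hBy
    positivity
  have h6 : 0 ≤ 1 / 4 * x ^ 4 + 1 / 4 * x ^ 3 * y - 5 / 12 * x ^ 2 * y ^ 2 + 1 / 4 * x * y ^ 3 +
      1 / 4 * y ^ 4 := by
    have : 0 ≤ x * y * (x ^ 2 + y ^ 2) := by positivity
    nlinarith [sq_nonneg (x ^ 2 - y ^ 2), this, mul_nonneg hxy hxy]
  nlinarith [h1, h2, h3, h4, h5, h6]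

end HopfQ5
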