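import Pool.Agent.Lib.MP_4a593f_gt.Q5.Pat

/-! Task PatS: all subsets of size 4 of `Fin 9`.

Pairs `{0,1},{2,3},{4,5},{6,7}` with weights `μ 0 .. μ 3`, and the unpaired index `8`
(`μ 4 = 0`, and `μ k = 0` for `k ≥ 4`).  For `|s| = 4` the occupation numbers `(n_0..n_3; n_8)`
are up to order `1111;0`, `1110;1`, `1120;0`, `1200;1`, `2200;0` (126 subsets; e.g. `decide`-based case
analysis on `occ s k` for `k < 4` and `8 ∈ s`, then `pat3`, `pat2`, `pat1`, `pat0`). -/

open scoped BigOperators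

namespace HopfQ5

open HopfBig HopfN2 HopfQ4 HopfD8

private theorem occ_sum (s : Finset (Fin 9)) (f : ℕ → ℝ) :
    ∑ i ∈ s, f (i.val / 2) = ∑ k ∈ Finset.range 5, (occ s k : ℝ) * f k := by
  rw [← Finset.sum_fiberwise_of_maps_to (t := Finset.range 5) (g := fun i : Fin 9 => i.val / 2)
    (fun i _ => by
      rw [Finset.mem_range]
      have := i.isLt
      omega)]
  refine Finset.sum_congr rfl fun k _ => ?_
  unfold occ
  rw [← nsmul_eq_mul, ← Finset.sum_const]
  exact Finset.sum_congr rfl fun i hi => by rw [(Finset.mem_filter.1 hi).2]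

private theorem occ_le (s : Finset (Fin 9)) (k : ℕ) :
    occ s k ≤ ((Finset.univ : Finset (Fin 9)).filter fun i => i.val / 2 = k).card := by
  unfold occ
  exact Finset.card_le_card (Finset.filter_subset_filter _ (Finset.subset_univ _))

private theorem pat_key {a b c d : ℝ} (ha : 0 ≤ a) (hb : 0 ≤ b) (hc : 0 ≤ c) (hd : 0 ≤ d)
    (n0 n1 n2 n3 n4 : ℕ) (h0 : n0 ≤ 2) (h1 : n1 ≤ 2) (h2 : n2 ≤ 2) (h3 : n3 ≤ 2) (h4 : n4 ≤ 1)
    (hs : n0 + n1 + n2 + n3 + n4 = 4) :
    4 * ((n0 : ℝ) * a ^ 2 + n1 * b ^ 2 + n2 * c ^ 2 + n3 * d ^ 2 -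
      (a ^ 2 + b ^ 2 + c ^ 2 + d ^ 2)) ^ 2 ≤
      (4 / 3 * (4 * (a ^ 2 + b ^ 2 + c ^ 2 + d ^ 2) - (a + b + c + d) ^ 2) +
        1 / 4 * (a ^ 2 + b ^ 2 + c ^ 2 + d ^ 2)) * ((a + b + c + d) ^ 2 -
        ((if n0 = 1 then a else 0) + (if n1 = 1 then b else 0) + (if n2 = 1 then c else 0) +
          (if n3 = 1 then d else 0)) ^ 2) := by
  interval_cases n0 <;> interval_cases n1 <;> interval_cases n2 <;> interval_cases n3 <;>
    first
    | (exfalso; omega)
    | (norm_num <;>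
       first
       | linarith [pat0 ha hb hc hd]
       | linarith [pat0 ha hc hb hd]
       | linarith [pat0 ha hd hb hc]
       | linarith [pat3 ha hb hc hd]
       | linarith [pat3 ha hb hd hc]
       | linarith [pat3 ha hd hc hb]
       | linarith [pat3 hd hb hc ha]
       | linarith [pat2 ha hb hc hd]
       | linarith [pat2 ha hc hb hd]
       | linarith [pat2 ha hd hb hc]
       | linarith [pat2 hb hc ha hd]
       | linarith [pat2 hb hd ha hc]
       | linarith [pat2 hc hd ha hb]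
       | linarith [pat1 ha hb hc hd]
       | linarith [pat1 ha hc hb hd]
       | linarith [pat1 ha hd hb hc]
       | linarith [pat1 hb ha hc hd]
       | linarith [pat1 hb hc ha hd]
       | linarith [pat1 hb hd ha hc]
       | linarith [pat1 hc ha hb hd]
       | linarith [pat1 hc hb ha hd]
       | linarith [pat1 hc hd ha hb]
       | linarith [pat1 hd ha hb hc]
       | linarith [pat1 hd hb ha hc]
       | linarith [pat1 hd hc ha hb])

theorem pat_all {μ : ℕ → ℝ} (hμ : ∀ k, 0 ≤ μ k) (h0 : ∀ k, 9 ≤ 2 * k + 1 → μ k = 0)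
    {s : Finset (Fin 9)} (hs : s.card = 4) :
    4 * (∑ i ∈ s, μ (i.val / 2) ^ 2 - ∑ k ∈ Finset.range 9, μ k ^ 2) ^ 2 ≤
      (4 / 3 * (4 * (∑ k ∈ Finset.range 9, μ k ^ 2) - (∑ k ∈ Finset.range 9, μ k) ^ 2) +
        1 / 4 * (∑ k ∈ Finset.range 9, μ k ^ 2)) *
      ((∑ k ∈ Finset.range 9, μ k) ^ 2 -
        (∑ k ∈ Finset.range 9, if occ s k = 1 then μ k else 0) ^ 2) := by
  have m4 : μ 4 = 0 := h0 4 (by norm_num)
  have m5 : μ 5 = 0 := h0 5 (by norm_num)
  have m6 : μ 6 = 0 := h0 6 (by norm_num)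
  have m7 : μ 7 = 0 := h0 7 (by norm_num)
  have m8 : μ 8 = 0 := h0 8 (by norm_num)
  have e1 : ∑ i ∈ s, μ (i.val / 2) ^ 2 = (occ s 0 : ℝ) * μ 0 ^ 2 + occ s 1 * μ 1 ^ 2 +
      occ s 2 * μ 2 ^ 2 + occ s 3 * μ 3 ^ 2 := by
    rw [occ_sum s (fun k => μ k ^ 2)]
    simp only [Finset.sum_range_succ, Finset.sum_range_zero, m4]
    ring
  have e2 : ∑ k ∈ Finset.range 9, μ k ^ 2 = μ 0 ^ 2 + μ 1 ^ 2 + μ 2 ^ 2 + μ 3 ^ 2 := by
    simp only [Finset.sum_range_succ, Finset.sum_range_zero, m4, m5, m6, m7, m8]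
    ring
  have e3 : ∑ k ∈ Finset.range 9, μ k = μ 0 + μ 1 + μ 2 + μ 3 := by
    simp only [Finset.sum_range_succ, Finset.sum_range_zero, m4, m5, m6, m7, m8]
    ring
  have e4 : (∑ k ∈ Finset.range 9, if occ s k = 1 then μ k else 0) =
      (if occ s 0 = 1 then μ 0 else 0) + (if occ s 1 = 1 then μ 1 else 0) +
        (if occ s 2 = 1 then μ 2 else 0) + (if occ s 3 = 1 then μ 3 else 0) := by
    simp only [Finset.sum_range_succ, Finset.sum_range_zero, m4, m5, m6, m7, m8, ite_self]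
    ring
  rw [e1, e2, e3, e4]
  have hsum : occ s 0 + occ s 1 + occ s 2 + occ s 3 + occ s 4 = 4 := by
    have h := occ_sum s (fun _ => (1 : ℝ))
    rw [Finset.sum_const, hs] at h
    simp only [Finset.sum_range_succ, Finset.sum_range_zero, mul_one, nsmul_eq_mul,
      zero_add] at h
    have h' : ((occ s 0 + occ s 1 + occ s 2 + occ s 3 + occ s 4 : ℕ) : ℝ) = ((4 : ℕ) : ℝ) := by
      push_cast at h ⊢
      linarith
    exact_mod_cast h'
  refine pat_key (hμ 0) (hμ 1) (hμ 2) (hμ 3) _ _ _ _ (occ s 4) ?_ ?_ ?_ ?_ ?_ hsum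
  · exact (occ_le s 0).trans (by decide)
  · exact (occ_le s 1).trans (by decide)
  · exact (occ_le s 2).trans (by decide)
  · exact (occ_le s 3).trans (by decide)
  · exact (occ_le s 4).trans (by decide)

end HopfQ5
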