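import Pool.Agent.Lib.MP_4a593f_gt.Q5.Defs
import Pool.Agent.Lib.MP_4a593f_gt.D8.Defs
import Pool.Agent.Lib.MP_4a593f_gt.Big.G2

/-! Task Rot1: change of frame on the Fock space, intertwining with `cr`.

`v i` (`i : Fin n`) are vectors.  `fr v s = (∏_{i∈s, increasing} crv (v i)) vac`;
`T v f = ∑_s f s • fr v s`.  `T_cr`: `T (cr i f) = crv (v i) (T f)`, by linearity for basis vectors:
move `crv (v i)` to its place (`crv_crv`; sign `sg i s`, zero if `i ∈ s`).  Compare
`D8/Cl2.lean` (`Th_l`), which does the same for gamma matrices. -/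

open scoped BigOperators

namespace HopfQ5

open HopfBig HopfN2 HopfQ4 HopfD8

variable {n : ℕ}

/-- ordered wedge product of frame vectors -/
noncomputable def fr (v : Fin n → Fin n → ℝ) (s : Finset (Fin n)) : Fk n :=
  ((s.sort (· ≤ ·)).map fun i => (crv (v i) : Fk n →ₗ[ℝ] Fk n)).foldr (fun A x => A x) (vac n)

/-- the change of frame -/
noncomputable def Tv (v : Fin n → Fin n → ℝ) : Fk n →ₗ[ℝ] Fk n where
  toFun f := ∑ s, f s • fr v s
  map_add' f g := by
    simp only [PiLp.add_apply, add_smul, Finset.sum_add_distrib]
  map_smul' r f := by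
    simp only [PiLp.smul_apply, smul_eq_mul, RingHom.id_apply, Finset.smul_sum, smul_smul]

private theorem rot1_fr_insert (v : Fin n → Fin n → ℝ) {m : Fin n} {t : Finset (Fin n)}
    (h : ∀ b ∈ t, m < b) : fr v (insert m t) = crv (v m) (fr v t) := by
  unfold fr
  rw [Finset.sort_insert (r := (· ≤ ·)) (fun b hb => (h b hb).le)
    (fun hm => lt_irrefl _ (h m hm)), List.map_cons, List.foldr_cons]

private theorem rot1_sg_min {m : Fin n} {t : Finset (Fin n)} (h : ∀ b ∈ t, m < b) :
    sg m t = 1 := by
  unfold sg
  rw [Finset.filter_false_of_mem (fun b hb => not_lt.mpr (h b hb).le)]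
  simp

private theorem rot1_sg_ins_self (a : Fin n) (t : Finset (Fin n)) :
    sg a (insert a t) = sg a t := by
  unfold sg
  rw [Finset.filter_insert, if_neg (lt_irrefl a)]

private theorem rot1_sg_ers (a : Fin n) (s : Finset (Fin n)) : sg a (s.erase a) = sg a s := by
  by_cases h : a ∈ s
  · have := rot1_sg_ins_self a (s.erase a)
    rw [Finset.insert_erase h] at this
    exact this.symm
  · rw [Finset.erase_eq_of_notMem h]

private theorem rot1_sg_lt {a m : Fin n} {t : Finset (Fin n)} (hm : m ∉ t) (h : m < a) :
    sg a (insert m t) = -sg a t := by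
  unfold sg
  rw [Finset.filter_insert, if_pos h, Finset.card_insert_of_notMem, pow_succ]
  · ring
  · exact fun hc => hm (Finset.mem_filter.mp hc).1

private theorem rot1_crv_self (u : Fin n → ℝ) (f : Fk n) : crv u (crv u f) = 0 := by
  have h := crv_crv u u f
  ext s
  have h2 : crv u (crv u f) s = -(crv u (crv u f) s) := by
    have := congrArg (fun g : Fk n => g s) h
    simpa using this
  have h3 : crv u (crv u f) s = 0 := by linarith
  simpa using h3

private theorem rot1_crv_fr (v : Fin n → Fin n → ℝ) (s : Finset (Fin n)) : ∀ a : Fin n,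
    crv (v a) (fr v s) = if a ∈ s then 0 else sg a s • fr v (insert a s) := by
  induction s using Finset.induction_on_min with
  | empty =>
    intro a
    rw [if_neg (Finset.notMem_empty a), rot1_fr_insert v (m := a) (t := ∅) (by simp),
      rot1_sg_min (by simp), one_smul]
  | insert m t hmt ih =>
    intro a
    have hm : m ∉ t := fun h => lt_irrefl _ (hmt m h)
    rcases lt_trichotomy a m with h | h | h
    · have hlt : ∀ b ∈ insert m t, a < b := by
        intro b hb
        rcases Finset.mem_insert.mp hb with rfl | hb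
        · exact h
        · exact h.trans (hmt b hb)
      rw [if_neg (fun ha => lt_irrefl _ (hlt a ha)), rot1_fr_insert v hlt, rot1_sg_min hlt,
        one_smul]
    · subst h
      rw [if_pos (Finset.mem_insert_self _ _), rot1_fr_insert v hmt, rot1_crv_self]
    · rw [rot1_fr_insert v hmt, crv_crv, ih a, rot1_sg_lt hm h]
      by_cases ha : a ∈ t
      · rw [if_pos ha, if_pos (Finset.mem_insert_of_mem ha), map_zero, neg_zero]
      · rw [if_neg ha, if_neg (fun hc => by
          rcases Finset.mem_insert.mp hc with h1 | h1
          · exact h.ne' h1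
          · exact ha h1)]
        have e : insert a (insert m t) = insert m (insert a t) := Finset.insert_comm a m t
        have hlt : ∀ b ∈ insert a t, m < b := by
          intro b hb
          rcases Finset.mem_insert.mp hb with rfl | hb
          · exact h
          · exact hmt b hb
        rw [e, rot1_fr_insert v hlt, map_smul, neg_smul]

private def rot1_tog (a : Fin n) (s : Finset (Fin n)) : Finset (Fin n) :=
  if a ∈ s then s.erase a else insert a s

private theorem rot1_tog_tog (a : Fin n) (s : Finset (Fin n)) :
    rot1_tog a (rot1_tog a s) = s := by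
  unfold rot1_tog
  by_cases h : a ∈ s
  · rw [if_pos h, if_neg (Finset.notMem_erase a s), Finset.insert_erase h]
  · rw [if_neg h, if_pos (Finset.mem_insert_self a s), Finset.erase_insert h]

theorem T_cr (v : Fin n → Fin n → ℝ) (i : Fin n) (f : Fk n) :
    Tv v (cr i f) = crv (v i) (Tv v f) := by
  change ∑ s, (cr i f) s • fr v s = crv (v i) (∑ s, f s • fr v s)
  rw [map_sum]
  refine Finset.sum_nbij' (rot1_tog i) (rot1_tog i) (fun _ _ => Finset.mem_univ _)
    (fun _ _ => Finset.mem_univ _) (fun s _ => rot1_tog_tog i s) (fun s _ => rot1_tog_tog i s) ?_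
  intro s _
  rw [map_smul, rot1_crv_fr, cr_apply]
  unfold rot1_tog
  by_cases h : i ∈ s
  · rw [if_pos h, if_pos h, if_neg (Finset.notMem_erase i s), Finset.insert_erase h,
      rot1_sg_ers, smul_smul, mul_comm]
  · rw [if_neg h, if_neg h, if_pos (Finset.mem_insert_self i s), smul_zero, zero_smul]

end HopfQ5
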