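import Pool.Agent.Lib.MP_4a593f_gt.Q5.Rot1
import Pool.Agent.Lib.MP_4a593f_gt.Big.G3

/-! Task Rot2: `T_an` and the intertwining property.

`v` orthonormal (`∑_a v i a * v j a = δ_ij`).  `T_an`: `T (an i f) = anv (v i) (T f)`.
For a basis vector `f = e_s`: if `i ∉ s` then `an i f = 0` and `anv (v i)` anticommutes with all
`crv (v j)`, `j ∈ s` (`anv_crv`), and kills `vac`; if `i ∈ s` then `f = ± cr i g` with `an i g = 0`,
`anv (v i) (crv (v i) x) + crv (v i) (anv (v i) x) = x`.
`T_norm`: the `fr v s` are orthonormal: `⟨T (cr i f), T g⟩ = ⟨T f, T (an i g)⟩`; induction on `s`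
(or: `T* T` commutes with all `cr i`, `an i` and fixes `vac`).  `T_deg`: `crv` raises the degree
by 1.  `exists_rot`: `v i a = O a i`, `rho M = ∑ M_ab cr a ∘ an b`. -/

open scoped BigOperators

namespace HopfQ5

open HopfBig HopfN2 HopfQ4 HopfD8

variable {n : ℕ}

private theorem Rot2_sg (a : Fin n) (s : Finset (Fin n)) : sg a (insert a s) = sg a s := by
  unfold sg
  rw [Finset.filter_insert, if_neg (lt_irrefl a)]

private theorem Rot2_single {a : Fin n} {s : Finset (Fin n)} (ha : a ∉ s) :
    (EuclideanSpace.single (insert a s) (1 : ℝ) : Fk n) =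
      sg a s • cr a (EuclideanSpace.single s (1 : ℝ) : Fk n) := by
  ext t
  rw [PiLp.smul_apply, cr_apply, smul_eq_mul, PiLp.single_apply,
    PiLp.single_apply]
  by_cases ht : t = insert a s
  · subst ht
    rw [if_pos rfl, if_pos (Finset.mem_insert_self a s), Finset.erase_insert ha, if_pos rfl,
      Rot2_sg, mul_one, sg_sq]
  · rw [if_neg ht]
    by_cases hat : a ∈ t
    · have h1 : ¬ t.erase a = s := by
        intro h2
        apply ht
        rw [← h2, Finset.insert_erase hat]
      rw [if_pos hat, if_neg h1, mul_zero, mul_zero]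
    · rw [if_neg hat, mul_zero]

private theorem Rot2_ind {P : Fk n → Prop} (h0 : P 0) (hadd : ∀ f g, P f → P g → P (f + g))
    (hsmul : ∀ (c : ℝ) f, P f → P (c • f)) (hvac : P (vac n))
    (hcr : ∀ a f, P f → P (cr a f)) (f : Fk n) : P f := by
  have hs : ∀ s : Finset (Fin n), P (EuclideanSpace.single s (1 : ℝ) : Fk n) := by
    intro s
    induction s using Finset.induction_on with
    | empty => exact hvac
    | insert a s ha ih =>
      rw [Rot2_single ha]
      exact hsmul _ _ (hcr a _ ih)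
  have hf : f = ∑ s, f s • (EuclideanSpace.single s (1 : ℝ) : Fk n) := by
    ext t
    have e : (∑ s, f s • (EuclideanSpace.single s (1 : ℝ) : Fk n)) t =
        ∑ s, f s * (if t = s then 1 else 0) := by
      simp [Pi.single_apply]
    rw [e]
    simp
  rw [hf]
  refine Finset.sum_induction _ P hadd h0 fun s _ => hsmul _ _ (hs s)

private theorem Rot2_vac (v : Fin n → Fin n → ℝ) : Tv v (vac n) = vac n := by
  have e : Tv v (vac n) = ∑ s, vac n s • fr v s := rfl
  have e2 : ∀ s : Finset (Fin n), vac n s = if s = ∅ then 1 else 0 := fun s => by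
    unfold vac
    rw [PiLp.single_apply]
  rw [e, Finset.sum_eq_single ∅]
  · rw [e2, if_pos rfl, one_smul]
    unfold fr
    rw [Finset.sort_empty]
    rfl
  · intro s _ hs
    rw [e2, if_neg hs, zero_smul]
  · intro h
    exact absurd (Finset.mem_univ _) h

private theorem Rot2_deg_vac : Deg 0 (vac n) := by
  intro s hs
  unfold vac
  rw [PiLp.single_apply, if_neg]
  rintro rfl
  exact hs Finset.card_empty

private theorem Rot2_anv_vac (u : Fin n → ℝ) : anv u (vac n) = 0 := by
  rw [anv_apply]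
  refine Finset.sum_eq_zero fun a _ => ?_
  rw [Rot2_deg_vac.an_zero, smul_zero]

theorem T_an {v : Fin n → Fin n → ℝ} (hv : ∀ i j, ∑ a, v i a * v j a = if i = j then 1 else 0)
    (i : Fin n) (f : Fk n) : Tv v (an i f) = anv (v i) (Tv v f) := by
  refine Rot2_ind (P := fun f => Tv v (an i f) = anv (v i) (Tv v f)) ?_ ?_ ?_ ?_ ?_ f
  · simp only [map_zero]
  · intro f g hf hg
    simp only [map_add, hf, hg]
  · intro c f hf
    simp only [map_smul, hf]
  · rw [Rot2_deg_vac.an_zero, Rot2_vac, Rot2_anv_vac, map_zero]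
  · intro a f hf
    rw [an_cr, map_sub, T_cr, T_cr, hf, anv_crv, hv]
    split_ifs
    · rw [one_smul]
    · rw [zero_smul, map_zero]

private theorem Rot2_inner {v : Fin n → Fin n → ℝ}
    (hv : ∀ i j, ∑ a, v i a * v j a = if i = j then 1 else 0) (f : Fk n) :
    ∀ g : Fk n, inner ℝ (Tv v f) (Tv v g) = inner ℝ f g := by
  refine Rot2_ind (P := fun f => ∀ g : Fk n, inner ℝ (Tv v f) (Tv v g) = inner ℝ f g)
    ?_ ?_ ?_ ?_ ?_ f
  · intro g
    rw [map_zero, inner_zero_left, inner_zero_left]
  · intro f f' hf hf' g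
    rw [map_add, inner_add_left, inner_add_left, hf, hf']
  · intro c f hf g
    rw [map_smul, real_inner_smul_left, real_inner_smul_left, hf]
  · intro g
    refine Rot2_ind (P := fun g => inner ℝ (Tv v (vac n)) (Tv v g) = inner ℝ (vac n) g)
      ?_ ?_ ?_ ?_ ?_ g
    · rw [map_zero, inner_zero_right, inner_zero_right]
    · intro g g' hg hg'
      rw [map_add, inner_add_right, inner_add_right, hg, hg']
    · intro c g hg
      rw [map_smul, real_inner_smul_right, real_inner_smul_right, hg]
    · rw [Rot2_vac]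
    · intro a g _
      rw [T_cr, Rot2_vac, ← inner_anv, Rot2_anv_vac, ← inner_an, Rot2_deg_vac.an_zero,
        inner_zero_left, inner_zero_left]
  · intro a f hf g
    rw [T_cr, real_inner_comm, ← inner_anv, ← T_an hv, real_inner_comm, hf, inner_cr]

theorem T_norm {v : Fin n → Fin n → ℝ} (hv : ∀ i j, ∑ a, v i a * v j a = if i = j then 1 else 0)
    (f : Fk n) : ‖Tv v f‖ = ‖f‖ := by
  have h := Rot2_inner hv f f
  rw [real_inner_self_eq_norm_sq, real_inner_self_eq_norm_sq] at h
  exact (pow_left_inj₀ (norm_nonneg _) (norm_nonneg _) two_ne_zero).1 h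

private theorem Rot2_deg_sum {ι : Type} (S : Finset ι) {q : ℕ} (F : ι → Fk n)
    (h : ∀ i ∈ S, Deg q (F i)) : Deg q (∑ i ∈ S, F i) := by
  refine Finset.sum_induction F (Deg q) ?_ ?_ h
  · intro f g hf hg s hs
    rw [PiLp.add_apply, hf s hs, hg s hs, add_zero]
  · intro s _
    rfl

private theorem Rot2_deg_smul {q : ℕ} (c : ℝ) {f : Fk n} (h : Deg q f) : Deg q (c • f) := by
  intro s hs
  rw [PiLp.smul_apply, h s hs, smul_zero]

private theorem Rot2_deg_crv {q : ℕ} (u : Fin n → ℝ) {f : Fk n} (h : Deg q f) :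
    Deg (q + 1) (crv u f) := by
  rw [crv_apply]
  exact Rot2_deg_sum _ _ fun a _ => Rot2_deg_smul _ (h.cr a)

private theorem Rot2_deg_list (v : Fin n → Fin n → ℝ) (l : List (Fin n)) :
    Deg l.length ((l.map fun i => (crv (v i) : Fk n →ₗ[ℝ] Fk n)).foldr (fun A x => A x)
      (vac n)) := by
  induction l with
  | nil => exact Rot2_deg_vac
  | cons a l ih =>
    rw [List.map_cons, List.foldr_cons, List.length_cons]
    exact Rot2_deg_crv _ ih

theorem T_deg (v : Fin n → Fin n → ℝ) {q : ℕ} {f : Fk n} (h : Deg q f) : Deg q (Tv v f) := by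
  have e : Tv v f = ∑ s, f s • fr v s := rfl
  rw [e]
  refine Rot2_deg_sum _ _ fun s _ => ?_
  by_cases hs : s.card = q
  · apply Rot2_deg_smul
    have h1 := Rot2_deg_list v (s.sort (· ≤ ·))
    rw [Finset.length_sort, hs] at h1
    exact h1
  · rw [h s hs, zero_smul]
    intro t _
    rfl

/-- change of frame: `ρ` is equivariant -/
theorem exists_rot {O : Mat n} (hO : O.transpose * O = 1) :
    ∃ U : Fk n →ₗ[ℝ] Fk n, (∀ f, ‖U f‖ = ‖f‖) ∧ (∀ q f, Deg q f → Deg q (U f)) ∧
      ∀ (M : Mat n) (f : Fk n), U (rho M f) = rho (O * M * O.transpose) (U f) := by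
  set v : Fin n → Fin n → ℝ := fun i a => O a i with hv
  have hort : ∀ i j, ∑ a, v i a * v j a = if i = j then 1 else 0 := by
    intro i j
    have h := congrFun (congrFun hO i) j
    rw [Matrix.mul_apply, Matrix.one_apply] at h
    exact h
  refine ⟨Tv v, T_norm hort, fun q f h => T_deg v h, fun M f => ?_⟩
  have e1 : Tv v (rho M f) =
      ∑ a, ∑ b, ∑ c, ∑ d, (O c a * M a b * O d b) • cr c (an d (Tv v f)) := by
    rw [rho_apply, map_sum]
    refine Finset.sum_congr rfl fun a _ => ?_
    rw [map_sum]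
    refine Finset.sum_congr rfl fun b _ => ?_
    rw [map_smul, T_cr, T_an hort, crv_apply, Finset.smul_sum]
    refine Finset.sum_congr rfl fun c _ => ?_
    rw [anv_apply, map_sum, Finset.smul_sum, Finset.smul_sum]
    refine Finset.sum_congr rfl fun d _ => ?_
    rw [map_smul, smul_smul, smul_smul]
    congr 1
    simp only [hv]
    ring
  have e2 : rho (O * M * O.transpose) (Tv v f) =
      ∑ c, ∑ d, ∑ b, ∑ a, (O c a * M a b * O d b) • cr c (an d (Tv v f)) := by
    rw [rho_apply]
    refine Finset.sum_congr rfl fun c _ => Finset.sum_congr rfl fun d _ => ?_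
    rw [Matrix.mul_apply, Finset.sum_smul]
    refine Finset.sum_congr rfl fun b _ => ?_
    rw [Matrix.mul_apply, Finset.sum_mul, Finset.sum_smul]
    refine Finset.sum_congr rfl fun a _ => ?_
    rw [Matrix.transpose_apply]
  rw [e1, e2]
  calc ∑ a, ∑ b, ∑ c, ∑ d, (O c a * M a b * O d b) • cr c (an d (Tv v f))
      = ∑ a, ∑ c, ∑ b, ∑ d, (O c a * M a b * O d b) • cr c (an d (Tv v f)) :=
        Finset.sum_congr rfl fun a _ => Finset.sum_comm
    _ = ∑ c, ∑ a, ∑ b, ∑ d, (O c a * M a b * O d b) • cr c (an d (Tv v f)) :=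
        Finset.sum_comm
    _ = ∑ c, ∑ a, ∑ d, ∑ b, (O c a * M a b * O d b) • cr c (an d (Tv v f)) :=
        Finset.sum_congr rfl fun c _ => Finset.sum_congr rfl fun a _ => Finset.sum_comm
    _ = ∑ c, ∑ d, ∑ a, ∑ b, (O c a * M a b * O d b) • cr c (an d (Tv v f)) :=
        Finset.sum_congr rfl fun c _ => Finset.sum_comm
    _ = ∑ c, ∑ d, ∑ b, ∑ a, (O c a * M a b * O d b) • cr c (an d (Tv v f)) :=
        Finset.sum_congr rfl fun c _ => Finset.sum_congr rfl fun d _ => Finset.sum_comm

end HopfQ5
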